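import Mathlib
import Pool.Agent.Work.MP_787500_nt.OV.Defs
import Pool.Agent.Work.MP_787500_nt.QX.LDefs
import Pool.Agent.Work.MP_787500_nt.SF.FDefs

/-!
Parity of Selmer groups with arbitrary self-dual conditions at the primes above 2, for representations that are
ordinary at 2, over a finite extension of an imaginary quadratic field: definitions used in the statement of the
theorem. The other definitions are in `PA/ParityDefs.lean`, `GP/FinDefs.lean`, `QG/FDefs.lean`, `QX/FDefs.lean`
(`fixedModulo`), `QX/LDefs.lean` (`greenbergAt`), `OV/Defs.lean` (`annih`), `ER/FDefs.lean`, `RB/FDefs.lean`,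
`SH/FDefs.lean`, `SH/RDefs.lean` (`IsReps`, `condR`), `SF/FDefs.lean` (`IsDualF`, `condF`, `cycloAut`).
-/

set_option autoImplicit false

namespace Pool.Agent.Work.MP_787500_nt.UV

open Matrix

section group

variable {G : Type*} [Group G] [TopologicalSpace G] {E : Type*} [NormedField E] {n : ℕ}

/-- the continuous cocycles of `G` that are coboundaries on the subgroups in `N` and whose restriction to `D i` is in
`L i`, for all `i` -/
def selmerFam (N : Set (Subgroup G)) (ρ : G →* Matrix (Fin n) (Fin n) E) {Φ : Type*} (D : Φ → Subgroup G)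
    (L : ∀ i, Submodule E (D i → Fin n → E)) : Submodule E (G → Fin n → E) where
  carrier := {x | Parity.IsCocycle ρ x ∧ (∀ I ∈ N, ∃ v, ∀ σ ∈ I, x σ = ρ σ *ᵥ v - v) ∧
    ∀ i, (fun σ : D i => x σ) ∈ L i}
  add_mem' := by
    rintro x y ⟨h1, h2, h3⟩ ⟨k1, k2, k3⟩
    refine ⟨h1.add k1, fun I hI => ?_, fun i => (L i).add_mem (h3 i) (k3 i)⟩
    obtain ⟨v, hv⟩ := h2 I hI
    obtain ⟨w, hw⟩ := k2 I hI
    refine ⟨v + w, fun σ hσ => ?_⟩
    rw [Pi.add_apply, hv σ hσ, hw σ hσ, mulVec_add]
    abel
  zero_mem' := ⟨Parity.IsCocycle.zero _, fun I _ => ⟨0, fun σ _ => by simp⟩, fun i => (L i).zero_mem⟩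
  smul_mem' := by
    rintro a x ⟨h1, h2, h3⟩
    refine ⟨h1.smul a, fun I hI => ?_, fun i => (L i).smul_mem a (h3 i)⟩
    obtain ⟨v, hv⟩ := h2 I hI
    refine ⟨a • v, fun σ hσ => ?_⟩
    rw [Pi.smul_apply, hv σ hσ, mulVec_smul, smul_sub]

/-- The spaces `W i` are stable under `D i`, and the matrix `ρ h` maps the annihilator of `W i` onto `W j` whenever
`rel i j h`. -/
structure IsDualSub (ρ : G →* Matrix (Fin n) (Fin n) E) (b : Matrix (Fin n) (Fin n) E) {Φ : Type*}
    (D : Φ → Subgroup G) (rel : Φ → Φ → G → Prop) (W : Φ → Submodule E (Fin n → E)) : Prop where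
  stable : ∀ i, ∀ σ ∈ D i, ∀ x ∈ W i, ρ σ *ᵥ x ∈ W i
  dual : ∀ i j h, rel i j h → ∀ y, y ∈ Parity.annih b (W i) ↔ ρ h *ᵥ y ∈ W j

/-- The spaces `L i` lie between the coboundaries and the continuous cocycles of `D i`, and whenever `rel i j h`: a
continuous cocycle `y` of `D j` is in `L j` if and only if the cocycle `σ ↦ ρ(h)⁻¹ y (h κ(σ) h⁻¹)` of `D i` is
orthogonal to `L i` under the cup product given by `b`. -/
structure IsDualFam (χ : G → E) (κ : G → G) (ρ : G →* Matrix (Fin n) (Fin n) E)
    (b : Matrix (Fin n) (Fin n) E) {Φ : Type*} (D : Φ → Subgroup G) (rel : Φ → Φ → G → Prop)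
    (L : ∀ i, Submodule E (D i → Fin n → E)) : Prop where
  between : ∀ i, Parity.Between (Parity.coboundaries (fun σ : D i => ρ σ)) (L i)
    (Parity.cocycles (fun σ : D i => ρ σ))
  dual : ∀ i j h, rel i j h → ∀ k : D i → D j, (∀ σ : D i, (k σ : G) = h * κ σ * h⁻¹) →
    ∀ y ∈ Parity.cocycles (fun σ : D j => ρ σ), y ∈ L j ↔
      Parity.IsPerp (fun σ : D i => χ σ) (fun σ : D i => ρ (κ σ)) b (L i : Set (D i → Fin n → E))
        (fun σ => ρ h⁻¹ *ᵥ y (k σ))

/-- The family of Greenberg's conditions given by the spaces `W i` is a family as in `IsDualFam`, and for every family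
`L` as in `IsDualFam`: the spaces `L i` and the Selmer space are finite dimensional, the Selmer space contains the
coboundaries, and its dimension modulo the coboundaries plus the dimension of the space of vectors fixed by `G` is
congruent modulo 2 to `a` plus the sum over `i` of `f i` times the dimension of `W i`, the dimension of the space of
vectors of the quotient by `W i` fixed by `D i`, and the codimension in `L i` of the cocycles in `L i` that satisfy
Greenberg's condition. -/
def ParityDual (N : Set (Subgroup G)) (χ : G → E) (κ : G → G) (ρ : G →* Matrix (Fin n) (Fin n) E)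
    (b : Matrix (Fin n) (Fin n) E) {Φ : Type*} [Fintype Φ] (D : Φ → Subgroup G)
    (rel : Φ → Φ → G → Prop) (W : Φ → Submodule E (Fin n → E)) (f : Φ → ℕ) (a : ℕ) : Prop :=
  IsDualFam χ κ ρ b D rel (fun i => Parity.greenbergAt ρ (D i) (W i)) ∧
  ∀ L : ∀ i, Submodule E (D i → Fin n → E), IsDualFam χ κ ρ b D rel L →
    (∀ i, FiniteDimensional E (L i)) ∧ FiniteDimensional E (selmerFam N ρ D L) ∧
    Parity.coboundaries ρ ≤ selmerFam N ρ D L ∧
    Parity.dimModulo (selmerFam N ρ D L) (Parity.coboundaries ρ) +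
        Module.finrank E (Parity.fixedBy (fun σ : G => ρ σ)) ≡
      ∑ i, (f i * Module.finrank E (W i) +
          Parity.dimModulo (Parity.fixedModulo (fun σ : D i => ρ σ) (W i)) (W i) +
          Parity.dimModulo (L i) (L i ⊓ Parity.greenbergAt ρ (D i) (W i))) + a [MOD 2]

end group

end Pool.Agent.Work.MP_787500_nt.UV
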