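import Mathlib
import Pool.Agent.Work.MP_787500_nt.UV.FDefs
import Pool.Agent.Work.MP_787500_nt.SF.Defs
import Pool.Agent.Work.MP_787500_nt.SG.Defs
import Pool.Agent.Work.MP_787500_nt.QX.Two
import Pool.Agent.Work.MP_787500_nt.RB.FDefs

/-!
# Block UV (definitions, fixed, do not change)

`perpAt L`: the cocycles orthogonal to `L`. `FormK`, `FormB`: the parity formula over `K` and over `H` for the primes
over one prime of `K`. `DatK`: the arithmetic data over `K`.
-/

set_option autoImplicit false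
set_option linter.unusedSectionVars false

namespace Pool.Agent.Work.MP_787500_nt.UV

open Matrix NumberField

section perp

variable {D : Type*} [Group D] [TopologicalSpace D] {E : Type*} [NormedField E] {n : ℕ}

/-- the annihilator of `L`: the space of the continuous cocycles `y` for the action by `B` that are orthogonal to `L` -/
def perpAt (χ : D → E) (B : D → Matrix (Fin n) (Fin n) E) (b : Matrix (Fin n) (Fin n) E)
    (L : Submodule E (D → Fin n → E)) : Submodule E (D → Fin n → E) where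
  carrier := {y | Parity.IsPerp χ B b (L : Set (D → Fin n → E)) y}
  add_mem' := fun hy hz => Parity.IsPerp.add hy hz
  zero_mem' := Parity.IsPerp.zero χ B b (L : Set (D → Fin n → E))
  smul_mem' := fun a _ hy => Parity.IsPerp.smul a hy

theorem mem_perpAt {χ : D → E} {B : D → Matrix (Fin n) (Fin n) E} {b : Matrix (Fin n) (Fin n) E}
    {L : Submodule E (D → Fin n → E)} {y : D → Fin n → E} :
    y ∈ perpAt χ B b L ↔ Parity.IsPerp χ B b (L : Set (D → Fin n → E)) y := Iff.rfl

end perp

section form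

variable {G : Type*} [Group G] [TopologicalSpace G] {E : Type*} [NormedField E] {n : ℕ}

open scoped Classical in
/-- the formula for one subgroup `D` -/
def FormK (N : Set (Subgroup G)) (χ : G → E) (κ : G →* G) (ρ : G →* Matrix (Fin n) (Fin n) E)
    (b : Matrix (Fin n) (Fin n) E) (D : Subgroup G) (W : Submodule E (Fin n → E)) (s : Prop) (a : ℕ)
    (L : Submodule E (D → Fin n → E)) : Prop :=
  FiniteDimensional E L ∧ FiniteDimensional E (Parity.selmerBK N χ κ ρ b D L) ∧
    Parity.coboundaries ρ ≤ Parity.selmerBK N χ κ ρ b D L ∧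
    Parity.dimModulo (Parity.selmerBK N χ κ ρ b D L) (Parity.coboundaries ρ) +
        Module.finrank E (Parity.fixedBy (fun σ : G => ρ σ)) ≡
      Module.finrank E W + Parity.dimModulo (Parity.fixedModulo (fun σ : D => ρ σ) W) W +
        Parity.dimModulo L (L ⊓ Parity.greenbergAt ρ D W) +
        (if s then Parity.dimModulo (Parity.fixedModulo (fun σ : D => ρ (κ σ)) (Parity.annih b W))
            (Parity.annih b W) +
          Parity.dimModulo (perpAt (fun σ : D => χ σ) (fun σ : D => ρ (κ σ)) b L)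
            (perpAt (fun σ : D => χ σ) (fun σ : D => ρ (κ σ)) b L ⊓
              Parity.greenbergAt (ρ.comp κ) D (Parity.annih b W)) else 0) + a [MOD 2]

open scoped Classical in
/-- the formula for a family of subgroups `D i` -/
def FormB (N : Set (Subgroup G)) (χ : G → E) (κ : G →* G) (ρ : G →* Matrix (Fin n) (Fin n) E)
    (b : Matrix (Fin n) (Fin n) E) {Φ : Type*} [Fintype Φ] (D : Φ → Subgroup G)
    (W : Φ → Submodule E (Fin n → E)) (f : Φ → ℕ) (s : Prop) (a : ℕ)
    (L : ∀ i, Submodule E (D i → Fin n → E)) : Prop :=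
  (∀ i, FiniteDimensional E (L i)) ∧ FiniteDimensional E (SH.selFam N χ κ ρ b D L) ∧
    Parity.coboundaries ρ ≤ SH.selFam N χ κ ρ b D L ∧
    Parity.dimModulo (SH.selFam N χ κ ρ b D L) (Parity.coboundaries ρ) +
        Module.finrank E (Parity.fixedBy (fun σ : G => ρ σ)) ≡
      ∑ i, (f i * Module.finrank E (W i) +
        Parity.dimModulo (Parity.fixedModulo (fun σ : D i => ρ σ) (W i)) (W i) +
        Parity.dimModulo (L i) (L i ⊓ Parity.greenbergAt ρ (D i) (W i)) +
        if s then Parity.dimModulo (Parity.fixedModulo (fun σ : D i => ρ (κ σ))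
            (Parity.annih b (W i))) (Parity.annih b (W i)) +
          Parity.dimModulo (perpAt (fun σ : D i => χ σ) (fun σ : D i => ρ (κ σ)) b (L i))
            (perpAt (fun σ : D i => χ σ) (fun σ : D i => ρ (κ σ)) b (L i) ⊓
              Parity.greenbergAt (ρ.comp κ) (D i) (Parity.annih b (W i))) else 0) + a [MOD 2]

end form

section datK

variable {K : Type*} [Field K] [NumberField K]

open scoped Classical in
/-- the number given by the odd primes -/
noncomputable def numT (D : ℕ) (T : Finset ℕ) (Q : ℕ → Ideal (𝓞 (AlgebraicClosure K))) {E : Type*}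
    [NormedField E] {n : ℕ} (ρ : AbsGal K →* Matrix (Fin n) (Fin n) E) : ℕ :=
  ∑ l ∈ T.filter (GA.Inr D), Parity.condExp ((Q l).inertia (AbsGal K)) ρ +
    ∑ l ∈ T.filter (fun l => l ∣ D), Parity.quotDim (GP.stabD (Q l)) ((Q l).inertia (AbsGal K)) ρ

/-- the arithmetic data over `K` -/
structure DatK (D : ℕ) (s : K) (c : AlgebraicClosure K ≃+* AlgebraicClosure K)
    (κ : AbsGal K →* AbsGal K) (T : Finset ℕ) (Q : ℕ → Ideal (𝓞 (AlgebraicClosure K)))
    {E : Type*} [NormedField E] [NormedAlgebra ℚ_[2] E] {n : ℕ}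
    (ρ : AbsGal K →* Matrix (Fin n) (Fin n) E) (b : Matrix (Fin n) (Fin n) E) : Prop where
  isI : QX.IsI K D s
  conj : PA.IsConj s c
  kap : ∀ (σ : AbsGal K) (x : AlgebraicClosure K), κ σ x = c (σ (c x))
  prime : ∀ l ∈ T, l.Prime ∧ l ≠ 2
  above : ∀ l ∈ T, (Q l).IsPrime ∧ (l : 𝓞 (AlgebraicClosure K)) ∈ Q l
  det : b.det ≠ 0
  rep : Parity.IsDualRep (GP.inT K T) (Parity.cyclo E) κ ρ b
  res : Parity.ResSelfDual ρ
  inr : ∀ l ∈ T, GA.Inr D l → Parity.CommOn ((Q l).inertia (AbsGal K)) ρ ∨ n = 2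
  ram : ∀ l ∈ T, l ∣ D → Parity.SemistableOn ((Q l).inertia (AbsGal K)) ρ

/-- the primes `P` and `P'` are exchanged by `c`, and the subspace `W` is stable under the decomposition group of `P`
and its own annihilator if the two primes are conjugate over `K` -/
structure SubK (c : AlgebraicClosure K ≃+* AlgebraicClosure K)
    (P P' : Ideal (𝓞 (AlgebraicClosure K))) {E : Type*} [NormedField E] {n : ℕ}
    (ρ : AbsGal K →* Matrix (Fin n) (Fin n) E) (b : Matrix (Fin n) (Fin n) E)
    (W : Submodule E (Fin n → E)) : Prop where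
  prime : P.IsPrime
  two : (2 : 𝓞 (AlgebraicClosure K)) ∈ P
  swap : ∀ x y : 𝓞 (AlgebraicClosure K), (y : AlgebraicClosure K) = c x → (y ∈ P' ↔ x ∈ P)
  st : ∀ σ ∈ GP.stabD P, ∀ x ∈ W, ρ σ *ᵥ x ∈ W
  ann : ∀ g : AbsGal K, (∀ x : 𝓞 (AlgebraicClosure K), x ∈ P' ↔ g • x ∈ P) →
    ∀ y, y ∈ Parity.annih b W ↔ ρ g *ᵥ y ∈ W

/-- the condition `L` at `P`: its own annihilator if `P` and `P'` are conjugate over `K` -/
structure CondK (κ : AbsGal K →* AbsGal K) (P P' : Ideal (𝓞 (AlgebraicClosure K))) {E : Type*}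
    [NormedField E] [NormedAlgebra ℚ_[2] E] {n : ℕ} (ρ : AbsGal K →* Matrix (Fin n) (Fin n) E)
    (b : Matrix (Fin n) (Fin n) E) (L : Submodule E (GP.stabD (K := K) P → Fin n → E)) : Prop where
  between : Parity.Between (Parity.coboundaries (fun σ : GP.stabD (K := K) P => ρ σ)) L
    (Parity.cocycles (fun σ : GP.stabD (K := K) P => ρ σ))
  perp : ∀ g : AbsGal K, (∀ x : 𝓞 (AlgebraicClosure K), x ∈ P' ↔ g • x ∈ P) →
    ∀ k : GP.stabD (K := K) P → GP.stabD (K := K) P, (∀ a, (k a : AbsGal K) = g * κ a * g⁻¹) →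
      ∀ y ∈ Parity.cocycles (fun σ : GP.stabD (K := K) P => ρ σ), y ∈ L ↔
        Parity.IsPerp (fun σ : GP.stabD (K := K) P => Parity.cyclo E (σ : AbsGal K))
          (fun σ : GP.stabD (K := K) P => ρ (κ σ)) b (L : Set (GP.stabD (K := K) P → Fin n → E))
          (fun σ => ρ g⁻¹ *ᵥ y (k σ))

end datK

end Pool.Agent.Work.MP_787500_nt.UV
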