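import Mathlib
import Pool.Agent.Work.MP_787500_nt.SF.MainT

/-!
# UV/KeyB: the Selmer space of the induced representation

`key_B`, `perp_cobR`, `perp_iff`, `cob_coc`, `basis_sub`, `pro_one`: public copies of private lemmas of SF/MainT.lean.
-/

set_option autoImplicit false
set_option linter.unusedSectionVars false

namespace Pool.Agent.Work.MP_787500_nt.UV

open Matrix NumberField
open Pool.Agent.Work.MP_787500_nt.SH
open Pool.Agent.Work.MP_787500_nt.SF

section aux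

variable {G : Type*} [Group G] [TopologicalSpace G] {E : Type*} [NormedField E] {n : ℕ}
  {χ : G → E} {A B : G → Matrix (Fin n) (Fin n) E} {b : Matrix (Fin n) (Fin n) E}

private theorem dual_apply {c : E} {A B b : Matrix (Fin n) (Fin n) E} (h : Aᵀ * b * B = c • b)
    (u v : Fin n → E) : (A *ᵥ u) ⬝ᵥ (b *ᵥ (B *ᵥ v)) = c * (u ⬝ᵥ (b *ᵥ v)) := by
  have h2 : (A *ᵥ u) ⬝ᵥ (b *ᵥ (B *ᵥ v)) = u ⬝ᵥ ((Aᵀ * b * B) *ᵥ v) := by
    rw [← mulVec_mulVec, ← mulVec_mulVec, Matrix.dotProduct_mulVec u Aᵀ,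
      Matrix.vecMul_transpose]
  rw [h2, h, smul_mulVec, dotProduct_smul, smul_eq_mul]

theorem cob_coc (hB : ∀ s t, B (s * t) = B s * B t) (hBc : Continuous B) :
    Parity.coboundaries B ≤ Parity.cocycles B := by
  rintro y ⟨w, hw⟩
  have hyw : y = fun σ => B σ *ᵥ w - w := funext hw
  refine ⟨?_, fun s t => ?_⟩
  · rw [hyw]
    exact (hBc.matrix_mulVec continuous_const).sub continuous_const
  · rw [hw, hw, hw, hB, ← mulVec_mulVec, mulVec_sub]
    abel

theorem perp_cobR (hB : ∀ s t, B (s * t) = B s * B t) (hBc : Continuous B)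
    (hdual : ∀ σ, (A σ)ᵀ * b * B σ = χ σ • b) {L : Submodule E (G → Fin n → E)}
    (hL : L ≤ Parity.cocycles A) {y : G → Fin n → E} (hy : y ∈ Parity.coboundaries B) :
    Parity.IsPerp χ B b (L : Set (G → Fin n → E)) y := by
  have hyc : Parity.IsCocycle B y := cob_coc hB hBc hy
  obtain ⟨w, hw⟩ := hy
  refine ⟨hyc, fun x hx => ?_⟩
  have hx' : Parity.IsCocycle A x := hL hx
  refine ⟨fun σ => -(x σ ⬝ᵥ (b *ᵥ (B σ *ᵥ w))), ?_, fun s t => ?_⟩
  · exact (Continuous.dotProduct hx'.1 (Continuous.matrix_mulVec continuous_const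
      (hBc.matrix_mulVec continuous_const))).neg
  · show x s ⬝ᵥ (b *ᵥ (B s *ᵥ y t)) = -(x s ⬝ᵥ (b *ᵥ (B s *ᵥ w))) +
      χ s * -(x t ⬝ᵥ (b *ᵥ (B t *ᵥ w))) - -(x (s * t) ⬝ᵥ (b *ᵥ (B (s * t) *ᵥ w)))
    rw [hx'.2, hB, ← mulVec_mulVec, add_dotProduct, dual_apply (hdual s), hw, mulVec_sub,
      mulVec_sub, dotProduct_sub]
    ring

theorem perp_iff {L : Set (G → Fin n → E)} {y c : G → Fin n → E}
    (hc : Parity.IsPerp χ B b L c) :
    Parity.IsPerp χ B b L (y + c) ↔ Parity.IsPerp χ B b L y := by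
  constructor
  · intro h
    have h1 := h.add (hc.smul (-1))
    have h2 : y + c + (-1 : E) • c = y := by rw [neg_smul, one_smul, add_neg_cancel_right]
    rwa [h2] at h1
  · intro h
    exact h.add hc

theorem basis_sub
    (hG : ∀ O ∈ nhds (1 : G), ∃ U : Subgroup G, IsOpen (U : Set G) ∧ (U : Set G) ⊆ O)
    (C : Subgroup G) :
    ∀ O ∈ nhds (1 : C), ∃ U : Subgroup C, IsOpen (U : Set C) ∧ (U : Set C) ⊆ O := by
  intro O hO
  rw [nhds_subtype_eq_comap] at hO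
  obtain ⟨O', hO', h5⟩ := Filter.mem_comap.1 hO
  obtain ⟨U, hU, h6⟩ := hG O' hO'
  exact ⟨U.subgroupOf C, hU.preimage continuous_subtype_val, fun x hx => h5 (h6 hx)⟩

end aux

section key

variable {G : Type*} [Group G] [TopologicalSpace G] [IsTopologicalGroup G] {H : Subgroup G}
  [Fintype (G ⧸ H)] {E : Type*} [NormedField E] {n m : ℕ}
  {τ : H →* Matrix (Fin n) (Fin n) E} {R : G →* Matrix (Fin m) (Fin m) E}
  {V : (Fin m → E) →ₗ[E] (G → Fin n → E)} {χ : G → E} {b : Matrix (Fin n) (Fin n) E}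
  {bW : Matrix (Fin m) (Fin m) E} {κ : G →* G} {g₀ : G} {kk : H →* H}

private theorem tau_one (hI : IsInd τ R V) (h : H) (f : Fin m → E) :
    V (R h *ᵥ f) 1 = τ h *ᵥ V f 1 := by
  rw [hI.act]
  have h1 : ((h : G))⁻¹ * 1 = 1 * ((h⁻¹ : H) : G) := by simp
  rw [h1, hI.mul_right, inv_inv]

theorem pro_one (hI : IsInd τ R V) {h : H}
    (hR : Filter.Tendsto (fun k : ℕ => R ((h : G) ^ 2 ^ k)) Filter.atTop (nhds 1)) :
    Filter.Tendsto (fun k : ℕ => τ (h ^ 2 ^ k)) Filter.atTop (nhds 1) := by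
  have h1 : ∀ v : Fin n → E,
      Filter.Tendsto (fun k : ℕ => τ (h ^ 2 ^ k) *ᵥ v) Filter.atTop (nhds v) := by
    intro v
    obtain ⟨f, hf, -⟩ := hI.single 1 v
    have h2 : Continuous fun M : Matrix (Fin m) (Fin m) E => V (M *ᵥ f) 1 := by
      have h3 : Continuous fun M : Matrix (Fin m) (Fin m) E => M *ᵥ f :=
        Continuous.matrix_mulVec continuous_id continuous_const
      exact (continuous_apply (1 : G)).comp (hI.emb.continuous.comp h3)
    have h4 := (h2.tendsto 1).comp hR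
    have h5 : V ((1 : Matrix (Fin m) (Fin m) E) *ᵥ f) 1 = v := by rw [one_mulVec, hf]
    rw [h5] at h4
    refine h4.congr fun k => ?_
    have h6 := tau_one hI (h ^ 2 ^ k) f
    rw [hf] at h6
    exact h6
  refine tendsto_pi_nhds.2 fun i => tendsto_pi_nhds.2 fun j => ?_
  have h2 := ((continuous_apply i).tendsto _).comp (h1 (Pi.single j 1))
  have h3 : (Pi.single j (1 : E) : Fin n → E) i = (1 : Matrix (Fin n) (Fin n) E) i j := by
    rw [Pi.single_apply, Matrix.one_apply]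
  rw [h3] at h2
  refine h2.congr fun k => ?_
  show (τ (h ^ 2 ^ k) *ᵥ Pi.single j 1) i = τ (h ^ 2 ^ k) i j
  rw [Matrix.mulVec_single_one]
  rfl

private theorem tw_val (hI : IsInd τ R V) (tw : Tw H κ g₀ kk) {y : G → Fin m → E}
    (hy : ∀ s t, y (s * t) = y s + R s *ᵥ y t) (σ : H) :
    valT κ g₀ V (y (κ (σ : G))) 1 = V (y ((kk σ : H) : G)) 1 +
      (τ (kk σ) *ᵥ V (y g₀) 1 - V (y g₀) 1) := by
  have h1 : y 1 = 0 := by
    have h2 := hy 1 1
    rw [mul_one, map_one, one_mulVec] at h2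
    exact (left_eq_add.1 h2)
  have h2 : V (y g₀⁻¹) g₀⁻¹ = - V (y g₀) 1 := by
    have h3 := hy g₀ g₀⁻¹
    rw [mul_inv_cancel, h1] at h3
    have h4 := hI.act g₀ (y g₀⁻¹) 1
    rw [mul_one] at h4
    rw [← h4, eq_neg_of_add_eq_zero_right h3.symm, map_neg]
    rfl
  have h3 : y ((kk σ : H) : G) = y g₀ + R g₀ *ᵥ y (κ (σ : G)) + R (g₀ * κ (σ : G)) *ᵥ y g₀⁻¹ := by
    rw [tw.coe, hy, hy]
  have h4 : V (R (g₀ * κ (σ : G)) *ᵥ y g₀⁻¹) 1 = - (τ (kk σ) *ᵥ V (y g₀) 1) := by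
    rw [hI.act]
    have h5 : (g₀ * κ (σ : G))⁻¹ * 1 = g₀⁻¹ * (((kk σ)⁻¹ : H) : G) := by
      rw [Subgroup.coe_inv, tw.coe]
      group
    rw [h5, hI.mul_right, inv_inv, h2, mulVec_neg]
  have h6 : V (R g₀ *ᵥ y (κ (σ : G))) 1 = V (y (κ (σ : G))) g₀⁻¹ := by
    rw [hI.act, mul_one]
  rw [h3, map_add, map_add, Pi.add_apply, Pi.add_apply, h4, h6, valT_apply, map_one, one_mul]
  abel

variable {A : Subgroup G} {Φ : Type*} [Fintype Φ] [DecidableEq Φ] {D : Φ → Subgroup H} {g : Φ → G}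
  {e : ∀ i, D i →* A} {t : G → A} {ix : G → Φ} {η : G → H}
  {t₀ : G → G} {ix₀ : G → Unit} {η₀ : G → H}

/-- the Selmer group of the induced representation, for the local conditions `LW` -/
theorem key_bk (hκc : Continuous κ) (tw : Tw H κ g₀ kk) (hkc : Continuous kk)
    (hI : IsInd τ R V) (hF : IndForm H χ b bW V (valT κ g₀ V))
    (hτc : Continuous τ) (hRc : Continuous R) (hχc : Continuous χ) (hχ1 : χ 1 = 1)
    (hχ : ∀ a a', χ (a * a') = χ a * χ a')
    (hdual : ∀ a, (R a)ᵀ * bW * R (κ a) = χ a • bW)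
    (hdτ : ∀ h : H, (τ h)ᵀ * b * τ (kk h) = χ h • b)
    {𝓘 : Set (Subgroup G)}
    (hconj : ∀ I ∈ 𝓘, ∀ a : G, I.comap (MulAut.conj a).toMonoidHom ∈ 𝓘)
    (hee : ∀ i (x : D i), (e i x : G) = g i * ((x : H) : G) * (g i)⁻¹)
    (d : DC A.subtype (fun i => (D i).subtype) g e t ix η)
    (dt : DCT A.subtype (fun i => (D i).subtype) e η)
    (d₀ : DC (MonoidHom.id G) (fun _ : Unit => MonoidHom.id H) (fun _ => (1 : G))
      (fun _ => H.subtype) t₀ ix₀ η₀)
    (dt₀ : DCT (MonoidHom.id G) (fun _ : Unit => MonoidHom.id H) (fun _ => H.subtype) η₀)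
    (hinj : ∀ (i : Φ) (x x' : D i → Fin n → E),
      Parity.IsCocycle (fun b => τ ((D i).subtype b)) x →
      Parity.IsCocycle (fun b => (τ.comp kk) ((D i).subtype b)) x' →
      BEt (fun a : A => χ (A.subtype a)) (corS χ A.subtype ix η i fun h h' =>
        zh (fun i => (D i).subtype) i x h ⬝ᵥ
          (b *ᵥ ((τ.comp kk) h *ᵥ zh (fun i => (D i).subtype) i x' h'))) →
      BEt (fun b : D i => χ ((D i).subtype b)) fun a a' =>
        x a ⬝ᵥ (b *ᵥ ((τ.comp kk) ((D i).subtype a) *ᵥ x' a')))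
    {L : ∀ i, Submodule E (D i → Fin n → E)}
    (hL : ∀ i, Parity.Between (Parity.coboundaries (fun σ : D i => τ σ)) (L i)
      (Parity.cocycles (fun σ : D i => τ σ))) :
    Parity.selmerBK 𝓘 χ κ R bW A (LW (fun a : A => R a) V g e L) =
      LW (fun a : G => R a) V (fun _ : Unit => (1 : G)) (fun _ : Unit => H.subtype)
        (fun _ : Unit => selFam {I | ∃ J ∈ 𝓘, I = J.subgroupOf H} (fun σ : H => χ σ)
          kk τ b D L) := by
  have hI' : IsInd (τ.comp kk) (R.comp κ) (valT κ g₀ V) := isInd_kap hI tw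
  have hRc' : Continuous (R.comp κ) := hRc.comp hκc
  have hcocA : ∀ {y : G → Fin m → E}, Parity.IsCocycle R y →
      Parity.IsCocycle (fun a : A => (R.comp κ) (A.subtype a)) (fun a : A => y (κ a)) := by
    intro y hy
    refine ⟨hy.1.comp (hκc.comp continuous_subtype_val), fun s t => ?_⟩
    show y (κ ((s : G) * t)) = y (κ s) + R (κ s) *ᵥ y (κ t)
    rw [map_mul, hy.2]
  have hcocG : ∀ {y : G → Fin m → E}, Parity.IsCocycle R y →
      ∀ s t, y (κ (s * t)) = y (κ s) + (R.comp κ) s *ᵥ y (κ t) := by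
    intro y hy s t
    rw [map_mul, hy.2]
    rfl
  have hloc : ∀ {y : G → Fin m → E}, Parity.IsCocycle R y → ∀ i,
      (shP V g e i (fun a : A => y a) ∈ L i ↔
      (fun σ : D i => V (y ((σ : H) : G)) 1) ∈ L i) := by
    intro y hy i
    have h1 : shP V g e i (fun a : A => y a) = (fun σ : D i => V (y ((σ : H) : G)) 1) +
        fun σ : D i => τ σ *ᵥ V (y (g i)⁻¹) 1 - V (y (g i)⁻¹) 1 := by
      funext σ
      show V (y (e i σ : G)) (g i) = _
      rw [hee]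
      exact shP_glob hI hy.2 (g i) σ
    rw [h1]
    exact (L i).add_mem_iff_left ((hL i).1 ⟨_, fun σ => rfl⟩)
  have hprp : ∀ {y : G → Fin m → E}, Parity.IsCocycle R y → ∀ i,
      (Parity.IsPerp (fun σ : D i => χ ((D i).subtype σ))
        (fun σ : D i => (τ.comp kk) ((D i).subtype σ)) b
        (L i : Set (D i → Fin n → E)) (shP (valT κ g₀ V) g e i (fun a : A => y (κ a))) ↔
      Parity.IsPerp (fun σ : D i => χ ((D i).subtype σ))
        (fun σ : D i => (τ.comp kk) ((D i).subtype σ)) b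
        (L i : Set (D i → Fin n → E)) (fun σ : D i => V (y ((kk (σ : H) : H) : G)) 1)) := by
    intro y hy i
    have h1 : shP (valT κ g₀ V) g e i (fun a : A => y (κ a)) =
        (fun σ : D i => V (y ((kk (σ : H) : H) : G)) 1) +
        fun σ : D i => (τ.comp kk) ((D i).subtype σ) *ᵥ
            (V (y g₀) 1 + valT κ g₀ V (y (κ (g i)⁻¹)) 1) -
          (V (y g₀) 1 + valT κ g₀ V (y (κ (g i)⁻¹)) 1) := by
      funext σ
      show valT κ g₀ V (y (κ (e i σ : G))) (g i) = _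
      rw [hee]
      have h2 := shP_glob hI' (y := fun a => y (κ a)) (hcocG hy) (g i) σ
      refine h2.trans ?_
      have h3 : valT κ g₀ V (y (κ ((σ : H) : G))) 1 = V (y ((kk (σ : H) : H) : G)) 1 +
          (τ (kk (σ : H)) *ᵥ V (y g₀) 1 - V (y g₀) 1) := tw_val hI tw hy.2 _
      rw [h3]
      show V (y ((kk (σ : H) : H) : G)) 1 + (τ (kk (σ : H)) *ᵥ V (y g₀) 1 - V (y g₀) 1) +
        (τ (kk (σ : H)) *ᵥ valT κ g₀ V (y (κ (g i)⁻¹)) 1 - valT κ g₀ V (y (κ (g i)⁻¹)) 1) =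
        V (y ((kk (σ : H) : H) : G)) 1 + (τ (kk (σ : H)) *ᵥ
            (V (y g₀) 1 + valT κ g₀ V (y (κ (g i)⁻¹)) 1) -
          (V (y g₀) 1 + valT κ g₀ V (y (κ (g i)⁻¹)) 1))
      rw [mulVec_add]
      abel
    have h4 : Parity.IsPerp (fun σ : D i => χ ((D i).subtype σ))
        (fun σ : D i => (τ.comp kk) ((D i).subtype σ)) b
        (L i : Set (D i → Fin n → E))
        (fun σ : D i => (τ.comp kk) ((D i).subtype σ) *ᵥ
            (V (y g₀) 1 + valT κ g₀ V (y (κ (g i)⁻¹)) 1) -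
          (V (y g₀) 1 + valT κ g₀ V (y (κ (g i)⁻¹)) 1)) := by
      refine perp_cobR (A := fun σ : D i => τ σ) (fun s t => ?_) ?_ ?_ (hL i).2
        ⟨_, fun σ => rfl⟩
      · show (τ.comp kk) ((D i).subtype (s * t)) = _
        rw [map_mul, map_mul]
      · exact (hτc.comp hkc).comp continuous_subtype_val
      · intro σ
        exact hdτ σ
    rw [h1]
    exact perp_iff h4
  ext y
  constructor
  · rintro ⟨hyc, hin, hlo, hpe⟩
    rw [mem_LW]
    refine ⟨hyc, fun _ => ?_⟩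
    refine ⟨shP_coc hI d₀ dt₀ hyc (), ?_, fun i => ⟨?_, ?_⟩⟩
    · rintro I ⟨J, hJ, rfl⟩
      obtain ⟨v, hv⟩ := (iner_iff hI hyc.2 hconj).1 hin J hJ
      exact ⟨v, fun σ hσ => hv σ hσ⟩
    · exact (hloc hyc i).1 ((mem_LW.1 hlo).2 i)
    · have h1 := shP_perp hI hI' hF hRc hRc' hχc hχ1 hχ hdual d dt hL hinj hpe i
      exact (hprp hyc i).1 h1
  · intro hy
    rw [mem_LW] at hy
    obtain ⟨hyc, hse⟩ := hy
    obtain ⟨hx, hin, hlo⟩ := hse ()
    refine ⟨hyc, ?_, ?_, ?_⟩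
    · refine (iner_iff hI hyc.2 hconj).2 fun J hJ => ?_
      obtain ⟨v, hv⟩ := hin (J.subgroupOf H) ⟨J, hJ, rfl⟩
      exact ⟨v, fun σ hσ => hv σ hσ⟩
    · refine mem_LW.2 ⟨⟨hyc.1.comp continuous_subtype_val, fun s t => hyc.2 _ _⟩, fun i => ?_⟩
      exact (hloc hyc i).2 (hlo i).1
    · refine perp_of_shP hI hI' hF hRc hRc' hχc hχ1 hχ hdual d dt hL (hcocA hyc) fun i => ?_
      exact (hprp hyc i).2 (hlo i).2

end key

end Pool.Agent.Work.MP_787500_nt.UV
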