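import Mathlib
import Pool.Agent.Work.MP_787500_nt.UV.Defs
import Pool.Agent.Work.MP_787500_nt.OV.Split

/-!
# Module UV/GrS (size S-M): Greenberg's condition at a split prime over 2

PROOF. Both statements are contained in the proof of `OV.split_ord` (OV/Split.lean). `gr_perp_S`: `hperp` there (`L` is
`greenbergAt ρ (stabD P) W`, equal to `ordW ..` by `hcoc`; and `ordW .. (ρ ∘ κ) (annS b W)` is `greenbergAt (ρ.comp κ) (stabD P) (annih b W)`
by `hcoc'`). `gr_dim_S`: `g1` (`finrank_ordV`), `GP.dimModulo_add`, `GP.finrank_cob`, `finrank_annih`, `dimModulo_eq`,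
`le_fixedModulo`, as at the end of that proof. `hfd` gives the finite dimension of `greenbergAt`.
-/

set_option autoImplicit false
set_option linter.unusedSectionVars false

namespace Pool.Agent.Work.MP_787500_nt.UV

open Matrix NumberField
open Pool.Agent.Work.MP_787500_nt.GP (A0 OE bil Lat inT stabD)
open Pool.Agent.Work.MP_787500_nt.KR (FSys LocD LocRep ZV zV fullD fullK big Opn PerpV)
open Pool.Agent.Work.MP_787500_nt.PA (toE cyc)
open Pool.Agent.Work.MP_787500_nt.HP (IsQ stb)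
open Pool.Agent.Work.MP_787500_nt.Parity

universe u v

variable {K : Type u} [Field K] [NumberField K] {D : ℕ} {s : K}
  {c : AlgebraicClosure K ≃+* AlgebraicClosure K} {κ : AbsGal K →* AbsGal K} {T : Finset ℕ}
  {P : Ideal (𝓞 (AlgebraicClosure K))}
  {E : Type v} [NormedField E] [NormedAlgebra ℚ_[2] E] [FiniteDimensional ℚ_[2] E] {n : ℕ}
  {ρ : AbsGal K →* Matrix (Fin n) (Fin n) E} {b : Matrix (Fin n) (Fin n) E}

open Pool.Agent.Work.MP_787500_nt.OT (ordW mem_ordW) in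
open Pool.Agent.Work.MP_787500_nt.OU (fixS mem_fixS annS mem_annS EulF) in
open Pool.Agent.Work.MP_787500_nt.OV in
private theorem both (hK : IsQ K D s) (hc : PA.IsConj s c)
    (hκ : ∀ (σ : AbsGal K) (x : AlgebraicClosure K), κ σ x = c (σ (c x))) (hP : P.IsPrime)
    (hP2 : (2 : 𝓞 (AlgebraicClosure K)) ∈ P) (hb : b.det ≠ 0)
    (hρ : IsDualRep (inT K T) (cyclo E) κ ρ b) {W : Submodule E (Fin n → E)}
    (hW : ∀ σ ∈ stabD P, ∀ x ∈ W, ρ σ *ᵥ x ∈ W) :
    ∃ N₀ : Subgroup (AbsGal K),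
      (∀ X : stabD P → Fin n → E, Parity.IsCocycle (fun d : stabD P => ρ d) X ↔
        ZV (big (fullD (stabD P)) (N₀.subgroupOf (stabD P))) (fun d : stabD P => ρ d) X) ∧
      (∀ X : stabD P → Fin n → E, Parity.IsCocycle (fun d : stabD P => ρ (κ d)) X ↔
        ZV (big (fullD (stabD P)) (N₀.subgroupOf (stabD P))) (fun d : stabD P => ρ (κ d)) X) ∧
      (∀ y : stabD P → Fin n → E,
        IsPerp (fun d : stabD P => cyclo E (d : AbsGal K)) (fun d => ρ (κ d)) b
          (ordW (big (fullD (stabD P)) (N₀.subgroupOf (stabD P))) (fun d : stabD P => ρ d) W :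
            Set (stabD P → Fin n → E)) y ↔
        y ∈ ordW (big (fullD (stabD P)) (N₀.subgroupOf (stabD P))) (fun d : stabD P => ρ (κ d))
          (annS b W)) ∧
      Module.finrank E (ordW (big (fullD (stabD P)) (N₀.subgroupOf (stabD P)))
          (fun d : stabD P => ρ d) W) + Module.finrank E (fixS (fun d : stabD P => ρ d) W) =
        3 * Module.finrank E W +
          Module.finrank E (fixS (fun d : stabD P => ρ (κ d)) (annS b W)) ∧
      Continuous ρ ∧ ∀ (d : stabD P) (x y : Fin n → E),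
        bil b (ρ d *ᵥ x) (ρ (κ d) *ᵥ y) = toE E (cyc (d : AbsGal K)) * bil b x y := by
  have hκκ : ∀ g, κ (κ g) = g := GA.kap_kap hc hκ
  have hodd : ∀ g : AbsGal K, (2 : ℤ_[2]) ∣ cyc g - 1 := PA.isChar_cyc.odd
  have hκc : Continuous κ := PA.kappa_continuous hc.sq hκ
  obtain ⟨N₀, hNn, hNF, hNo, hκN, hNI, hpro⟩ := QF.exists_n0 (KR.isFull_K T) (χ := cyc)
    PA.isChar_cyc.mul PA.isChar_cyc.one hodd hκκ hb hρ
  have hρ₀ : Gn.ConjDual 2 N₀ (inT K T) (cyclo E) κ ρ b :=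
    ⟨hρ.cont, hpro, hρ.unram, hρ.symm, hρ.dual⟩
  have hcs : CompactSpace (stabD P) := isCompact_iff_compactSpace.1 (GP.stabD_closed P).isCompact
  have hA : KR.ProRep (N₀.subgroupOf (stabD P)) (fun d : stabD P => ρ d) := LB.proRep_rho hρ₀ _
  have hB : KR.ProRep (N₀.subgroupOf (stabD P)) (fun d : stabD P => ρ (κ d)) :=
    LB.proRep_kap hκc hκN hρ₀ _
  have hNn' : (N₀.subgroupOf (stabD P)).Normal := inferInstance
  have hNo' : IsOpen ((N₀.subgroupOf (stabD P) : Subgroup (stabD P)) : Set (stabD P)) :=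
    hNo.preimage continuous_subtype_val
  have hbase : Gn.Base (N₀.subgroupOf (stabD P)) (∅ : Set (stabD P)) := KR.base_of hNn' hNo'
  have hS := KR.isBig_D N₀ (GP.stabD_closed P)
  have hd := drep (P := P) hκc hNn hNo hκN hρ₀
  -- the local data
  obtain ⟨inv, -, hL⟩ := SH.exists_inv.{u, v} hK hc hκ hP hP2
  have hOpn : Opn (fullD (stabD P)) (N₀.subgroupOf (stabD P)) := by
    have hf : Finite (stabD P ⧸ N₀.subgroupOf (stabD P)) :=
      Subgroup.quotient_finite_of_isOpen _ hNo'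
    exact ⟨_, ⟨hNn', Subgroup.index_ne_zero_of_finite, N₀, hNo, le_rfl⟩, le_rfl⟩
  have hLD := hL _ hNn' hOpn
  have hne : ∃ x, c x ≠ x := QX.ne_c (QX.two_I (QX.isI_of hK) hc hκ)
  have hE : EulF.{v} (big (fullD (stabD P)) (N₀.subgroupOf (stabD P))) :=
    eul_D hc.sq hne hP hP2 (QX.stb_le2 (QX.isI_of hK) hK.mod hP hP2) N₀
  have hcoc : ∀ X : stabD P → Fin n → E, Parity.IsCocycle (fun d : stabD P => ρ d) X ↔
      ZV (big (fullD (stabD P)) (N₀.subgroupOf (stabD P))) (fun d : stabD P => ρ d) X := fun X =>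
    ⟨fun h => (KR.big_coc hbase hS hA (fun _ h => h.elim)).1 ⟨h, fun _ h => h.elim⟩,
      fun h => ((KR.big_coc hbase hS hA (fun _ h => h.elim)).2 h).1⟩
  have hcoc' : ∀ X : stabD P → Fin n → E, Parity.IsCocycle (fun d : stabD P => ρ (κ d)) X ↔
      ZV (big (fullD (stabD P)) (N₀.subgroupOf (stabD P))) (fun d : stabD P => ρ (κ d)) X :=
    fun X => ⟨fun h => (KR.big_coc hbase hS hB (fun _ h => h.elim)).1 ⟨h, fun _ h => h.elim⟩,
      fun h => ((KR.big_coc hbase hS hB (fun _ h => h.elim)).2 h).1⟩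
  have hst : ∀ g : stabD P, ∀ x ∈ W, ρ g *ᵥ x ∈ W := fun g x hx => hW g g.2 x hx
  obtain ⟨L, hLe⟩ : ∃ L, L = ordW (big (fullD (stabD P)) (N₀.subgroupOf (stabD P)))
    (fun d : stabD P => ρ d) W := ⟨_, rfl⟩
  have hLz : ∀ X ∈ L, Parity.IsCocycle (fun d : stabD P => ρ d) X := fun X hX => by
    rw [hLe] at hX
    exact (hcoc X).2 hX.1
  refine ⟨N₀, hcoc, hcoc', fun y => ?_, finrank_ordV hb hLD hE hd hst, hρ.cont, hd.dual⟩
  rw [← hLe]
  have h5 : IsPerp (fun d : stabD P => cyclo E (d : AbsGal K)) (fun d => ρ (κ d)) b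
      (L : Set (stabD P → Fin n → E)) y ↔
    PerpV (big (fullD (stabD P)) (N₀.subgroupOf (stabD P)))
      (fun d : stabD P => cyc (d : AbsGal K)) b (fun d => ρ (κ d)) L y :=
    KR.big_perp (HP.basis_sub (HP.basis_K K)) hNn' hNo' hS hLD.char hA hB hLz
  rw [h5]
  constructor
  · rintro ⟨h6, h7⟩
    refine (perp_ordV hb hLD hd hst h6).1 fun X hX => ?_
    rw [← hLe] at hX
    exact h7 X hX
  · intro h6
    refine ⟨h6.1, fun X hX => ?_⟩
    rw [hLe] at hX
    exact (perp_ordV hb hLD hd hst h6.1).2 h6 X hX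

theorem gr_perp_S (hK : IsQ K D s) (hc : PA.IsConj s c)
    (hκ : ∀ (σ : AbsGal K) (x : AlgebraicClosure K), κ σ x = c (σ (c x))) (hP : P.IsPrime)
    (hP2 : (2 : 𝓞 (AlgebraicClosure K)) ∈ P) (hb : b.det ≠ 0)
    (hρ : IsDualRep (inT K T) (cyclo E) κ ρ b) {W : Submodule E (Fin n → E)}
    (hW : ∀ σ ∈ stabD P, ∀ x ∈ W, ρ σ *ᵥ x ∈ W) :
    perpAt (fun σ : stabD (K := K) P => cyclo E (σ : AbsGal K))
        (fun σ : stabD (K := K) P => ρ (κ σ)) b (greenbergAt ρ (stabD P) W) =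
      greenbergAt (ρ.comp κ) (stabD P) (annih b W) := by
  obtain ⟨N₀, hcoc, hcoc', hperp, -, -, -⟩ := both hK hc hκ hP hP2 hb hρ hW
  have e1 : greenbergAt ρ (stabD P) W =
      OT.ordW (big (fullD (stabD P)) (N₀.subgroupOf (stabD P))) (fun d : stabD P => ρ d) W := by
    ext X
    exact ⟨fun h => ⟨(hcoc X).1 h.1, h.2⟩, fun h => ⟨(hcoc X).2 h.1, h.2⟩⟩
  ext y
  rw [mem_perpAt, e1]
  refine (hperp y).trans ?_
  exact ⟨fun h => ⟨(hcoc' y).2 h.1, h.2⟩, fun h => ⟨(hcoc' y).1 h.1, h.2⟩⟩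

theorem gr_dim_S (hK : IsQ K D s) (hc : PA.IsConj s c)
    (hκ : ∀ (σ : AbsGal K) (x : AlgebraicClosure K), κ σ x = c (σ (c x))) (hP : P.IsPrime)
    (hP2 : (2 : 𝓞 (AlgebraicClosure K)) ∈ P) (hb : b.det ≠ 0)
    (hρ : IsDualRep (inT K T) (cyclo E) κ ρ b) {W : Submodule E (Fin n → E)}
    (hW : ∀ σ ∈ stabD P, ∀ x ∈ W, ρ σ *ᵥ x ∈ W)
    (hfd : FiniteDimensional E (Parity.cocycles (fun σ : stabD (K := K) P => ρ σ))) :
    dimModulo (greenbergAt ρ (stabD (K := K) P) W)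
        (coboundaries (fun σ : stabD (K := K) P => ρ σ)) +
        Module.finrank E (fixedBy (fun σ : stabD (K := K) P => ρ σ)) ≡
      Module.finrank E W + dimModulo (fixedModulo (fun σ : stabD (K := K) P => ρ σ) W) W +
        dimModulo (fixedModulo (fun σ : stabD (K := K) P => ρ (κ σ)) (annih b W))
          (annih b W) [MOD 2] := by
  obtain ⟨N₀, hcoc, -, -, g1, hcont, hdual⟩ := both hK hc hκ hP hP2 hb hρ hW
  have hst : ∀ g : stabD P, ∀ x ∈ W, ρ g *ᵥ x ∈ W := fun g x hx => hW g g.2 x hx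
  have e1 : greenbergAt ρ (stabD P) W =
      OT.ordW (big (fullD (stabD P)) (N₀.subgroupOf (stabD P))) (fun d : stabD P => ρ d) W := by
    ext X
    exact ⟨fun h => ⟨(hcoc X).1 h.1, h.2⟩, fun h => ⟨(hcoc X).2 h.1, h.2⟩⟩
  rw [← e1] at g1
  have hle : greenbergAt ρ (stabD (K := K) P) W ≤
      Parity.cocycles (fun σ : stabD (K := K) P => ρ σ) := fun X hX => hX.1
  have hfin : FiniteDimensional E (greenbergAt ρ (stabD (K := K) P) W) :=
    Submodule.finiteDimensional_of_le hle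
  have hbt : coboundaries (fun σ : stabD P => ρ σ) ≤ greenbergAt ρ (stabD P) W := by
    intro X hX
    obtain ⟨v, hv⟩ := hX
    refine ⟨⟨?_, fun σ τ => ?_⟩, v, fun g => ?_⟩
    · have e : X = fun σ : stabD P => ρ σ *ᵥ v - v := funext hv
      rw [e]
      exact ((hcont.comp continuous_subtype_val).matrix_mulVec continuous_const).sub
        continuous_const
    · rw [hv, hv, hv]
      have e1 : ρ ((σ * τ : stabD P) : AbsGal K) = ρ σ * ρ τ := map_mul ρ _ _
      show ρ ((σ * τ : stabD P) : AbsGal K) *ᵥ v - v =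
        ρ σ *ᵥ v - v + ρ σ *ᵥ (ρ τ *ᵥ v - v)
      rw [e1, mulVec_sub, mulVec_mulVec]
      abel
    · rw [hv, sub_self]
      exact W.zero_mem
  have g2 := GP.dimModulo_add hbt hfin
  have g3 := GP.finrank_cob (fun σ : stabD P => ρ σ)
  have g4 := OV.finrank_annih hb W
  have g5 := OV.dimModulo_eq (OV.le_fixedModulo hst)
  have hst' : ∀ g : stabD P, ∀ x ∈ annih b W, ρ (κ g) *ᵥ x ∈ annih b W := by
    intro g x hx y hy
    have k1 : bil b (ρ g *ᵥ (ρ (g : AbsGal K)⁻¹ *ᵥ y)) (ρ (κ g) *ᵥ x) =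
        toE E (cyc (g : AbsGal K)) * bil b (ρ (g : AbsGal K)⁻¹ *ᵥ y) x :=
      hdual g (ρ (g : AbsGal K)⁻¹ *ᵥ y) x
    have k2 : bil b (ρ (g : AbsGal K)⁻¹ *ᵥ y) x = 0 := hx _ (hW _ (inv_mem g.2) y hy)
    rw [k2, mul_zero, mulVec_mulVec, ← map_mul, mul_inv_cancel, map_one, one_mulVec] at k1
    exact k1
  have g6 := OV.dimModulo_eq (OV.le_fixedModulo hst')
  have e5 : fixedModulo (fun d : stabD P => ρ d) W = OU.fixS (fun d : stabD P => ρ d) W := rfl
  have e6 : fixedModulo (fun d : stabD P => ρ (κ d)) (annih b W) =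
      OU.fixS (fun d : stabD P => ρ (κ d)) (OU.annS b W) := rfl
  rw [e5] at g5 ⊢
  rw [e6] at g6 ⊢
  generalize Module.finrank E (OU.fixS (fun d : stabD P => ρ (κ d)) (OU.annS b W)) = f' at *
  generalize Module.finrank E (OU.fixS (fun d : stabD P => ρ d) W) = f at *
  unfold Nat.ModEq
  omega

end Pool.Agent.Work.MP_787500_nt.UV
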