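import Mathlib
import Pool.Agent.Work.MP_787500_nt.SH.LocW
import Pool.Agent.Work.MP_787500_nt.OP.Base

/-!
# Module UV/Lam (size M): the second cohomology with values in `E` twisted by the character embeds in `E`

`Λ` is additive and `E`-linear on the continuous 2-cocycles `f` with values in `E` (`KP.ZE SD χ f`), and `Λ f = 0` if and only
if `f` is a coboundary (`KP.BE SD χ f`).
PROOF. 1. For `F : D → D → A0` in `Z2 SD (tw χ)` and `u : ℤ_[2]`: `inv (fun a b => u • F a b) = u • inv F`: `F` is killed by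
`2 ^ m` for some `m` (`wl01_killed` in SH/LocW, private: copy), `u = n + 2 ^ m u'` with `n : ℕ` (`PadicInt.appr`), and
`inv` is additive (`LocH.add`).
2. For `f` in `ZE` and a `ℚ_[2]`-linear `φ : E → ℚ_[2]` let `x k = inv (fun a b => pr0 (φ (f a b) / 2 ^ k))` (`ze_Z2W`); then
`2 • x (k + 1) = x k`. Let `y k ∈ ℚ_[2]` be a lift of `x k` (`pr0_surj`); `2 ^ (k + 1) y (k + 1) - 2 ^ k y k ∈ 2 ^ k ℤ_2`, so
`2 ^ k y k` converges (`ℚ_[2]` is complete, ultrametric Cauchy sequence) to a number `λ φ f` with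
`pr0 (λ φ f / 2 ^ k) = x k` for all `k`; it is determined by this property (a number `z` with `z / 2 ^ k ∈ ℤ_2` for all
`k` is 0). By uniqueness `λ` is additive in `φ` and in `f`, and (1.) `λ (u • φ) f = u λ φ f` for `u ∈ ℤ_2` and
`u = 1 / 2 ^ k`, so for all `u ∈ ℚ_[2]`; and `λ φ (a • f) = λ (φ (a ·)) f` for `a : E`. If `f` is in `BE` then `λ φ f = 0`
for all `φ` (`be_inv_zeroW`); if `λ φ f = 0` for all `φ` then `f` is in `BE` (`be_EW`).
3. So `φ ↦ λ φ f` is an element of the double dual of the finite dimensional `ℚ_[2]`-vector space `E`: there is a unique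
`Λ f : E` with `λ φ f = φ (Λ f)` for all `φ` (`Module.evalEquiv`, `Module.forall_dual_apply_eq_zero_iff`). For `f` not in
`ZE` put `Λ f = 0`. `φ (Λ (a • f)) = λ φ (a • f) = λ (φ (a ·)) f = φ (a * Λ f)`.
-/

set_option autoImplicit false
set_option linter.unusedSectionVars false

namespace Pool.Agent.Work.MP_787500_nt.UV

open Pool.Agent.Work.MP_787500_nt.GP
open Pool.Agent.Work.MP_787500_nt.KR
open Pool.Agent.Work.MP_787500_nt.PA (toE)

variable {D : Type*} [Group D] {SD : FSys D} {χ : D → ℤ_[2]} {inv : (D → D → A0) → A0}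
  {E : Type*} [NormedField E] [NormedAlgebra ℚ_[2] E] [FiniteDimensional ℚ_[2] E]

private theorem uvl_killed {F : D → D → A0} (hF : Sm2 SD F) :
    ∃ m : ℕ, ∀ a b, (2 ^ m) • F a b = 0 := by
  obtain ⟨W, hW, h⟩ := hF
  have hfi : W.FiniteIndex := ⟨SD.index hW⟩
  have hfin : Finite (D ⧸ W) := Subgroup.finite_quotient_of_finiteIndex
  obtain ⟨m, hm, -⟩ := a0_killed (fun q : (D ⧸ W) × (D ⧸ W) => F q.1.out q.2.out)
  refine ⟨m, fun a b => ?_⟩
  obtain ⟨w, hw⟩ := QuotientGroup.mk_out_eq_mul W a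
  obtain ⟨w', hw'⟩ := QuotientGroup.mk_out_eq_mul W b
  have h1 := hm ((a : D ⧸ W), (b : D ⧸ W))
  rw [hw, hw', h a b w w.2 w' w'.2] at h1
  exact h1

private theorem uvl_zero : Z2 SD (tw χ) (fun _ _ => (0 : A0)) := by
  obtain ⟨W, hW⟩ := SD.ex
  refine ⟨⟨W, hW, fun _ _ _ _ _ _ => rfl⟩, fun a b c => ?_⟩
  show χ a • (0 : A0) - 0 + 0 - 0 = 0
  rw [smul_zero]
  abel

private theorem uvl_inv0 (L : SH.LocW SD χ inv) : inv (fun _ _ => (0 : A0)) = 0 := by
  have h1 := L.add _ _ (uvl_zero (SD := SD) (χ := χ)) uvl_zero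
  simp only [add_zero] at h1
  exact left_eq_add.1 h1

private theorem uvl_nsmul (L : SH.LocW SD χ inv) {F : D → D → A0} (hF : Z2 SD (tw χ) F) (n : ℕ) :
    Z2 SD (tw χ) (fun a b => n • F a b) ∧ inv (fun a b => n • F a b) = n • inv F := by
  induction n with
  | zero =>
    simp only [zero_smul]
    exact ⟨uvl_zero, uvl_inv0 L⟩
  | succ n ih =>
    simp only [add_smul, one_smul]
    refine ⟨Z2.add (isAct_tw L.char) ih.1 hF, ?_⟩
    rw [L.add _ _ ih.1 hF, ih.2]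

/-- the invariant is linear over the 2-adic integers -/
private theorem uvl_smul (L : SH.LocW SD χ inv) {F : D → D → A0} (hF : Z2 SD (tw χ) F)
    (u : ℤ_[2]) : inv (fun a b => u • F a b) = u • inv F := by
  obtain ⟨m, hm⟩ := uvl_killed hF.1
  have h1 := PadicInt.appr_spec m u
  rw [Ideal.mem_span_singleton'] at h1
  obtain ⟨c, hc⟩ := h1
  have hu : u = c * (2 ^ m : ℕ) + ((PadicInt.appr u m : ℕ) : ℤ_[2]) := by
    push_cast at hc ⊢
    linear_combination -hc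
  have key : ∀ t : A0, (2 ^ m) • t = 0 → u • t = (PadicInt.appr u m) • t := by
    intro t ht
    have h2 : ((2 ^ m : ℕ) : ℤ_[2]) • t = 0 := by
      rw [Nat.cast_smul_eq_nsmul]
      exact ht
    conv_lhs => rw [hu]
    rw [add_smul, mul_smul, h2, smul_zero, zero_add, Nat.cast_smul_eq_nsmul]
  have h3 : (2 ^ m) • inv F = 0 := by
    rw [← (uvl_nsmul L hF (2 ^ m)).2, ← uvl_inv0 L]
    congr 1
    funext a b
    exact hm a b
  rw [key _ h3, ← (uvl_nsmul L hF _).2]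
  congr 1
  funext a b
  exact key _ (hm a b)

private theorem uvl_two (k : ℕ) : (2 : ℚ_[2]) ^ k ≠ 0 := pow_ne_zero _ two_ne_zero

private theorem uvl_pr0 {x y : ℚ_[2]} (h : ‖x - y‖ ≤ 1) : pr0 x = pr0 y := by
  rw [← sub_eq_zero, ← map_sub]
  exact pr0_zero_of_norm h

private theorem uvl_norm {x y : ℚ_[2]} (h : pr0 x = pr0 y) : ‖x - y‖ ≤ 1 := by
  rw [← sub_eq_zero, ← map_sub, pr0_eq_zero] at h
  obtain ⟨v, hv⟩ := h
  rw [← hv]
  exact v.norm_le_one

private theorem uvl_n2 : ‖(2 : ℚ_[2])‖ = 1 / 2 := by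
  have h := Padic.norm_p (p := 2)
  push_cast at h
  rw [h]
  norm_num

private theorem uvl_smul0 (u : ℤ_[2]) (x : ℚ_[2]) : u • pr0 x = pr0 ((u : ℚ_[2]) * x) := by
  rw [← map_smul, Algebra.smul_def]
  rfl

/-- an element of `ℚ_[2]` divisible by all powers of 2 is zero -/
private theorem uvl_eq {x y : ℚ_[2]} (h : ∀ k : ℕ, pr0 (x / 2 ^ k) = pr0 (y / 2 ^ k)) :
    x = y := by
  by_contra hne
  have h1 : 0 < ‖x - y‖ := norm_pos_iff.2 (sub_ne_zero.2 hne)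
  obtain ⟨k, hk⟩ := exists_pow_lt_of_lt_one h1 (by norm_num : (1 / 2 : ℝ) < 1)
  have h2 := uvl_norm (h k)
  rw [← sub_div, norm_div, norm_pow, uvl_n2, div_le_one (by positivity)] at h2
  linarith

/-- lifting a compatible system -/
private theorem uvl_lift (x : ℕ → A0) (hx : ∀ k, x (k + 1) + x (k + 1) = x k) :
    ∃ z : ℚ_[2], ∀ k, pr0 (z / 2 ^ k) = x k := by
  choose y hy using fun k => pr0_surj (x k)
  let z : ℕ → ℚ_[2] := fun k => 2 ^ k * y k
  have h1 : ∀ k, ‖y (k + 1) + y (k + 1) - y k‖ ≤ 1 := by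
    intro k
    refine uvl_norm ?_
    rw [map_add, hy, hy, hx]
  have h2 : ∀ k, dist (z k) (z (k + 1)) ≤ 1 * (1 / 2 : ℝ) ^ k := by
    intro k
    have e : z (k + 1) - z k = 2 ^ k * (y (k + 1) + y (k + 1) - y k) := by
      simp only [z]
      ring
    rw [dist_comm, dist_eq_norm, e, norm_mul, norm_pow, uvl_n2, mul_comm, one_mul]
    exact mul_le_of_le_one_left (by positivity) (h1 k)
  have h3 : CauchySeq z := cauchySeq_of_le_geometric (1 / 2) 1 (by norm_num) h2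
  obtain ⟨w, hw⟩ := cauchySeq_tendsto_of_complete h3
  refine ⟨w, fun k => ?_⟩
  have h4 := dist_le_of_le_geometric_of_tendsto (1 / 2) 1 (by norm_num) h2 hw (k + 1)
  rw [← hx k, ← hy (k + 1), ← map_add]
  refine uvl_pr0 ?_
  have e : w / 2 ^ k - (y (k + 1) + y (k + 1)) = (w - z (k + 1)) / 2 ^ k := by
    simp only [z]
    have := uvl_two k
    field_simp
    ring
  rw [e, norm_div, norm_pow, uvl_n2, div_le_one (by positivity), ← dist_eq_norm, dist_comm]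
  refine h4.trans (le_of_eq ?_)
  rw [pow_succ]
  ring

/-- a `ℤ_[2]`-linear map of a `ℚ_[2]`-vector space to `ℚ_[2] / ℤ_[2]` lifts -/
private theorem uvl_lin {V : Type*} [AddCommGroup V] [Module ℚ_[2] V] (m : V → A0)
    (hadd : ∀ v w, m (v + w) = m v + m w) (hsmul : ∀ (u : ℤ_[2]) v, m ((u : ℚ_[2]) • v) = u • m v) :
    ∃ l : V →ₗ[ℚ_[2]] ℚ_[2], ∀ v, pr0 (l v) = m v := by
  have hex : ∀ v : V, ∃ z : ℚ_[2], ∀ k : ℕ, pr0 (z / 2 ^ k) = m (((2 : ℚ_[2]) ^ k)⁻¹ • v) := by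
    intro v
    refine uvl_lift _ fun k => ?_
    rw [← hadd, ← add_smul]
    congr 2
    have := uvl_two k
    rw [pow_succ]
    field_simp
    norm_num
  choose l hl using hex
  have huniq : ∀ v z, (∀ k : ℕ, pr0 (z / 2 ^ k) = m (((2 : ℚ_[2]) ^ k)⁻¹ • v)) → l v = z :=
    fun v z h => uvl_eq fun k => (hl v k).trans (h k).symm
  have h1 : ∀ v w, l (v + w) = l v + l w := by
    intro v w
    refine huniq _ _ fun k => ?_
    rw [add_div, map_add, hl, hl, smul_add, hadd]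
  have h2 : ∀ (u : ℤ_[2]) v, l ((u : ℚ_[2]) • v) = u * l v := by
    intro u v
    refine huniq _ _ fun k => ?_
    rw [mul_div_assoc, ← uvl_smul0, hl, smul_comm, hsmul]
  have h3 : ∀ (j : ℕ) v, l (((2 : ℚ_[2]) ^ j)⁻¹ • v) = ((2 : ℚ_[2]) ^ j)⁻¹ * l v := by
    intro j v
    refine huniq _ _ fun k => ?_
    have e1 : ((2 : ℚ_[2]) ^ j)⁻¹ * l v / 2 ^ k = l v / 2 ^ (j + k) := by
      have := uvl_two k
      have := uvl_two j
      rw [pow_add]
      field_simp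
    rw [e1, hl, smul_smul, ← mul_inv, ← pow_add, add_comm]
  refine ⟨⟨⟨l, h1⟩, fun r v => ?_⟩, fun v => ?_⟩
  · show l (r • v) = r * l v
    obtain ⟨j, hj⟩ : ∃ j : ℕ, ‖(2 : ℚ_[2]) ^ j * r‖ ≤ 1 := by
      obtain ⟨j, hj⟩ := exists_pow_lt_of_lt_one
        (by positivity : (0 : ℝ) < (‖r‖ + 1)⁻¹) (by norm_num : (1 / 2 : ℝ) < 1)
      refine ⟨j, ?_⟩
      rw [norm_mul, norm_pow, uvl_n2]
      have h4 : (1 / 2 : ℝ) ^ j * ‖r‖ ≤ (‖r‖ + 1)⁻¹ * ‖r‖ :=
        mul_le_mul_of_nonneg_right hj.le (norm_nonneg _)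
      refine h4.trans ?_
      rw [inv_mul_le_iff₀ (by positivity)]
      linarith
    obtain ⟨u, hu⟩ : ∃ u : ℤ_[2], (u : ℚ_[2]) = 2 ^ j * r := ⟨⟨2 ^ j * r, hj⟩, rfl⟩
    have e2 : r • v = ((2 : ℚ_[2]) ^ j)⁻¹ • ((u : ℚ_[2]) • v) := by
      rw [smul_smul, hu, ← mul_assoc, inv_mul_cancel₀ (uvl_two j), one_mul]
    rw [e2, h3, h2, hu, ← mul_assoc, ← mul_assoc, inv_mul_cancel₀ (uvl_two j), one_mul]
  · have h4 := hl v 0
    rw [pow_zero, div_one, inv_one, one_smul] at h4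
    exact h4

private theorem uvl_exists (L : SH.LocW SD χ inv) {f : D → D → E} (hf : KP.ZE SD χ f) :
    ∃ e : E, ∀ φ : E →ₗ[ℚ_[2]] ℚ_[2], pr0 (φ e) = inv (fun a b => pr0 (φ (f a b))) := by
  obtain ⟨l, hl⟩ := uvl_lin (V := Module.Dual ℚ_[2] E)
    (fun φ => inv (fun a b => pr0 (φ (f a b))))
    (fun φ ψ => by
      rw [← L.add _ _ (SH.ze_Z2W L.char hf φ) (SH.ze_Z2W L.char hf ψ)]
      congr 1)
    (fun u φ => by
      rw [← uvl_smul L (SH.ze_Z2W L.char hf φ)]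
      congr 1)
  refine ⟨(Module.evalEquiv ℚ_[2] E).symm l, fun φ => ?_⟩
  rw [← hl φ]
  congr 1
  have h1 := LinearEquiv.apply_symm_apply (Module.evalEquiv ℚ_[2] E) l
  exact congrArg (fun t => t φ) h1

private theorem uvl_unique {e e' : E}
    (h : ∀ φ : E →ₗ[ℚ_[2]] ℚ_[2], pr0 (φ e) = pr0 (φ e')) : e = e' := by
  rw [← sub_eq_zero]
  refine (Module.forall_dual_apply_eq_zero_iff ℚ_[2] (e - e')).1 fun φ => ?_
  rw [map_sub, sub_eq_zero]
  refine uvl_eq fun k => ?_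
  have h1 := h (((2 : ℚ_[2]) ^ k)⁻¹ • φ)
  rw [LinearMap.smul_apply, LinearMap.smul_apply, smul_eq_mul, smul_eq_mul] at h1
  rw [div_eq_inv_mul, div_eq_inv_mul]
  exact h1

theorem exists_lam (L : SH.LocW SD χ inv) :
    ∃ Λ : (D → D → E) → E,
      (∀ f g, KP.ZE SD χ f → KP.ZE SD χ g → Λ (fun a b => f a b + g a b) = Λ f + Λ g) ∧
      (∀ (x : E) f, KP.ZE SD χ f → Λ (fun a b => x * f a b) = x * Λ f) ∧
      ∀ f, KP.ZE SD χ f → (Λ f = 0 ↔ KP.BE SD χ f) := by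
  have hex : ∀ f : D → D → E, ∃ e : E, KP.ZE SD χ f →
      ∀ φ : E →ₗ[ℚ_[2]] ℚ_[2], pr0 (φ e) = inv (fun a b => pr0 (φ (f a b))) := by
    intro f
    by_cases hf : KP.ZE SD χ f
    · obtain ⟨e, he⟩ := uvl_exists L hf
      exact ⟨e, fun _ => he⟩
    · exact ⟨0, fun h => absurd h hf⟩
  choose Λ hΛ using hex
  refine ⟨Λ, fun f g hf hg => ?_, fun x f hf => ?_, fun f hf => ⟨fun h0 => ?_, fun hB => ?_⟩⟩
  · refine uvl_unique fun φ => ?_
    rw [hΛ _ (KP.InvEAux.ZE_add hf hg), map_add, map_add, hΛ f hf, hΛ g hg,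
      ← L.add _ _ (SH.ze_Z2W L.char hf φ) (SH.ze_Z2W L.char hg φ)]
    congr 1
    funext a b
    rw [map_add, map_add]
  · refine uvl_unique fun φ => ?_
    rw [hΛ _ (KP.InvEAux.ZE_mul x hf)]
    exact (hΛ f hf (φ ∘ₗ LinearMap.mulLeft ℚ_[2] x)).symm
  · refine SH.be_EW L hf fun φ => ?_
    rw [← hΛ f hf φ, h0, map_zero, map_zero]
  · refine uvl_unique fun φ => ?_
    rw [hΛ f hf φ, SH.be_inv_zeroW L hB φ, map_zero, map_zero]

end Pool.Agent.Work.MP_787500_nt.UV
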