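import Mathlib
import Pool.Agent.Work.MP_787500_nt.UV.Defs
import Pool.Agent.Work.MP_787500_nt.UV.Lam
import Pool.Agent.Work.MP_787500_nt.OU.EulV
import Pool.Agent.Work.MP_787500_nt.KR.LDefs2
import Pool.Agent.Work.MP_787500_nt.OV.Split

/-!
# Module UV/PerpDim (size M): the dimension of the annihilator, at a split prime over 2

`perp L / (perp L ∩ perp L')` and `L' / (L ∩ L')` have the same dimension.
PROOF. Notation as in the proof of `OV.split_ord` (OV/Split.lean), which should be imitated: `hA`, `hB`, `hcoc`, `hcoc'`, `hd = drep ..`, the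
invariant `inv`, `hLD : LocD (big ..)`, and `KR.big_perp`: `Z` (resp. `Z'`) the continuous cocycles for `ρ` (resp. `ρ ∘ κ`) on
`stabD P`, `B`, `B'` the coboundaries. By `exists_lam` (UV/Lam, for `SH.LocW.of_locD hLD`) the function
`⟨x, y⟩ = Λ (cupE (ρ ∘ κ) b x y)` is a bilinear form `Z × Z' → E` (`cupE` is in `ZE`: `KR.cupE_ZE` needs a `LocRep`; use the
`LocRep` of a stable lattice, `KR.exists_lat0` / `OV.exists_crd`, or `⊤` as in SH/CorI (`hrep`)), and `y ∈ perpAt L` iff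
`⟨x, y⟩ = 0` for all `x ∈ L`. (*) If `⟨x, y⟩ = 0` for all `x ∈ Z` then `y ∈ B'`, and if `⟨x, y⟩ = 0` for all `y ∈ Z'` then `x ∈ B`:
`OP.perp_all` (OP/Dual.lean) in the coordinates of `OV.exists_crd` (form `1`, lattice `stdL`); for the second statement with the roles of
the two representations exchanged (`OP.rep_swap`; the cup product is anticommutative up to a coboundary: see
`OP/LagL.lean`, `OU/EulV.lean`, `OU/PerpO.lean`, which use `OP.perp_all` in both directions; or deduce the second statement from the first: by (*) `Z'/B'` embeds in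
the dual of `Z/B`, so it is finite dimensional; let `x` be orthogonal to `Z'`...). One also has `⟨x, y⟩ = 0` if `x ∈ B` or `y ∈ B'` (`KR.cob_perpV`; see `perp_cobR` in SF/MainT).
So the form on `Z/B × Z'/B'` is nondegenerate on both sides, `Z/B` is finite dimensional (`hfd`), hence `dim perp(M) / B' = dim Z/B - dim M/B` for all
`B ≤ M ≤ Z` (`LinearMap.IsPerfPair`, `Subspace.dualAnnihilator`, `Subspace.finrank_add_finrank_dualAnnihilator_eq`). As `perp L ⊓ perp L' = perp (L ⊔ L')`: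
`dim perp L - dim perp (L ⊔ L') = dim (L ⊔ L') - dim L = dim L' - dim (L ⊓ L')`. (`GP.dimModulo_add`, `Submodule.finrank_sup_add_finrank_inf_eq`.)
-/

set_option autoImplicit false
set_option linter.unusedSectionVars false

namespace Pool.Agent.Work.MP_787500_nt.UV

open Matrix NumberField
open Pool.Agent.Work.MP_787500_nt.GP (A0 OE bil Lat inT stabD)
open Pool.Agent.Work.MP_787500_nt.KR (FSys LocD LocRep ZV zV fullD fullK big Opn PerpV)
open Pool.Agent.Work.MP_787500_nt.PA (toE cyc)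
open Pool.Agent.Work.MP_787500_nt.HP (IsQ stb)
open Pool.Agent.Work.MP_787500_nt.Parity

universe u v

variable {K : Type u} [Field K] [NumberField K] {D : ℕ} {s : K}
  {c : AlgebraicClosure K ≃+* AlgebraicClosure K} {κ : AbsGal K →* AbsGal K} {T : Finset ℕ}
  {P : Ideal (𝓞 (AlgebraicClosure K))}
  {E : Type v} [NormedField E] [NormedAlgebra ℚ_[2] E] [FiniteDimensional ℚ_[2] E] {n : ℕ}
  {ρ : AbsGal K →* Matrix (Fin n) (Fin n) E} {b : Matrix (Fin n) (Fin n) E}

section dimAux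

open Pool.Agent.Work.MP_787500_nt.GP (MN lamN lft mq_lft mq actQ actN bN d0 cup11 Wq actQ_mq cupE)
open Pool.Agent.Work.MP_787500_nt.KR (Z1 perpSub)
open Pool.Agent.Work.MP_787500_nt.OP (stdL)
open Pool.Agent.Work.MP_787500_nt.OU (perp_count)
open Pool.Agent.Work.MP_787500_nt.OV (DRep exists_crd)

variable {G : Type*} [Group G] {TP : FSys G} {χ : G → ℤ_[2]} {iv : (G → G → A0) → A0}
  {l : OE E} {t : E →ₗ[ℚ_[2]] ℚ_[2]}
  {T' : Submodule (OE E) (Fin n → E)} {σ σ' : G → Matrix (Fin n) (Fin n) E}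

/-- the dimension of `L` plus the dimension of its annihilator does not depend on `L` -/
private theorem pd_lat [IsLocalRing (OE E)] (H : LocD.{v} TP χ iv)
    (hl : Lat b l t T') (hr : LocRep TP χ T' b σ σ') {L : Submodule E (G → Fin n → E)}
    (hL : ∀ X ∈ L, ZV TP σ X) (hL0 : ∀ v, (fun d => σ d *ᵥ v - v) ∈ L) :
    Nat.card (IsLocalRing.ResidueField (OE E)) ^
        (Module.finrank E L + Module.finrank E (perpSub TP χ b σ' L)) *
      Nat.card {m : MN T' l 1 // ∀ g, actN l 1 σ hr.st g m = m} =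
      Nat.card {y : G → MN T' l 1 // Z1 TP (actN l 1 σ' hr.st') y} * Nat.card (MN T' l 1) := by
  have hp := KR.pair_MN hl hr 1
  have hfinM : Finite (MN T' l 1) := GP.MN_finite hl 1
  have hA0 : ∀ m, d0 (actN l 1 σ hr.st) m ∈ lamN T' l 1 L := by
    intro m
    refine ⟨fun g => σ g *ᵥ lft (m : Wq T') - lft (m : Wq T'), hL0 _, fun g => ?_⟩
    show actQ T' (σ g) (m : Wq T') - (m : Wq T') = _
    rw [GP.mq_sub, mq_lft, ← actQ_mq (hr.st g), mq_lft]
  have hA : ∀ x ∈ lamN T' l 1 L, Z1 TP (actN l 1 σ hr.st) x := by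
    rintro x ⟨X, hX, h1⟩
    exact KR.zv_level hl hr 1 (hL X hX) h1
  have hA' : ∀ y, y ∈ lamN T' l 1 (perpSub TP χ b σ' L) ↔ Z1 TP (actN l 1 σ' hr.st') y ∧
      ∀ x ∈ lamN T' l 1 L, iv (cup11 (actN l 1 σ' hr.st') (bN hl 1) x y) = 0 := by
    intro y
    exact (KR.perp_iff H hl hr (L := L) hL hL0 y).symm
  have hcnt := perp_count H.toLocH hp (H.ld hp) hA0 hA hA'
  have hfd : FiniteDimensional E (zV TP σ) := KR.zV_fd H.gens hr.one hr.mul
  have hfd' : FiniteDimensional E (zV TP σ') := KR.zV_fd H.gens hr.one' hr.mul'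
  have hfL : FiniteDimensional E L :=
    Submodule.finiteDimensional_of_le (S₂ := zV TP σ) (fun X hX => hL X hX)
  have hfP : FiniteDimensional E (perpSub TP χ b σ' L) :=
    Submodule.finiteDimensional_of_le (S₂ := zV TP σ') (fun X hX => hX.1)
  have hcA := GP.card_lamN hl 1 L (fun X hX => KR.zv_bdd (hL X hX))
  have hcA' := GP.card_lamN hl 1 (perpSub TP χ b σ' L) (fun X hX => KR.zv_bdd hX.1)
  rw [hcA, hcA', one_mul, one_mul, ← pow_add] at hcnt
  exact hcnt

private theorem pd_const [IsLocalRing (OE E)] (H : LocD.{v} TP χ iv)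
    (hl : Lat b l t T') (hr : LocRep TP χ T' b σ σ') {L L' : Submodule E (G → Fin n → E)}
    (hL : ∀ X ∈ L, ZV TP σ X) (hL0 : ∀ v, (fun d => σ d *ᵥ v - v) ∈ L)
    (hL' : ∀ X ∈ L', ZV TP σ X) (hL0' : ∀ v, (fun d => σ d *ᵥ v - v) ∈ L') :
    Module.finrank E L + Module.finrank E (perpSub TP χ b σ' L) =
      Module.finrank E L' + Module.finrank E (perpSub TP χ b σ' L') := by
  have hp := KR.pair_MN hl hr 1
  have hfinM : Finite (MN T' l 1) := GP.MN_finite hl 1
  have hF : 0 < Nat.card {m : MN T' l 1 // ∀ g, actN l 1 σ hr.st g m = m} := by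
    have h3 : Nonempty {m : MN T' l 1 // ∀ g, actN l 1 σ hr.st g m = m} :=
      ⟨⟨0, fun g => hp.act.zero g⟩⟩
    exact Nat.card_pos
  have h5 := Nat.eq_of_mul_eq_mul_right hF
    ((pd_lat H hl hr hL hL0).trans (pd_lat H hl hr hL' hL0').symm)
  have hq : 1 < Nat.card (IsLocalRing.ResidueField (OE E)) := by
    have hfin := GP.res_finite (E := E)
    exact Finite.one_lt_card
  exact Nat.pow_right_injective hq h5

private theorem pd_fin {M : Type*} [AddCommGroup M] [Module E M] (e : M ≃ₗ[E] M)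
    (p q : Submodule E M) (h : ∀ x, x ∈ p ↔ e x ∈ q) :
    Module.finrank E p = Module.finrank E q := by
  have hq : q = p.map (e : M →ₗ[E] M) := by
    ext y
    constructor
    · intro hy
      exact ⟨e.symm y, (h _).2 (by simpa using hy), by simp⟩
    · rintro ⟨x, hx, rfl⟩
      exact (h x).1 hx
  rw [hq]
  exact (LinearEquiv.finrank_map_eq e p).symm

/-- an invertible matrix as a linear equivalence -/
private noncomputable def pd_eq (B B' : Matrix (Fin n) (Fin n) E) (h : B * B' = 1) (h' : B' * B = 1) :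
    (Fin n → E) ≃ₗ[E] (Fin n → E) :=
  LinearEquiv.ofLinearMap (Matrix.toLin' B) (Matrix.toLin' B')
    (by rw [← Matrix.toLin'_mul, h, Matrix.toLin'_one])
    (by rw [← Matrix.toLin'_mul, h', Matrix.toLin'_one])

private theorem pd_eq_apply (B B' : Matrix (Fin n) (Fin n) E) (h : B * B' = 1) (h' : B' * B = 1)
    (x : Fin n → E) : pd_eq B B' h h' x = B *ᵥ x := by
  show Matrix.toLin' B x = _
  rw [Matrix.toLin'_apply]

private theorem pd_zv {B B' : Matrix (Fin n) (Fin n) E} (h' : B' * B = 1)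
    {τ : G → Matrix (Fin n) (Fin n) E} {X : G → Fin n → E} (hX : ZV TP τ X) :
    ZV TP (fun g => B * τ g * B') (fun g => B *ᵥ X g) := by
  refine ⟨?_, fun s t => ?_⟩
  · have h1 := OP.n1_lin (Matrix.toLin' B) hX.1
    simpa only [Matrix.toLin'_apply] using h1
  · show B *ᵥ X (s * t) = B *ᵥ X s + (B * τ s * B') *ᵥ (B *ᵥ X t)
    rw [hX.2, mulVec_add, mulVec_mulVec, mulVec_mulVec]
    congr 2
    rw [mul_assoc (B * τ s), h', mul_one]

private theorem pd_zv_iff {B B' : Matrix (Fin n) (Fin n) E} (h : B * B' = 1) (h' : B' * B = 1)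
    {τ : G → Matrix (Fin n) (Fin n) E} {X : G → Fin n → E} :
    ZV TP τ X ↔ ZV TP (fun g => B * τ g * B') (fun g => B *ᵥ X g) := by
  refine ⟨pd_zv h', fun hX => ?_⟩
  have h1 := pd_zv (B := B') (B' := B) h hX
  have e1 : (fun g => B' *ᵥ (B *ᵥ X g)) = X := by
    funext g
    rw [mulVec_mulVec, h', one_mulVec]
  have e2 : (fun g => B' * (B * τ g * B') * B) = τ := by
    funext g
    rw [← mul_assoc, ← mul_assoc, h', one_mul, mul_assoc, h', mul_one]
  rw [e1, e2] at h1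
  exact h1

private theorem pd_bil {H b : Matrix (Fin n) (Fin n) E} (hH : H.det ≠ 0) (u v : Fin n → E) :
    bil 1 (H⁻¹ *ᵥ u) ((Hᵀ * b) *ᵥ v) = bil b u v := by
  rw [bil, bil, one_mulVec, ← mulVec_mulVec, dotProduct_mulVec, vecMul_transpose, mulVec_mulVec,
    Matrix.mul_nonsing_inv H (isUnit_iff_ne_zero.2 hH), one_mulVec]

/-- the same without lattices -/
private theorem pd_perpV (hb : b.det ≠ 0) (H : LocD.{v} TP χ iv) (h : DRep TP χ b σ σ') :
    ∃ c : ℕ, ∀ L : Submodule E (G → Fin n → E), (∀ X ∈ L, ZV TP σ X) →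
      (∀ v, (fun d => σ d *ᵥ v - v) ∈ L) →
      Module.finrank E L + Module.finrank E (perpSub TP χ b σ' L) = c := by
  obtain ⟨l, t, M, hM, hl, hr⟩ := exists_crd hb h
  have hMu := isUnit_iff_ne_zero.2 hM
  have hAd : (Mᵀ * b).det ≠ 0 := by
    rw [Matrix.det_mul, Matrix.det_transpose]
    exact mul_ne_zero hM hb
  have hAu := isUnit_iff_ne_zero.2 hAd
  have a1 : M⁻¹ * M = 1 := Matrix.nonsing_inv_mul M hMu
  have a2 : M * M⁻¹ = 1 := Matrix.mul_nonsing_inv M hMu
  have a3 : (Mᵀ * b) * (Mᵀ * b)⁻¹ = 1 := Matrix.mul_nonsing_inv _ hAu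
  have a4 : (Mᵀ * b)⁻¹ * (Mᵀ * b) = 1 := Matrix.nonsing_inv_mul _ hAu
  have hloc : IsLocalRing (OE E) := GP.isLocal E
  refine ⟨Module.finrank E (zV TP (fun g => M⁻¹ * σ g * M)) + Module.finrank E (perpSub TP χ 1
    (fun g => (Mᵀ * b) * σ' g * (Mᵀ * b)⁻¹) (zV TP (fun g => M⁻¹ * σ g * M))),
    fun L hL hL0 => ?_⟩
  let e1 : (G → Fin n → E) ≃ₗ[E] (G → Fin n → E) :=
    LinearEquiv.piCongrRight fun _ : G => pd_eq M⁻¹ M a1 a2
  have he1 : ∀ X, e1 X = fun g => M⁻¹ *ᵥ X g := fun X => by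
    funext g
    exact pd_eq_apply _ _ a1 a2 (X g)
  let e2 : (G → Fin n → E) ≃ₗ[E] (G → Fin n → E) :=
    LinearEquiv.piCongrRight fun _ : G => pd_eq (Mᵀ * b) (Mᵀ * b)⁻¹ a3 a4
  have he2 : ∀ X, e2 X = fun g => (Mᵀ * b) *ᵥ X g := fun X => by
    funext g
    exact pd_eq_apply _ _ a3 a4 (X g)
  let L₁ : Submodule E (G → Fin n → E) := L.map (e1 : (G → Fin n → E) →ₗ[E] (G → Fin n → E))
  have hmem : ∀ X, X ∈ L ↔ e1 X ∈ L₁ := fun X => by
    constructor
    · intro hX
      exact ⟨X, hX, rfl⟩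
    · rintro ⟨X', hX', h1⟩
      have h2 : X' = X := e1.injective h1
      rwa [← h2]
  have hL₁ : ∀ X ∈ L₁, ZV TP (fun g => M⁻¹ * σ g * M) X := by
    rintro _ ⟨X, hX, rfl⟩
    have h1 := (pd_zv_iff (TP := TP) a1 a2).1 (hL X hX)
    have h2 : ((e1 : (G → Fin n → E) →ₗ[E] (G → Fin n → E)) X) = fun g => M⁻¹ *ᵥ X g := he1 X
    rw [h2]
    exact h1
  have hL0₁ : ∀ v, (fun d => (M⁻¹ * σ d * M) *ᵥ v - v) ∈ L₁ := by
    intro v
    have h1 := (hmem _).1 (hL0 (M *ᵥ v))
    rw [he1] at h1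
    have h2 : (fun g => M⁻¹ *ᵥ (σ g *ᵥ (M *ᵥ v) - M *ᵥ v)) =
        fun d => (M⁻¹ * σ d * M) *ᵥ v - v := by
      funext g
      rw [mulVec_sub, mulVec_mulVec, mulVec_mulVec, mulVec_mulVec, a1, one_mulVec, mul_assoc]
    rw [h2] at h1
    exact h1
  have key := pd_const H hl hr hL₁ hL0₁ (L' := zV TP (fun g => M⁻¹ * σ g * M)) (fun X hX => hX)
    (fun v => OP.cob_zv hr v)
  have k1 : Module.finrank E L = Module.finrank E L₁ := pd_fin e1 _ _ hmem
  have hcup : ∀ X Y : G → Fin n → E,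
      cupE (fun g => (Mᵀ * b) * σ' g * (Mᵀ * b)⁻¹) 1 (e1 X) (e2 Y) = cupE σ' b X Y := by
    intro X Y
    rw [he1, he2]
    funext g u
    show bil 1 (M⁻¹ *ᵥ X g) (((Mᵀ * b) * σ' g * (Mᵀ * b)⁻¹) *ᵥ ((Mᵀ * b) *ᵥ Y u)) =
      bil b (X g) (σ' g *ᵥ Y u)
    have e3 : ((Mᵀ * b) * σ' g * (Mᵀ * b)⁻¹) *ᵥ ((Mᵀ * b) *ᵥ Y u) =
        (Mᵀ * b) *ᵥ (σ' g *ᵥ Y u) := by
      rw [mulVec_mulVec, mulVec_mulVec]
      congr 1
      rw [mul_assoc ((Mᵀ * b) * σ' g), a4, mul_one]
    rw [e3, pd_bil hM]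
  have k2 : Module.finrank E (perpSub TP χ b σ' L) = Module.finrank E
      (perpSub TP χ 1 (fun g => (Mᵀ * b) * σ' g * (Mᵀ * b)⁻¹) L₁) := by
    refine pd_fin e2 _ _ fun Y => ?_
    constructor
    · rintro ⟨h1, h2⟩
      refine ⟨?_, ?_⟩
      · rw [he2]
        exact (pd_zv_iff (TP := TP) a3 a4).1 h1
      · rintro _ ⟨X, hX, rfl⟩
        have h3 := hcup X Y
        show KP.BE TP χ (cupE (fun g => (Mᵀ * b) * σ' g * (Mᵀ * b)⁻¹) 1 (e1 X) (e2 Y))
        rw [h3]
        exact h2 X hX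
    · rintro ⟨h1, h2⟩
      refine ⟨?_, fun X hX => ?_⟩
      · rw [he2] at h1
        exact (pd_zv_iff (TP := TP) a3 a4).2 h1
      · have h3 := h2 _ ((hmem X).1 hX)
        rw [hcup] at h3
        exact h3
  rw [k1, k2]
  exact key

private theorem pd_sup (L L' : Submodule E (G → Fin n → E)) :
    perpSub TP χ b σ' L ⊓ perpSub TP χ b σ' L' = perpSub TP χ b σ' (L ⊔ L') := by
  ext Y
  constructor
  · rintro ⟨⟨h1, h2⟩, -, h3⟩
    refine ⟨h1, fun X hX => ?_⟩
    obtain ⟨X₁, hX₁, X₂, hX₂, rfl⟩ := Submodule.mem_sup.1 hX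
    have e : cupE σ' b (X₁ + X₂) Y = fun s t => cupE σ' b X₁ Y s t + cupE σ' b X₂ Y s t := by
      funext s t
      simp only [cupE, Pi.add_apply, GP.bil_add_left]
    rw [e]
    exact KR.be_add (h2 _ hX₁) (h3 _ hX₂)
  · rintro ⟨h1, h2⟩
    exact ⟨⟨h1, fun X hX => h2 X (Submodule.mem_sup_left hX)⟩, h1,
      fun X hX => h2 X (Submodule.mem_sup_right hX)⟩

end dimAux

theorem perp_dim (hK : IsQ K D s) (hc : PA.IsConj s c)
    (hκ : ∀ (σ : AbsGal K) (x : AlgebraicClosure K), κ σ x = c (σ (c x))) (hP : P.IsPrime)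
    (hP2 : (2 : 𝓞 (AlgebraicClosure K)) ∈ P) (hb : b.det ≠ 0)
    (hρ : IsDualRep (inT K T) (cyclo E) κ ρ b)
    (hfd : FiniteDimensional E (Parity.cocycles (fun σ : stabD (K := K) P => ρ σ)))
    {L L' : Submodule E (stabD (K := K) P → Fin n → E)}
    (hL : Between (coboundaries (fun σ : stabD (K := K) P => ρ σ)) L
      (Parity.cocycles (fun σ : stabD (K := K) P => ρ σ)))
    (hL' : Between (coboundaries (fun σ : stabD (K := K) P => ρ σ)) L'
      (Parity.cocycles (fun σ : stabD (K := K) P => ρ σ))) :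
    dimModulo (perpAt (fun σ : stabD (K := K) P => cyclo E (σ : AbsGal K))
        (fun σ : stabD (K := K) P => ρ (κ σ)) b L)
      (perpAt (fun σ : stabD (K := K) P => cyclo E (σ : AbsGal K))
        (fun σ : stabD (K := K) P => ρ (κ σ)) b L ⊓
       perpAt (fun σ : stabD (K := K) P => cyclo E (σ : AbsGal K))
        (fun σ : stabD (K := K) P => ρ (κ σ)) b L') = dimModulo L' (L ⊓ L') := by
  have hκκ : ∀ g, κ (κ g) = g := GA.kap_kap hc hκ
  have hodd : ∀ g : AbsGal K, (2 : ℤ_[2]) ∣ cyc g - 1 := PA.isChar_cyc.odd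
  have hκc : Continuous κ := PA.kappa_continuous hc.sq hκ
  obtain ⟨N₀, hNn, hNF, hNo, hκN, hNI, hpro⟩ := QF.exists_n0 (KR.isFull_K T) (χ := cyc)
    PA.isChar_cyc.mul PA.isChar_cyc.one hodd hκκ hb hρ
  have hρ₀ : Gn.ConjDual 2 N₀ (inT K T) (cyclo E) κ ρ b :=
    ⟨hρ.cont, hpro, hρ.unram, hρ.symm, hρ.dual⟩
  have hcs : CompactSpace (stabD P) := isCompact_iff_compactSpace.1 (GP.stabD_closed P).isCompact
  have hA : KR.ProRep (N₀.subgroupOf (stabD P)) (fun d : stabD P => ρ d) := LB.proRep_rho hρ₀ _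
  have hB : KR.ProRep (N₀.subgroupOf (stabD P)) (fun d : stabD P => ρ (κ d)) :=
    LB.proRep_kap hκc hκN hρ₀ _
  have hNn' : (N₀.subgroupOf (stabD P)).Normal := inferInstance
  have hNo' : IsOpen ((N₀.subgroupOf (stabD P) : Subgroup (stabD P)) : Set (stabD P)) :=
    hNo.preimage continuous_subtype_val
  have hbase : Gn.Base (N₀.subgroupOf (stabD P)) (∅ : Set (stabD P)) := KR.base_of hNn' hNo'
  have hS := KR.isBig_D N₀ (GP.stabD_closed P)
  have hd := OV.drep (P := P) hκc hNn hNo hκN hρ₀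
  obtain ⟨inv, -, hI⟩ := SH.exists_inv.{u, v} hK hc hκ hP hP2
  have hOpn : Opn (fullD (stabD P)) (N₀.subgroupOf (stabD P)) := by
    have hf : Finite (stabD P ⧸ N₀.subgroupOf (stabD P)) :=
      Subgroup.quotient_finite_of_isOpen _ hNo'
    exact ⟨_, ⟨hNn', Subgroup.index_ne_zero_of_finite, N₀, hNo, le_rfl⟩, le_rfl⟩
  have hLD := hI _ hNn' hOpn
  have hcoc : ∀ X : stabD P → Fin n → E, Parity.IsCocycle (fun d : stabD P => ρ d) X ↔
      ZV (big (fullD (stabD P)) (N₀.subgroupOf (stabD P))) (fun d : stabD P => ρ d) X := fun X =>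
    ⟨fun h => (KR.big_coc hbase hS hA (fun _ h => h.elim)).1 ⟨h, fun _ h => h.elim⟩,
      fun h => ((KR.big_coc hbase hS hA (fun _ h => h.elim)).2 h).1⟩
  have hpe : ∀ M : Submodule E (stabD (K := K) P → Fin n → E),
      (∀ X ∈ M, Parity.IsCocycle (fun d : stabD P => ρ d) X) →
      perpAt (fun σ : stabD (K := K) P => cyclo E (σ : AbsGal K))
        (fun σ : stabD (K := K) P => ρ (κ σ)) b M =
      KR.perpSub (big (fullD (stabD P)) (N₀.subgroupOf (stabD P)))
        (fun d : stabD P => cyc (d : AbsGal K)) b (fun d => ρ (κ d)) M := by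
    intro M hM
    ext y
    exact KR.big_perp (HP.basis_sub (HP.basis_K K)) hNn' hNo' hS hLD.char hA hB hM
  have hLz : ∀ X ∈ L, Parity.IsCocycle (fun d : stabD P => ρ d) X := fun X hX => hL.2 hX
  have hLz' : ∀ X ∈ L', Parity.IsCocycle (fun d : stabD P => ρ d) X := fun X hX => hL'.2 hX
  have hsz : L ⊔ L' ≤ Parity.cocycles (fun σ : stabD (K := K) P => ρ σ) := sup_le hL.2 hL'.2
  have hcobm : ∀ v : Fin n → E, (fun d : stabD (K := K) P => ρ d *ᵥ v - v) ∈
      coboundaries (fun σ : stabD (K := K) P => ρ σ) := fun v => ⟨v, fun _ => rfl⟩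
  obtain ⟨C, hC⟩ := pd_perpV hb hLD hd
  have c1 := hC L (fun X hX => (hcoc X).1 (hLz X hX)) (fun v => hL.1 (hcobm v))
  have c2 := hC (L ⊔ L') (fun X hX => (hcoc X).1 (hsz hX))
    (fun v => Submodule.mem_sup_left (hL.1 (hcobm v)))
  have hfL : FiniteDimensional E L := Submodule.finiteDimensional_of_le hL.2
  have hfL' : FiniteDimensional E L' := Submodule.finiteDimensional_of_le hL'.2
  have hfZ' : FiniteDimensional E (zV (big (fullD (stabD P)) (N₀.subgroupOf (stabD P)))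
      (fun d : stabD P => ρ (κ d))) := KR.zV_fd hLD.gens hd.one' hd.mul'
  have hfP : FiniteDimensional E (KR.perpSub (big (fullD (stabD P)) (N₀.subgroupOf (stabD P)))
      (fun d : stabD P => cyc (d : AbsGal K)) b (fun d : stabD P => ρ (κ d)) L) :=
    Submodule.finiteDimensional_of_le (S₂ := zV (big (fullD (stabD P)) (N₀.subgroupOf (stabD P)))
      (fun d : stabD P => ρ (κ d))) (fun X hX => hX.1)
  rw [hpe L hLz, hpe L' hLz']
  have g1 := GP.dimModulo_add (E := E)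
    (M := KR.perpSub (big (fullD (stabD P)) (N₀.subgroupOf (stabD P)))
      (fun d : stabD P => cyc (d : AbsGal K)) b (fun d : stabD P => ρ (κ d)) L)
    (B := KR.perpSub (big (fullD (stabD P)) (N₀.subgroupOf (stabD P)))
        (fun d : stabD P => cyc (d : AbsGal K)) b (fun d : stabD P => ρ (κ d)) L ⊓
      KR.perpSub (big (fullD (stabD P)) (N₀.subgroupOf (stabD P)))
        (fun d : stabD P => cyc (d : AbsGal K)) b (fun d : stabD P => ρ (κ d)) L')
    inf_le_left hfP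
  have g2 := GP.dimModulo_add (E := E) (M := L') (B := L ⊓ L') inf_le_right hfL'
  have g3 := Submodule.finrank_sup_add_finrank_inf_eq L L'
  have g4 : Module.finrank E ↥(KR.perpSub (big (fullD (stabD P)) (N₀.subgroupOf (stabD P)))
        (fun d : stabD P => cyc (d : AbsGal K)) b (fun d : stabD P => ρ (κ d)) L ⊓
      KR.perpSub (big (fullD (stabD P)) (N₀.subgroupOf (stabD P)))
        (fun d : stabD P => cyc (d : AbsGal K)) b (fun d : stabD P => ρ (κ d)) L') =
      Module.finrank E ↥(KR.perpSub (big (fullD (stabD P)) (N₀.subgroupOf (stabD P)))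
        (fun d : stabD P => cyc (d : AbsGal K)) b (fun d : stabD P => ρ (κ d)) (L ⊔ L')) := by
    rw [pd_sup]
  omega

end Pool.Agent.Work.MP_787500_nt.UV
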