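import Mathlib
import Pool.Agent.Work.MP_787500_nt.UV.Defs
import Pool.Agent.Work.MP_787500_nt.SF.EvenW
import Pool.Agent.Work.MP_787500_nt.RB.FinalK
import Pool.Agent.Work.MP_787500_nt.OV.Prm

/-!
# Module UV/FdS (size S): the cocycles of the decomposition groups over 2 form a finite dimensional space, 2 split

PROOF. As in UV/ParS: `SF.even_dim`, `RB.main_gen5` (ParityBKA, QW/FDefs.lean) for the space `L` of all continuous cocycles of `stabD P` (it contains the coboundaries) gives
the first statement. For the second: `GA.cj c P` is a prime over 2 (`GA.cj_prime`, `GA.two_mem_cj`), so the first statement holds for it; `κ` maps `stabD P` onto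
`stabD (cj c P)` (`OV.mem_stabD_cj`; `κ (κ a) = a`), `κ` is continuous (`PA.kappa_continuous`), and `y ↦ fun a => y ⟨κ a, _⟩` is an injective linear map from the
cocycles for `ρ ∘ κ` on `stabD P`, `z ↦ fun a => z ⟨κ a, _⟩` to the cocycles for `ρ` on `stabD (cj c P)` (`Module.Finite.of_injective` / `LinearMap`).
-/

set_option autoImplicit false
set_option linter.unusedSectionVars false

namespace Pool.Agent.Work.MP_787500_nt.UV

open Matrix NumberField
open Pool.Agent.Work.MP_787500_nt.GP (inT stabD)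
open Pool.Agent.Work.MP_787500_nt.HP (IsQ stb)
open Pool.Agent.Work.MP_787500_nt.Parity

universe u v

variable {K : Type u} [Field K] [NumberField K] {D : ℕ} {s : K}
  {c : AlgebraicClosure K ≃+* AlgebraicClosure K} {κ : AbsGal K →* AbsGal K} {T : Finset ℕ}
  {Q : ℕ → Ideal (𝓞 (AlgebraicClosure K))} {P : Ideal (𝓞 (AlgebraicClosure K))}
  {E : Type v} [NormedField E] [NormedAlgebra ℚ_[2] E] [FiniteDimensional ℚ_[2] E] {n : ℕ}
  {ρ : AbsGal K →* Matrix (Fin n) (Fin n) E} {b : Matrix (Fin n) (Fin n) E}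

private theorem fd_S1 (H : DatK D s c κ T Q ρ b) (hP : P.IsPrime)
    (hP2 : (2 : 𝓞 (AlgebraicClosure K)) ∈ P) (hD : D % 8 = 7) :
    FiniteDimensional E (Parity.cocycles (fun σ : stabD (K := K) P => ρ σ)) := by
  classical
  have hK : IsQ K D s := ⟨H.isI.deg, H.isI.sq, H.isI.sqf, hD⟩
  have hn : Even n := SF.even_dim hK H.conj H.kap H.prime H.above H.det H.rep H.ram
  have h := RB.main_gen5 hK H.conj H.kap hP hP2 H.prime H.above hn H.det H.rep H.res H.inr H.ram
  refine (h _ ⟨?_, le_rfl⟩).1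
  rintro x ⟨v, hv⟩
  refine ⟨?_, fun σ τ => ?_⟩
  · have hx : x = fun σ : stabD (K := K) P => ρ σ *ᵥ v - v := funext hv
    rw [hx]
    exact ((H.rep.cont.comp continuous_subtype_val).matrix_mulVec continuous_const).sub
      continuous_const
  · rw [hv, hv, hv]
    show ρ ((σ : AbsGal K) * τ) *ᵥ v - v = ρ σ *ᵥ v - v + ρ σ *ᵥ (ρ τ *ᵥ v - v)
    rw [map_mul, ← Matrix.mulVec_mulVec, Matrix.mulVec_sub]
    abel

theorem fd_S (H : DatK D s c κ T Q ρ b) (hP : P.IsPrime)
    (hP2 : (2 : 𝓞 (AlgebraicClosure K)) ∈ P) (hD : D % 8 = 7) :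
    FiniteDimensional E (Parity.cocycles (fun σ : stabD (K := K) P => ρ σ)) ∧
      FiniteDimensional E (Parity.cocycles (fun σ : stabD (K := K) P => (ρ.comp κ) σ)) := by
  refine ⟨fd_S1 H hP hP2 hD, ?_⟩
  have h1 := fd_S1 H (GA.cj_prime (a := c) hP) (GA.two_mem_cj.2 hP2) hD
  have X := QX.two_I H.isI H.conj H.kap
  have hkk : ∀ g, κ (κ g) = g := GA.kap_kap H.conj H.kap
  have hkc : Continuous κ := PA.kappa_continuous H.conj.sq H.kap
  let k : stabD (K := K) (GA.cj c P) →* stabD (K := K) P :=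
    { toFun := fun a => ⟨κ a, (OV.mem_stabD_cj X _).1 a.2⟩
      map_one' := Subtype.ext (map_one κ)
      map_mul' := fun a a' => Subtype.ext (map_mul κ _ _) }
  have hk : Continuous k := (hkc.comp continuous_subtype_val).subtype_mk _
  have hks : Function.Surjective k := fun d =>
    ⟨⟨κ d, (OV.mem_stabD_cj X _).2 (by rw [hkk]; exact d.2)⟩, Subtype.ext (hkk d)⟩
  let f : Parity.cocycles (fun σ : stabD (K := K) P => (ρ.comp κ) σ) →ₗ[E]
      Parity.cocycles (fun σ : stabD (K := K) (GA.cj c P) => ρ σ) :=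
    LinearMap.codRestrict _ (LinearMap.funLeft E (Fin n → E) k ∘ₗ Submodule.subtype _)
      (by
        rintro ⟨y, hy⟩
        refine ⟨hy.1.comp hk, fun σ τ => ?_⟩
        have h := hy.2 (k σ) (k τ)
        rw [← map_mul] at h
        have h2 : (ρ.comp κ) (k σ) = ρ σ := by
          show ρ (κ (κ σ)) = ρ σ
          rw [hkk]
        have h3 : y (k (σ * τ)) = y (k σ) + (ρ.comp κ) (k σ) *ᵥ y (k τ) := h
        rw [h2] at h3
        exact h3)
  have hf : Function.Injective f := by
    intro y z hyz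
    apply Subtype.ext
    funext d
    obtain ⟨a, rfl⟩ := hks d
    exact congrFun (congrArg Subtype.val hyz) a
  exact Module.Finite.of_injective f hf

end Pool.Agent.Work.MP_787500_nt.UV
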