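import Mathlib
import Pool.Agent.Work.MP_787500_nt.SG.Ann
import Pool.Agent.Work.MP_787500_nt.SF.Defs

/-!
# Module UV/AnnT (size S-M): the annihilator of `WInd`, twisted case

PROOF. `annih_WIndT`: the proof of `SG.annih_WInd` (SG/Ann.lean) with `hI'` instead of `hI.kap hκκ hκH`, `val'` instead of
`valK κ val`, `τ'` instead of `τ ∘ kH κ hκH`.
`annih_swapT`: the proof of `SG.annih_swap` (SG/Swap.lean) with `τ' = τ.comp kk`, `val' = valT κ g₀ V` (`SF.isInd_kap` is `hI'`; it is in SF/IndB.lean;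
here it is a hypothesis): `valT κ g₀ V y (a g_i) = V y (κ(a) κ(g_i) g₀⁻¹)`. By `d.dec` for `γ κ(g_i) g₀⁻¹` there are `j`, `h : H` and `δ ∈ A` with
`γ κ(g_i) g₀⁻¹ = δ g_j h`, so `κ(a) κ(g_i) g₀⁻¹ = γ⁻¹ a' g_j h` with `a' = γ κ(a) γ⁻¹ δ ∈ A`, and `V y (γ⁻¹ a' g_j h) = τ(h)⁻¹ V (R γ y) (a' g_j)`; by `hrel`
this is in `annih b (W i)` iff `V (R γ y) (a' g_j) ∈ W j`. Conversely for every `j` and `a'` there are `i`, `a`, `h` with
`γ κ(a g_i) g₀⁻¹ = a' g_j h⁻¹`... : apply `d.dec` to `κ (γ⁻¹ a' g_j g₀) = a₁ g_i h₁` (`κ` is an involution, `g₀ κ(h₁) g₀⁻¹ ∈ H` by `tw.coe`).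
-/

set_option autoImplicit false
set_option linter.unusedSectionVars false

namespace Pool.Agent.Work.MP_787500_nt.UV

open Matrix
open Pool.Agent.Work.MP_787500_nt.SH
open Pool.Agent.Work.MP_787500_nt.SG (WInd)
open Pool.Agent.Work.MP_787500_nt.SF (Tw valT)

section ann

variable {G : Type*} [Group G] {H : Subgroup G} {E : Type*} [NormedField E] {n m : ℕ}
  {τ τ' : H →* Matrix (Fin n) (Fin n) E} {R R' : G →* Matrix (Fin m) (Fin m) E}
  {val val' : (Fin m → E) →ₗ[E] (G → Fin n → E)}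
  {A : Type*} [Group A] {j : A →* G} {Φ : Type*} {B : Φ → Type*} [∀ i, Group (B i)]
  {q : ∀ i, B i →* H} {g : Φ → G} {e : ∀ i, B i →* A} {t : G → A} {ix : G → Φ} {η : G → H}
  {W : Φ → Submodule E (Fin n → E)}

private theorem pair_mulT (M N b : Matrix (Fin n) (Fin n) E) (w z : Fin n → E) :
    (M *ᵥ w) ⬝ᵥ (b *ᵥ (N *ᵥ z)) = w ⬝ᵥ ((Mᵀ * b * N) *ᵥ z) := by
  rw [← mulVec_mulVec, ← mulVec_mulVec, dotProduct_mulVec w Mᵀ, vecMul_transpose]

private theorem exists_suppT (hI : IsInd τ R val) (a : G) (v : Fin n → E) :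
    ∃ f : Fin m → E, val f a = v ∧ ∀ a' : G, a⁻¹ * a' ∉ H → val f a' = 0 := by
  classical
  let F : G → Fin n → E := fun a' => if h : a⁻¹ * a' ∈ H then τ (⟨a⁻¹ * a', h⟩ : H)⁻¹ *ᵥ v else 0
  have hF : Eqv τ F := by
    intro a' k
    by_cases h5 : a⁻¹ * a' ∈ H
    · have h6 : a⁻¹ * (a' * k) ∈ H := by
        rw [← mul_assoc]
        exact H.mul_mem h5 k.2
      show τ k *ᵥ (if h : a⁻¹ * (a' * k) ∈ H then τ (⟨a⁻¹ * (a' * k), h⟩ : H)⁻¹ *ᵥ v else 0) =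
        if h : a⁻¹ * a' ∈ H then τ (⟨a⁻¹ * a', h⟩ : H)⁻¹ *ᵥ v else 0
      rw [dif_pos h6, dif_pos h5, mulVec_mulVec, ← map_mul]
      have h7 : k * (⟨a⁻¹ * (a' * k), h6⟩ : H)⁻¹ = (⟨a⁻¹ * a', h5⟩ : H)⁻¹ := by
        apply Subtype.ext
        show (k : G) * (a⁻¹ * (a' * k))⁻¹ = (a⁻¹ * a')⁻¹
        group
      rw [h7]
    · have h6 : a⁻¹ * (a' * k) ∉ H := by
        intro h7
        apply h5
        have h8 := H.mul_mem h7 (H.inv_mem k.2)
        have h9 : a⁻¹ * (a' * k) * (k : G)⁻¹ = a⁻¹ * a' := by group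
        rwa [h9] at h8
      show τ k *ᵥ (if h : a⁻¹ * (a' * k) ∈ H then τ (⟨a⁻¹ * (a' * k), h⟩ : H)⁻¹ *ᵥ v else 0) =
        if h : a⁻¹ * a' ∈ H then τ (⟨a⁻¹ * a', h⟩ : H)⁻¹ *ᵥ v else 0
      rw [dif_neg h6, dif_neg h5, mulVec_zero]
  obtain ⟨f, hf⟩ := hI.surj F hF
  refine ⟨f, ?_, fun a' ha' => ?_⟩
  · rw [hf]
    show (if h : a⁻¹ * a ∈ H then τ (⟨a⁻¹ * a, h⟩ : H)⁻¹ *ᵥ v else 0) = v
    have h5 : a⁻¹ * a ∈ H := by
      rw [inv_mul_cancel]
      exact H.one_mem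
    rw [dif_pos h5]
    have h6 : (⟨a⁻¹ * a, h5⟩ : H)⁻¹ = 1 := by
      apply Subtype.ext
      show (a⁻¹ * a)⁻¹ = 1
      group
    rw [h6, map_one, one_mulVec]
  · rw [hf]
    exact dif_neg ha'

theorem annih_WIndT (hI : IsInd τ R val) (hI' : IsInd τ' R' val') (d : DC j q g e t ix η)
    [Fintype (G ⧸ H)] {χ : G → E} {b : Matrix (Fin n) (Fin n) E} {bW : Matrix (Fin m) (Fin m) E}
    (hF : IndForm H χ b bW val val') (hχ1 : χ 1 = 1) (hχ : ∀ a a', χ (a * a') = χ a * χ a')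
    (hd : ∀ h : H, (τ h)ᵀ * b * τ' h = χ (h : G) • b)
    (hW : ∀ i b, ∀ x ∈ W i, τ (q i b) *ᵥ x ∈ W i) :
    Parity.annih bW (WInd val j g W) = WInd val' j g (fun i => Parity.annih b (W i)) := by
  classical
  apply le_antisymm
  · intro f' hf' i a₀ w hw
    obtain ⟨f, hf1, hf2⟩ := exists_suppT hI (j a₀ * g i) w
    have hfW : f ∈ WInd val j g W := by
      intro i' a
      by_cases hh : (j a₀ * g i)⁻¹ * (j a * g i') ∈ H
      · have hp : j a * g i' = (j a₀ * g i) * ((⟨_, hh⟩ : H) : G) := by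
          show j a * g i' = (j a₀ * g i) * ((j a₀ * g i)⁻¹ * (j a * g i'))
          group
        have hix : i' = i := by
          have h1 := congrArg ix hp
          rwa [d.ixd, d.ixg, d.ixh, d.ixd, d.ixg] at h1
        subst hix
        rw [hp, hI.mul_right, hf1]
        have hj : j (a₀⁻¹ * a) = g i' * ((⟨_, hh⟩ : H) : G) * (g i')⁻¹ := by
          show j (a₀⁻¹ * a) = g i' * ((j a₀ * g i')⁻¹ * (j a * g i')) * (g i')⁻¹
          rw [map_mul, map_inv]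
          group
        obtain ⟨c, hc⟩ := d.img i' _ _ hj
        rw [← hc, ← map_inv]
        exact hW i' c⁻¹ w hw
      · rw [hf2 _ hh]
        exact (W i').zero_mem
    have h0 := hf' f hfW
    let x₀ : G ⧸ H := ((j a₀ * g i : G) : G ⧸ H)
    have hs : ∀ x : G ⧸ H, ((Function.update (fun x : G ⧸ H => x.out) x₀ (j a₀ * g i) x : G) : G ⧸ H)
        = x := by
      intro x
      by_cases hx : x = x₀
      · rw [hx, Function.update_self]
      · rw [Function.update_of_ne hx]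
        exact QuotientGroup.out_eq' x
    rw [hF _ hs, Finset.sum_eq_single x₀] at h0
    · rw [Function.update_self, hf1] at h0
      refine (mul_eq_zero.1 h0).resolve_left fun hz => ?_
      have h1 := hχ (j a₀ * g i) (j a₀ * g i)⁻¹
      rw [mul_inv_cancel, hχ1, hz, zero_mul] at h1
      exact one_ne_zero h1
    · intro x _ hx
      have h1 : (j a₀ * g i)⁻¹ * (Function.update (fun x : G ⧸ H => x.out) x₀ (j a₀ * g i) x) ∉ H := by
        intro h2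
        apply hx
        rw [← QuotientGroup.eq] at h2
        rw [← hs x]
        exact h2.symm
      rw [hf2 _ h1, zero_dotProduct, mul_zero]
    · intro hx
      exact absurd (Finset.mem_univ _) hx
  · intro f' hf' f hf
    rw [hF (fun x : G ⧸ H => x.out) (fun x => QuotientGroup.out_eq' x)]
    refine Finset.sum_eq_zero fun x _ => ?_
    have h1 := d.dec x.out
    have h2 : val f x.out = τ (η x.out)⁻¹ *ᵥ val f (j (t x.out) * g (ix x.out)) := by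
      conv_lhs => rw [h1]
      exact hI.mul_right f _ _
    have h3 : val' f' x.out =
        τ' (η x.out)⁻¹ *ᵥ val' f' (j (t x.out) * g (ix x.out)) := by
      conv_lhs => rw [h1]
      exact hI'.mul_right f' _ _
    rw [h2, h3, pair_mulT, hd, smul_mulVec, dotProduct_smul, hf' (ix x.out) (t x.out) _ (hf _ _),
      smul_zero, mul_zero]

end ann

section swap

variable {G : Type*} [Group G] {H : Subgroup G} {E : Type*} [NormedField E] {n m : ℕ}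
  {τ : H →* Matrix (Fin n) (Fin n) E} {R : G →* Matrix (Fin m) (Fin m) E}
  {V : (Fin m → E) →ₗ[E] (G → Fin n → E)}
  {A : Subgroup G} {Φ : Type*} {B : Φ → Type*} [∀ i, Group (B i)]
  {q : ∀ i, B i →* H} {g : Φ → G} {e : ∀ i, B i →* A} {t : G → A} {ix : G → Φ} {η : G → H}
  {W : Φ → Submodule E (Fin n → E)} {κ : G →* G} {g₀ : G} {kk : H →* H}

theorem annih_swapT (hI : IsInd τ R V) (hI' : IsInd (τ.comp kk) (R.comp κ) (valT κ g₀ V))
    (d : DC A.subtype q g e t ix η) [Fintype (G ⧸ H)] {χ : G → E}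
    {b : Matrix (Fin n) (Fin n) E} {bW : Matrix (Fin m) (Fin m) E} (tw : Tw H κ g₀ kk)
    (hF : IndForm H χ b bW V (valT κ g₀ V)) (hχ1 : χ 1 = 1) (hχ : ∀ a a', χ (a * a') = χ a * χ a')
    (hd : ∀ h : H, (τ h)ᵀ * b * τ (kk h) = χ (h : G) • b)
    (hW : ∀ i b, ∀ x ∈ W i, τ (q i b) *ᵥ x ∈ W i) {γ : G}
    (hγ : ∀ a, a ∈ A ↔ γ * κ a * γ⁻¹ ∈ A)
    (hrel : ∀ i j (h : H), γ * κ (g i) * g₀⁻¹ * (h : G)⁻¹ * (g j)⁻¹ ∈ A →
      ∀ y, y ∈ Parity.annih b (W i) ↔ τ h *ᵥ y ∈ W j) (y : Fin m → E) :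
    y ∈ Parity.annih bW (WInd V A.subtype g W) ↔ R γ *ᵥ y ∈ WInd V A.subtype g W := by
  have hg : ∀ a : G, ∃ i, ∃ (x : A) (h : H), a = x * g i * h := fun a => ⟨ix a, t a, η a, d.dec a⟩
  have hd' : ∀ h : H, (τ h)ᵀ * b * (τ.comp kk) h = χ (h : G) • b := hd
  rw [annih_WIndT hI hI' d hF hχ1 hχ hd' hW, SG.mem_WInd, SG.mem_WInd]
  have e1 : ∀ i (a : A), valT κ g₀ V y (A.subtype a * g i) = V y (κ ((a : G) * g i) * g₀⁻¹) :=
    fun i a => rfl
  have e2 : ∀ i (a : A), V (R γ *ᵥ y) (A.subtype a * g i) = V y (γ⁻¹ * ((a : G) * g i)) :=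
    fun i a => hI.act _ _ _
  have hmul : ∀ (a : G) (h : H), τ h *ᵥ V y (a * h) = V y a := fun a h => hI.eqv y a h
  constructor
  · intro H1 j a
    rw [e2]
    obtain ⟨i, a₁, k, hk⟩ := hg (κ (γ⁻¹ * ((a : G) * g j) * g₀))
    have h1 : γ⁻¹ * ((a : G) * g j) = κ ((a₁ : G) * g i) * g₀⁻¹ * (kk k : H) := by
      have h0 : γ⁻¹ * ((a : G) * g j) * g₀ = κ ((a₁ : G) * g i) * κ (k : G) := by
        rw [← map_mul, ← hk, tw.inv]
      have h00 : γ⁻¹ * ((a : G) * g j) = κ ((a₁ : G) * g i) * κ (k : G) * g₀⁻¹ := by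
        rw [← h0, mul_inv_cancel_right]
      rw [h00, tw.coe]
      group
    have h2 : γ * κ (g i) * g₀⁻¹ * ((kk k)⁻¹⁻¹ : H) * (g j)⁻¹ ∈ A := by
      have h3 : κ (g i) * g₀⁻¹ * (kk k : H) = κ ((a₁ : G)⁻¹) * (γ⁻¹ * ((a : G) * g j)) := by
        rw [h1, map_mul, map_inv]
        group
      have h4 : γ * κ (g i) * g₀⁻¹ * ((kk k)⁻¹⁻¹ : H) * (g j)⁻¹ =
          γ * κ ((a₁ : G)⁻¹) * γ⁻¹ * a := by
        rw [inv_inv, mul_assoc γ, mul_assoc γ, h3]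
        group
      rw [h4]
      exact A.mul_mem ((hγ _).1 (A.inv_mem a₁.2)) a.2
    have h3 := (hrel i j (kk k)⁻¹ (by rwa [Subgroup.coe_inv] at h2)
      (V y (κ ((a₁ : G) * g i) * g₀⁻¹))).1 (H1 i a₁)
    have h4 := hmul (κ ((a₁ : G) * g i) * g₀⁻¹) (kk k)
    rw [← h1] at h4
    rw [← h4, mulVec_mulVec, ← map_mul, inv_mul_cancel, map_one, one_mulVec] at h3
    exact h3
  · intro H1 i a
    rw [e1]
    obtain ⟨j, δ, h, hh⟩ := hg (γ * κ (g i) * g₀⁻¹)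
    have h2 : γ * κ (g i) * g₀⁻¹ * (h : G)⁻¹ * (g j)⁻¹ ∈ A := by
      have h3 : γ * κ (g i) * g₀⁻¹ * (h : G)⁻¹ * (g j)⁻¹ = δ := by
        rw [hh]
        group
      rw [h3]
      exact δ.2
    rw [hrel i j h h2]
    have h3 : κ ((a : G) * g i) * g₀⁻¹ * ((h⁻¹ : H) : G) =
        γ⁻¹ * ((γ * κ a * γ⁻¹ * δ : G) * g j) := by
      have h4 : κ (g i) * g₀⁻¹ = γ⁻¹ * (δ * g j * h) := by
        rw [← hh]
        group
      rw [map_mul, mul_assoc (κ (a : G)), h4, Subgroup.coe_inv]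
      group
    have h4 := hmul (κ ((a : G) * g i) * g₀⁻¹) h⁻¹
    rw [h3] at h4
    rw [← h4, mulVec_mulVec, ← map_mul, mul_inv_cancel, map_one, one_mulVec]
    have h5 := H1 j ⟨γ * κ a * γ⁻¹ * δ, A.mul_mem ((hγ _).1 a.2) δ.2⟩
    rw [e2] at h5
    exact h5

end swap

end Pool.Agent.Work.MP_787500_nt.UV
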