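import Mathlib
import Pool.Agent.Work.MP_787500_nt.UV.Defs
import Pool.Agent.Work.MP_787500_nt.SH.Cup
import Pool.Agent.Work.MP_787500_nt.SH.ShB
import Pool.Agent.Work.MP_787500_nt.SG.GrS
import Pool.Agent.Work.MP_787500_nt.SG.WFix

/-!
# Module UV/ShU (size S-M): Shapiro's lemma for annihilators, for Greenberg's condition and for dimensions

PROOF. `perp_LW`: `SH.shP_perp` (and the first component of `IsPerp`) and `SH.perp_of_shP`.
`LW_inf`: `mem_LW`. `LW_inj`: for `z ∈ L i` apply `SH.exists_sh` to the family that is `z` at `i` and `0` elsewhere: there is `y` in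
`LW L` with `shP i y = z` (`Function.update`; `L i'` contains 0), so `z ∈ L' i`; and conversely.
`dim_LW2`: `dimModulo (LW L) B = dimModulo (LW L) (LW L') + dimModulo (LW L') B` for `B ≤ LW L' ≤ LW L` (`GP.dimModulo_add` or
`Submodule.finrank_quotient_add_finrank`), the same for every `i`, and `SH.dim_LW` for `L` and `L'` (`SH.fd_LW` for the finite dimensions).
`gr_LW`: `SG.gr_sh` and `SH.shP_coc` (`greenbergAt R A M = {y | IsCocycle (fun σ : A => R σ) y ∧ ∃ v, ∀ σ : A, y σ - (R σ *ᵥ v - v) ∈ M}`).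
-/

set_option autoImplicit false
set_option linter.unusedSectionVars false

namespace Pool.Agent.Work.MP_787500_nt.UV

open Matrix
open Pool.Agent.Work.MP_787500_nt.SH
open Pool.Agent.Work.MP_787500_nt.SG (WInd)

section perp

variable {G : Type*} [Group G] [TopologicalSpace G] [IsTopologicalGroup G] {H : Subgroup G}
  [Fintype (G ⧸ H)] {E : Type*} [NormedField E] {n m : ℕ}
  {τ τ' : H →* Matrix (Fin n) (Fin n) E} {R R' : G →* Matrix (Fin m) (Fin m) E}
  {val val' : (Fin m → E) →ₗ[E] (G → Fin n → E)} {χ : G → E} {b : Matrix (Fin n) (Fin n) E}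
  {bW : Matrix (Fin m) (Fin m) E}
  {A : Type*} [Group A] [TopologicalSpace A] {j : A →* G} {Φ : Type*} [Fintype Φ] [DecidableEq Φ]
  {B : Φ → Type*} [∀ i, Group (B i)] [∀ i, TopologicalSpace (B i)]
  {q : ∀ i, B i →* H} {g : Φ → G} {e : ∀ i, B i →* A} {t : G → A} {ix : G → Φ} {η : G → H}
  {L : ∀ i, Submodule E (B i → Fin n → E)}

theorem perp_LW (hI : IsInd τ R val) (hI' : IsInd τ' R' val') (hF : IndForm H χ b bW val val')
    (hRc : Continuous R) (hRc' : Continuous R') (hχc : Continuous χ) (hχ1 : χ 1 = 1)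
    (hχ : ∀ a a', χ (a * a') = χ a * χ a') (hdual : ∀ a, (R a)ᵀ * bW * R' a = χ a • bW)
    (d : DC j q g e t ix η) (dt : DCT j q e η)
    (hL : ∀ i, Parity.Between (Parity.coboundaries (fun b => τ (q i b))) (L i)
      (Parity.cocycles (fun b => τ (q i b))))
    (hinj : ∀ (i : Φ) (x x' : B i → Fin n → E), Parity.IsCocycle (fun b => τ (q i b)) x →
      Parity.IsCocycle (fun b => τ' (q i b)) x' →
      BEt (fun a => χ (j a)) (corS χ j ix η i fun h h' =>
        zh q i x h ⬝ᵥ (b *ᵥ (τ' h *ᵥ zh q i x' h'))) →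
      BEt (fun b => χ (q i b)) fun a a' => x a ⬝ᵥ (b *ᵥ (τ' (q i a) *ᵥ x' a'))) :
    perpAt (fun a => χ (j a)) (fun a => R' (j a)) bW (LW (fun a => R (j a)) val g e L) =
      LW (fun a => R' (j a)) val' g e
        (fun i => perpAt (fun x => χ (q i x)) (fun x => τ' (q i x)) b (L i)) := by
  ext y
  rw [mem_perpAt, mem_LW]
  constructor
  · intro h
    exact ⟨h.1, fun i => mem_perpAt.2
      (shP_perp hI hI' hF hRc hRc' hχc hχ1 hχ hdual d dt hL hinj h i)⟩
  · rintro ⟨h1, h2⟩
    exact perp_of_shP hI hI' hF hRc hRc' hχc hχ1 hχ hdual d dt hL h1 fun i => mem_perpAt.1 (h2 i)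

end perp

section dim

variable {G : Type*} [Group G] {H : Subgroup G} {E : Type*} [NormedField E] {n m : ℕ}
  {τ : H →* Matrix (Fin n) (Fin n) E} {R : G →* Matrix (Fin m) (Fin m) E}
  {val : (Fin m → E) →ₗ[E] (G → Fin n → E)}
  {A : Type*} [Group A] {j : A →* G} {Φ : Type*} {B : Φ → Type*} [∀ i, Group (B i)]
  {q : ∀ i, B i →* H} {g : Φ → G} {e : ∀ i, B i →* A} {t : G → A} {ix : G → Φ} {η : G → H}
  [TopologicalSpace G] [TopologicalSpace A] [∀ i, TopologicalSpace (B i)] [IsTopologicalGroup G]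
  {L L' : ∀ i, Submodule E (B i → Fin n → E)}

theorem LW_inf : LW (fun a => R (j a)) val g e L ⊓ LW (fun a => R (j a)) val g e L' =
    LW (fun a => R (j a)) val g e (fun i => L i ⊓ L' i) := by
  ext y
  rw [Submodule.mem_inf, mem_LW, mem_LW, mem_LW]
  constructor
  · rintro ⟨⟨h1, h2⟩, -, h3⟩
    exact ⟨h1, fun i => ⟨h2 i, h3 i⟩⟩
  · rintro ⟨h1, h2⟩
    exact ⟨⟨h1, fun i => (h2 i).1⟩, h1, fun i => (h2 i).2⟩

private theorem inj_aux (hI : IsInd τ R val) (d : DC j q g e t ix η) (dt : DCT j q e η)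
    (hL : ∀ i, L i ≤ Parity.cocycles (fun b => τ (q i b)))
    (h : LW (fun a => R (j a)) val g e L ≤ LW (fun a => R (j a)) val g e L') (i : Φ) :
    L i ≤ L' i := by
  classical
  intro x hx
  set z : ∀ k, B k → Fin n → E := Pi.single i x with hz
  have hzL : ∀ k, z k ∈ L k := by
    intro k
    by_cases hk : k = i
    · subst hk
      rw [hz, Pi.single_eq_same]
      exact hx
    · rw [hz, Pi.single_eq_of_ne hk]
      exact Submodule.zero_mem _
  obtain ⟨y, hy1, hy2, -⟩ := exists_sh hI d dt z fun k => hL k (hzL k)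
  have hy3 : y ∈ LW (fun a => R (j a)) val g e L := by
    rw [mem_LW]
    refine ⟨hy1, fun k => ?_⟩
    rw [hy2]
    exact hzL k
  have h4 := (mem_LW.1 (h hy3)).2 i
  rw [hy2, hz, Pi.single_eq_same] at h4
  exact h4

theorem LW_inj (hI : IsInd τ R val) (d : DC j q g e t ix η) (dt : DCT j q e η)
    (hL : ∀ i, L i ≤ Parity.cocycles (fun b => τ (q i b)))
    (hL' : ∀ i, L' i ≤ Parity.cocycles (fun b => τ (q i b)))
    (h : LW (fun a => R (j a)) val g e L = LW (fun a => R (j a)) val g e L') (i : Φ) :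
    L i = L' i := le_antisymm (inj_aux hI d dt hL h.le i) (inj_aux hI d dt hL' h.ge i)

private theorem finrank_quot2 {M : Type*} [AddCommGroup M] [Module E M] {ι : Type*} [Fintype ι]
    {N : ι → Type*} [∀ i, AddCommGroup (N i)] [∀ i, Module E (N i)] [∀ i, Module.Finite E (N i)]
    (f : ∀ i, M →ₗ[E] N i) (hs : ∀ z : ∀ i, N i, ∃ x, ∀ i, f i x = z i) (K : Submodule E M)
    (hK : ∀ x, x ∈ K ↔ ∀ i, f i x = 0) :
    Module.finrank E (M ⧸ K) = ∑ i, Module.finrank E (N i) := by
  let φ : M →ₗ[E] (∀ i, N i) := LinearMap.pi f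
  have hφs : Function.Surjective φ := by
    intro z
    obtain ⟨x, hx⟩ := hs z
    exact ⟨x, funext hx⟩
  have hker : LinearMap.ker φ = K := by
    ext x
    rw [hK, LinearMap.mem_ker, funext_iff]
    rfl
  rw [← hker, ← Module.finrank_pi_fintype]
  exact LinearEquiv.finrank_eq (LinearMap.quotKerEquivOfSurjective φ hφs)

theorem dim_LW2 (hI : IsInd τ R val) (d : DC j q g e t ix η) (dt : DCT j q e η) [Fintype Φ]
    (hL : ∀ i, Parity.Between (Parity.coboundaries (fun b => τ (q i b))) (L i)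
      (Parity.cocycles (fun b => τ (q i b))))
    (hL' : ∀ i, Parity.Between (Parity.coboundaries (fun b => τ (q i b))) (L' i) (L i))
    (hfd : ∀ i, FiniteDimensional E (L i)) :
    Parity.dimModulo (LW (fun a => R (j a)) val g e L) (LW (fun a => R (j a)) val g e L') =
      ∑ i, Parity.dimModulo (L i) (L' i) := by
  refine finrank_quot2 (M := LW (fun a => R (j a)) val g e L)
    (N := fun i => L i ⧸ (L' i).submoduleOf (L i))
    (fun i => ((L' i).submoduleOf (L i)).mkQ.comp
      (((shP val g e i).comp (LW (fun a => R (j a)) val g e L).subtype).codRestrict (L i)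
        fun y => (mem_LW.mp y.2).2 i)) (fun z => ?_) _ (fun y => ?_)
  · have h1 : ∀ i, ∃ w : L i, ((L' i).submoduleOf (L i)).mkQ w = z i :=
      fun i => Submodule.mkQ_surjective _ (z i)
    choose w hw using h1
    obtain ⟨y, hy1, hy2, -⟩ := exists_sh hI d dt (fun i => (w i : B i → Fin n → E))
      (fun i => (hL i).2 (w i).2)
    refine ⟨⟨y, mem_LW.mpr ⟨hy1, fun i => ?_⟩⟩, fun i => ?_⟩
    · rw [hy2 i]
      exact (w i).2
    · rw [← hw i, LinearMap.comp_apply]
      refine congrArg ((L' i).submoduleOf (L i)).mkQ (Subtype.ext ?_)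
      exact hy2 i
  · have h1 : (∀ i, (((L' i).submoduleOf (L i)).mkQ.comp
        (((shP val g e i).comp (LW (fun a => R (j a)) val g e L).subtype).codRestrict (L i)
          fun y => (mem_LW.mp y.2).2 i)) y = 0) ↔ ∀ i, shP val g e i y ∈ L' i := by
      refine forall_congr' fun i => ?_
      exact Submodule.Quotient.mk_eq_zero _
    rw [h1]
    constructor
    · intro h i
      exact (mem_LW.1 (show (y : A → Fin m → E) ∈ LW (fun a => R (j a)) val g e L' from h)).2 i
    · intro h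
      exact mem_LW.2 ⟨(mem_LW.1 y.2).1, h⟩

end dim

section gr

variable {G : Type*} [Group G] [TopologicalSpace G] [IsTopologicalGroup G] {H : Subgroup G}
  {E : Type*} [NormedField E] {n m : ℕ}
  {τ : H →* Matrix (Fin n) (Fin n) E} {R : G →* Matrix (Fin m) (Fin m) E}
  {V : (Fin m → E) →ₗ[E] (G → Fin n → E)}
  {A : Subgroup G} {Φ : Type*} {D : Φ → Subgroup H} {g : Φ → G}
  {e : ∀ i, D i →* A} {t : G → A} {ix : G → Φ} {η : G → H} {W : Φ → Submodule E (Fin n → E)}

theorem gr_LW (hI : IsInd τ R V) (d : DC A.subtype (fun i => (D i).subtype) g e t ix η)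
    (dt : DCT A.subtype (fun i => (D i).subtype) e η)
    (hW : ∀ i, ∀ σ ∈ D i, ∀ x ∈ W i, τ σ *ᵥ x ∈ W i) :
    Parity.greenbergAt R A (WInd V A.subtype g W) =
      LW (fun a : A => R a) V g e (fun i => Parity.greenbergAt τ (D i) (W i)) := by
  ext y
  rw [mem_LW]
  constructor
  · rintro ⟨h1, h2⟩
    refine ⟨h1, fun i => ⟨?_, ?_⟩⟩
    · exact shP_coc hI d dt h1 i
    · exact (SG.gr_sh hI d (W := W) (fun i b x hx => hW i b b.2 x hx) h1.2).1 h2 i
  · rintro ⟨h1, h2⟩
    exact ⟨h1, (SG.gr_sh hI d (W := W) (fun i b x hx => hW i b b.2 x hx) h1.2).2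
      fun i => (h2 i).2⟩

end gr

end Pool.Agent.Work.MP_787500_nt.UV
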