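import Mathlib
import Pool.Agent.Work.MP_787500_nt.UV.Defs
import Pool.Agent.Work.MP_787500_nt.UV.ShU
import Pool.Agent.Work.MP_787500_nt.UV.AnnT
import Pool.Agent.Work.MP_787500_nt.UV.KeyB

/-!
# Module UV/GrPi (size S): the annihilator of Greenberg's condition for the subgroups `D i`

PROOF. Let `G i = greenbergAt τ (D i) (W i)` (between the coboundaries and the cocycles), `G' i = greenbergAt (τ.comp kk) (D i) (annih b (W i))`. `greenbergAt R A (WInd ..) = LW G` (`gr_LW`),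
`perpAt (LW G) = LW' (perpAt (G i))` (`perp_LW`), `annih bW (WInd ..) = WInd (valT κ g₀ V) A.subtype g (annih b (W i))` (`annih_WIndT`; these are stable under `τ ∘ kk`, see `hWa` in the
proof of `SG.main_ord`) and `greenbergAt (R.comp κ) A (..) = LW' G'` (`gr_LW` for `hI'`). So by `h` `LW' (perpAt (G i)) = LW' G'`, and `LW_inj hI'`.
-/

set_option autoImplicit false
set_option linter.unusedSectionVars false

namespace Pool.Agent.Work.MP_787500_nt.UV

open Matrix
open Pool.Agent.Work.MP_787500_nt.SH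
open Pool.Agent.Work.MP_787500_nt.SG (WInd)
open Pool.Agent.Work.MP_787500_nt.SF (Tw valT)

variable {G : Type*} [Group G] [TopologicalSpace G] [IsTopologicalGroup G] {H : Subgroup G}
  [Fintype (G ⧸ H)] {E : Type*} [NormedField E] {n m : ℕ}
  {τ : H →* Matrix (Fin n) (Fin n) E} {R : G →* Matrix (Fin m) (Fin m) E}
  {V : (Fin m → E) →ₗ[E] (G → Fin n → E)} {χ : G → E} {b : Matrix (Fin n) (Fin n) E}
  {bW : Matrix (Fin m) (Fin m) E} {κ : G →* G} {g₀ : G} {kk : H →* H}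
  {A : Subgroup G} {Φ : Type*} [Fintype Φ] [DecidableEq Φ] {D : Φ → Subgroup H} {g : Φ → G}
  {e : ∀ i, D i →* A} {t : G → A} {ix : G → Φ} {η : G → H} {W : Φ → Submodule E (Fin n → E)}

theorem gr_pi (hκc : Continuous κ) (tw : Tw H κ g₀ kk) (hkc : Continuous kk)
    (hI : IsInd τ R V) (hI' : IsInd (τ.comp kk) (R.comp κ) (valT κ g₀ V))
    (hF : IndForm H χ b bW V (valT κ g₀ V))
    (hτc : Continuous τ) (hRc : Continuous R) (hχc : Continuous χ) (hχ1 : χ 1 = 1)
    (hχ : ∀ a a', χ (a * a') = χ a * χ a')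
    (hdual : ∀ a, (R a)ᵀ * bW * R (κ a) = χ a • bW)
    (hdτ : ∀ h : H, (τ h)ᵀ * b * τ (kk h) = χ h • b)
    (d : DC A.subtype (fun i => (D i).subtype) g e t ix η)
    (dt : DCT A.subtype (fun i => (D i).subtype) e η)
    (hinj : ∀ (i : Φ) (x x' : D i → Fin n → E),
      Parity.IsCocycle (fun b => τ ((D i).subtype b)) x →
      Parity.IsCocycle (fun b => (τ.comp kk) ((D i).subtype b)) x' →
      BEt (fun a : A => χ (A.subtype a)) (corS χ A.subtype ix η i fun h h' =>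
        zh (fun i => (D i).subtype) i x h ⬝ᵥ
          (b *ᵥ ((τ.comp kk) h *ᵥ zh (fun i => (D i).subtype) i x' h'))) →
      BEt (fun b : D i => χ ((D i).subtype b)) fun a a' =>
        x a ⬝ᵥ (b *ᵥ ((τ.comp kk) ((D i).subtype a) *ᵥ x' a')))
    (hW : ∀ i, ∀ σ ∈ D i, ∀ x ∈ W i, τ σ *ᵥ x ∈ W i)
    (h : perpAt (fun σ : A => χ σ) (fun σ : A => R (κ σ)) bW
        (Parity.greenbergAt R A (WInd V A.subtype g W)) =
      Parity.greenbergAt (R.comp κ) A (Parity.annih bW (WInd V A.subtype g W))) (i : Φ) :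
    perpAt (fun σ : D i => χ σ) (fun σ : D i => τ (kk σ)) b
        (Parity.greenbergAt τ (D i) (W i)) =
      Parity.greenbergAt (τ.comp kk) (D i) (Parity.annih b (W i)) := by
  have hdd : ∀ (h : H) (x y : Fin n → E),
      (τ h *ᵥ x) ⬝ᵥ (b *ᵥ (τ (kk h) *ᵥ y)) = χ h * (x ⬝ᵥ (b *ᵥ y)) := by
    intro h x y
    rw [← vecMul_transpose, ← dotProduct_mulVec, mulVec_mulVec, mulVec_mulVec, hdτ, smul_mulVec,
      dotProduct_smul, smul_eq_mul]
  have hWa : ∀ i, ∀ σ ∈ D i, ∀ x ∈ Parity.annih b (W i),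
      (τ.comp kk) σ *ᵥ x ∈ Parity.annih b (W i) := by
    intro i σ hσ x hx w hw
    have h1 := hx _ (hW i σ⁻¹ ((D i).inv_mem hσ) w hw)
    have h2 := hdd σ (τ σ⁻¹ *ᵥ w) x
    have h3 : τ σ *ᵥ (τ σ⁻¹ *ᵥ w) = w := by
      rw [mulVec_mulVec, ← map_mul, mul_inv_cancel, map_one, one_mulVec]
    rw [h3, h1, mul_zero] at h2
    exact h2
  have hcob : ∀ i, Parity.coboundaries (fun b => τ ((D i).subtype b)) ≤
      Parity.cocycles (fun b => τ ((D i).subtype b)) := fun i =>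
    cob_coc (fun s t => by rw [map_mul, map_mul]) (hτc.comp continuous_subtype_val)
  have hL : ∀ i, Parity.Between (Parity.coboundaries (fun b => τ ((D i).subtype b)))
      (Parity.greenbergAt τ (D i) (W i)) (Parity.cocycles (fun b => τ ((D i).subtype b))) := by
    intro i
    refine ⟨fun x hx => ⟨hcob i hx, ?_⟩, fun x hx => hx.1⟩
    obtain ⟨v, hv⟩ := hx
    refine ⟨v, fun σ => ?_⟩
    rw [hv σ]
    show τ σ *ᵥ v - v - (τ σ *ᵥ v - v) ∈ W i
    rw [sub_self]
    exact (W i).zero_mem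
  have e1 := gr_LW hI d dt hW
  have e2 := gr_LW hI' d dt hWa
  have e3 := annih_WIndT hI hI' d hF hχ1 hχ hdτ (fun i σ x hx => hW i σ σ.2 x hx)
  have e4 := perp_LW hI hI' hF hRc (hRc.comp hκc) hχc hχ1 hχ hdual d dt hL hinj
  rw [e3, e2, e1] at h
  have h5 := e4.symm.trans h
  have h6 := LW_inj hI' d dt (L := fun i => perpAt (fun σ : D i => χ σ)
      (fun σ : D i => τ (kk σ)) b (Parity.greenbergAt τ (D i) (W i)))
    (L' := fun i => Parity.greenbergAt (τ.comp kk) (D i) (Parity.annih b (W i)))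
    (fun i x hx => (show Parity.IsPerp _ _ _ _ x from hx).1)
    (fun i x hx => (show _ ∧ _ from hx).1) h5 i
  exact h6

end Pool.Agent.Work.MP_787500_nt.UV
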