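import Mathlib
import Pool.Agent.Work.MP_787500_nt.KR.PDefs

/-!
# Module UV/LocIso (size S-M): local duality and isomorphisms of groups

PROOF. Everything is transported by `e` (compare `OV.eulF_iso` in OV/EulD.lean): `Sm1`, `Sm2`, `Z1`, `Z2`, `B2`, `Coc`, `Cob`,
`C1`, `Smooth` for `S` and `x ∘ e` (or `f (e a) (e b)`) correspond to the same for `S'` and `x`, by `hS`
(`S.mem W → S'.mem (W.comap e.symm.toMonoidHom)`). For `ld`: for a pair `ρ`, `ρ'` of `D` take `fun g => ρ (e.symm g)` of `D'`.
-/

set_option autoImplicit false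
set_option linter.unusedSectionVars false

namespace Pool.Agent.Work.MP_787500_nt.UV

open Pool.Agent.Work.MP_787500_nt.GP (A0 IsAct d0 d1 d2 tw cup11 cup02 cup01)
open Pool.Agent.Work.MP_787500_nt.KR

universe v

variable {D D' : Type*} [Group D] [Group D'] {S : FSys D} {S' : FSys D'} {χ : D' → ℤ_[2]}
  {inv : (D' → D' → A0) → A0}

section aux

variable (e : D ≃* D') (hS : ∀ W : Subgroup D', S.mem (W.comap e.toMonoidHom) ↔ S'.mem W)
include hS

private theorem mem_to {W : Subgroup D} (hW : S.mem W) : S'.mem (W.comap e.symm.toMonoidHom) := by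
  rw [← hS]
  have h1 : (W.comap e.symm.toMonoidHom).comap e.toMonoidHom = W := by
    ext x
    show e.symm (e x) ∈ W ↔ x ∈ W
    rw [e.symm_apply_apply]
  rw [h1]
  exact hW

private theorem sm1_to {A : Type*} {x : D → A} (h : Sm1 S x) : Sm1 S' (fun g => x (e.symm g)) := by
  obtain ⟨W, hW, h1⟩ := h
  refine ⟨_, mem_to e hS hW, fun g w hw => ?_⟩
  show x (e.symm (g * w)) = x (e.symm g)
  rw [map_mul]
  exact h1 _ _ hw

private theorem sm1_from {A : Type*} {x : D' → A} (h : Sm1 S' x) : Sm1 S (fun g => x (e g)) := by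
  obtain ⟨W, hW, h1⟩ := h
  refine ⟨_, (hS W).2 hW, fun g w hw => ?_⟩
  show x (e (g * w)) = x (e g)
  rw [map_mul]
  exact h1 _ _ hw

private theorem sm2_to {A : Type*} {f : D → D → A} (h : Sm2 S f) :
    Sm2 S' (fun a b => f (e.symm a) (e.symm b)) := by
  obtain ⟨W, hW, h1⟩ := h
  refine ⟨_, mem_to e hS hW, fun g k w hw w' hw' => ?_⟩
  show f (e.symm (g * w)) (e.symm (k * w')) = f (e.symm g) (e.symm k)
  rw [map_mul, map_mul]
  exact h1 _ _ _ hw _ hw'

private theorem sm2_from {A : Type*} {f : D' → D' → A} (h : Sm2 S' f) :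
    Sm2 S (fun a b => f (e a) (e b)) := by
  obtain ⟨W, hW, h1⟩ := h
  refine ⟨_, (hS W).2 hW, fun g k w hw w' hw' => ?_⟩
  show f (e (g * w)) (e (k * w')) = f (e g) (e k)
  rw [map_mul, map_mul]
  exact h1 _ _ _ hw _ hw'

private theorem z1_to {M : Type*} [AddCommGroup M] {ρ : D → M → M} {x : D → M} (h : Z1 S ρ x) :
    Z1 S' (fun g => ρ (e.symm g)) (fun g => x (e.symm g)) := by
  refine ⟨sm1_to e hS h.1, fun a b => ?_⟩
  show x (e.symm (a * b)) = x (e.symm a) + ρ (e.symm a) (x (e.symm b))
  rw [map_mul, h.2]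

private theorem z1_from {M : Type*} [AddCommGroup M] {ρ : D → M → M} {x : D' → M}
    (h : Z1 S' (fun g => ρ (e.symm g)) x) : Z1 S ρ (fun g => x (e g)) := by
  refine ⟨sm1_from e hS h.1, fun a b => ?_⟩
  show x (e (a * b)) = x (e a) + ρ a (x (e b))
  rw [map_mul, h.2]
  show x (e a) + ρ (e.symm (e a)) (x (e b)) = _
  rw [e.symm_apply_apply]

private theorem z2_to {M : Type*} [AddCommGroup M] {ρ : D → M → M} {ρ' : D' → M → M}
    (hρ : ∀ g, ρ' g = ρ (e.symm g)) {f : D → D → M} (h : Z2 S ρ f) :
    Z2 S' ρ' (fun a b => f (e.symm a) (e.symm b)) := by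
  refine ⟨sm2_to e hS h.1, fun a b c => ?_⟩
  have h2 := h.2 (e.symm a) (e.symm b) (e.symm c)
  simp only [d2, hρ, map_mul] at h2 ⊢
  exact h2

private theorem b2_from {M : Type*} [AddCommGroup M] {ρ : D → M → M} {ρ' : D' → M → M}
    (hρ : ∀ g, ρ' g = ρ (e.symm g)) {f : D → D → M}
    (h : B2 S' ρ' (fun a b => f (e.symm a) (e.symm b))) : B2 S ρ f := by
  obtain ⟨x, hx, h1⟩ := h
  refine ⟨fun g => x (e g), sm1_from e hS hx, ?_⟩
  funext a b
  have h2 := congrFun (congrFun h1 (e a)) (e b)
  simp only [d1, hρ, e.symm_apply_apply, ← map_mul] at h2 ⊢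
  exact h2

end aux

private theorem tw_to (e : D ≃* D') (g : D') :
    tw χ g = tw (fun d => χ (e d)) (e.symm g) := by
  funext t
  simp only [tw, e.apply_symm_apply]

theorem locH_iso (e : D ≃* D')
    (hS : ∀ W : Subgroup D', S.mem (W.comap e.toMonoidHom) ↔ S'.mem W) (h : LocH S' χ inv) :
    LocH S (fun d => χ (e d)) (fun f => inv (fun a b => f (e.symm a) (e.symm b))) := by
  refine ⟨⟨?_, fun a b => ?_, fun n => ?_, fun g => h.char.odd _⟩, fun f f' hf hf' => ?_,
    fun z hz => ?_⟩
  · show χ (e 1) = 1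
    rw [map_one, h.char.one]
  · show χ (e (a * b)) = χ (e a) * χ (e b)
    rw [map_mul, h.char.mul]
  · obtain ⟨W, hW, h1⟩ := h.char.cont n
    refine ⟨_, (hS W).2 hW, fun g w hw => ?_⟩
    show (2 : ℤ_[2]) ^ n ∣ χ (e (g * w)) - χ (e g)
    rw [map_mul]
    exact h1 _ _ hw
  · exact h.add _ _ (z2_to e hS (tw_to e) hf) (z2_to e hS (tw_to e) hf')
  · have h1 := h.cob _ (sm1_to e hS hz)
    have e1 : (fun a b => d1 (tw fun d => χ (e d)) z (e.symm a) (e.symm b)) =
        d1 (tw χ) (fun g => z (e.symm g)) := by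
      funext a b
      simp only [d1, tw_to (χ := χ) e, map_mul]
    show inv (fun a b => d1 (tw fun d => χ (e d)) z (e.symm a) (e.symm b)) = 0
    rw [e1]
    exact h1

theorem locD_iso (e : D ≃* D')
    (hS : ∀ W : Subgroup D', S.mem (W.comap e.toMonoidHom) ↔ S'.mem W) (h : LocD.{v} S' χ inv) :
    LocD.{v} S (fun d => χ (e d)) (fun f => inv (fun a b => f (e.symm a) (e.symm b))) := by
  refine ⟨locH_iso e hS h.toLocH, fun f hf h0 => ?_, ?_, ?_⟩
  · obtain ⟨z, hz, h1⟩ := h.one (fun a b => f (e.symm a) (e.symm b))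
      ⟨sm2_to e hS hf.1, fun a b c => by
        have h2 := hf.2 (e.symm a) (e.symm b) (e.symm c)
        simp only [map_mul]
        exact h2⟩ h0
    refine ⟨fun g => z (e g), sm1_from e hS hz, fun a b => ?_⟩
    have h2 := h1 (e a) (e b)
    simp only [e.symm_apply_apply, ← map_mul] at h2
    exact h2
  · obtain ⟨X, hX⟩ := h.gens
    refine ⟨X.map e.symm.toEquiv.toEmbedding, fun H hH hg => ?_⟩
    obtain ⟨W, hW, hWH⟩ := hH
    have h1 := hX (H.comap e.symm.toMonoidHom)
      ⟨_, mem_to e hS hW, fun x hx => hWH hx⟩ (fun g hgX => hg _ (by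
        rw [Finset.mem_map]
        exact ⟨g, hgX, rfl⟩))
    rw [eq_top_iff]
    intro x _
    have h2 : e x ∈ H.comap e.symm.toMonoidHom := by
      rw [h1]
      trivial
    have h3 : e.symm (e x) ∈ H := h2
    rwa [e.symm_apply_apply] at h3
  · intro M M' _ _ _ _ ρ ρ' B hP
    have hP' : Pair S' χ (fun g => ρ (e.symm g)) (fun g => ρ' (e.symm g)) B :=
      { act :=
          { one := fun m => by
              show ρ (e.symm 1) m = m
              rw [map_one, hP.act.one]
            mul := fun g k m => by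
              show ρ (e.symm (g * k)) m = ρ (e.symm g) (ρ (e.symm k) m)
              rw [map_mul, hP.act.mul]
            add := fun g m m' => hP.act.add _ m m' }
        act' :=
          { one := fun m => by
              show ρ' (e.symm 1) m = m
              rw [map_one, hP.act'.one]
            mul := fun g k m => by
              show ρ' (e.symm (g * k)) m = ρ' (e.symm g) (ρ' (e.symm k) m)
              rw [map_mul, hP.act'.mul]
            add := fun g m m' => hP.act'.add _ m m' }
        sm := by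
          obtain ⟨W, hW, h1⟩ := hP.sm
          exact ⟨_, mem_to e hS hW, fun w hw m => h1 (e.symm w) hw m⟩
        sm' := by
          obtain ⟨W, hW, h1⟩ := hP.sm'
          exact ⟨_, mem_to e hS hW, fun w hw m => h1 (e.symm w) hw m⟩
        eqv := fun g m m' => by
          have h1 := hP.eqv (e.symm g) m m'
          simp only [e.apply_symm_apply] at h1
          exact h1
        nd := hP.nd
        nd' := hP.nd' }
    have L := h.ld hP'
    refine ⟨?_, ?_, fun x hx h0 => ?_, fun y hy h0 => ?_, fun F hF h0 => ?_⟩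
    · have := L.fin
      exact Finite.of_injective (β := {x : D' → M // Z1 S' (fun g => ρ (e.symm g)) x})
        (fun x : {x : D → M // Z1 S ρ x} => ⟨fun g => x.1 (e.symm g), z1_to e hS x.2⟩)
        (fun x y hxy => Subtype.ext (funext fun g => by
          have h1 := congrFun (congrArg Subtype.val hxy) (e g)
          simpa only [e.symm_apply_apply] using h1))
    · have := L.fin'
      exact Finite.of_injective (β := {x : D' → M' // Z1 S' (fun g => ρ' (e.symm g)) x})
        (fun x : {x : D → M' // Z1 S ρ' x} => ⟨fun g => x.1 (e.symm g), z1_to e hS x.2⟩)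
        (fun x y hxy => Subtype.ext (funext fun g => by
          have h1 := congrFun (congrArg Subtype.val hxy) (e g)
          simpa only [e.symm_apply_apply] using h1))
    · obtain ⟨m, hm⟩ := L.one (fun g => x (e.symm g)) (z1_to e hS hx) (fun y hy => by
        have h1 := h0 _ (z1_from e hS hy)
        simp only [cup11, e.apply_symm_apply] at h1
        exact h1)
      refine ⟨m, funext fun d => ?_⟩
      have h1 := congrFun hm (e d)
      simp only [d0, e.symm_apply_apply] at h1
      exact h1
    · obtain ⟨m, hm⟩ := L.one' (fun g => y (e.symm g)) (z1_to e hS hy) (fun x hx => by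
        have h1 := h0 _ (z1_from e hS hx)
        simp only [cup11, e.apply_symm_apply] at h1
        exact h1)
      refine ⟨m, funext fun d => ?_⟩
      have h1 := congrFun hm (e d)
      simp only [d0, e.symm_apply_apply] at h1
      exact h1
    · have h1 := L.two (fun a b => F (e.symm a) (e.symm b)) (z2_to e hS (fun _ => rfl) hF)
        (fun z hz => h0 z fun d => by
          have h2 := hz (e d)
          simp only [e.symm_apply_apply] at h2
          exact h2)
      exact b2_from e hS (fun _ => rfl) h1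

end Pool.Agent.Work.MP_787500_nt.UV
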