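import Mathlib
import Pool.Agent.Work.MP_787500_nt.KR.C3_Sm
import Pool.Agent.Work.MP_787500_nt.KR.S1_Shap
import Pool.Agent.Work.MP_787500_nt.KR.I1_Ind
import Pool.Agent.Work.MP_787500_nt.SH.LocS

/-!
# Module UV/LocQ (size M): local duality for a subgroup `C` of finite index

The invariant of a cocycle `f` of `C` is `inv (cor2 (traQ C) (tw χ) f)`. (SH/LocS proves the part `LocW` for general
`Tra`; its proof of `LocH` can be copied: `C1_Cor` (`cor2_add`, `cor2_d1`, `cor2_coc`), `C3_Sm` (`cor1_sm`, `cor2_sm`).)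
PROOF. `locH_subQ`: see the `LocH` part of `SH.locW_sub`.
`locD_subQ`: `one` and `gens`: the proof of `SH.locW_sub` (for `v₀ = ((1 : G) : G ⧸ C)`, `smul_base`, `traQ_u_base`; one
can use `SH.locW_sub` itself if the universes permit, `V = G ⧸ C`; or give `locD_subQ` from `LocD.{max u v}`: `LocD` in the
universe `max u v` implies `LocD` in the universe `u` via `ULift`, or copy the proof).
`ld`: let `Pair SC ρ ρ' B`, `P = ind_pair` (KR/I1_Ind), `L = h.ld P : LDual S inv (ind ρ) (ind ρ') (indB B)`.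
* `fin`, `fin'`: `x ↦ si1 x` is injective on cocycles (`sr1_si1`), and `si1 x` is in `Z1 S (ind ρ)` (`si1_coc`, `si1_sm`).
* (*) `cup11 (ind ρ') (indB B) (si1 x) (si1 y) = cor2 (traQ C) (tw χ) (cup11 ρ' B x y)` and, for `z : M` and the constant
  function `Z = fun _ => z`, `cup02 (indB B) Z (si2 F) = cor2 (traQ C) (tw χ) (cup02 B z F)`: by unfolding (`indB_apply`).
* `one`: let `x` be orthogonal to all `y`; `X = si1 x`. For `Y` in `Z1 S (ind ρ')`: `Y = si1 (sr1 Y) - d0 (ind ρ') m`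
  (`si1_sr1`), the cup product of `X` with `d0 m` is the coboundary of a smooth function (Leibniz, as in the files
  KR/L08 .. L10; `KR.leib..`), so `inv (X ∪ Y) = inv (X ∪ si1 (sr1 Y)) = 0` by (*) (`LocH.add`, `LocH.cob`). So
  `X = d0 (ind ρ) m₀` by `L.one`, and `x = sr1 X = d0 ρ (m₀ base)` (`sr1_si1`, `ind_base`). `one'` is the same.
* `two`: let `F` in `Z2 SC ρ'` be orthogonal to the invariants; `si2 F` is in `Z2 S (ind ρ')`. If `Z` is fixed by `ind ρ`
  then `Z v = Z base =: z` for all `v` (`ind_rep`) and `z` is fixed by `ρ` (`ind_base`), so (*) gives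
  `inv (cup02 Z (si2 F)) = 0`. So `si2 F = d1 (ind ρ') X` and `F = sr2 (si2 F) = d1 ρ' (sr1 X)` (`sr2_d1`; `sr2 (si2 F) = F` by
  `traQ_u_base`, `smul_base'`).
-/

set_option autoImplicit false
set_option linter.unusedSectionVars false

namespace Pool.Agent.Work.MP_787500_nt.UV

open Pool.Agent.Work.MP_787500_nt.GP (A0 IsAct d0 d1 d2 tw cup11 cup02 cup01)
open Pool.Agent.Work.MP_787500_nt.KR

universe u v

variable {G : Type u} [Group G] {C : Subgroup G} [Fintype (G ⧸ C)] {S : FSys G} {SC : FSys C}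
  {χ : G → ℤ_[2]} {inv : (G → G → A0) → A0}

/-! ### The subgroup with a coset space in another universe -/

/-- `traQ` for the coset space in a larger universe -/
private noncomputable def traL (C : Subgroup G) : Tra G C (ULift.{v} (G ⧸ C)) where
  i := C.subtype
  s w := repQ C w.down
  u g w := (traQ C).u g w.down
  su g w := (traQ C).su g w.down
  umul g h w := (traQ C).umul g h w.down

private theorem traL_sm {SG : FSys G} {SU : FSys C} (hT : (traQ C).Sm SG SU) :
    (traL.{u, v} C).Sm SG SU where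
  res := hT.res
  cores W hW := by
    obtain ⟨W', hW', h⟩ := hT.cores W hW
    exact ⟨W', hW', fun w hw x => ⟨ULift.ext _ _ (h w hw x.down).1, (h w hw x.down).2⟩⟩

private theorem traL_cor2 (τ : G → ℤ_[2]) (f : C → C → A0) :
    cor2 (traL.{u, v} C) (tw τ) f = cor2 (traQ C) (tw τ) f := by
  funext g h
  exact Fintype.sum_equiv Equiv.ulift _ _ fun w => rfl

/-! ### Coboundaries in one variable -/

private theorem inv_right {SG : FSys G} {iv : (G → G → A0) → A0} {τ : G → ℤ_[2]}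
    (h : LocH SG τ iv) {M M' : Type*} [AddCommGroup M] [AddCommGroup M'] {ρ : G → M → M}
    {ρ' : G → M' → M'} {B : M →+ M' →+ A0} (P : Pair SG τ ρ ρ' B) {x : G → M} {y y' : G → M'}
    (hx : Z1 SG ρ x) (hy : Z1 SG ρ' y) (m : M') (e : ∀ g, y' g = y g + d0 ρ' m g) :
    iv (cup11 ρ' B x y') = iv (cup11 ρ' B x y) := by
  obtain ⟨W, hW, h1⟩ := hx.1
  obtain ⟨W1, hW1, h2⟩ := P.sm'
  have hs : Sm1 SG (fun a => -B (x a) (ρ' a m)) := by
    refine ⟨W ⊓ W1, SG.inf hW hW1, fun g w hw => ?_⟩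
    show -B (x (g * w)) (ρ' (g * w) m) = -B (x g) (ρ' g m)
    rw [h1 g w hw.1, P.act'.mul, h2 w hw.2]
  have e1 : cup11 ρ' B x y' = fun a b => cup11 ρ' B x y a b +
      d1 (tw τ) (fun a => -B (x a) (ρ' a m)) a b := by
    funext a b
    simp only [cup11, d1, tw, e, d0, smul_neg, ← P.eqv a, hx.2 a b, P.act'.mul, map_add, map_sub,
      AddMonoidHom.add_apply, P.act'.add, P.act'.sub]
    abel
  rw [e1, h.add _ _ (cup11_Z2 P hx hy) (d1_tw_Z2 h.char hs), h.cob _ hs, add_zero]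

private theorem inv_left {SG : FSys G} {iv : (G → G → A0) → A0} {τ : G → ℤ_[2]}
    (h : LocH SG τ iv) {M M' : Type*} [AddCommGroup M] [AddCommGroup M'] {ρ : G → M → M}
    {ρ' : G → M' → M'} {B : M →+ M' →+ A0} (P : Pair SG τ ρ ρ' B) {x x' : G → M} {y : G → M'}
    (hx : Z1 SG ρ x) (hy : Z1 SG ρ' y) (m : M) (e : ∀ g, x' g = x g + d0 ρ m g) :
    iv (cup11 ρ' B x' y) = iv (cup11 ρ' B x y) := by
  have hs : Sm1 SG (cup01 B m y) := cup01_sm hy.1
  have e1 : cup11 ρ' B x' y = fun a b => cup11 ρ' B x y a b + d1 (tw τ) (cup01 B m y) a b := by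
    funext a b
    simp only [cup11, cup01, d1, tw, e, d0, ← P.eqv a, hy.2 a b, map_add, map_sub,
      AddMonoidHom.add_apply, AddMonoidHom.sub_apply]
    abel
  rw [e1, h.add _ _ (cup11_Z2 P hx hy) (d1_tw_Z2 h.char hs), h.cob _ hs, add_zero]

/-! ### Cup products of induced cochains -/

private theorem cup11_si {M M' : Type*} [AddCommGroup M] [AddCommGroup M'] (τ : G → ℤ_[2])
    (ρ' : C → M' → M') (B : M →+ M' →+ A0) (x : C → M) (y : C → M') :
    cup11 (ind (traQ C) ρ') (indB (traQ C) τ B) (si1 x) (si1 y) =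
      cor2 (traQ C) (tw τ) (cup11 ρ' B x y) := by
  funext a b
  simp only [cup11, indB_apply, cor2, tw, si1, ind]

private theorem cup02_si {M M' : Type*} [AddCommGroup M] [AddCommGroup M'] (τ : G → ℤ_[2])
    (B : M →+ M' →+ A0) (z : M) (F : C → C → M') :
    cup02 (indB (traQ C) τ B) (fun _ : G ⧸ C => z) (si2 F) =
      cor2 (traQ C) (tw τ) (cup02 B z F) := by
  funext a b
  simp only [cup02, indB_apply, cor2, tw, si2]

private theorem sr2_si2 {M : Type*} (F : C → C → M) (a b : C) :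
    sr2 (si2 F) a b = F a b := by
  simp only [sr2, si2, traQ_u_base, smul_base']

private theorem si1_Z1 {SG : FSys G} {SU : FSys C} (hT : (traQ C).Sm SG SU) {M : Type*}
    [AddCommGroup M] {ρ : C → M → M} {x : C → M} (hx : Z1 SU ρ x) :
    Z1 SG (ind (traQ C) ρ) (si1 x) :=
  ⟨si1_sm hT hx.1, si1_coc hx.2⟩

private theorem sr1_Z1 {SG : FSys G} {SU : FSys C} (hT : (traQ C).Sm SG SU) {M : Type*}
    [AddCommGroup M] {ρ : C → M → M} {X : G → G ⧸ C → M} (hX : Z1 SG (ind (traQ C) ρ) X) :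
    Z1 SU ρ (sr1 X) :=
  ⟨sr1_sm hT hX.1, sr1_coc hX.2⟩

private theorem fin_si {SG : FSys G} {SU : FSys C} (hT : (traQ C).Sm SG SU) {M : Type*}
    [AddCommGroup M] {ρ : C → M → M} (h : Finite {X : G → G ⧸ C → M // Z1 SG (ind (traQ C) ρ) X}) :
    Finite {x : C → M // Z1 SU ρ x} := by
  refine Finite.of_injective
    (fun x : {x : C → M // Z1 SU ρ x} =>
      (⟨si1 x.1, si1_Z1 hT x.2⟩ : {X : G → G ⧸ C → M // Z1 SG (ind (traQ C) ρ) X})) ?_
  intro x y hxy
  have e : si1 x.1 = si1 y.1 := congrArg Subtype.val hxy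
  apply Subtype.ext
  funext c
  rw [← sr1_si1 x.1 c, ← sr1_si1 y.1 c, e]

private theorem of_si_d0 {M : Type*} [AddCommGroup M] {ρ : C → M → M} {x : C → M}
    {m : G ⧸ C → M} (e : si1 x = d0 (ind (traQ C) ρ) m) :
    x = d0 ρ (m ((1 : G) : G ⧸ C)) := by
  funext c
  have e1 := congrFun (congrFun e (c : G)) ((1 : G) : G ⧸ C)
  rw [← sr1_si1 x c]
  show si1 x (c : G) ((1 : G) : G ⧸ C) = ρ c (m _) - m _
  rw [e1]
  show ind (traQ C) ρ (c : G) m ((1 : G) : G ⧸ C) - m ((1 : G) : G ⧸ C) = _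
  rw [ind_base]

theorem locH_subQ (h : LocH S χ inv) (hT : (traQ C).Sm S SC) :
    LocH SC (fun c => χ (c : G)) (fun f => inv (cor2 (traQ C) (tw χ) f)) := by
  have hact : IsAct (tw χ) := isAct_tw h.char
  have hZ2 : ∀ f, Z2 SC (tw fun c : C => χ (c : G)) f →
      Z2 S (tw χ) (cor2 (traQ C) (tw χ) f) := by
    intro f hf
    exact ⟨cor2_sm hT hf.1, cor2_coc (traQ C) hact hf.2⟩
  refine { char := ?_, add := ?_, cob := ?_ }
  · refine ⟨?_, ?_, ?_, ?_⟩
    · rw [Subgroup.coe_one, h.char.one]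
    · intro a b
      rw [Subgroup.coe_mul, h.char.mul]
    · intro n
      obtain ⟨W, hW, h3⟩ := h.char.cont n
      obtain ⟨W', hW', h4⟩ := hT.res W hW
      refine ⟨W', hW', fun g w hw => ?_⟩
      show (2 : ℤ_[2]) ^ n ∣ χ ((g * w : C) : G) - χ (g : G)
      rw [Subgroup.coe_mul]
      exact h3 _ _ (h4 w hw)
    · intro b
      exact h.char.odd _
  · intro f f' hf hf'
    rw [cor2_add (traQ C) hact]
    exact h.add _ _ (hZ2 f hf) (hZ2 f' hf')
  · intro z hz
    have e := cor2_d1 (traQ C) hact z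
    show inv (cor2 (traQ C) (tw χ) (d1 (fun c => tw χ ((traQ C).i c)) z)) = 0
    rw [e]
    exact h.cob _ (cor1_sm hT hz)

theorem locD_subQ (h : LocD.{max u v} S χ inv) (hT : (traQ C).Sm S SC) :
    LocD.{v} SC (fun c => χ (c : G)) (fun f => inv (cor2 (traQ C) (tw χ) f)) := by
  have hW : SH.LocW SC (fun c : C => χ (c : G)) (fun f => inv (cor2 (traQ C) (tw χ) f)) := by
    have h1 := SH.locW_sub h (traL.{u, v} C) (traL_sm hT) (ULift.up ((1 : G) : G ⧸ C))
      (fun c => ULift.ext _ _ (smul_base c)) (fun c => traQ_u_base c)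
      (fun w => ⟨repQ C w.down, by
        apply ULift.ext
        show repQ C w.down • ((1 : G) : G ⧸ C) = w.down
        show ((repQ C w.down * 1 : G) : G ⧸ C) = w.down
        rw [mul_one, mk_repQ]⟩)
    have e : (fun f => inv (cor2 (traL.{u, v} C) (tw χ) f)) =
        fun f => inv (cor2 (traQ C) (tw χ) f) := by
      funext f
      rw [traL_cor2]
    rw [e] at h1
    exact h1
  refine { locH_subQ h.toLocH hT with one := hW.one, gens := hW.gens, ld := ?_ }
  intro M M' _ _ _ _ ρ ρ' B P0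
  have P := ind_pair h.char hT P0
  have L := h.ld P
  refine ⟨fin_si hT L.fin, fin_si hT L.fin', ?_, ?_, ?_⟩
  · intro x hx hxy
    obtain ⟨m, hm⟩ := L.one (si1 x) (si1_Z1 hT hx) (by
      intro Y hY
      rw [← inv_right h.toLocH P (si1_Z1 hT hx) hY (fun v => Y (repQ C v) v)
        (si1_sr1 P0.act' hY.2), cup11_si]
      exact hxy _ (sr1_Z1 hT hY))
    exact ⟨_, of_si_d0 hm⟩
  · intro y hy hxy
    obtain ⟨m, hm⟩ := L.one' (si1 y) (si1_Z1 hT hy) (by
      intro X hX
      rw [← inv_left h.toLocH P hX (si1_Z1 hT hy) (fun v => X (repQ C v) v)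
        (si1_sr1 P0.act hX.2), cup11_si]
      exact hxy _ (sr1_Z1 hT hX))
    exact ⟨_, of_si_d0 hm⟩
  · intro F hF hz
    obtain ⟨X, hX, hFX⟩ := L.two (si2 F) ⟨si2_sm hT hF.1, si2_coc hF.2⟩ (by
      intro Z hZ
      have hc : Z = fun _ : G ⧸ C => Z ((1 : G) : G ⧸ C) := by
        funext v
        have e1 := congrFun (hZ (repQ C v)) v
        rw [ind_rep P0.act] at e1
        exact e1.symm
      have hfix : ∀ c, ρ c (Z ((1 : G) : G ⧸ C)) = Z ((1 : G) : G ⧸ C) := by
        intro c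
        rw [← ind_base (τ := ρ) Z c, hZ]
      rw [hc, cup02_si]
      exact hz _ hfix)
    refine ⟨sr1 X, sr1_sm hT hX, ?_⟩
    rw [← sr2_d1, ← hFX]
    funext a b
    exact (sr2_si2 F a b).symm

end Pool.Agent.Work.MP_787500_nt.UV
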