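import Mathlib
import Pool.Agent.Work.MP_787500_nt.UV.LocQ
import Pool.Agent.Work.MP_787500_nt.UV.LocIso
import Pool.Agent.Work.MP_787500_nt.QX.SysH
import Pool.Agent.Work.MP_787500_nt.QX.Two
import Pool.Agent.Work.MP_787500_nt.SH.Loc2

/-!
# Module UV/InvI (size M): the invariant at a prime over 2 of an imaginary quadratic field

PROOF. If `D % 8 = 7`: `SH.exists_inv` (SH/Loc2.lean) for `(N.subgroupOf (stabD P₀))` (normal; `Opn` as in OV/Split.lean, `hOpn`).
If not: `QX.exists_swap2` gives `g₀` with `iK K g₀ * c ∈ stb P₀`; `QX.lpl` the local situation (`k a = g₀ κ(a) g₀⁻¹`). Let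
`J = (jj P₀).range`, a subgroup of index 2 of `stb P₀` (see the proof of `QX.up_H`), and `e : stabD P₀ ≃* J`.
`RQ.exists_qdatF` (RQ/RecQ.lean, for `T = {7}` and primes `P` with `P 2 = P₀`, `HP.prime_over_nat`) gives `iv none`,
`ivF none` for `stb P₀` with `QDat.loc`, `LocF`. `LocF.loc : LocH (lfull (stb P₀)) cyQ (ivF none)` (`lfull` and `fullC`
are the same, see `GA.locB_Q`). For `N` as below let `N̂ = (N.map (iK K)).subgroupOf (stb P₀)`: `N.map (iK K)` is normal
(`QX.map_normal`) and `Opn (fullQ _ T) (N.map (iK K))` (`QX.push` for `unr : (fullQ _ T).mem (iK K).range`, which is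
`QX.range_memI hK _ hTD`; see `QX.ArX.opnQ`), so `LocD (big (fullC (stb P₀)) N̂)` as in `QX.InX.locD`:
`KR.locD_of (GA.locB_Q ..) _ (opn_fullC ..)` (in every universe).
Then `locD_subQ` for `C = J` with the system on `J` transported from `big (fullD (stabD P₀)) (N.subgroupOf _)` by `e`
(`(traQ J).Sm`: `res` by `QX.dn_H`, `cores` by the proof of `QX.up_H` (a normal subgroup `W` of `stb P₀` in `J` that is
contained in `V` acts trivially on `stb P₀ ⧸ J`, and `(traQ J).u w v` is a conjugate of `w`)), and `locD_iso` for `e`. The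
invariant is `f ↦ ivF none (cor2 (traQ J) (tw cyQ) (fun a b => f (e.symm a) (e.symm b)))`, for all `N` the same.
For `LocH (fullD (stabD P₀))`: the same with `fullC`, `fullD` (`locH_subQ`, `locH_iso`).
`cyQ (iK K g) = cyc g`: `QX.chi`. (`up_H` is stated for `ArX c κ T P N₀`; repeat its proof for `N`.)
-/

set_option autoImplicit false
set_option linter.unusedSectionVars false

namespace Pool.Agent.Work.MP_787500_nt.UV

open NumberField
open Pool.Agent.Work.MP_787500_nt.PA (cyc)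
open Pool.Agent.Work.MP_787500_nt.GP (A0 stabD)
open Pool.Agent.Work.MP_787500_nt.KR (FSys LocH LocD big fullD fullK Opn)

universe u w

section gen

open Pool.Agent.Work.MP_787500_nt.KR (traQ repQ mk_repQ traQ_u cor2)
open Pool.Agent.Work.MP_787500_nt.GP (tw)

/-- transport of a system by an isomorphism -/
private def pullE {H J : Type*} [Group H] [Group J] (e : H ≃* J) (S : FSys H) : FSys J where
  mem W := S.mem (W.comap e.toMonoidHom)
  ex := by
    obtain ⟨W, hW⟩ := S.ex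
    refine ⟨W.comap e.symm.toMonoidHom, ?_⟩
    have h : (W.comap e.symm.toMonoidHom).comap e.toMonoidHom = W := by
      ext x
      show e.symm (e x) ∈ W ↔ x ∈ W
      rw [e.symm_apply_apply]
    rw [h]
    exact hW
  inf := fun h h' => by
    rw [Subgroup.comap_inf]
    exact S.inf h h'
  normal := fun {W} h => by
    have h1 := S.normal h
    refine ⟨fun n hn g => ?_⟩
    have h2 : e (e.symm g * e.symm n * (e.symm g)⁻¹) ∈ W := h1.conj_mem (e.symm n) (by
      show e (e.symm n) ∈ W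
      rwa [e.apply_symm_apply]) (e.symm g)
    rw [map_mul, map_mul, map_inv, e.apply_symm_apply, e.apply_symm_apply] at h2
    exact h2
  index := fun {W} h => by
    have h1 := S.index h
    rwa [Subgroup.index_comap_of_surjective W e.surjective] at h1

private theorem sm_of {G : Type*} [Group G] {C : Subgroup G} {S : FSys G} {SC : FSys C}
    (h1 : ∀ W, S.mem W → ∃ W', SC.mem W' ∧ ∀ w ∈ W', (w : G) ∈ W)
    (h2 : ∀ W, SC.mem W → ∃ W', S.mem W' ∧ ∀ w ∈ W', ∃ a ∈ W, (a : G) = w) :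
    (traQ C).Sm S SC where
  res W hW := h1 W hW
  cores W hW := by
    obtain ⟨W', hW', h3⟩ := h2 W hW
    refine ⟨W', hW', fun w hw v => ?_⟩
    have hn := S.normal hW'
    have h4 : (repQ C v)⁻¹ * w * repQ C v ∈ W' := by
      have h := hn.conj_mem w hw (repQ C v)⁻¹
      rwa [inv_inv] at h
    obtain ⟨a, ha, h5⟩ := h3 _ h4
    have h6 : w • v = v := by
      conv_lhs => rw [← mk_repQ C v]
      show ((w * repQ C v : G) : G ⧸ C) = v
      have h : w * repQ C v = repQ C v * (a : G) := by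
        rw [h5]
        group
      rw [h, QuotientGroup.mk_mul_of_mem _ a.2, mk_repQ]
    refine ⟨h6, ?_⟩
    have h7 : w⁻¹ • v = v := by rw [inv_smul_eq_iff, h6]
    have h8 : (traQ C).u w v = a := by
      apply Subtype.ext
      rw [traQ_u, h7, h5]
    rw [h8]
    exact ha

private theorem sm_pull {H D : Type*} [Group H] [Group D] {SH : FSys H} {SD : FSys D}
    {j : H →* D} (hj : Function.Injective j) (hup : OL.Up SH SD j) (hdn : OL.Dn SH SD j) :
    (traQ j.range).Sm SD (pullE (MonoidHom.ofInjective hj) SH) := by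
  refine sm_of (fun W hW => ?_) fun W hW => ?_
  · obtain ⟨W', hW', h1⟩ := hdn W hW
    refine ⟨W'.comap (MonoidHom.ofInjective hj).symm.toMonoidHom, ?_, fun w hw => ?_⟩
    · have h : (W'.comap (MonoidHom.ofInjective hj).symm.toMonoidHom).comap
          (MonoidHom.ofInjective hj).toMonoidHom = W' := by
        ext x
        show (MonoidHom.ofInjective hj).symm (MonoidHom.ofInjective hj x) ∈ W' ↔ x ∈ W'
        rw [MulEquiv.symm_apply_apply]
      show SH.mem _
      rw [h]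
      exact hW'
    · have h2 := h1 _ hw
      have h3 : j ((MonoidHom.ofInjective hj).symm w) = (w : D) :=
        congrArg Subtype.val ((MonoidHom.ofInjective hj).apply_symm_apply w)
      rw [← h3]
      exact h2
  · obtain ⟨W', hW', h1⟩ := hup _ hW
    refine ⟨W', hW', fun w hw => ?_⟩
    obtain ⟨a, ha, h2⟩ := h1 w hw
    exact ⟨MonoidHom.ofInjective hj a, ha, h2⟩

private theorem locH_pull {H : Type*} {D : Type u} [Group H] [Group D] {SH : FSys H}
    {SD : FSys D} {j : H →* D} (hj : Function.Injective j) [Fintype (D ⧸ j.range)]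
    (hup : OL.Up SH SD j) (hdn : OL.Dn SH SD j) {χ : D → ℤ_[2]} {inv : (D → D → A0) → A0}
    (h : LocH SD χ inv) : LocH SH (fun a => χ (j a)) (fun f => inv (cor2 (traQ j.range) (tw χ)
      (fun a b => f ((MonoidHom.ofInjective hj).symm a) ((MonoidHom.ofInjective hj).symm b)))) :=
  locH_iso (S := SH) (S' := pullE (MonoidHom.ofInjective hj) SH) (MonoidHom.ofInjective hj)
    (fun _ => Iff.rfl) (locH_subQ h (sm_pull hj hup hdn))

private theorem locD_pull {H : Type*} {D : Type u} [Group H] [Group D] {SH : FSys H}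
    {SD : FSys D} {j : H →* D} (hj : Function.Injective j) [Fintype (D ⧸ j.range)]
    (hup : OL.Up SH SD j) (hdn : OL.Dn SH SD j) {χ : D → ℤ_[2]} {inv : (D → D → A0) → A0}
    (h : LocD.{max u w} SD χ inv) : LocD.{w} SH (fun a => χ (j a))
      (fun f => inv (cor2 (traQ j.range) (tw χ)
      (fun a b => f ((MonoidHom.ofInjective hj).symm a) ((MonoidHom.ofInjective hj).symm b)))) :=
  locD_iso (S := SH) (S' := pullE (MonoidHom.ofInjective hj) SH) (MonoidHom.ofInjective hj)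
    (fun _ => Iff.rfl) (locD_subQ h (sm_pull hj hup hdn))

end gen

variable {K : Type u} [Field K] [NumberField K] {D : ℕ} {s : K}
  {c : AlgebraicClosure K ≃+* AlgebraicClosure K} {κ : AbsGal K →* AbsGal K}

private theorem dn_full (Q : Ideal (𝓞 (AlgebraicClosure K))) :
    OL.Dn (fullD (stabD (K := K) Q)) (KR.fullC (HP.stb Q)) (QX.jj Q) := by
  rintro W₁ ⟨⟨s, hs⟩, hn₁, hi₁⟩
  refine ⟨W₁.comap (QX.jj Q), ⟨inferInstance, ?_, ?_⟩, fun a ha => ha⟩
  · rw [Subgroup.index_comap]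
    exact fun h0 => hi₁ (Nat.eq_zero_of_zero_dvd (h0 ▸ Subgroup.relIndex_dvd_index_of_normal _ _))
  · have hSf : Finite (s : Set (AlgebraicClosure K)) := s.finite_toSet.to_subtype
    have hfd : FiniteDimensional K (IntermediateField.adjoin K (s : Set (AlgebraicClosure K))) :=
      IntermediateField.finiteDimensional_adjoin fun x _ => Algebra.IsIntegral.isIntegral x
    refine ⟨(IntermediateField.adjoin K (s : Set (AlgebraicClosure K))).fixingSubgroup,
      IntermediateField.fixingSubgroup_isOpen _, fun a ha => ?_⟩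
    refine hs _ fun x hx => ?_
    exact (IntermediateField.mem_fixingSubgroup_iff _ _).1 ha _
      (IntermediateField.subset_adjoin _ _ hx)

private theorem range_index {Q : Ideal (𝓞 (AlgebraicClosure K))} {g₀ : AbsGal K} {τ : HP.stb Q} {k : stabD (K := K) Q → stabD (K := K) Q}
    {t : stabD (K := K) Q}
    (X : OL.Lpl (KS.iK K) c κ (stabD (K := K) Q).subtype (HP.stb Q).subtype (QX.jj Q) τ k t g₀) :
    (QX.jj (K := K) Q).range.index ≠ 0 := by
  intro h0
  have h2 : (QX.jj (K := K) Q).range.index = 2 := by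
    rw [Subgroup.index_eq_two_iff]
    refine ⟨τ, fun d => ?_⟩
    have h3 : ∀ a, QX.jj Q a * τ ∉ (QX.jj (K := K) Q).range := by
      rintro a ⟨b, hb⟩
      exact X.ne _ _ hb
    rcases X.cases d with ⟨a, rfl⟩ | ⟨a, rfl⟩
    · exact Or.inr ⟨⟨a, rfl⟩, h3 a⟩
    · refine Or.inl ⟨?_, h3 a⟩
      rw [mul_assoc, ← X.sq, ← map_mul]
      exact ⟨_, rfl⟩
  omega

private theorem up_full (X2 : QS.Two (KS.iK K) c κ) {T : Finset ℕ}
    (unr : (KR.fullQ (AlgebraicClosure K) (T : Set ℕ)).mem (KS.iK K).range)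
    {Q : Ideal (𝓞 (AlgebraicClosure K))}
    {g₀ : AbsGal K} {τ : HP.stb Q} {k : stabD (K := K) Q → stabD (K := K) Q}
    {t : stabD (K := K) Q}
    (X : OL.Lpl (KS.iK K) c κ (stabD (K := K) Q).subtype (HP.stb Q).subtype (QX.jj Q) τ k t g₀) :
    OL.Up (fullD (stabD (K := K) Q)) (KR.fullC (HP.stb Q)) (QX.jj Q) := by
  classical
  rintro V₁ ⟨hn₁, hi₁, U, hU, hUV⟩
  obtain ⟨kh, hkh⟩ : ∃ kh : stabD (K := K) Q →* stabD (K := K) Q, ∀ a, kh a = k a :=
    ⟨MonoidHom.mk' k X.k_mul, fun _ => rfl⟩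
  have hkk : ∀ a, k (k a) = t * a * t⁻¹ := by
    intro a
    refine X.inj ?_
    rw [map_mul, map_mul, map_inv, X.kj, X.kj, X.sq]
    group
  have hst : ∀ v ∈ V₁ ⊓ V₁.comap kh, k v ∈ V₁ ⊓ V₁.comap kh := by
    intro v hv
    refine ⟨by rw [← hkh]; exact hv.2, ?_⟩
    show kh (k v) ∈ V₁
    rw [hkh, hkk]
    exact hn₁.conj_mem v hv.1 t
  have hnm : ((V₁ ⊓ V₁.comap kh).map (QX.jj Q)).Normal := by
    refine ⟨?_⟩
    rintro _ ⟨v, hv, rfl⟩ d
    have h1 : ∀ a : stabD (K := K) Q, ∀ v ∈ V₁ ⊓ V₁.comap kh, a * v * a⁻¹ ∈ V₁ ⊓ V₁.comap kh :=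
      fun a v hv => (inferInstance : (V₁ ⊓ V₁.comap kh).Normal).conj_mem v hv a
    rcases X.cases d with ⟨a, rfl⟩ | ⟨a, rfl⟩
    · exact ⟨a * v * a⁻¹, h1 a v hv, by rw [map_mul, map_mul, map_inv]⟩
    · refine ⟨a * k v * a⁻¹, h1 a _ (hst v hv), ?_⟩
      rw [map_mul, map_mul, map_inv, X.kj]
      group
  refine ⟨(V₁ ⊓ V₁.comap kh).map (QX.jj Q), ⟨?_, hnm, ?_⟩, fun w hw => ?_⟩
  · -- open
    obtain ⟨s₁, hs₁⟩ := GA.exists_fin (RingEquiv.refl (AlgebraicClosure K)) hU
    obtain ⟨⟨⟨s₀, hs₀⟩, -, -⟩, -⟩ := unr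
    refine ⟨s₁ ∪ s₁.image (fun x => c (g₀⁻¹ x)) ∪ s₀, fun g hg => ?_⟩
    obtain ⟨m, hm⟩ := hs₀ (g : AlgebraicClosure K ≃+* AlgebraicClosure K) fun x hx =>
      hg x (Finset.mem_union_right _ hx)
    have hmQ : m ∈ stabD (K := K) Q := GA.emb_refl_stb.1 (by
      show KS.iK K m ∈ HP.stb Q
      rw [hm]
      exact g.2)
    have hgx : ∀ x, (g : AlgebraicClosure K ≃+* AlgebraicClosure K) x = m x := fun x => by
      rw [← hm]
      rfl
    have m1 : m ∈ U := hs₁ m fun x hx => by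
      have h2 := hg x (Finset.mem_union_left _ (Finset.mem_union_left _ hx))
      show m x = x
      rw [← hgx, h2]
    have m2 : (k ⟨m, hmQ⟩ : AbsGal K) ∈ U := hs₁ _ fun x hx => by
      have h2 := hg (c (g₀⁻¹ x)) (Finset.mem_union_left _ (Finset.mem_union_right _
        (Finset.mem_image_of_mem _ hx)))
      rw [hgx] at h2
      have h3 : (k ⟨m, hmQ⟩ : AbsGal K) = g₀ * κ m * g₀⁻¹ := X.jk ⟨m, hmQ⟩
      show (k ⟨m, hmQ⟩ : AbsGal K) x = x
      rw [h3, AlgEquiv.mul_apply, AlgEquiv.mul_apply, QX.kap_c X2, h2, QX.sq_c X2,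
        ← AlgEquiv.mul_apply, mul_inv_cancel]
      rfl
    refine ⟨⟨m, hmQ⟩, ⟨hUV m1, ?_⟩, Subtype.ext hm⟩
    show kh ⟨m, hmQ⟩ ∈ V₁
    rw [hkh]
    exact hUV m2
  · rw [Subgroup.index_map_of_injective _ X.inj]
    refine mul_ne_zero (Subgroup.index_inf_ne_zero hi₁ ?_) (range_index X)
    rw [Subgroup.index_comap]
    exact fun h0 => hi₁ (Nat.eq_zero_of_zero_dvd (h0 ▸ Subgroup.relIndex_dvd_index_of_normal _ _))
  · obtain ⟨v, hv, rfl⟩ := hw
    exact ⟨v, hv.1, rfl⟩

private theorem exists_loc2 (X2 : QS.Two (KS.iK K) c κ)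
    {P₀ : Ideal (𝓞 (AlgebraicClosure K))} (hP₀ : P₀.IsPrime)
    (hP2 : (2 : 𝓞 (AlgebraicClosure K)) ∈ P₀) :
    ∃ iv ivF : (HP.stb P₀ → HP.stb P₀ → A0) → A0,
      GP.LocH (HP.fsys (HP.stb P₀))
        (fun d : HP.stb P₀ => HP.cyQ (d : AlgebraicClosure K ≃+* AlgebraicClosure K)) iv ∧
      RQ.LocF (HP.stb P₀) iv ivF := by
  have key : ∀ P : ℕ → Ideal (𝓞 (AlgebraicClosure K)), HP.IsP ({7} : Finset ℕ) P →
      ∃ iv ivF : (HP.stb (P 2) → HP.stb (P 2) → A0) → A0,
      GP.LocH (HP.fsys (HP.stb (P 2)))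
        (fun d : HP.stb (P 2) => HP.cyQ (d : AlgebraicClosure K ≃+* AlgebraicClosure K)) iv ∧
      RQ.LocF (HP.stb (P 2)) iv ivF := by
    intro P hP
    obtain ⟨iv, ivF, hQ, hF, -⟩ := RQ.exists_qdatF (HP.alg_closure K) (QX.sq_c X2) (QX.ne_c X2)
      (Finset.singleton_nonempty 7) hP
    exact ⟨iv none, ivF none, hQ.loc none, hF none⟩
  obtain ⟨Q7, hQ7, h7⟩ := HP.prime_over_nat (Ω := AlgebraicClosure K) (p := 7) (by norm_num)
  have h := key (fun l => if l = 2 then P₀ else Q7)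
    { prime := fun l hl => by
        rw [Finset.mem_singleton] at hl
        rw [hl]
        norm_num
      odd := fun l hl => by
        rw [Finset.mem_singleton] at hl
        rw [hl]
        norm_num
      isPrime := fun l _ => by
        show (if l = 2 then P₀ else Q7).IsPrime
        split_ifs
        · exact hP₀
        · exact hQ7
      mem := fun l hl => by
        show (l : 𝓞 (AlgebraicClosure K)) ∈ (if l = 2 then P₀ else Q7)
        rcases hl with hl | hl
        · rw [Finset.mem_singleton] at hl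
          rw [hl, if_neg (by norm_num)]
          exact h7
        · rw [hl, if_pos rfl]
          exact_mod_cast hP2 }
  exact h

theorem exists_invI (hK : QX.IsI K D s) (hc : PA.IsConj s c)
    (hκ : ∀ (σ : AbsGal K) (x : AlgebraicClosure K), κ σ x = c (σ (c x)))
    {P₀ : Ideal (𝓞 (AlgebraicClosure K))} (hP₀ : P₀.IsPrime)
    (hP2 : (2 : 𝓞 (AlgebraicClosure K)) ∈ P₀) :
    ∃ inv : (stabD (K := K) P₀ → stabD (K := K) P₀ → A0) → A0,
      LocH (fullD (stabD P₀)) (fun d => cyc (d : AbsGal K)) inv ∧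
      ∀ (T : Finset ℕ) (N : Subgroup (AbsGal K)), (∀ l ∈ T, l.Prime ∧ l ≠ 2) →
        (∀ p : ℕ, p.Prime → p ≠ 2 → p ∣ D → p ∈ T) → (fullK (K := K) T).mem N →
        (∀ g ∈ N, κ g ∈ N) → LocD.{w} (big (fullD (stabD P₀)) (N.subgroupOf (stabD P₀)))
          (fun d => cyc (d : AbsGal K)) inv := by
  by_cases hD8 : D % 8 = 7
  · obtain ⟨inv, h1, h2⟩ := SH.exists_inv.{u, w} (⟨hK.deg, hK.sq, hK.sqf, hD8⟩ : HP.IsQ K D s)
      hc hκ hP₀ hP2
    refine ⟨inv, h1, fun T N _ _ hN _ => ?_⟩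
    have hNn : N.Normal := hN.1
    have hNn' : (N.subgroupOf (stabD (K := K) P₀)).Normal := inferInstance
    have hcs : CompactSpace (stabD (K := K) P₀) :=
      isCompact_iff_compactSpace.1 (GP.stabD_closed P₀).isCompact
    have hNo' : IsOpen ((N.subgroupOf (stabD (K := K) P₀) : Subgroup (stabD (K := K) P₀)) :
        Set (stabD (K := K) P₀)) := hN.2.1.preimage continuous_subtype_val
    refine h2 _ hNn' ?_
    have hf : Finite (stabD (K := K) P₀ ⧸ N.subgroupOf (stabD (K := K) P₀)) :=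
      Subgroup.quotient_finite_of_isOpen _ hNo'
    exact ⟨_, ⟨hNn', Subgroup.index_ne_zero_of_finite, N, hN.2.1, le_rfl⟩, le_rfl⟩
  · obtain ⟨g₀, h0⟩ := QX.exists_swap2 hK hc hD8 hP₀ hP2
    have X2 := QX.two_I hK hc hκ
    have hkm : ∀ a : stabD (K := K) P₀, g₀ * κ (a : AbsGal K) * g₀⁻¹ ∈ stabD (K := K) P₀ := by
      intro a
      refine GA.emb_refl_stb.1 ?_
      show KS.iK K (g₀ * κ (a : AbsGal K) * g₀⁻¹) ∈ HP.stb P₀
      have h1 : KS.iK K (a : AbsGal K) ∈ HP.stb P₀ := GA.emb_refl_stb.2 a.2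
      have hci : c⁻¹ = c := inv_eq_of_mul_eq_one_left X2.cc
      have h2 := mul_mem (mul_mem h0 h1) (inv_mem h0)
      have e1 : KS.iK K (g₀ * κ (a : AbsGal K) * g₀⁻¹) =
          KS.iK K g₀ * c * KS.iK K (a : AbsGal K) * (KS.iK K g₀ * c)⁻¹ := by
        rw [map_mul, map_mul, map_inv, X2.kap, _root_.mul_inv_rev, hci]
        group
      rw [e1]
      exact h2
    obtain ⟨t, X⟩ := QX.lpl X2 h0 (k := fun a => ⟨g₀ * κ (a : AbsGal K) * g₀⁻¹, hkm a⟩)
      (fun a => rfl)
    obtain ⟨iv, ivF, hG, hF⟩ := exists_loc2 X2 hP₀ hP2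
    obtain ⟨α⟩ := GA.exists_ratEquiv (HP.alg_closure K)
    have hb : P₀ ≠ ⊥ := by
      intro h
      rw [h, Ideal.mem_bot] at hP2
      exact two_ne_zero hP2
    have hind := range_index X
    have hFI : (QX.jj (K := K) P₀).range.FiniteIndex := ⟨hind⟩
    have hfi : Finite (HP.stb P₀ ⧸ (QX.jj (K := K) P₀).range) :=
      Subgroup.finite_quotient_of_finiteIndex
    have := Fintype.ofFinite (HP.stb P₀ ⧸ (QX.jj (K := K) P₀).range)
    have hχ : (fun a : stabD (K := K) P₀ => HP.cyQ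
        ((QX.jj P₀ a : HP.stb P₀) : AlgebraicClosure K ≃+* AlgebraicClosure K)) =
        fun d : stabD (K := K) P₀ => cyc (d : AbsGal K) := funext fun a => QX.chi _
    have unr₀ := QX.range_memI hK (RingEquiv.refl (AlgebraicClosure K)) (T := D.primeFactors)
      (fun p hp _ hpD => Nat.mem_primeFactors.2 ⟨hp, hpD, hK.sqf.ne_zero⟩)
    have hLH := locH_pull X.inj (up_full X2 unr₀ X) (dn_full P₀) hF.loc
    rw [hχ] at hLH
    refine ⟨_, hLH, fun T N hT hTD hN hκN => ?_⟩
    · have unr := QX.range_memI hK (RingEquiv.refl (AlgebraicClosure K)) (T := T) hTD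
      have hQn : (N.map (KS.iK K)).Normal := QX.map_normal X2 hN.1 hκN
      have hopn : Opn (KR.fullQ (AlgebraicClosure K) (T : Set ℕ)) (N.map (KS.iK K)) := by
        obtain ⟨W, hW, h4⟩ := QX.push X2 unr hN
        refine ⟨W, hW, fun w hw => ?_⟩
        obtain ⟨n, hn, rfl⟩ := h4 w hw
        exact ⟨n, hn, rfl⟩
      have hLD : LocD.{max u w} (QX.sysD N P₀)
          (fun d : HP.stb P₀ => HP.cyQ (d : AlgebraicClosure K ≃+* AlgebraicClosure K)) ivF :=
        KR.locD_of (GA.locB_Q α hP₀ hb hG hF _) inferInstance (GA.opn_fullC hopn _)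
      choose! Pl hPl using fun (l : ℕ) (hl : l.Prime) =>
        HP.prime_over_nat (Ω := AlgebraicClosure K) hl
      have A : QX.ArX c κ T Pl N := by
        refine ⟨X2, unr, ⟨fun l hl => (hT l hl).1, fun l hl => (hT l hl).2, ?_, ?_⟩, hN.1, hN.2.1,
          hκN, hN.2.2, fun l hl => ?_⟩
        · rintro l (hl | rfl)
          · exact (hPl l (hT l hl).1).1
          · exact (hPl 2 Nat.prime_two).1
        · rintro l (hl | rfl)
          · exact (hPl l (hT l hl).1).2
          · exact (hPl 2 Nat.prime_two).2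
        · exact QX.ram_I hK (hT l hl).1 (hT l hl).2 (hPl l (hT l hl).1).1 (hPl l (hT l hl).1).2
      have h1 := locD_pull.{u, w} X.inj (QX.up_H A X) (QX.dn_H N P₀) hLD
      rw [hχ] at h1
      exact h1

end Pool.Agent.Work.MP_787500_nt.UV
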