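import Mathlib
import Pool.Agent.Work.MP_787500_nt.UV.InvI
import Pool.Agent.Work.MP_787500_nt.UV.KeyB
import Pool.Agent.Work.MP_787500_nt.SF.IndB

/-!
# Module UV/Hinj (size M): corestriction is injective on cup products, for every imaginary quadratic field

PROOF. Copy the part of the proof of `SF.main_fam` (SF/MainT.lean) that proves `hinj` (from `obtain ⟨N₀, ..` on), with `exists_invI` (UV/InvI) instead of
`SH.exists_inv`: the invariant is used for `N₀ ⊓ H.normalCore` and a finite set `T' = T ∪ TD` of primes, `TD` the odd prime divisors of `D` (as in the proof of `QX.main_genL4`,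
QX/GenL4.lean). One needs: `(fullK T').mem (N₀ ⊓ H.normalCore)` (`N₀` is in `fullK T`: `QF.exists_n0`; `H.normalCore` is open (`hcore`), and it contains
`inT K T` because `a⁻¹ * σ * a ∈ inT K T ⊆ H` (`SH.inT_conj`); `QX.fullK_mono`), and `κ` maps `H.normalCore` to itself: let `y` be in the core. For all `a`,
`a κ(y) a⁻¹ = κ (y')`, `y' = κ(a) y κ(a)⁻¹ ∈ H`, and `κ(y') = g₀⁻¹ kk(y') g₀` (`tw.coe`), so `g₀ (a κ(y) a⁻¹) g₀⁻¹ ∈ H`; this holds for all `a`, so (replace `a` by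
`g₀⁻¹ a`) `a κ(y) a⁻¹ ∈ H` for all `a`. The facts `hχ1`, .., `hW`, `hpro` are as in `SF.main_fam` (choose `r : Rep H n m` as in `SF.final_F`, SF/FinalF.lean).
The map `e i` is given here (`hee`), in `SF.main_fam` it is defined; `dt` gives its continuity.
-/

set_option autoImplicit false
set_option linter.unusedSectionVars false

namespace Pool.Agent.Work.MP_787500_nt.UV

open Matrix NumberField
open Pool.Agent.Work.MP_787500_nt.SH
open Pool.Agent.Work.MP_787500_nt.SF (Tw valT indT)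
open Pool.Agent.Work.MP_787500_nt.PA (cyc toE)
open Pool.Agent.Work.MP_787500_nt.GP (inT stabD)

universe u v

private theorem fullD_memI {K : Type u} [Field K] [NumberField K]
    {C : Subgroup (AbsGal K)} [CompactSpace C] {W : Subgroup C}
    (h1 : W.Normal) (h2 : IsOpen (W : Set C)) : (KR.fullD C).mem W := by
  have hf : Finite (C ⧸ W) := Subgroup.quotient_finite_of_isOpen W h2
  refine ⟨h1, Subgroup.index_ne_zero_of_finite, ?_⟩
  have h3 : (W : Set C) ∈ nhds (1 : C) := h2.mem_nhds W.one_mem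
  rw [nhds_subtype_eq_comap] at h3
  obtain ⟨O', hO', h5⟩ := Filter.mem_comap.1 h3
  obtain ⟨U, hU, h6⟩ := HP.basis_K K O' hO'
  exact ⟨U, hU, fun x hx => h5 (h6 hx)⟩

variable {K : Type u} [Field K] [NumberField K] {D : ℕ} {s : K}
  {c : AlgebraicClosure K ≃+* AlgebraicClosure K} {κ : AbsGal K →* AbsGal K}

theorem hinj_I (hK : QX.IsI K D s) (hc : PA.IsConj s c)
    (hκ : ∀ (σ : AbsGal K) (x : AlgebraicClosure K), κ σ x = c (σ (c x)))
    {P₀ : Ideal (𝓞 (AlgebraicClosure K))} (hP₀ : P₀.IsPrime)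
    (hP2 : (2 : 𝓞 (AlgebraicClosure K)) ∈ P₀)
    {H : Subgroup (AbsGal K)} (hH : IsOpen (H : Set (AbsGal K))) [Fintype (AbsGal K ⧸ H)]
    {g₀ : AbsGal K} {kk : H →* H} (tw : Tw H κ g₀ kk)
    {T : Finset ℕ} (hT : ∀ l ∈ T, l.Prime ∧ l ≠ 2) (hTH : ∀ σ ∈ inT K T, σ ∈ H)
    {E : Type v} [NormedField E] [NormedAlgebra ℚ_[2] E] [FiniteDimensional ℚ_[2] E] {n : ℕ}
    {τ : H →* Matrix (Fin n) (Fin n) E} {b : Matrix (Fin n) (Fin n) E} (hb : b.det ≠ 0)
    (hτc : Continuous τ) (hτu : ∀ σ : H, (σ : AbsGal K) ∈ inT K T → τ σ = 1)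
    (hτs : b * τ ⟨g₀ * κ g₀, tw.mem⟩ = Parity.cyclo E g₀ • bᵀ)
    (hdτ : ∀ h : H, (τ h)ᵀ * b * τ (kk h) = Parity.cyclo E (h : AbsGal K) • b)
    {Φ : Type*} [Fintype Φ] [DecidableEq Φ] {P : Φ → Ideal (𝓞 (AlgebraicClosure K))}
    {g : Φ → AbsGal K} (hg : ∀ i a, a ∈ stabD (P i) ↔ g i * a * (g i)⁻¹ ∈ stabD P₀)
    {e : ∀ i, (stabD (P i)).subgroupOf H →* stabD (K := K) P₀} {t : AbsGal K → stabD (K := K) P₀}
    {ix : AbsGal K → Φ} {η : AbsGal K → H}
    (hee : ∀ i (x : (stabD (P i)).subgroupOf H),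
      (e i x : AbsGal K) = g i * ((x : H) : AbsGal K) * (g i)⁻¹)
    (d : DC (stabD (K := K) P₀).subtype (fun i => ((stabD (P i)).subgroupOf H).subtype) g e t ix η)
    (dt : DCT (stabD (K := K) P₀).subtype (fun i => ((stabD (P i)).subgroupOf H).subtype) e η)
    (i : Φ) (x x' : (stabD (P i)).subgroupOf H → Fin n → E)
    (hx : Parity.IsCocycle (fun b => τ (((stabD (P i)).subgroupOf H).subtype b)) x)
    (hx' : Parity.IsCocycle (fun b => (τ.comp kk) (((stabD (P i)).subgroupOf H).subtype b)) x')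
    (hcc : BEt (fun a : stabD (K := K) P₀ => Parity.cyclo E ((stabD (K := K) P₀).subtype a))
        (corS (Parity.cyclo E) (stabD (K := K) P₀).subtype ix η i fun h h' =>
        zh (fun i => ((stabD (P i)).subgroupOf H).subtype) i x h ⬝ᵥ
          (b *ᵥ ((τ.comp kk) h *ᵥ zh (fun i => ((stabD (P i)).subgroupOf H).subtype) i x' h')))) :
    BEt (fun b : (stabD (P i)).subgroupOf H =>
        Parity.cyclo E ((((stabD (P i)).subgroupOf H).subtype b : H) : AbsGal K)) fun a a' =>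
      x a ⬝ᵥ (b *ᵥ ((τ.comp kk) (((stabD (P i)).subgroupOf H).subtype a) *ᵥ x' a')) := by
  classical
  have hκκ : ∀ a, κ (κ a) = a := GA.kap_kap hc hκ
  have hκc : Continuous κ := PA.kappa_continuous hc.sq hκ
  have hχ1 : Parity.cyclo E (1 : AbsGal K) = 1 := by
    show LB.toEh E (cyc 1) = 1
    rw [PA.isChar_cyc.one, map_one]
  have hχm : ∀ a a' : AbsGal K,
      Parity.cyclo E (a * a') = Parity.cyclo E a * Parity.cyclo E a' := by
    intro a a'
    show LB.toEh E (cyc (a * a')) = LB.toEh E (cyc a) * LB.toEh E (cyc a')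
    rw [PA.isChar_cyc.mul, map_mul]
  have hχκ : ∀ a : AbsGal K, Parity.cyclo E (κ a) = Parity.cyclo E a := by
    intro a
    show toE E (cyc (κ a)) = toE E (cyc a)
    rw [(PA.isInvol hc.sq hκ).chi]
  -- the induced representation
  obtain ⟨m, ⟨en⟩⟩ := Finite.exists_equiv_fin ((AbsGal K ⧸ H) × Fin n)
  let r : Rep H n m := ⟨fun x => x.out, fun x => QuotientGroup.out_eq' x, en⟩
  have hI : IsInd τ (indR r τ) (indV r τ) := isInd_ind r τ
  have hF : IndForm H (Parity.cyclo E) b (indT r κ g₀ (Parity.cyclo E) b τ) (indV r τ)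
      (valT κ g₀ (indV r τ)) := SF.indForm_ind tw hχ1 hχm hdτ
  have hW : Parity.IsDualRep (inT K T) (Parity.cyclo E) κ (indR r τ)
      (indT r κ g₀ (Parity.cyclo E) b τ) :=
    SF.isDualRep_indT hH tw hχ1 hχm hχκ (fun σ hσ a => inT_conj hσ a) hTH hτc hτu hτs hdτ
  have hbW : (indT r κ g₀ (Parity.cyclo E) b τ).det ≠ 0 :=
    SF.indForm_det hF hI (SF.isInd_kap hI tw) hχ1 hχm hb
  -- the normal subgroup
  have hodd : ∀ g : AbsGal K, (2 : ℤ_[2]) ∣ cyc g - 1 := PA.isChar_cyc.odd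
  obtain ⟨N₀, hNn, -, hNo, hκN, hNI, hpro⟩ := QF.exists_n0 (KR.isFull_K T) (χ := cyc)
    PA.isChar_cyc.mul PA.isChar_cyc.one hodd hκκ hbW hW
  have hHcl : IsClosed (H : Set (AbsGal K)) := H.isClosed_of_isOpen hH
  have hcore : IsOpen (H.normalCore : Set (AbsGal K)) := by
    have h1 : H.FiniteIndex := Subgroup.finiteIndex_of_finite_quotient
    exact Subgroup.isOpen_of_isClosed_of_finiteIndex _ (H.normalCore_isClosed hHcl)
  have hκcore : ∀ y ∈ H.normalCore, κ y ∈ H.normalCore := by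
    intro y hy b'
    have h1 : κ (g₀⁻¹ * b') * y * (κ (g₀⁻¹ * b'))⁻¹ ∈ H := hy _
    have h2 := (kk ⟨_, h1⟩).2
    rw [tw.coe] at h2
    have h3 : g₀ * κ (κ (g₀⁻¹ * b') * y * (κ (g₀⁻¹ * b'))⁻¹) * g₀⁻¹ = b' * κ y * b'⁻¹ := by
      rw [map_mul, map_mul, map_inv, hκκ]
      group
    have h4 : g₀ * κ (κ (g₀⁻¹ * b') * y * (κ (g₀⁻¹ * b'))⁻¹) * g₀⁻¹ ∈ H := h2
    rwa [h3] at h4
  have hN₁n : (N₀ ⊓ H.normalCore).Normal := inferInstance
  have hN₁o : IsOpen ((N₀ ⊓ H.normalCore : Subgroup (AbsGal K)) : Set (AbsGal K)) :=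
    hNo.inter hcore
  -- the primes
  obtain ⟨TD, hTD⟩ : ∃ TD : Finset ℕ, TD = D.primeFactors.filter (fun p => p ≠ 2) := ⟨_, rfl⟩
  have mTD : ∀ p, p ∈ TD ↔ p.Prime ∧ p ≠ 2 ∧ p ∣ D := fun p => by
    rw [hTD, Finset.mem_filter, Nat.mem_primeFactors]
    exact ⟨fun h => ⟨h.1.1, h.2, h.1.2.1⟩, fun h => ⟨⟨h.1, h.2.2, hK.sqf.ne_zero⟩, h.2.1⟩⟩
  have hmem' : (KR.fullK (K := K) (T ∪ TD)).mem (N₀ ⊓ H.normalCore) := by
    refine ⟨hN₁n, hN₁o, fun σ hσ => ?_⟩
    have h1 : σ ∈ inT K T := HP.inT_mono Finset.subset_union_left hσ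
    refine ⟨hNI σ h1, fun b' => ?_⟩
    have h2 := hTH _ (inT_conj h1 b'⁻¹)
    rwa [inv_inv] at h2
  have hκN₁ : ∀ x ∈ N₀ ⊓ H.normalCore, κ x ∈ N₀ ⊓ H.normalCore := fun x hx =>
    ⟨hκN x hx.1, hκcore x hx.2⟩
  -- compactness
  have hcH : CompactSpace H := isCompact_iff_compactSpace.1 hHcl.isCompact
  have hcA : CompactSpace (stabD (K := K) P₀) :=
    isCompact_iff_compactSpace.1 (GP.stabD_closed P₀).isCompact
  have hDcl : ∀ i, IsClosed ((stabD (P i)).subgroupOf H : Set H) := fun i =>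
    (GP.stabD_closed (P i)).preimage continuous_subtype_val
  have hcD : ∀ i, CompactSpace ((stabD (P i)).subgroupOf H) := fun i =>
    isCompact_iff_compactSpace.1 (hDcl i).isCompact
  -- the invariant
  obtain ⟨inv, hF0, hL0⟩ := exists_invI.{u, u} hK hc hκ hP₀ hP2
  have hNA : ((N₀ ⊓ H.normalCore).subgroupOf (stabD P₀)).Normal := inferInstance
  have hNAo : IsOpen (((N₀ ⊓ H.normalCore).subgroupOf (stabD P₀) : Subgroup (stabD P₀)) :
      Set (stabD P₀)) := hN₁o.preimage continuous_subtype_val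
  have hSA := KR.isBig_D (N₀ ⊓ H.normalCore) (GP.stabD_closed P₀)
  have hLD := hL0 (T ∪ TD) (N₀ ⊓ H.normalCore)
    (fun l hl => by
      rcases Finset.mem_union.1 hl with h | h
      · exact ⟨(hT l h).1, (hT l h).2⟩
      · exact ⟨((mTD l).1 h).1, ((mTD l).1 h).2.1⟩)
    (fun p hp h2 hd => Finset.mem_union_right _ ((mTD p).2 ⟨hp, h2, hd⟩)) hmem' hκN₁
  have hmemN : ∀ i (x : (stabD (P i)).subgroupOf H),
      x ∈ ((N₀ ⊓ H.normalCore).subgroupOf (stabD P₀)).comap (e i) →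
      ((x : H) : AbsGal K) ∈ N₀ := by
    intro i x hx
    have h1 : (e i x : AbsGal K) ∈ N₀ ⊓ H.normalCore := hx
    rw [hee] at h1
    have h2 := hNn.conj_mem _ h1.1 (g i)⁻¹
    have h3 : (g i)⁻¹ * (g i * ((x : H) : AbsGal K) * (g i)⁻¹) * ((g i)⁻¹)⁻¹ =
        ((x : H) : AbsGal K) := by group
    rwa [h3] at h2
  have hpA : ∀ i, KR.ProRep (((N₀ ⊓ H.normalCore).subgroupOf (stabD P₀)).comap (e i))
      (fun x : (stabD (P i)).subgroupOf H => τ (((stabD (P i)).subgroupOf H).subtype x)) := fun i =>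
    ⟨by rw [map_one, map_one], fun s t => by rw [map_mul, map_mul],
      hτc.comp continuous_subtype_val, fun x hx => pro_one hI (hpro _ (hmemN i x hx))⟩
  have hkc : Continuous kk := by
    refine continuous_induced_rng.2 ?_
    have e1 : ((fun x : H => (x : AbsGal K)) ∘ kk) = fun h : H => g₀ * κ (h : AbsGal K) * g₀⁻¹ :=
      funext fun h => tw.coe h
    rw [e1]
    exact (continuous_const.mul (hκc.comp continuous_subtype_val)).mul continuous_const
  have hkN : ∀ x : H, (x : AbsGal K) ∈ N₀ → ((kk x : H) : AbsGal K) ∈ N₀ := fun x hx => by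
    rw [tw.coe]
    exact hNn.conj_mem _ (hκN _ hx) _
  have hpB : ∀ i, KR.ProRep (((N₀ ⊓ H.normalCore).subgroupOf (stabD P₀)).comap (e i))
      (fun x : (stabD (P i)).subgroupOf H =>
        (τ.comp kk) (((stabD (P i)).subgroupOf H).subtype x)) := fun i =>
    ⟨by rw [map_one, map_one], fun s t => by rw [map_mul, map_mul],
      (hτc.comp hkc).comp continuous_subtype_val, fun x hx => by
        have h1 := pro_one hI (h := kk (x : H)) (hpro _ (hkN _ (hmemN i x hx)))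
        refine h1.congr fun k => ?_
        show τ ((kk (x : H)) ^ 2 ^ k) = τ (kk ((x : H) ^ 2 ^ k))
        rw [map_pow kk (x : H) (2 ^ k)]⟩
  refine cor_inj (χ := cyc) PA.isChar_cyc.one PA.isChar_cyc.mul hdτ d i (dt.ec i)
    (basis_sub (HP.basis_K K) (stabD P₀))
    (basis_sub (basis_sub (HP.basis_K K) H) ((stabD (P i)).subgroupOf H))
    hNA hNAo ?_ hSA (isBig_bigT _) (fun W h1 h2 => fullD_memI h1 h2) hLD hF0 (hpA i) (hpB i)
    hx hx' hcc
  intro y hy
  have h1 := (inferInstance : H.normalCore.Normal).conj_mem _ hy.2 (g i)⁻¹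
  rw [inv_inv] at h1
  have h2 : g i * ((g i)⁻¹ * (y : AbsGal K) * g i) * (g i)⁻¹ = y := by group
  refine ⟨⟨⟨(g i)⁻¹ * (y : AbsGal K) * g i, H.normalCore_le h1⟩, (hg i _).2 ?_⟩,
    Subtype.ext ((hee _ _).trans h2)⟩
  show g i * ((g i)⁻¹ * (y : AbsGal K) * g i) * (g i)⁻¹ ∈ stabD P₀
  rw [h2]
  exact y.2

end Pool.Agent.Work.MP_787500_nt.UV
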