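import Mathlib
import Pool.Agent.Work.MP_787500_nt.UV.Defs
import Pool.Agent.Work.MP_787500_nt.UV.ShU
import Pool.Agent.Work.MP_787500_nt.UV.AnnT
import Pool.Agent.Work.MP_787500_nt.UV.KeyB
import Pool.Agent.Work.MP_787500_nt.SG.Wdim

/-!
# Module UV/MainU (size M): from the formula over `K` for the induced representation to the formula over `H`

PROOF. Compare the end of the proof of `SF.main_fam` (SF/MainT.lean) and the proof of `SG.main_ord` (SG/Main.lean). With `M = LW L`, `W' = WInd V A.subtype g W`: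
* `selmerBK .. M = LW (global data) (fun _ => selFam ..)`: `key_B` (UV/KeyB); finite dimension, dimension modulo coboundaries, fixed vectors of `selFam ..` as in
  `SF.main_fam` (`fd_LW`, `dim_LW`, `fix_LW` for `d₀`, `dt₀`; `hcob`). `FiniteDimensional (L i)`: `(fd_LW hI d dt hL).1`.
* `finrank W' = ∑ i, H.relIndex (A₁ i) * finrank (W i)`: `SG.finrank_WInd`.
* `dimModulo (fixedModulo (R|A) W') W' = ∑ ..`: `SG.dim_fixW hI d`.
* `M ⊓ greenbergAt R A W' = LW (fun i => L i ⊓ greenbergAt τ (D i) (W i))`: `gr_LW`, `LW_inf`; `dimModulo M (..) = ∑ ..`: `dim_LW2`.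
* if `s` holds: `annih bW W' = WInd (valT κ g₀ V) A.subtype g (annih b (W i))` (`annih_WIndT`), the annihilators are stable for `τ ∘ kk` (`hWa` in the
  proof of `SG.main_ord`), `SG.dim_fixW hI' d`; `perpAt M = LW' (perpAt (L i))` (`perp_LW`), `greenbergAt (R.comp κ) A (annih bW W') = LW' (greenbergAt (τ.comp kk) (D i) (annih b (W i)))`
  (`gr_LW` for `hI'`), `LW_inf`, `dim_LW2 hI'` (`perpAt (L i)` is between the coboundaries (`perp_cobR` in UV/KeyB) and the cocycles for `τ ∘ kk`; it is finite dimensional: `hfc` and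
  `fd_LW hI'` for the family of all cocycles, `LW' (cocycles) = cocycles` by `shP_coc`).
-/

set_option autoImplicit false
set_option linter.unusedSectionVars false

namespace Pool.Agent.Work.MP_787500_nt.UV

open Matrix
open Pool.Agent.Work.MP_787500_nt.SH
open Pool.Agent.Work.MP_787500_nt.SG (WInd)
open Pool.Agent.Work.MP_787500_nt.SF (Tw valT)

variable {G : Type*} [Group G] [TopologicalSpace G] [IsTopologicalGroup G] {H : Subgroup G}
  [Fintype (G ⧸ H)] {E : Type*} [NormedField E] {n m : ℕ}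
  {τ : H →* Matrix (Fin n) (Fin n) E} {R : G →* Matrix (Fin m) (Fin m) E}
  {V : (Fin m → E) →ₗ[E] (G → Fin n → E)} {χ : G → E} {b : Matrix (Fin n) (Fin n) E}
  {bW : Matrix (Fin m) (Fin m) E} {κ : G →* G} {g₀ : G} {kk : H →* H}
  {A : Subgroup G} {Φ : Type*} [Fintype Φ] [DecidableEq Φ] {A₁ : Φ → Subgroup G} {g : Φ → G}
  {e : ∀ i, (A₁ i).subgroupOf H →* A} {t : G → A} {ix : G → Φ} {η : G → H}
  {t₀ : G → G} {ix₀ : G → Unit} {η₀ : G → H} {W : Φ → Submodule E (Fin n → E)}

theorem main_U (hκc : Continuous κ) (tw : Tw H κ g₀ kk) (hkc : Continuous kk)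
    (hI : IsInd τ R V) (hI' : IsInd (τ.comp kk) (R.comp κ) (valT κ g₀ V))
    (hF : IndForm H χ b bW V (valT κ g₀ V))
    (hτc : Continuous τ) (hRc : Continuous R) (hχc : Continuous χ) (hχ1 : χ 1 = 1)
    (hχ : ∀ a a', χ (a * a') = χ a * χ a')
    (hdual : ∀ a, (R a)ᵀ * bW * R (κ a) = χ a • bW)
    (hdτ : ∀ h : H, (τ h)ᵀ * b * τ (kk h) = χ h • b)
    {𝓘 : Set (Subgroup G)}
    (hconj : ∀ I ∈ 𝓘, ∀ a : G, I.comap (MulAut.conj a).toMonoidHom ∈ 𝓘)
    (hA : ∀ i a, a ∈ A₁ i ↔ g i * a * (g i)⁻¹ ∈ A)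
    (hg : ∀ a : G, ∃! i, ∃ (dd : A) (h : H), a = dd * g i * h)
    (hee : ∀ i (x : (A₁ i).subgroupOf H), (e i x : G) = g i * ((x : H) : G) * (g i)⁻¹)
    (d : DC A.subtype (fun i => ((A₁ i).subgroupOf H).subtype) g e t ix η)
    (dt : DCT A.subtype (fun i => ((A₁ i).subgroupOf H).subtype) e η)
    (d₀ : DC (MonoidHom.id G) (fun _ : Unit => MonoidHom.id H) (fun _ => (1 : G))
      (fun _ => H.subtype) t₀ ix₀ η₀)
    (dt₀ : DCT (MonoidHom.id G) (fun _ : Unit => MonoidHom.id H) (fun _ => H.subtype) η₀)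
    (hinj : ∀ (i : Φ) (x x' : (A₁ i).subgroupOf H → Fin n → E),
      Parity.IsCocycle (fun b => τ (((A₁ i).subgroupOf H).subtype b)) x →
      Parity.IsCocycle (fun b => (τ.comp kk) (((A₁ i).subgroupOf H).subtype b)) x' →
      BEt (fun a : A => χ (A.subtype a)) (corS χ A.subtype ix η i fun h h' =>
        zh (fun i => ((A₁ i).subgroupOf H).subtype) i x h ⬝ᵥ
          (b *ᵥ ((τ.comp kk) h *ᵥ zh (fun i => ((A₁ i).subgroupOf H).subtype) i x' h'))) →
      BEt (fun b : (A₁ i).subgroupOf H => χ (((A₁ i).subgroupOf H).subtype b)) fun a a' =>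
        x a ⬝ᵥ (b *ᵥ ((τ.comp kk) (((A₁ i).subgroupOf H).subtype a) *ᵥ x' a')))
    (hW : ∀ i, ∀ σ ∈ (A₁ i).subgroupOf H, ∀ x ∈ W i, τ σ *ᵥ x ∈ W i)
    {L : ∀ i, Submodule E ((A₁ i).subgroupOf H → Fin n → E)}
    (hL : ∀ i, Parity.Between (Parity.coboundaries (fun σ : (A₁ i).subgroupOf H => τ σ)) (L i)
      (Parity.cocycles (fun σ : (A₁ i).subgroupOf H => τ σ))) {s : Prop} {a : ℕ}
    (hfc : s → FiniteDimensional E (Parity.cocycles (fun a : A => (R.comp κ) a)))
    (h : FormK 𝓘 χ κ R bW A (WInd V A.subtype g W) s a (LW (fun a : A => R a) V g e L)) :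
    FormB {I | ∃ J ∈ 𝓘, I = J.subgroupOf H} (fun σ : H => χ σ) kk τ b
      (fun i => (A₁ i).subgroupOf H) W (fun i => H.relIndex (A₁ i)) s a L := by
  classical
  have hW' : ∀ i, ∀ σ : (A₁ i).subgroupOf H, ∀ x ∈ W i,
      τ (((A₁ i).subgroupOf H).subtype σ) *ᵥ x ∈ W i := fun i σ x hx => hW i σ σ.2 x hx
  have hRc' : Continuous (R.comp κ) := hRc.comp hκc
  have hτc' : Continuous (τ.comp kk) := hτc.comp hkc
  obtain ⟨h1, h2, h3, h4⟩ := h
  have hfdL : ∀ i, FiniteDimensional E (L i) := (fd_LW hI d dt hL).1 h1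
  have hkey := key_bk hκc tw hkc hI hF hτc hRc hχc hχ1 hχ hdual hdτ hconj hee d dt d₀ dt₀
    hinj hL
  rw [hkey] at h2 h3 h4
  set S := selFam {I : Subgroup H | ∃ J ∈ 𝓘, I = J.subgroupOf H}
    (fun σ : H => χ σ) kk τ b (fun i => (A₁ i).subgroupOf H) L with hS
  -- coboundaries for `τ ∘ kk`
  have hpc : ∀ i, Parity.coboundaries
      (fun σ : (A₁ i).subgroupOf H => (τ.comp kk) (((A₁ i).subgroupOf H).subtype σ)) ≤
      perpAt (fun σ : (A₁ i).subgroupOf H => χ (((A₁ i).subgroupOf H).subtype σ))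
        (fun σ : (A₁ i).subgroupOf H => (τ.comp kk) (((A₁ i).subgroupOf H).subtype σ)) b
        (L i) := by
    intro i x hx
    refine perp_cobR (A := fun σ : (A₁ i).subgroupOf H => τ σ) (fun s t => ?_) ?_ ?_ (hL i).2 hx
    · rw [map_mul, map_mul]
    · exact hτc'.comp continuous_subtype_val
    · intro σ
      exact hdτ σ
  have hcob : Parity.coboundaries τ ≤ S := by
    intro x hx
    have hxc := cob_coc (fun s t => map_mul τ s t) hτc hx
    obtain ⟨v, hv⟩ := hx
    refine ⟨hxc, fun I _ => ⟨v, fun σ _ => hv σ⟩, fun i => ⟨(hL i).1 ⟨v, fun σ => hv σ⟩, ?_⟩⟩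
    exact hpc i ⟨v, fun σ => hv _⟩
  have hSb : ∀ _ : Unit, Parity.Between (Parity.coboundaries (fun b : H => τ (MonoidHom.id H b)))
      S (Parity.cocycles (fun b : H => τ (MonoidHom.id H b))) := fun _ =>
    ⟨hcob, fun x hx => hx.1⟩
  have hfdS : FiniteDimensional E S := (fd_LW hI d₀ dt₀ hSb).1 h2 ()
  refine ⟨hfdL, hfdS, hcob, ?_⟩
  have e3 : Parity.dimModulo (LW (fun a : G => R a) V
      (fun _ : Unit => (1 : G)) (fun _ : Unit => H.subtype) (fun _ : Unit => S))
      (Parity.coboundaries R) = Parity.dimModulo S (Parity.coboundaries τ) := by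
    have h5 := dim_LW hI d₀ dt₀ hSb (fun _ => hfdS)
    rw [Fintype.sum_unique] at h5
    exact h5
  have e4 : Module.finrank E (Parity.fixedBy (fun σ : G => R σ)) =
      Module.finrank E (Parity.fixedBy (fun σ : H => τ σ)) := by
    have h5 := fix_LW hI d₀
    rw [Fintype.sum_unique] at h5
    exact h5
  have e5 : Module.finrank E (WInd V A.subtype g W) =
      ∑ i, H.relIndex (A₁ i) * Module.finrank E (W i) :=
    SG.finrank_WInd hI hA hg fun i h hh x hx => hW i h hh x hx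
  have e6 : Parity.dimModulo (Parity.fixedModulo (fun σ : A => R σ) (WInd V A.subtype g W))
      (WInd V A.subtype g W) = ∑ i, Parity.dimModulo
        (Parity.fixedModulo (fun σ : (A₁ i).subgroupOf H => τ σ) (W i)) (W i) :=
    SG.dim_fixW hI d hW'
  have hcg : ∀ {τ₁ : H →* Matrix (Fin n) (Fin n) E} (_ : Continuous τ₁)
      (W₁ : Submodule E (Fin n → E)) (i : Φ),
      Parity.coboundaries (fun σ : (A₁ i).subgroupOf H => τ₁ (((A₁ i).subgroupOf H).subtype σ)) ≤
        Parity.greenbergAt τ₁ ((A₁ i).subgroupOf H) W₁ := by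
    intro τ₁ hc₁ W₁ i x hx
    have hxc := cob_coc (B := fun σ : (A₁ i).subgroupOf H => τ₁ (((A₁ i).subgroupOf H).subtype σ))
      (fun s t => by rw [map_mul, map_mul]) (hc₁.comp continuous_subtype_val) hx
    obtain ⟨v, hv⟩ := hx
    refine ⟨hxc, v, fun σ => ?_⟩
    have h5 : x σ - (τ₁ (σ : H) *ᵥ v - v) = 0 := by
      rw [hv]
      exact sub_self _
    rw [h5]
    exact W₁.zero_mem
  have e7 : Parity.dimModulo (LW (fun a : A => R a) V g e L)
      (LW (fun a : A => R a) V g e L ⊓ Parity.greenbergAt R A (WInd V A.subtype g W)) =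
      ∑ i, Parity.dimModulo (L i)
        (L i ⊓ Parity.greenbergAt τ ((A₁ i).subgroupOf H) (W i)) := by
    rw [gr_LW hI d dt (fun i σ hσ x hx => hW i σ hσ x hx)]
    have h5 := LW_inf (R := R) (j := A.subtype) (val := V) (g := g) (e := e) (L := L)
      (L' := fun i => Parity.greenbergAt τ ((A₁ i).subgroupOf H) (W i))
    have h6 : LW (fun a : A => R a) V g e L ⊓ LW (fun a : A => R a) V g e
        (fun i => Parity.greenbergAt τ ((A₁ i).subgroupOf H) (W i)) =
        LW (fun a : A => R a) V g e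
          (fun i => L i ⊓ Parity.greenbergAt τ ((A₁ i).subgroupOf H) (W i)) := h5
    rw [h6]
    exact dim_LW2 hI d dt hL (fun i => ⟨le_inf (hL i).1 (hcg hτc (W i) i), inf_le_left⟩) hfdL
  have hdd : ∀ (h : H) (x y : Fin n → E),
      (τ h *ᵥ x) ⬝ᵥ (b *ᵥ (τ (kk h) *ᵥ y)) = χ h * (x ⬝ᵥ (b *ᵥ y)) := by
    intro h x y
    rw [← vecMul_transpose, ← dotProduct_mulVec, mulVec_mulVec, mulVec_mulVec, hdτ, smul_mulVec,
      dotProduct_smul, smul_eq_mul]
  have hWa : ∀ i, ∀ σ : (A₁ i).subgroupOf H, ∀ x ∈ Parity.annih b (W i),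
      (τ.comp kk) (((A₁ i).subgroupOf H).subtype σ) *ᵥ x ∈ Parity.annih b (W i) := by
    intro i σ x hx w hw
    have h1 := hx _ (hW' i σ⁻¹ w hw)
    have h2 := hdd (σ : H) (τ ((σ⁻¹ : (A₁ i).subgroupOf H) : H) *ᵥ w) x
    have h3 : τ (σ : H) *ᵥ (τ ((σ⁻¹ : (A₁ i).subgroupOf H) : H) *ᵥ w) = w := by
      rw [mulVec_mulVec, ← map_mul]
      show τ ((σ : H) * (σ : H)⁻¹) *ᵥ w = w
      rw [mul_inv_cancel, map_one, one_mulVec]
    have h1' : (τ ((σ⁻¹ : (A₁ i).subgroupOf H) : H) *ᵥ w) ⬝ᵥ (b *ᵥ x) = 0 := h1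
    rw [h3, h1', mul_zero] at h2
    exact h2
  have hann := annih_WIndT hI hI' d hF hχ1 hχ hdτ hW'
  have e8 : Parity.dimModulo (Parity.fixedModulo (fun σ : A => R (κ σ))
      (Parity.annih bW (WInd V A.subtype g W))) (Parity.annih bW (WInd V A.subtype g W)) =
      ∑ i, Parity.dimModulo (Parity.fixedModulo (fun σ : (A₁ i).subgroupOf H => τ (kk σ))
        (Parity.annih b (W i))) (Parity.annih b (W i)) := by
    rw [hann]
    exact SG.dim_fixW hI' d hWa
  have e9 : s → Parity.dimModulo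
      (perpAt (fun σ : A => χ σ) (fun σ : A => R (κ σ)) bW (LW (fun a : A => R a) V g e L))
      (perpAt (fun σ : A => χ σ) (fun σ : A => R (κ σ)) bW (LW (fun a : A => R a) V g e L) ⊓
        Parity.greenbergAt (R.comp κ) A (Parity.annih bW (WInd V A.subtype g W))) =
      ∑ i, Parity.dimModulo
        (perpAt (fun σ : (A₁ i).subgroupOf H => χ (σ : H))
          (fun σ : (A₁ i).subgroupOf H => τ (kk σ)) b (L i))
        (perpAt (fun σ : (A₁ i).subgroupOf H => χ (σ : H))
          (fun σ : (A₁ i).subgroupOf H => τ (kk σ)) b (L i) ⊓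
          Parity.greenbergAt (τ.comp kk) ((A₁ i).subgroupOf H) (Parity.annih b (W i))) := by
    intro hs
    have hfc' := hfc hs
    have h5 : perpAt (fun σ : A => χ σ) (fun σ : A => R (κ σ)) bW
        (LW (fun a : A => R a) V g e L) =
        LW (fun a : A => (R.comp κ) (A.subtype a)) (valT κ g₀ V) g e
          (fun i => perpAt (fun σ : (A₁ i).subgroupOf H => χ (σ : H))
          (fun σ : (A₁ i).subgroupOf H => τ (kk σ)) b (L i)) :=
      perp_LW hI hI' hF hRc hRc' hχc hχ1 hχ hdual d dt hL hinj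
    have h6 : Parity.greenbergAt (R.comp κ) A (Parity.annih bW (WInd V A.subtype g W)) =
        LW (fun a : A => (R.comp κ) (A.subtype a)) (valT κ g₀ V) g e
          (fun i => Parity.greenbergAt (τ.comp kk) ((A₁ i).subgroupOf H)
            (Parity.annih b (W i))) := by
      rw [hann]
      exact gr_LW hI' d dt (fun i σ hσ x hx => hWa i ⟨σ, hσ⟩ x hx)
    -- finite dimension
    have h7 : LW (fun a : A => (R.comp κ) (A.subtype a)) (valT κ g₀ V) g e
        (fun i => Parity.cocycles (fun σ : (A₁ i).subgroupOf H =>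
          (τ.comp kk) (((A₁ i).subgroupOf H).subtype σ))) =
        Parity.cocycles (fun a : A => (R.comp κ) (A.subtype a)) := by
      ext y
      rw [mem_LW]
      constructor
      · intro h
        exact h.1
      · intro h
        exact ⟨h, fun i => shP_coc hI' d dt h i⟩
    have h8 : FiniteDimensional E (LW (fun a : A => (R.comp κ) (A.subtype a)) (valT κ g₀ V) g e
        (fun i => Parity.cocycles (fun σ : (A₁ i).subgroupOf H =>
          (τ.comp kk) (((A₁ i).subgroupOf H).subtype σ)))) := by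
      rw [h7]
      exact hfc'
    have h9 : ∀ i, FiniteDimensional E (Parity.cocycles (fun σ : (A₁ i).subgroupOf H =>
          (τ.comp kk) (((A₁ i).subgroupOf H).subtype σ))) :=
      (fd_LW hI' d dt (fun i => ⟨cob_coc
        (B := fun σ : (A₁ i).subgroupOf H => (τ.comp kk) (((A₁ i).subgroupOf H).subtype σ))
        (fun s t => by rw [map_mul, map_mul])
        (hτc'.comp continuous_subtype_val), le_rfl⟩)).1 h8
    have hple : ∀ i, perpAt (fun σ : (A₁ i).subgroupOf H => χ (σ : H))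
          (fun σ : (A₁ i).subgroupOf H => τ (kk σ)) b (L i) ≤
        Parity.cocycles (fun σ : (A₁ i).subgroupOf H =>
          (τ.comp kk) (((A₁ i).subgroupOf H).subtype σ)) := fun i y hy => hy.1
    have h10 : ∀ i, FiniteDimensional E (perpAt (fun σ : (A₁ i).subgroupOf H => χ (σ : H))
          (fun σ : (A₁ i).subgroupOf H => τ (kk σ)) b (L i)) := by
      intro i
      have := h9 i
      exact Submodule.finiteDimensional_of_le (hple i)
    rw [h5, h6]
    rw [LW_inf (R := R.comp κ) (j := A.subtype) (val := valT κ g₀ V) (g := g) (e := e)]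
    exact dim_LW2 hI' d dt (fun i => ⟨hpc i, hple i⟩)
      (fun i => ⟨le_inf (hpc i) (hcg hτc' _ i), inf_le_left⟩) h10
  rw [e3, e4] at h4
  refine h4.trans ?_
  rw [e5, e6, e7]
  by_cases hs : s
  · rw [if_pos hs, e8, e9 hs]
    simp only [if_pos hs, Finset.sum_add_distrib]
    rfl
  · rw [if_neg hs]
    simp only [if_neg hs, Finset.sum_add_distrib, Finset.sum_const_zero]
    rfl

end Pool.Agent.Work.MP_787500_nt.UV
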