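import Mathlib
import Pool.Agent.Work.MP_787500_nt.UV.Defs
import Pool.Agent.Work.MP_787500_nt.OV.MainR

/-!
# Module UV/GrN (size M): Greenberg's condition at a prime over 2 that is its own conjugate

PROOF. `X = QX.two_I H.isI H.conj H.kap`, `P' = GA.cj c P` (`OV.eq_cj hW.swap`). `QX.exists_swap2` gives `g` with
`iK K g * c ∈ stb P`; `OV.swap_iff X g` : `∀ x, x ∈ P' ↔ g • x ∈ P`. `h1 := hW.ann g _ : y ∈ annih b W ↔ ρ g y ∈ W`, `2 * finrank W = n`
(`OV.two_finrank`), `hW0` as in the proof of `OV.selfR` (OV/MainR.lean). Let `k : stabD P → stabD P`, `k a = g κ(a) g⁻¹` (`OV.mem_stabD_conj X h0`; it is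
bijective with inverse `a ↦ κ (g⁻¹ a g)`).
1. `IsSelfPerp (cyclo E) κ ρ b (stabD P) (ρ g⁻¹) k (greenbergAt ρ (stabD P) W)`: as in the proof of `OV.selfR`, with the FIRST component of
`QX.main_genL4` over the extension `E'`, then descent: `h.ext (greenbergAt ρ ..) = greenbergAt (mapRep ι ρ) .. (h.extV W)` (`RB.greenbergAt_fin`), and the
converse of `RB.selfPerp_fin` (RB/ExtSelf.lean; its proof is an equivalence: for `y` over `E` use the vector `fun σ i => ι (y σ i) * β j₀`, or copy the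
proof of `paritySelf_fin`; `QX.selfPerp_ext` in QX/ExtL.lean is such an equivalence for quadratic extensions).
2. Let `y` be a continuous cocycle for `ρ ∘ κ`, `y' a = ρ g (y (k⁻¹ a))`, a continuous cocycle for `ρ` with `ρ g⁻¹ (y' (k a)) = y a`. So by 1.
`IsPerp .. y ↔ y' ∈ greenbergAt ρ (stabD P) W`, i.e. `∃ v, ∀ a, ρ g (y (k⁻¹ a)) - (ρ a v - v) ∈ W`; with `w = ρ g⁻¹ v` and `a = k σ`,
`ρ (k σ) v - v = ρ g (ρ (κ σ) w - w)`, so by `h1` this is `∃ w, ∀ σ, y σ - (ρ (κ σ) w - w) ∈ annih b W`.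
-/

set_option autoImplicit false
set_option linter.unusedSectionVars false

namespace Pool.Agent.Work.MP_787500_nt.UV

open Matrix NumberField
open Pool.Agent.Work.MP_787500_nt.GP (inT stabD)
open Pool.Agent.Work.MP_787500_nt.PA (toE cyc)
open Pool.Agent.Work.MP_787500_nt.HP (IsQ stb)
open Pool.Agent.Work.MP_787500_nt.KS (iK)
open Pool.Agent.Work.MP_787500_nt.Parity

section descent

open Module
open Pool.Agent.Work.MP_787500_nt.RB (FinExt)
open Pool.Agent.Work.MP_787500_nt.LX (mapRep mapRep_apply map_toE)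

variable {E E' : Type*} [NormedField E] [NormedAlgebra ℚ_[2] E] [FiniteDimensional ℚ_[2] E]
  [NormedField E'] [NormedAlgebra ℚ_[2] E'] [FiniteDimensional ℚ_[2] E'] {ι : E →ₐ[ℚ_[2]] E'}
  {d : ℕ} {β : Fin d → E'} {n : ℕ} {G : Type*} [Group G] [TopologicalSpace G]

private theorem co_ext (h : FinExt ι β) {z w : E'} (e : ∀ j, h.co z j = h.co w j) : z = w := by
  rw [h.co_spec z, h.co_spec w]
  exact Finset.sum_congr rfl fun j _ => by rw [e j]

private theorem co_sub (h : FinExt ι β) (z w : E') (j : Fin d) :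
    h.co (z - w) j = h.co z j - h.co w j := by
  have h1 := h.co_add (z - w) w j
  rw [sub_add_cancel] at h1
  rw [h1, add_sub_cancel_right]

private theorem co_mulVec (h : FinExt ι β) (A : Matrix (Fin n) (Fin n) E) (z : Fin n → E')
    (j : Fin d) : (fun i => h.co ((A.map ι *ᵥ z) i) j) = A *ᵥ fun i => h.co (z i) j := by
  funext i
  show h.co (∑ k, (A.map ι) i k * z k) j = ∑ k, A i k * h.co (z k) j
  rw [h.co_sum]
  exact Finset.sum_congr rfl fun k _ => h.co_smul _ _ _

private theorem co_act (h : FinExt ι β) (A : Matrix (Fin n) (Fin n) E) (x v : Fin n → E')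
    (j : Fin d) : (fun i => h.co ((x - (A.map ι *ᵥ v - v)) i) j) =
      (fun i => h.co (x i) j) - (A *ᵥ (fun i => h.co (v i) j) - fun i => h.co (v i) j) := by
  rw [← co_mulVec h A v j]
  funext i
  simp only [Pi.sub_apply, co_sub h]

private theorem co_dot (h : FinExt ι β) (x w : Fin n → E') : x ⬝ᵥ w = ∑ j, ∑ k, β j * β k *
    ι ((fun i => h.co (x i) j) ⬝ᵥ fun i => h.co (w i) k) := by
  have e3 : ∀ i, x i * w i = ∑ j, ∑ k, β j * β k * ι (h.co (x i) j * h.co (w i) k) := by
    intro i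
    conv_lhs => rw [h.co_spec (x i), h.co_spec (w i)]
    rw [Finset.sum_mul_sum]
    refine Finset.sum_congr rfl fun j _ => Finset.sum_congr rfl fun k _ => ?_
    rw [map_mul]
    ring
  show ∑ i, x i * w i = _
  rw [Finset.sum_congr rfl fun i _ => e3 i, Finset.sum_comm]
  refine Finset.sum_congr rfl fun j _ => ?_
  rw [Finset.sum_comm]
  refine Finset.sum_congr rfl fun k _ => ?_
  rw [← Finset.mul_sum, ← map_sum]
  rfl

private theorem co_dot' (h : FinExt ι β) (x : Fin n → E) (w : Fin n → E') (j : Fin d) :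
    h.co ((fun i => ι (x i)) ⬝ᵥ w) j = x ⬝ᵥ fun i => h.co (w i) j := by
  show h.co (∑ i, ι (x i) * w i) j = ∑ i, x i * h.co (w i) j
  rw [h.co_sum]
  exact Finset.sum_congr rfl fun i _ => h.co_smul _ _ _

private theorem cobM_iff (h : FinExt ι β) {X : Type*} (A : X → Matrix (Fin n) (Fin n) E)
    (W : Submodule E (Fin n → E)) (z : X → Fin n → E') :
    (∃ v : Fin n → E', ∀ t, z t - ((A t).map ι *ᵥ v - v) ∈ h.extV W) ↔
      ∀ j, ∃ v, ∀ t, (fun i => h.co (z t i) j) - (A t *ᵥ v - v) ∈ W := by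
  constructor
  · rintro ⟨v, hv⟩ j
    refine ⟨fun i => h.co (v i) j, fun t => ?_⟩
    have h1 := hv t j
    rw [co_act h] at h1
    exact h1
  · intro hv
    choose v hv using hv
    obtain ⟨w, hw⟩ : ∃ w : Fin n → E', w = fun i => ∑ j, ι (v j i) * β j := ⟨_, rfl⟩
    have h2 : ∀ j, (fun i => h.co (w i) j) = v j := by
      intro j
      funext i
      have h3 : w i = ∑ j, ι ((fun j => v j i) j) * β j := by rw [hw]
      exact congrFun (h.co_eq h3) j
    refine ⟨w, fun t j => ?_⟩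
    rw [co_act h, h2]
    exact hv j t

private theorem cob_iff (h : FinExt ι β) {X : Type*} (A : X → Matrix (Fin n) (Fin n) E)
    (z : X → Fin n → E') : (∃ v : Fin n → E', ∀ t, z t = (A t).map ι *ᵥ v - v) ↔
      ∀ j, ∃ v, ∀ t, (fun i => h.co (z t i) j) = A t *ᵥ v - v := by
  have h1 := cobM_iff h A ⊥ z
  have h2 : ∀ z : Fin n → E', z ∈ h.extV (⊥ : Submodule E (Fin n → E)) ↔ z = 0 := by
    intro z
    constructor
    · intro hz
      funext i
      refine co_ext h fun j => ?_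
      rw [Pi.zero_apply, h.co_zero]
      exact congrFun ((Submodule.mem_bot E).1 (hz j)) i
    · rintro rfl
      exact Submodule.zero_mem _
  simp only [h2, Submodule.mem_bot, sub_eq_zero] at h1
  exact h1

private theorem cont_of (h : FinExt ι β) {X : Type*} [TopologicalSpace X] {z : X → Fin n → E'}
    (hz : ∀ j, Continuous fun t i => h.co (z t i) j) : Continuous z := by
  have hι : Continuous ι := ι.toLinearMap.continuous_of_finiteDimensional
  refine continuous_pi fun i => ?_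
  have e1 : (fun t => z t i) = fun t => ∑ j, ι (h.co (z t i) j) * β j :=
    funext fun t => h.co_spec _
  rw [e1]
  exact continuous_finsetSum _ fun j _ =>
    (hι.comp ((continuous_apply i).comp (hz j))).mul continuous_const

private theorem coc_iff (h : FinExt ι β) {X : Type*} [Group X] [TopologicalSpace X]
    (A : X → Matrix (Fin n) (Fin n) E) (z : X → Fin n → E') :
    Parity.IsCocycle (fun t => (A t).map ι) z ↔
      ∀ j, Parity.IsCocycle A (fun t i => h.co (z t i) j) := by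
  constructor
  · rintro ⟨hc, hz⟩ j
    refine ⟨continuous_pi fun i => (h.cont j).comp ((continuous_apply i).comp hc), fun s t => ?_⟩
    rw [← co_mulVec h (A s) (z t) j]
    funext i
    show h.co (z (s * t) i) j = h.co (z s i) j + h.co (((A s).map ι *ᵥ z t) i) j
    rw [hz s t]
    exact h.co_add _ _ _
  · intro hz
    refine ⟨cont_of h fun j => (hz j).1, fun s t => ?_⟩
    funext i
    refine co_ext h fun j => ?_
    have h1 := congrFun ((hz j).2 s t) i
    rw [← co_mulVec h (A s) (z t) j] at h1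
    rw [Pi.add_apply, h.co_add]
    exact h1

private theorem perp_iff (h : FinExt ι β) {X : Type*} [Group X] [TopologicalSpace X]
    {χ : X → ℤ_[2]} (B : X → Matrix (Fin n) (Fin n) E) (b : Matrix (Fin n) (Fin n) E)
    (L : Submodule E (X → Fin n → E)) (y : X → Fin n → E') :
    Parity.IsPerp (fun t => toE E' (χ t)) (fun t => (B t).map ι) (b.map ι) (h.ext L) y ↔
      ∀ j, Parity.IsPerp (fun t => toE E (χ t)) B b L (fun t i => h.co (y t i) j) := by
  have hι : Continuous ι := ι.toLinearMap.continuous_of_finiteDimensional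
  have key : ∀ (s t : X) (j : Fin d), (fun i => h.co ((b.map ι *ᵥ ((B s).map ι *ᵥ y t)) i) j) =
      b *ᵥ (B s *ᵥ fun i => h.co (y t i) j) := by
    intro s t j
    rw [co_mulVec h b, co_mulVec h (B s)]
  constructor
  · rintro ⟨hc, hz⟩ j
    refine ⟨(coc_iff h B y).1 hc j, fun v hv => ?_⟩
    have h1 : (fun (t : X) i => ι (v t i)) ∈ h.ext L := by
      intro k
      have e1 : (fun (t : X) i => h.co (ι (v t i)) k) = h.co 1 k • v := by
        funext t i
        have e2 := h.co_smul (v t i) 1 k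
        rw [mul_one] at e2
        rw [e2, mul_comm]
        rfl
      rw [e1]
      exact L.smul_mem _ hv
    obtain ⟨z, hzc, hz'⟩ := hz _ h1
    refine ⟨fun t => h.co (z t) j, (h.cont j).comp hzc, fun s t => ?_⟩
    have h2 := congrArg (fun w => h.co w j) (hz' s t)
    beta_reduce at h2
    rw [co_dot' h, key, co_sub h, h.co_add, ← map_toE ι, h.co_smul] at h2
    exact h2
  · intro hy
    refine ⟨(coc_iff h B y).2 fun j => (hy j).1, fun v' hv' => ?_⟩
    have h1 : ∀ k j, ∃ z : X → E, Continuous z ∧ ∀ s t, (fun i => h.co (v' s i) k) ⬝ᵥ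
        (b *ᵥ (B s *ᵥ fun i => h.co (y t i) j)) = z s + toE E (χ s) * z t - z (s * t) :=
      fun k j => (hy j).2 _ (hv' k)
    choose z hzc hz using h1
    refine ⟨fun t => ∑ k, ∑ j, β k * β j * ι (z k j t), ?_, fun s t => ?_⟩
    · exact continuous_finsetSum _ fun k _ => continuous_finsetSum _ fun j _ =>
        continuous_const.mul (hι.comp (hzc k j))
    · rw [co_dot h]
      simp only [key, hz]
      rw [← map_toE ι, Finset.mul_sum, ← Finset.sum_add_distrib, ← Finset.sum_sub_distrib]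
      refine Finset.sum_congr rfl fun k _ => ?_
      rw [Finset.mul_sum, ← Finset.sum_add_distrib, ← Finset.sum_sub_distrib]
      refine Finset.sum_congr rfl fun j _ => ?_
      simp only [map_add, map_sub, map_mul]
      ring

private theorem cobs_fin (h : FinExt ι β) {X : Type*} (A : X → Matrix (Fin n) (Fin n) E) :
    Parity.coboundaries (fun t => (A t).map ι) = h.ext (Parity.coboundaries A) := by
  ext z
  exact cob_iff h A z

private theorem cocs_fin (h : FinExt ι β) {X : Type*} [Group X] [TopologicalSpace X]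
    (A : X → Matrix (Fin n) (Fin n) E) :
    Parity.cocycles (fun t => (A t).map ι) = h.ext (Parity.cocycles A) := by
  ext z
  exact coc_iff h A z

/-- the converse of `RB.selfPerp_fin` -/
private theorem selfPerp_of_fin (h : FinExt ι β) {χ : G → ℤ_[2]} {κ : G → G}
    {ρ : G →* Matrix (Fin n) (Fin n) E} {b A : Matrix (Fin n) (Fin n) E} {D : Subgroup G}
    {k : D → D} {L : Submodule E (D → Fin n → E)}
    (hL : Parity.IsSelfPerp (fun g => toE E' (χ g)) κ (mapRep ι ρ) (b.map ι) D (A.map ι) k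
      (h.ext L)) :
    Parity.IsSelfPerp (fun g => toE E (χ g)) κ ρ b D A k L := by
  have hne : ∃ j : Fin d, True := by
    by_contra hcon
    have h1 : ∀ z : E', z = 0 := fun z => co_ext h fun j => (hcon ⟨j, trivial⟩).elim
    exact one_ne_zero (h1 1)
  obtain ⟨j₀, -⟩ := hne
  have c1 : Parity.coboundaries (fun σ : D => mapRep ι ρ σ) =
      h.ext (Parity.coboundaries fun σ : D => ρ σ) := cobs_fin h fun σ : D => ρ σ
  have c2 : Parity.cocycles (fun σ : D => mapRep ι ρ σ) =
      h.ext (Parity.cocycles fun σ : D => ρ σ) := cocs_fin h fun σ : D => ρ σ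
  have hle : ∀ W W' : Submodule E (D → Fin n → E), h.ext W ≤ h.ext W' → W ≤ W' := by
    intro W W' hWW x hx
    exact (h.ext_iff _ fun _ => x).1 (hWW ((h.ext_iff _ fun _ => x).2 fun _ => hx)) j₀
  obtain ⟨hL1, hL2⟩ := hL
  rw [c1, c2] at hL1
  refine ⟨⟨hle _ _ hL1.1, hle _ _ hL1.2⟩, fun y hy => ?_⟩
  obtain ⟨z, hz⟩ : ∃ z : D → Fin n → E', z = fun t i => ∑ j, ι ((fun _ : Fin d => y) j t i) * β j :=
    ⟨_, rfl⟩
  have hco : ∀ t i j, h.co (z t i) j = y t i := by
    intro t i j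
    have h3 : z t i = ∑ j, ι ((fun _ : Fin d => y t i) j) * β j := by rw [hz]
    exact congrFun (h.co_eq h3) j
  have hzc : z ∈ Parity.cocycles (fun σ : D => mapRep ι ρ σ) := by
    rw [c2, hz]
    exact (h.ext_iff _ fun _ => y).2 fun _ => hy
  have h4 := hL2 z hzc
  have h5 : z ∈ h.ext L ↔ y ∈ L := by
    rw [hz]
    exact (h.ext_iff _ fun _ => y).trans ⟨fun h6 => h6 j₀, fun h6 _ => h6⟩
  have e1 : ∀ j, (fun (σ : D) i => h.co ((A.map ι *ᵥ z (k σ)) i) j) =
      fun σ : D => A *ᵥ y (k σ) := fun j => funext fun σ => by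
    rw [co_mulVec h A (z (k σ)) j]
    congr 1
    funext i
    exact hco _ _ _
  have e2 := perp_iff h (χ := fun σ : D => χ σ) (fun σ : D => ρ (κ σ)) b L
    (fun σ : D => A.map ι *ᵥ z (k σ))
  rw [← h5, h4]
  refine e2.trans ?_
  constructor
  · intro h6
    have h7 := h6 j₀
    rw [e1] at h7
    exact h7
  · intro h6 j
    rw [e1]
    exact h6

end descent

universe u v

variable {K : Type u} [Field K] [NumberField K] {D : ℕ} {s : K}
  {c : AlgebraicClosure K ≃+* AlgebraicClosure K} {κ : AbsGal K →* AbsGal K} {T : Finset ℕ}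
  {Q : ℕ → Ideal (𝓞 (AlgebraicClosure K))} {P P' : Ideal (𝓞 (AlgebraicClosure K))}
  {E : Type v} [NormedField E] [NormedAlgebra ℚ_[2] E] [FiniteDimensional ℚ_[2] E] {n : ℕ}
  {ρ : AbsGal K →* Matrix (Fin n) (Fin n) E} {b : Matrix (Fin n) (Fin n) E}

/-- step 1: Greenberg's condition is its own annihilator -/
private theorem self_green (H : DatK D s c κ T Q ρ b) {W : Submodule E (Fin n → E)}
    (hW : SubK c P P' ρ b W) {g : AbsGal K} (h0 : iK K g * c ∈ stb P)
    {k : stabD (K := K) P → stabD (K := K) P} (hk : ∀ a, (k a : AbsGal K) = g * κ a * g⁻¹)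
    (hW' : ∀ y, y ∈ annih b W ↔ ρ g *ᵥ y ∈ W) :
    Parity.IsSelfPerp (cyclo E) κ ρ b (stabD (K := K) P) (ρ g⁻¹) k
      (greenbergAt ρ (stabD (K := K) P) W) := by
  classical
  have X := QX.two_I H.isI H.conj H.kap
  have hW2 := OV.two_finrank H.det hW'
  have hW0 : ∀ x ∈ W, ∀ y ∈ W, GP.bil b x (ρ g⁻¹ *ᵥ y) = 0 := fun x hx y hy => by
    refine (hW' _).2 ?_ x hx
    rw [mulVec_mulVec, ← map_mul, mul_inv_cancel, map_one, one_mulVec]
    exact hy
  have hn : Even n := ⟨Module.finrank E W, by omega⟩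
  obtain ⟨E', i1, i2, i3, ι, hC⟩ := RB.exists_hasL X.kk hn H.det H.rep H.res
  obtain ⟨d, β, h⟩ := RB.exists_finExt ι
  have h1 := (QX.main_genL4 (κ := κ) H.isI H.conj H.kap hW.prime hW.two H.prime H.above
    (RB.det_fin ι H.det) (RB.isDualRep_fin (χ := cyc) ι H.rep) hC
    (fun l hl hi => (H.inr l hl hi).imp_left (QG.commOn_ext ι).2)
    (fun l hl hi => (ER.semi_ext ι).2 (H.ram l hl hi)) h0 hk (W := h.extV W)
    (fun σ hσ => h.extV_st (hW.st σ hσ)) (by rw [h.finrank_extV, hW2])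
    (h.extV_iso hW0)).1
  rw [RB.greenbergAt_fin] at h1
  exact selfPerp_of_fin (χ := cyc) h h1

theorem gr_perp_N (H : DatK D s c κ T Q ρ b) {W : Submodule E (Fin n → E)} (hW : SubK c P P' ρ b W)
    (hD : D % 8 ≠ 7) :
    perpAt (fun σ : stabD (K := K) P => cyclo E (σ : AbsGal K))
        (fun σ : stabD (K := K) P => ρ (κ σ)) b (greenbergAt ρ (stabD P) W) =
      greenbergAt (ρ.comp κ) (stabD P) (annih b W) := by
  have X := QX.two_I H.isI H.conj H.kap
  obtain rfl := OV.eq_cj hW.swap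
  obtain ⟨g, h0⟩ := QX.exists_swap2 H.isI H.conj hD hW.prime hW.two
  have hg := (OV.swap_iff X g).1 h0
  have hW' := hW.ann g hg
  have hκκ : ∀ a, κ (κ a) = a := X.kk
  have hm : ∀ a : stabD (K := K) P, κ (a : AbsGal K) ∈ stabD (K := K) (GA.cj c P) := fun a => by
    rw [OV.mem_stabD_cj X, hκκ]
    exact a.2
  obtain ⟨k, hk⟩ : ∃ k : stabD (K := K) P → stabD (K := K) P,
      ∀ a, (k a : AbsGal K) = g * κ a * g⁻¹ :=
    ⟨fun a => ⟨g * κ a * g⁻¹, (OV.mem_stabD_conj X h0 _).1 (hm a)⟩, fun a => rfl⟩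
  obtain ⟨k', hk'⟩ : ∃ k' : stabD (K := K) P → stabD (K := K) P,
      ∀ a, (k' a : AbsGal K) = κ (g⁻¹ * a * g) :=
    ⟨fun a => ⟨κ (g⁻¹ * a * g), (OV.mem_stabD_cj X _).1 ((OV.mem_stabD_conj X h0 _).2 (by
      have e : g * (g⁻¹ * (a : AbsGal K) * g) * g⁻¹ = a := by group
      rw [e]
      exact a.2))⟩, fun a => rfl⟩
  have hkk' : ∀ a, k (k' a) = a := fun a => Subtype.ext (by
    rw [hk, hk', hκκ]
    group)
  have hk'k : ∀ a, k' (k a) = a := fun a => Subtype.ext (by
    rw [hk', hk]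
    have e : g⁻¹ * (g * κ (a : AbsGal K) * g⁻¹) * g = κ (a : AbsGal K) := by group
    rw [e, hκκ])
  have hk'm : ∀ a a', k' (a * a') = k' a * k' a' := fun a a' => Subtype.ext (by
    rw [hk', Subgroup.coe_mul, Subgroup.coe_mul, hk', hk', ← map_mul]
    congr 1
    group)
  have hκc : Continuous κ := QX.kap_cont X
  have hk'c : Continuous k' := by
    refine continuous_induced_rng.2 ?_
    have e : (Subtype.val ∘ k' : stabD (K := K) P → AbsGal K) =
        fun a : stabD (K := K) P => κ (g⁻¹ * (a : AbsGal K) * g) := funext hk'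
    rw [e]
    exact hκc.comp ((continuous_const.mul continuous_subtype_val).mul continuous_const)
  have hgg : ∀ y, ρ g *ᵥ (ρ g⁻¹ *ᵥ y) = y := fun y => by
    rw [mulVec_mulVec, ← map_mul, mul_inv_cancel, map_one, one_mulVec]
  have hgg' : ∀ y, ρ g⁻¹ *ᵥ (ρ g *ᵥ y) = y := fun y => by
    rw [mulVec_mulVec, ← map_mul, inv_mul_cancel, map_one, one_mulVec]
  have hself := self_green H hW h0 hk hW'
  -- the conjugate cocycle
  have hcoc : ∀ y : stabD (K := K) P → Fin n → E,
      Parity.IsCocycle (fun σ : stabD (K := K) P => ρ (κ σ)) y →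
      Parity.IsCocycle (fun σ : stabD (K := K) P => ρ σ) (fun a => ρ g *ᵥ y (k' a)) := by
    rintro y ⟨hy1, hy2⟩
    refine ⟨?_, fun a a' => ?_⟩
    · exact (Continuous.matrix_mulVec continuous_const (hy1.comp hk'c))
    · show ρ g *ᵥ y (k' (a * a')) = ρ g *ᵥ y (k' a) + ρ a *ᵥ (ρ g *ᵥ y (k' a'))
      rw [hk'm, hy2, mulVec_add]
      congr 1
      rw [mulVec_mulVec, mulVec_mulVec, ← map_mul, ← map_mul, hk', hκκ]
      congr 2
      group
  have hiff : ∀ y : stabD (K := K) P → Fin n → E,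
      Parity.IsCocycle (fun σ : stabD (K := K) P => ρ (κ σ)) y →
      ((fun a => ρ g *ᵥ y (k' a)) ∈ greenbergAt ρ (stabD (K := K) P) W ↔
        ∃ w, ∀ σ : stabD (K := K) P, y σ - (ρ (κ σ) *ᵥ w - w) ∈ annih b W) := by
    intro y hy
    have key : ∀ (w : Fin n → E) (σ : stabD (K := K) P),
        ρ g *ᵥ y (k' (k σ)) - (ρ (k σ : AbsGal K) *ᵥ (ρ g *ᵥ w) - ρ g *ᵥ w) =
          ρ g *ᵥ (y σ - (ρ (κ σ) *ᵥ w - w)) := by
      intro w σ
      have e1 : ρ (k σ : AbsGal K) *ᵥ (ρ g *ᵥ w) = ρ g *ᵥ (ρ (κ σ) *ᵥ w) := by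
        rw [mulVec_mulVec, mulVec_mulVec, ← map_mul, ← map_mul, hk]
        congr 2
        group
      rw [e1, hk'k, mulVec_sub, mulVec_sub]
    constructor
    · rintro ⟨_, v, hv⟩
      refine ⟨ρ g⁻¹ *ᵥ v, fun σ => ?_⟩
      rw [hW', ← key, hgg]
      exact hv (k σ)
    · rintro ⟨w, hw⟩
      refine ⟨hcoc y hy, ρ g *ᵥ w, fun a => ?_⟩
      have h5 := (hW' _).1 (hw (k' a))
      rw [← key, hkk'] at h5
      exact h5
  have hperp : ∀ y : stabD (K := K) P → Fin n → E,
      Parity.IsCocycle (fun σ : stabD (K := K) P => ρ (κ σ)) y →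
      ((fun a => ρ g *ᵥ y (k' a)) ∈ greenbergAt ρ (stabD (K := K) P) W ↔
        IsPerp (fun σ : stabD (K := K) P => cyclo E (σ : AbsGal K))
          (fun σ : stabD (K := K) P => ρ (κ σ)) b (greenbergAt ρ (stabD (K := K) P) W) y) := by
    intro y hy
    have h6 := hself.2 (fun a => ρ g *ᵥ y (k' a)) (hcoc y hy)
    have e2 : (fun σ : stabD (K := K) P => ρ g⁻¹ *ᵥ (ρ g *ᵥ y (k' (k σ)))) = y := by
      funext σ
      rw [hgg', hk'k]
    rw [e2] at h6
    exact h6
  ext y
  rw [mem_perpAt]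
  constructor
  · intro hy
    exact ⟨hy.1, (hiff y hy.1).1 ((hperp y hy.1).2 hy)⟩
  · rintro ⟨hy1, hy2⟩
    exact (hperp y hy1).1 ((hiff y hy1).2 hy2)

end Pool.Agent.Work.MP_787500_nt.UV
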