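import Mathlib
import Pool.Agent.Work.MP_787500_nt.UV.Defs
import Pool.Agent.Work.MP_787500_nt.OV.MainR

/-!
# Module UV/ParN (size M): the parity formula over `K` if 2 does not split

PROOF. `X = QX.two_I H.isI H.conj H.kap`, `P' = GA.cj c P` (`OV.eq_cj hW.swap`). `QX.exists_swap2` gives `g` with `iK K g * c ∈ stb P`;
`OV.swap_iff X g : .. ↔ ∀ x, x ∈ P' ↔ g • x ∈ P`. Let `k : stabD P → stabD P`, `k a = g κ(a) g⁻¹` (`OV.mem_stabD_conj X h0`). `hL.perp g _ k` and `hL.between` are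
`IsSelfPerp (cyclo E) κ ρ b (stabD P) (ρ g⁻¹) k L` (QX/LDefs.lean), so `OV.selfR` (OV/MainR.lean) gives the statement for `selmerAt`.
1. `selmerBK N (cyclo E) κ ρ b (stabD P) L = selmerAt N ρ (stabD P) L`: `≤` is clear; for `x` in `selmerAt` one needs `IsPerp .. L (fun σ => x (κ σ))`: by
`IsSelfPerp` for `y = x|stabD P ∈ L` the cocycle `σ ↦ ρ g⁻¹ (x (g κ(σ) g⁻¹)) = x (κ σ) + (ρ (κ σ) w - w)`, `w = x g⁻¹`
(`x (g κ(σ) g⁻¹) = x g + ρ g x(κ σ) + ρ (g κ(σ)) x g⁻¹`, `OV.coc_inv`) is orthogonal to `L`, and so are coboundaries (`perp_cobR` in SF/MainT.lean, private: copy).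
2. `n / 2 = finrank W` (`OV.two_finrank`), `dimModulo (fixedModulo ..) W = finrank (fixedModulo ..) - finrank W` (`OV.dimModulo_eq`, `OV.le_fixedModulo`; see
`OV.ordinary_nonsplit`). `if_neg hD`.
-/

set_option autoImplicit false
set_option linter.unusedSectionVars false

namespace Pool.Agent.Work.MP_787500_nt.UV

open Matrix NumberField
open Pool.Agent.Work.MP_787500_nt.GP (inT stabD)
open Pool.Agent.Work.MP_787500_nt.PA (toE cyc)
open Pool.Agent.Work.MP_787500_nt.HP (IsQ stb)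
open Pool.Agent.Work.MP_787500_nt.KS (iK)
open Pool.Agent.Work.MP_787500_nt.Parity

universe u v

section aux

variable {G : Type*} [Group G] [TopologicalSpace G] {E : Type*} [NormedField E] {n : ℕ}
  {χ : G → E} {A B : G → Matrix (Fin n) (Fin n) E} {b : Matrix (Fin n) (Fin n) E}

private theorem dual_apply {c : E} {A B b : Matrix (Fin n) (Fin n) E} (h : Aᵀ * b * B = c • b)
    (u v : Fin n → E) : (A *ᵥ u) ⬝ᵥ (b *ᵥ (B *ᵥ v)) = c * (u ⬝ᵥ (b *ᵥ v)) := by
  have h2 : (A *ᵥ u) ⬝ᵥ (b *ᵥ (B *ᵥ v)) = u ⬝ᵥ ((Aᵀ * b * B) *ᵥ v) := by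
    rw [← mulVec_mulVec, ← mulVec_mulVec, Matrix.dotProduct_mulVec u Aᵀ,
      Matrix.vecMul_transpose]
  rw [h2, h, smul_mulVec, dotProduct_smul, smul_eq_mul]

private theorem cob_coc (hB : ∀ s t, B (s * t) = B s * B t) (hBc : Continuous B) :
    Parity.coboundaries B ≤ Parity.cocycles B := by
  rintro y ⟨w, hw⟩
  have hyw : y = fun σ => B σ *ᵥ w - w := funext hw
  refine ⟨?_, fun s t => ?_⟩
  · rw [hyw]
    exact (hBc.matrix_mulVec continuous_const).sub continuous_const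
  · rw [hw, hw, hw, hB, ← mulVec_mulVec, mulVec_sub]
    abel

private theorem perp_cobR (hB : ∀ s t, B (s * t) = B s * B t) (hBc : Continuous B)
    (hdual : ∀ σ, (A σ)ᵀ * b * B σ = χ σ • b) {L : Submodule E (G → Fin n → E)}
    (hL : L ≤ Parity.cocycles A) {y : G → Fin n → E} (hy : y ∈ Parity.coboundaries B) :
    Parity.IsPerp χ B b (L : Set (G → Fin n → E)) y := by
  have hyc : Parity.IsCocycle B y := cob_coc hB hBc hy
  obtain ⟨w, hw⟩ := hy
  refine ⟨hyc, fun x hx => ?_⟩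
  have hx' : Parity.IsCocycle A x := hL hx
  refine ⟨fun σ => -(x σ ⬝ᵥ (b *ᵥ (B σ *ᵥ w))), ?_, fun s t => ?_⟩
  · exact (Continuous.dotProduct hx'.1 (Continuous.matrix_mulVec continuous_const
      (hBc.matrix_mulVec continuous_const))).neg
  · show x s ⬝ᵥ (b *ᵥ (B s *ᵥ y t)) = -(x s ⬝ᵥ (b *ᵥ (B s *ᵥ w))) +
      χ s * -(x t ⬝ᵥ (b *ᵥ (B t *ᵥ w))) - -(x (s * t) ⬝ᵥ (b *ᵥ (B (s * t) *ᵥ w)))
    rw [hx'.2, hB, ← mulVec_mulVec, add_dotProduct, dual_apply (hdual s), hw, mulVec_sub,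
      mulVec_sub, dotProduct_sub]
    ring

private theorem perp_iff {L : Set (G → Fin n → E)} {y c : G → Fin n → E}
    (hc : Parity.IsPerp χ B b L c) :
    Parity.IsPerp χ B b L (y + c) ↔ Parity.IsPerp χ B b L y := by
  constructor
  · intro h
    have h1 := h.add (hc.smul (-1))
    have h2 : y + c + (-1 : E) • c = y := by rw [neg_smul, one_smul, add_neg_cancel_right]
    rwa [h2] at h1
  · intro h
    exact h.add hc

end aux

variable {K : Type u} [Field K] [NumberField K] {D : ℕ} {s : K}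
  {c : AlgebraicClosure K ≃+* AlgebraicClosure K} {κ : AbsGal K →* AbsGal K} {T : Finset ℕ}
  {Q : ℕ → Ideal (𝓞 (AlgebraicClosure K))} {P P' : Ideal (𝓞 (AlgebraicClosure K))}
  {E : Type v} [NormedField E] [NormedAlgebra ℚ_[2] E] [FiniteDimensional ℚ_[2] E] {n : ℕ}
  {ρ : AbsGal K →* Matrix (Fin n) (Fin n) E} {b : Matrix (Fin n) (Fin n) E}

theorem par_N (H : DatK D s c κ T Q ρ b) {W : Submodule E (Fin n → E)} (hW : SubK c P P' ρ b W)
    {L : Submodule E (stabD (K := K) P → Fin n → E)} (hL : CondK κ P P' ρ b L) (hD : D % 8 ≠ 7) :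
    FormK (inertiaOffTwo K) (cyclo E) κ ρ b (stabD P) W (D % 8 = 7) (numT D T Q ρ) L := by
  have X := QX.two_I H.isI H.conj H.kap
  obtain ⟨g, h0⟩ := QX.exists_swap2 H.isI H.conj hD hW.prime hW.two
  have hP' := OV.eq_cj hW.swap
  have hg : ∀ x : 𝓞 (AlgebraicClosure K), x ∈ P' ↔ g • x ∈ P := by
    rw [hP']
    exact (OV.swap_iff X g).1 h0
  have hκκ : ∀ a, κ (κ a) = a := GA.kap_kap H.conj H.kap
  have hκc : Continuous κ := PA.kappa_continuous H.conj.sq H.kap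
  have hmem : ∀ a : stabD (K := K) P, g * κ a * g⁻¹ ∈ stabD (K := K) P := fun a => by
    refine (OV.mem_stabD_conj X h0 _).1 ((OV.mem_stabD_cj X _).2 ?_)
    rw [hκκ]
    exact a.2
  obtain ⟨k, hk⟩ : ∃ k : stabD (K := K) P → stabD (K := K) P,
      ∀ a, (k a : AbsGal K) = g * κ a * g⁻¹ := ⟨fun a => ⟨_, hmem a⟩, fun a => rfl⟩
  have hself : IsSelfPerp (cyclo E) κ ρ b (stabD P) (ρ g⁻¹) k L :=
    ⟨hL.between, hL.perp g hg k hk⟩
  have hW' := hW.ann g hg
  have hW2 := OV.two_finrank H.det hW'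
  obtain ⟨h1, h2, h3, h4⟩ := OV.selfR H.isI H.conj H.kap hW.prime hW.two hW.swap H.prime H.above
    H.det H.rep H.res H.inr H.ram hW.st hg hW' hk L hself
  have hsel : selmerBK (inertiaOffTwo K) (cyclo E) κ ρ b (stabD P) L =
      selmerAt (inertiaOffTwo K) ρ (stabD P) L := by
    ext x
    constructor
    · rintro ⟨k1, k2, k3, -⟩
      exact ⟨k1, k2, k3⟩
    · rintro ⟨k1, k2, k3⟩
      refine ⟨k1, k2, k3, ?_⟩
      have e1 := (hself.2 _ (hL.between.2 k3)).1 k3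
      have e2 : (fun σ : stabD (K := K) P => ρ g⁻¹ *ᵥ x (k σ)) =
          (fun σ : stabD (K := K) P => x (κ σ)) +
            fun σ : stabD (K := K) P => ρ (κ σ) *ᵥ x g⁻¹ - x g⁻¹ := by
        funext σ
        have e3 : x g⁻¹ = -(ρ g⁻¹ *ᵥ x g) := OV.coc_inv k1 g
        show ρ g⁻¹ *ᵥ x (k σ) = x (κ σ) + (ρ (κ σ) *ᵥ x g⁻¹ - x g⁻¹)
        have e4 : ρ g⁻¹ *ᵥ x g = - x g⁻¹ := by rw [e3, neg_neg]
        have e5 : ∀ v, ρ g⁻¹ *ᵥ (ρ g *ᵥ v) = v := fun v => by
          rw [mulVec_mulVec, ← map_mul, inv_mul_cancel, map_one, one_mulVec]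
        rw [hk, k1.2 (g * κ σ) g⁻¹, k1.2 g (κ σ), map_mul, ← mulVec_mulVec, mulVec_add,
          mulVec_add, e5, e5, e4]
        abel
      have e3 : IsPerp (fun σ : stabD (K := K) P => cyclo E (σ : AbsGal K))
          (fun σ : stabD (K := K) P => ρ (κ σ)) b (L : Set (stabD (K := K) P → Fin n → E))
          (fun σ : stabD (K := K) P => ρ (κ σ) *ᵥ x g⁻¹ - x g⁻¹) := by
        refine perp_cobR (A := fun σ : stabD (K := K) P => ρ σ) (fun s t => ?_) ?_ ?_ hL.between.2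
          ⟨x g⁻¹, fun σ => rfl⟩
        · show ρ (κ ((s : AbsGal K) * t)) = _
          rw [map_mul, map_mul]
        · exact H.rep.cont.comp (hκc.comp continuous_subtype_val)
        · intro σ
          exact H.rep.dual σ
      rw [e2] at e1
      exact (perp_iff e3).1 e1
  refine ⟨h1, by rw [hsel]; exact h2, by rw [hsel]; exact h3, ?_⟩
  rw [hsel, if_neg hD, add_zero]
  have h5 := OV.dimModulo_eq (OV.le_fixedModulo (A := fun σ : stabD (K := K) P => ρ σ)
    fun a x hx => hW.st a a.2 x hx)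
  have h6 : dimModulo (fixedModulo (fun σ : stabD (K := K) P => ρ σ) W) W =
      Module.finrank E (fixedModulo (fun σ : stabD (K := K) P => ρ σ) W) -
        Module.finrank E W := by omega
  have h7 : n / 2 = Module.finrank E W := by omega
  rw [h6]
  rw [h7] at h4
  exact h4

end Pool.Agent.Work.MP_787500_nt.UV
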