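import Mathlib
import Pool.Agent.Work.MP_787500_nt.UV.Defs
import Pool.Agent.Work.MP_787500_nt.UV.PerpDim
import Pool.Agent.Work.MP_787500_nt.UV.GrS
import Pool.Agent.Work.MP_787500_nt.SF.EvenW
import Pool.Agent.Work.MP_787500_nt.RB.FinalK

/-!
# Module UV/ParS (size S-M): the parity formula over `K` if 2 splits

PROOF. `hK : IsQ K D s := ⟨H.isI.deg, H.isI.sq, H.isI.sqf, hD⟩`; `SF.even_dim` gives `Even n`; `RB.main_gen5` gives
`ParityBKA (inertiaOffTwo K) (cyclo E) κ ρ b (stabD P) (numT D T Q ρ)` (QW/FDefs.lean): for every `M` between the coboundaries and the cocycles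
`M` and the Selmer space are finite dimensional and `dim Sel(M) + fix = dim M/B + fix(stabD P) + numT` mod 2. Apply it to `L` (and to the space of all
cocycles for `hfd`). It remains to show that (with `G = greenbergAt ρ (stabD P) W`, `Between B G Z`)
`dim L/B + fix(stabD P) ≡ finrank W + dim fixedModulo/W + dim L/(L ⊓ G) + (dim fixedModulo^κ/annih + dim perp L/(perp L ⊓ greenbergAt (ρ.comp κ) .. ))`.
`greenbergAt (ρ.comp κ) (stabD P) (annih b W) = perpAt G` (`gr_perp_S`), so the last number is `dim G/(L ⊓ G)` (`perp_dim`); `gr_dim_S` is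
`dim G/B + fix(stabD P) ≡ finrank W + dim fixedModulo/W + dim fixedModulo^κ/annih`; and `dim L/B = dim L/(L ⊓ G) + dim (L ⊓ G)/B`,
`dim G/B = dim G/(L ⊓ G) + dim (L ⊓ G)/B` (`GP.dimModulo_add` for `B ≤ L ⊓ G ≤ L`). The factor `if D % 8 = 7`: `if_pos`.
-/

set_option autoImplicit false
set_option linter.unusedSectionVars false

namespace Pool.Agent.Work.MP_787500_nt.UV

open Matrix NumberField
open Pool.Agent.Work.MP_787500_nt.GP (inT stabD)
open Pool.Agent.Work.MP_787500_nt.PA (toE cyc)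
open Pool.Agent.Work.MP_787500_nt.HP (IsQ stb)
open Pool.Agent.Work.MP_787500_nt.Parity

universe u v

variable {K : Type u} [Field K] [NumberField K] {D : ℕ} {s : K}
  {c : AlgebraicClosure K ≃+* AlgebraicClosure K} {κ : AbsGal K →* AbsGal K} {T : Finset ℕ}
  {Q : ℕ → Ideal (𝓞 (AlgebraicClosure K))} {P P' : Ideal (𝓞 (AlgebraicClosure K))}
  {E : Type v} [NormedField E] [NormedAlgebra ℚ_[2] E] [FiniteDimensional ℚ_[2] E] {n : ℕ}
  {ρ : AbsGal K →* Matrix (Fin n) (Fin n) E} {b : Matrix (Fin n) (Fin n) E}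

private theorem par_green {G : Type*} [Group G] [TopologicalSpace G] {E : Type*} [NormedField E]
    {n : ℕ} {ρ : G →* Matrix (Fin n) (Fin n) E} {D : Subgroup G} {W : Submodule E (Fin n → E)}
    (h : coboundaries (fun σ : D => ρ σ) ≤ Parity.cocycles (fun σ : D => ρ σ)) :
    Between (coboundaries (fun σ : D => ρ σ)) (greenbergAt ρ D W)
      (Parity.cocycles (fun σ : D => ρ σ)) := by
  refine ⟨fun x hx => ?_, fun x hx => hx.1⟩
  obtain ⟨v, hv⟩ := hx
  refine ⟨h ⟨v, hv⟩, v, fun σ => ?_⟩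
  rw [hv σ, sub_self]
  exact W.zero_mem

private theorem par_arith {a f l B L G X w m k p q t : ℕ} (h : a + f ≡ l + m + t [MOD 2])
    (h1 : l + B = L) (h2 : k + B = G) (h3 : p + X = L) (h4 : q + X = G) {w' u : ℕ}
    (h5 : k + m ≡ w + w' + u [MOD 2]) :
    a + f ≡ w + w' + p + (u + q) + t [MOD 2] := by
  unfold Nat.ModEq at *
  omega

theorem par_S (H : DatK D s c κ T Q ρ b) {W : Submodule E (Fin n → E)} (hW : SubK c P P' ρ b W)
    {L : Submodule E (stabD (K := K) P → Fin n → E)} (hL : CondK κ P P' ρ b L) (hD : D % 8 = 7) :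
    FormK (inertiaOffTwo K) (cyclo E) κ ρ b (stabD P) W (D % 8 = 7) (numT D T Q ρ) L := by
  have hK : IsQ K D s := ⟨H.isI.deg, H.isI.sq, H.isI.sqf, hD⟩
  have hn : Even n := SF.even_dim hK H.conj H.kap H.prime H.above H.det H.rep H.ram
  have hm : Parity.ParityBKA (inertiaOffTwo K) (cyclo E) κ ρ b (stabD P) (numT D T Q ρ) :=
    RB.main_gen5 hK H.conj H.kap hW.prime hW.two H.prime H.above hn H.det H.rep H.res H.inr H.ram
  have hBZ : coboundaries (fun σ : stabD (K := K) P => ρ σ) ≤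
      Parity.cocycles (fun σ : stabD (K := K) P => ρ σ) := hL.between.1.trans hL.between.2
  have hfd : FiniteDimensional E (Parity.cocycles (fun σ : stabD (K := K) P => ρ σ)) :=
    (hm _ ⟨hBZ, le_rfl⟩).1
  obtain ⟨hLfd, hsel, hcob, hpar⟩ := hm L hL.between
  have hG := par_green (W := W) hBZ
  have hGfd : FiniteDimensional E (greenbergAt ρ (stabD (K := K) P) W) :=
    Submodule.finiteDimensional_of_le hG.2
  have h1 := perp_dim hK H.conj H.kap hW.prime hW.two H.det H.rep hfd hL.between hG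
  rw [gr_perp_S hK H.conj H.kap hW.prime hW.two H.det H.rep hW.st] at h1
  have h2 := gr_dim_S hK H.conj H.kap hW.prime hW.two H.det H.rep hW.st hfd
  refine ⟨hLfd, hsel, hcob, ?_⟩
  rw [if_pos hD, h1]
  exact par_arith hpar (GP.dimModulo_add hL.between.1 hLfd) (GP.dimModulo_add hG.1 hGfd)
    (GP.dimModulo_add inf_le_left hLfd) (GP.dimModulo_add inf_le_right hGfd) h2

end Pool.Agent.Work.MP_787500_nt.UV
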