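import Mathlib
import Pool.Agent.Work.MP_787500_nt.UV.Defs
import Pool.Agent.Work.MP_787500_nt.SH.Prm
import Pool.Agent.Work.MP_787500_nt.SH.RDefs
import Pool.Agent.Work.MP_787500_nt.SG.NonsplI
import Pool.Agent.Work.MP_787500_nt.SF.Conj0

/-!
# Module UV/Partner (size M): the conjugate primes over 2

NOTATION: `Ω = AlgebraicClosure K`; for `g : Ω ≃+* Ω` and an ideal `Q` let `g Q` be the image (`GA.cj g Q`, with `GA.mem_cj`, `GA.cj_prime`, `GA.cj_mul`; `HP.og`).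
`CR c P P' h` says `h c P = P'`. `iK K` is the inclusion of `AbsGal K` in `Ω ≃+* Ω`; `g ∉ (iK K).range` iff `g s = -s` (`QX.notMem_iffI (RingEquiv.refl _) hK`), so `c` is
not in the range and the product of two elements outside of the range is in the range. Elements of `AbsGal K` preserve `Q.comap (algebraMap (𝓞 K) (𝓞 Ω))`.
PROOF. `over_nonsplit`: let `P₀` be a prime over `v` (`SH.exists_over`, SH/Tower.lean). `GA.exists_cj` gives `g : Ω ≃+* Ω` with `Q = g P₀`. There is a complex conjugation `c₀`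
(`SF.exists_conj`), and `QX.exists_swap2` gives `m` with `iK K m * c₀ ∈ stb P₀`. Either `g` or `g * (iK K m * c₀)` is in the range of `iK K`, and both map `P₀` to `Q`.
`over_c`: if `Q` and `c Q` are over the same prime of `K` then (`SH.exists_trans`) `m c Q = Q` for some `m : AbsGal K`, so `iK K m * c ∈ stb Q ≤ (iK K).range` (`QX.stb_le2`), and `c` is in the
range, a contradiction. If `Q ∋ 2` is not over `v`: `Q = g P₀` with `g` not in the range, so `c g` is in the range and `c Q = (c g) P₀` is over `v`. (`c Q` is the ideal `Q'`: a prime with `2 ∈ Q'`.)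
`exists_rel`: `c (P i)` is a prime over 2, so by `hP` there are `j`, `a ∈ H` with `a (P j) = c (P i)`; `h = a⁻¹`.
`rel_stab`: `a (P i) = P i` iff `(h c a c⁻¹ h⁻¹) (P j) = P j`, and `c a c⁻¹ = κ a` by `hκ`.
`exists_pi`: for `i` over `v` let `π i = j`, `h i = h` from `exists_rel`; `P j = h c (P i)` is not over `v` (`over_c`). Injective: if `h c (P i) = h' c (P i')` then
`P i = c⁻¹ (h⁻¹ h') c (P i')`, and `c⁻¹ (h⁻¹ h') c ∈ H` (it is `κ' (h⁻¹ h')`; `κ` is bijective: `κ (κ a) = c₂ a c₂⁻¹` by `hκ`, `hc₂`), so `i = i'` by the uniqueness in `hP`. Surjective: let `P j`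
be not over `v`. By `over_c` `c (P j)` is over `v`, and so is `Q = c⁻¹ (P j) = c₂⁻¹ c (P j)`. By `hP` there are `i`, `a ∈ H` with `a (P i) = Q`; then `i` is over `v`, `c a (P i) = P j`, `c a = κ(a) c`, so
`h₁ = κ a` satisfies `CR c (P i) (P j) h₁`; and `π i = j` because `CR c (P i) (P (π i)) h` and `CR c (P i) (P j) h₁` imply `P j = h₁ h⁻¹ P (π i)`, uniqueness in `hP`.
`reps_v`: by `hP.2 Q` (`2 ∈ Q` because `2 ∈ v`).
-/

set_option autoImplicit false
set_option linter.unusedSectionVars false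

namespace Pool.Agent.Work.MP_787500_nt.UV

open NumberField
open Pool.Agent.Work.MP_787500_nt.SH (IsReps)
open Pool.Agent.Work.MP_787500_nt.GP (stabD)

universe u

variable {K : Type u} [Field K] [NumberField K] {D : ℕ} {s : K}
  {c : AlgebraicClosure K ≃+* AlgebraicClosure K}

/-- `h c P = P'` -/
def CR (c : AlgebraicClosure K ≃+* AlgebraicClosure K) (P P' : Ideal (𝓞 (AlgebraicClosure K)))
    (h : AbsGal K) : Prop :=
  ∀ x y : 𝓞 (AlgebraicClosure K), (y : AlgebraicClosure K) = c x → (x ∈ P ↔ h • y ∈ P')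

/-- `P` is over `v` -/
abbrev Ov (v : Ideal (𝓞 K)) (P : Ideal (𝓞 (AlgebraicClosure K))) : Prop :=
  P.comap (algebraMap (𝓞 K) (𝓞 (AlgebraicClosure K))) = v

section aux

open Pool.Agent.Work.MP_787500_nt.HP (og og_mul og_one og_inv og_inv' stb mem_stb)
open Pool.Agent.Work.MP_787500_nt.GA (cj mem_cj cj_mul cj_eq_iff cj_prime cj_one two_mem_cj stb_cj)
open Pool.Agent.Work.MP_787500_nt.KS (iK)

private theorem og_iK (h : AbsGal K) (x : 𝓞 (AlgebraicClosure K)) : og (iK K h) x = h • x :=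
  RingOfIntegers.ext rfl

private theorem cr_iff {P P' : Ideal (𝓞 (AlgebraicClosure K))} {h : AbsGal K} :
    CR c P P' h ↔ P' = cj (iK K h * c) P := by
  constructor
  · intro hr
    ext z
    rw [mem_cj]
    have h1 := hr (og (iK K h * c)⁻¹ z) (og c (og (iK K h * c)⁻¹ z)) rfl
    rw [h1, ← og_iK, ← og_mul, og_inv]
  · rintro rfl x y hy
    have hy' : y = og c x := RingOfIntegers.ext hy
    rw [mem_cj, hy', ← og_iK, ← og_mul (iK K h) c, og_inv']

private theorem sm_iff {P Q : Ideal (𝓞 (AlgebraicClosure K))} {a : AbsGal K} :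
    (∀ x, x ∈ P ↔ a • x ∈ Q) ↔ Q = cj (iK K a) P := by
  constructor
  · intro hr
    ext z
    rw [mem_cj]
    have h1 := hr (og (iK K a)⁻¹ z)
    rw [h1, ← og_iK, og_inv]
  · rintro rfl x
    rw [mem_cj, ← og_iK, og_inv']

private theorem smul_alg (a : AbsGal K) (z : 𝓞 K) :
    a • (algebraMap (𝓞 K) (𝓞 (AlgebraicClosure K)) z) =
      algebraMap (𝓞 K) (𝓞 (AlgebraicClosure K)) z := by
  apply RingOfIntegers.ext
  show a (algebraMap K (AlgebraicClosure K) (z : K)) = algebraMap K (AlgebraicClosure K) (z : K)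
  exact AlgEquiv.commutes a _

private theorem ov_cj {v : Ideal (𝓞 K)} {a : AbsGal K} {P : Ideal (𝓞 (AlgebraicClosure K))} :
    Ov v (cj (iK K a) P) ↔ Ov v P := by
  have h1 : (cj (iK K a) P).comap (algebraMap (𝓞 K) (𝓞 (AlgebraicClosure K))) =
      P.comap (algebraMap (𝓞 K) (𝓞 (AlgebraicClosure K))) := by
    ext z
    rw [Ideal.mem_comap, Ideal.mem_comap, mem_cj, ← map_inv, og_iK, smul_alg]
  show (cj (iK K a) P).comap _ = v ↔ P.comap _ = v
  rw [h1]

private theorem range_iff (hK : QX.IsI K D s) (g : AlgebraicClosure K ≃+* AlgebraicClosure K) :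
    (∃ a, iK K a = g) ↔ g (algebraMap K (AlgebraicClosure K) s) =
      algebraMap K (AlgebraicClosure K) s :=
  QX.emb_sqI (RingEquiv.refl (AlgebraicClosure K)) hK g

private theorem sgn (hK : QX.IsI K D s) (g : AlgebraicClosure K ≃+* AlgebraicClosure K) :
    (∃ a, iK K a = g) ∨ g (algebraMap K (AlgebraicClosure K) s) =
      -algebraMap K (AlgebraicClosure K) s := by
  rcases QX.sq_orI (RingEquiv.refl (AlgebraicClosure K)) hK g with h | h
  · exact Or.inl ((range_iff hK g).2 h)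
  · exact Or.inr h

private theorem mul_range (hK : QX.IsI K D s) {g g' : AlgebraicClosure K ≃+* AlgebraicClosure K}
    (h : g (algebraMap K (AlgebraicClosure K) s) = -algebraMap K (AlgebraicClosure K) s)
    (h' : g' (algebraMap K (AlgebraicClosure K) s) = -algebraMap K (AlgebraicClosure K) s) :
    ∃ a, iK K a = g * g' := by
  rw [range_iff hK]
  show g (g' _) = _
  rw [h', map_neg, h, neg_neg]

private theorem c_notin (hK : QX.IsI K D s)
    (hcs : c (algebraMap K (AlgebraicClosure K) s) = -algebraMap K (AlgebraicClosure K) s)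
    {m a : AbsGal K} (h : iK K m * c = iK K a) : False := by
  have h1 : ∃ b, iK K b = c := ⟨m⁻¹ * a, by
    rw [map_mul, ← h, map_inv, inv_mul_cancel_left]⟩
  rw [range_iff hK] at h1
  rw [hcs] at h1
  exact QX.s_neI (RingEquiv.refl (AlgebraicClosure K)) hK h1.symm

private theorem two_of {v : Ideal (𝓞 K)} (hv2 : (2 : 𝓞 K) ∈ v)
    {Q : Ideal (𝓞 (AlgebraicClosure K))} (h : Ov v Q) : (2 : 𝓞 (AlgebraicClosure K)) ∈ Q := by
  have h1 : (2 : 𝓞 K) ∈ Q.comap (algebraMap (𝓞 K) (𝓞 (AlgebraicClosure K))) := by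
    rw [h]
    exact hv2
  rw [Ideal.mem_comap, map_ofNat] at h1
  exact h1

/-- the prime ideals over `v` -/
private theorem exists_over0 {v : Ideal (𝓞 K)} (hv : v.IsPrime) :
    ∃ P : Ideal (𝓞 (AlgebraicClosure K)), P.IsPrime ∧
      P.comap (algebraMap (𝓞 K) (𝓞 (AlgebraicClosure K))) = v := by
  have hint : Algebra.IsIntegral (𝓞 K) (𝓞 (AlgebraicClosure K)) :=
    ⟨fun x => (RingOfIntegers.isIntegral x).tower_top⟩
  have hinj : Function.Injective (algebraMap (𝓞 K) (𝓞 (AlgebraicClosure K))) :=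
    FaithfulSMul.algebraMap_injective _ _
  obtain ⟨P, -, hP, hPv⟩ := Ideal.exists_ideal_over_prime_of_isIntegral v
    (⊥ : Ideal (𝓞 (AlgebraicClosure K))) (by
      rw [← RingHom.ker_eq_comap_bot, (RingHom.injective_iff_ker_eq_bot _).1 hinj]
      exact bot_le)
  exact ⟨P, hP, hPv⟩

/-- every prime over 2 is conjugate to a prime over `v` -/
private theorem conj_over {v : Ideal (𝓞 K)} (hv : v.IsPrime) (hv2 : (2 : 𝓞 K) ∈ v)
    {Q : Ideal (𝓞 (AlgebraicClosure K))} (hQ : Q.IsPrime)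
    (hQ2 : (2 : 𝓞 (AlgebraicClosure K)) ∈ Q) :
    ∃ (P₀ : Ideal (𝓞 (AlgebraicClosure K))) (g : AlgebraicClosure K ≃+* AlgebraicClosure K),
      P₀.IsPrime ∧ Ov v P₀ ∧ Q = cj g P₀ := by
  obtain ⟨P₀, hP₀, hv₀⟩ := exists_over0 hv
  haveI : CharZero (AlgebraicClosure K) := charZero_of_injective_algebraMap
    (FaithfulSMul.algebraMap_injective K (AlgebraicClosure K))
  obtain ⟨g, hg⟩ := GA.exists_cj (HP.alg_closure K) Nat.prime_two hP₀ hQ
    (by exact_mod_cast two_of hv2 hv₀) (by exact_mod_cast hQ2)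
  exact ⟨P₀, g, hP₀, hv₀, hg⟩

end aux

open Pool.Agent.Work.MP_787500_nt.HP (og og_mul og_one og_inv og_inv' stb mem_stb)
open Pool.Agent.Work.MP_787500_nt.GA (cj mem_cj cj_mul cj_eq_iff cj_prime cj_one two_mem_cj stb_cj)
open Pool.Agent.Work.MP_787500_nt.KS (iK)

theorem over_nonsplit (hK : QX.IsI K D s) (hD : D % 8 ≠ 7) {v : Ideal (𝓞 K)} (hv : v.IsPrime)
    (hv2 : (2 : 𝓞 K) ∈ v) {Q : Ideal (𝓞 (AlgebraicClosure K))} (hQ : Q.IsPrime)
    (hQ2 : (2 : 𝓞 (AlgebraicClosure K)) ∈ Q) : Ov v Q := by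
  obtain ⟨P₀, g, hP₀, hv₀, rfl⟩ := conj_over hv hv2 hQ hQ2
  obtain ⟨c₀, hc₀⟩ := SF.exists_conj (Nat.pos_of_ne_zero hK.sqf.ne_zero) hK.sq
  obtain ⟨m, hm⟩ := QX.exists_swap2 hK hc₀ hD hP₀ (two_of hv2 hv₀)
  rcases sgn hK g with ⟨a, ha⟩ | hg
  · rw [← ha, ov_cj]
    exact hv₀
  · have h1 : (iK K m * c₀) (algebraMap K (AlgebraicClosure K) s) =
        -algebraMap K (AlgebraicClosure K) s := by
      show iK K m (c₀ _) = _
      rw [hc₀.neg, map_neg]
      congr 1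
      exact AlgEquiv.commutes m s
    obtain ⟨a, ha⟩ := mul_range hK hg h1
    have h2 : cj g P₀ = cj (iK K a) P₀ := by
      rw [ha, cj_mul, cj_eq_iff.2 hm]
    rw [h2, ov_cj]
    exact hv₀

theorem over_c (hK : QX.IsI K D s) (hD : D % 8 = 7)
    (hcs : c (algebraMap K (AlgebraicClosure K) s) = -algebraMap K (AlgebraicClosure K) s)
    {v : Ideal (𝓞 K)} (hv : v.IsPrime) (hv2 : (2 : 𝓞 K) ∈ v)
    {Q Q' : Ideal (𝓞 (AlgebraicClosure K))} (hQ : Q.IsPrime)
    (hQ2 : (2 : 𝓞 (AlgebraicClosure K)) ∈ Q) (hQQ : CR c Q Q' 1) : Ov v Q' ↔ ¬ Ov v Q := by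
  rw [cr_iff, map_one, one_mul] at hQQ
  subst hQQ
  constructor
  · intro h1 h2
    obtain ⟨m, hm⟩ := SH.exists_trans (cj_prime hQ) hQ (h1.trans h2.symm)
    rw [sm_iff, ← cj_mul] at hm
    obtain ⟨a, ha⟩ := QX.stb_le2 hK hD hQ hQ2 (cj_eq_iff.1 hm.symm)
    exact c_notin hK hcs ha.symm
  · intro h1
    obtain ⟨P₀, g, hP₀, hv₀, hg⟩ := conj_over hv hv2 hQ hQ2
    rcases sgn hK g with ⟨a, ha⟩ | hg1
    · exfalso
      apply h1
      rw [hg, ← ha, ov_cj]
      exact hv₀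
    · obtain ⟨a, ha⟩ := mul_range hK hcs hg1
      rw [hg, ← cj_mul, ← ha, ov_cj]
      exact hv₀

variable {H : Subgroup (AbsGal K)} {κ : H → H} {c₂ : H}
  {Φ : Type*} {P : Φ → Ideal (𝓞 (AlgebraicClosure K))}

theorem exists_rel (hP : IsReps H {Q | Q.IsPrime ∧ (2 : 𝓞 (AlgebraicClosure K)) ∈ Q} P) (i : Φ) :
    ∃ (j : Φ) (h : H), CR c (P i) (P j) h := by
  obtain ⟨j, ⟨a, ha, hx⟩, -⟩ := hP.2 (cj c (P i))
    ⟨cj_prime (hP.1 i).1, two_mem_cj.2 (hP.1 i).2⟩
  refine ⟨j, ⟨a⁻¹, H.inv_mem ha⟩, ?_⟩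
  rw [cr_iff]
  rw [sm_iff] at hx
  show P j = cj (iK K a⁻¹ * c) (P i)
  rw [cj_mul, hx, ← cj_mul, ← map_mul, inv_mul_cancel, map_one, cj_one]

private theorem stabD_iff {a : AbsGal K} {P : Ideal (𝓞 (AlgebraicClosure K))} :
    a ∈ stabD P ↔ iK K a ∈ stb P := by
  rw [mem_stb]
  constructor
  · intro h x
    rw [og_iK]
    exact h x
  · intro h x
    rw [← og_iK]
    exact h x

private theorem kap_eq (hκ : ∀ (σ : H) (x : AlgebraicClosure K),
      (κ σ : AbsGal K) (c x) = c ((σ : AbsGal K) x)) (a : H) :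
    iK K (κ a : AbsGal K) * c = c * iK K (a : AbsGal K) :=
  RingEquiv.ext fun x => hκ a x

theorem rel_stab (hκ : ∀ (σ : H) (x : AlgebraicClosure K),
      (κ σ : AbsGal K) (c x) = c ((σ : AbsGal K) x))
    {P P' : Ideal (𝓞 (AlgebraicClosure K))} {h : H} (hr : CR c P P' h) (a : H) :
    a ∈ (stabD P).subgroupOf H ↔ h * κ a * h⁻¹ ∈ (stabD P').subgroupOf H := by
  rw [cr_iff] at hr
  rw [Subgroup.mem_subgroupOf, Subgroup.mem_subgroupOf, stabD_iff, stabD_iff, hr, stb_cj]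
  have e : (iK K (h : AbsGal K) * c)⁻¹ * iK K ((h * κ a * h⁻¹ : H) : AbsGal K) *
      (iK K (h : AbsGal K) * c) = iK K (a : AbsGal K) := by
    have h1 := kap_eq hκ a
    have h2 : iK K (κ a : AbsGal K) = c * iK K (a : AbsGal K) * c⁻¹ := by
      rw [← h1, mul_inv_cancel_right]
    rw [Subgroup.coe_mul, Subgroup.coe_mul, Subgroup.coe_inv, map_mul, map_mul, map_inv, h2]
    group
  rw [e]

theorem exists_pi (hK : QX.IsI K D s) (hD : D % 8 = 7)
    (hcs : c (algebraMap K (AlgebraicClosure K) s) = -algebraMap K (AlgebraicClosure K) s)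
    (hκ : ∀ (σ : H) (x : AlgebraicClosure K), (κ σ : AbsGal K) (c x) = c ((σ : AbsGal K) x))
    (hc₂ : ∀ x : AlgebraicClosure K, (c₂ : AbsGal K) x = c (c x))
    (hP : IsReps H {Q | Q.IsPrime ∧ (2 : 𝓞 (AlgebraicClosure K)) ∈ Q} P)
    {v : Ideal (𝓞 K)} (hv : v.IsPrime) (hv2 : (2 : 𝓞 K) ∈ v) :
    ∃ (π : {i // Ov v (P i)} ≃ {i // ¬ Ov v (P i)}) (h : {i // Ov v (P i)} → H),
      ∀ i : {i // Ov v (P i)}, CR c (P i) (P (π i)) (h i) := by
  choose j h hj using fun i => exists_rel (c := c) hP i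
  have hj' : ∀ i, P (j i) = cj (iK K (h i : AbsGal K) * c) (P i) := fun i => cr_iff.1 (hj i)
  have huniq : ∀ {i k : Φ} {a : H}, P i = cj (iK K (a : AbsGal K)) (P k) → k = i := by
    intro i k a hik
    refine (hP.2 (P i) (hP.1 i)).unique ⟨a, a.2, sm_iff.2 hik⟩ ⟨1, H.one_mem, fun x => ?_⟩
    rw [one_smul]
  have hc2 : iK K (c₂ : AbsGal K) = c * c := RingEquiv.ext fun x => hc₂ x
  have hn : ∀ i, Ov v (P i) → ¬ Ov v (P (j i)) := by
    intro i hi hji
    have h1 : CR c (P i) (cj c (P i)) 1 := by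
      rw [cr_iff, map_one, one_mul]
    have h2 := over_c hK hD hcs hv hv2 (hP.1 i).1 (hP.1 i).2 h1
    rw [hj' i, cj_mul, ov_cj] at hji
    exact h2.1 hji hi
  let f : {i // Ov v (P i)} → {i // ¬ Ov v (P i)} := fun i => ⟨j i, hn i i.2⟩
  have hf : Function.Bijective f := by
    constructor
    · intro i i' hii
      have h1 : j i = j i' := congrArg Subtype.val hii
      have h2 : cj (iK K (h i : AbsGal K) * c) (P i) = cj (iK K (h i' : AbsGal K) * c) (P i') := by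
        rw [← hj', ← hj', h1]
      have h3 : P (i : Φ) = cj ((iK K (h i : AbsGal K) * c)⁻¹ * (iK K (h i' : AbsGal K) * c))
          (P (i' : Φ)) := by
        rw [cj_mul, ← h2, ← cj_mul, inv_mul_cancel, cj_one]
      have h4 : (iK K (h i : AbsGal K) * c)⁻¹ * (iK K (h i' : AbsGal K) * c) =
          iK K ((c₂⁻¹ * κ ((h i)⁻¹ * h i') * c₂ : H) : AbsGal K) := by
        have h5 := kap_eq hκ ((h i)⁻¹ * h i')
        have h6 : iK K (κ ((h i)⁻¹ * h i') : AbsGal K) =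
            c * iK K (((h i)⁻¹ * h i' : H) : AbsGal K) * c⁻¹ := by
          rw [← h5, mul_inv_cancel_right]
        rw [Subgroup.coe_mul, Subgroup.coe_mul, Subgroup.coe_inv, map_mul, map_mul, map_inv, h6,
          hc2, Subgroup.coe_mul, Subgroup.coe_inv, map_mul, map_inv]
        group
      rw [h4] at h3
      exact Subtype.ext (huniq h3).symm
    · rintro ⟨k, hk⟩
      have hpr : (cj c⁻¹ (P k)).IsPrime := cj_prime (hP.1 k).1
      have h2 : (2 : 𝓞 (AlgebraicClosure K)) ∈ cj c⁻¹ (P k) := two_mem_cj.2 (hP.1 k).2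
      have h1 : CR c (cj c⁻¹ (P k)) (P k) 1 := by
        rw [cr_iff, map_one, one_mul, ← cj_mul, mul_inv_cancel, cj_one]
      have h3 := over_c hK hD hcs hv hv2 hpr h2 h1
      have h4 : Ov v (cj c⁻¹ (P k)) := by
        by_contra h5
        exact hk (h3.2 h5)
      obtain ⟨i, ⟨a, ha, hx⟩, -⟩ := hP.2 _ ⟨hpr, h2⟩
      rw [sm_iff] at hx
      have hi : Ov v (P i) := by
        rw [hx, ov_cj] at h4
        exact h4
      refine ⟨⟨i, hi⟩, Subtype.ext ?_⟩
      show j i = k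
      have h5 : P k = cj (iK K (κ ⟨a, ha⟩ : AbsGal K) * c) (P i) := by
        rw [kap_eq hκ ⟨a, ha⟩, cj_mul, ← hx, ← cj_mul, mul_inv_cancel, cj_one]
      have h6 : P k = cj (iK K ((κ ⟨a, ha⟩ * (h i)⁻¹ : H) : AbsGal K)) (P (j i)) := by
        rw [h5, hj' i, ← cj_mul, Subgroup.coe_mul, Subgroup.coe_inv, map_mul, map_inv]
        congr 1
        group
      exact huniq h6
  exact ⟨Equiv.ofBijective f hf, fun i => h i, fun i => hj i⟩

theorem reps_v (hP : IsReps H {Q | Q.IsPrime ∧ (2 : 𝓞 (AlgebraicClosure K)) ∈ Q} P)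
    {v : Ideal (𝓞 K)} (hv2 : (2 : 𝓞 K) ∈ v) {Q : Ideal (𝓞 (AlgebraicClosure K))}
    (hQ : Q.IsPrime) (hQv : Ov v Q) :
    ∃! i : {i // Ov v (P i)}, ∃ h ∈ H, ∀ x, x ∈ P i ↔ h • x ∈ Q := by
  obtain ⟨i, ⟨a, ha, hx⟩, hu⟩ := hP.2 Q ⟨hQ, two_of hv2 hQv⟩
  have hi : Ov v (P i) := by
    have h1 := sm_iff.1 hx
    rw [h1, ov_cj] at hQv
    exact hQv
  refine ⟨⟨i, hi⟩, ⟨a, ha, hx⟩, fun k hk => Subtype.ext (hu k hk)⟩

end Pool.Agent.Work.MP_787500_nt.UV
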