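import Mathlib
import Pool.Agent.Work.MP_787500_nt.UV.Defs
import Pool.Agent.Work.MP_787500_nt.UV.ShU

/-!
# Module UV/SelfLW (size M): the space `LW L` is its own annihilator

PROOF. Let `M = LW L`, `k a = γ κ(a) γ⁻¹`, `y` a continuous cocycle of `A`, `Y σ = R γ⁻¹ (y (k σ))`, a continuous cocycle for `R ∘ κ` (`A` is stable under `k` by `hγ`).
`y ∈ M` iff `shP V g e j y ∈ L j` for all `j` (`mem_LW`). `Y` is orthogonal to `M` iff `shP (valT κ g₀ V) g e i Y` is orthogonal to `L i` for all `i`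
(`perp_LW` in UV/ShU with `j = A.subtype`, `q i = (D i).subtype`, `τ' = τ.comp kk`, `R' = R.comp κ`).
For given `i` write `γ κ(g_i) g₀⁻¹ = δ g_j h` with `δ ∈ A`, `h : H` (`d.dec`, `j = ix (γ κ(g_i) g₀⁻¹)`), so `γ κ(g_i) g₀⁻¹ h⁻¹ g_j⁻¹ = δ ∈ A`. For `x ∈ D i`,
`e i x = g_i x g_i⁻¹`: `k (e i x) = γ κ(g_i) g₀⁻¹ kk(x) g₀ κ(g_i)⁻¹ γ⁻¹ = δ (g_j β g_j⁻¹) δ⁻¹`, `β = h kk(x) h⁻¹`, and `g_j β g_j⁻¹ ∈ A`, so `β ∈ D j` (`d.img`) and
`k (e i x) = δ e_j(β) δ⁻¹`. Hence `shP (valT κ g₀ V) g e i Y x = V (R γ⁻¹ (y (k (e i x)))) (κ(g_i) g₀⁻¹) = V (y (δ e_j(β) δ⁻¹)) (δ g_j h)`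
`= τ(h)⁻¹ V (R δ⁻¹ (y (δ e_j(β) δ⁻¹))) g_j`, and `R δ⁻¹ (y (δ z δ⁻¹)) = y z + R z (y δ⁻¹) - y δ⁻¹` (cocycle, as in `SH.shP_glob`), so this is
`τ(h)⁻¹ (shP V g e j y β) + (τ(kk x) w - w)`, `w = τ(h)⁻¹ V (y δ⁻¹) g_j` (`V (R (g_j β g_j⁻¹) f) g_j = τ β (V f g_j)`: `hI.act`, `hI.mul_right`).
Coboundaries for `τ ∘ kk` are orthogonal to `L i` (`perp_cobR`, `perp_iff` in SF/MainT.lean, private: copy), so, by `hrel i j h` for the map `x ↦ h kk(x) h⁻¹`
from `D i` to `D j` and the cocycle `shP V g e j y` (`shP_coc`): `shP .. i Y` is orthogonal to `L i` iff `shP V g e j y ∈ L j`.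
`→`: clear. `←`: every `j` occurs: `d.dec` for `κ (γ⁻¹ g_j g₀) = a₁ g_i h₁` gives `g_j = γ κ(a₁) κ(g_i) κ(h₁) g₀⁻¹ = (γ κ(a₁) γ⁻¹) (γ κ(g_i) g₀⁻¹) kk(h₁)`, so
`ix (γ κ(g_i) g₀⁻¹) = ix g_j = j` (`d.ixd`, `d.ixh`, `d.ixg`).
-/

set_option autoImplicit false
set_option linter.unusedSectionVars false

namespace Pool.Agent.Work.MP_787500_nt.UV

open Matrix
open Pool.Agent.Work.MP_787500_nt.SH
open Pool.Agent.Work.MP_787500_nt.SF (Tw valT)

variable {G : Type*} [Group G] [TopologicalSpace G] [IsTopologicalGroup G] {H : Subgroup G}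
  [Fintype (G ⧸ H)] {E : Type*} [NormedField E] {n m : ℕ}
  {τ : H →* Matrix (Fin n) (Fin n) E} {R : G →* Matrix (Fin m) (Fin m) E}
  {V : (Fin m → E) →ₗ[E] (G → Fin n → E)} {χ : G → E} {b : Matrix (Fin n) (Fin n) E}
  {bW : Matrix (Fin m) (Fin m) E} {κ : G →* G} {g₀ : G} {kk : H →* H}
  {A : Subgroup G} {Φ : Type*} [Fintype Φ] [DecidableEq Φ] {D : Φ → Subgroup H} {g : Φ → G}
  {e : ∀ i, D i →* A} {t : G → A} {ix : G → Φ} {η : G → H}

private theorem slw_dual {c : E} {A B b : Matrix (Fin n) (Fin n) E} (h : Aᵀ * b * B = c • b)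
    (u v : Fin n → E) : (A *ᵥ u) ⬝ᵥ (b *ᵥ (B *ᵥ v)) = c * (u ⬝ᵥ (b *ᵥ v)) := by
  have h2 : (A *ᵥ u) ⬝ᵥ (b *ᵥ (B *ᵥ v)) = u ⬝ᵥ ((Aᵀ * b * B) *ᵥ v) := by
    rw [← mulVec_mulVec, ← mulVec_mulVec, Matrix.dotProduct_mulVec u Aᵀ,
      Matrix.vecMul_transpose]
  rw [h2, h, smul_mulVec, dotProduct_smul, smul_eq_mul]

private theorem slw_perp_cob {X : Type*} [Group X] [TopologicalSpace X] {χ : X → E}
    {A B : X → Matrix (Fin n) (Fin n) E} {b : Matrix (Fin n) (Fin n) E}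
    (hB : ∀ s t, B (s * t) = B s * B t) (hBc : Continuous B)
    (hdual : ∀ σ, (A σ)ᵀ * b * B σ = χ σ • b) {L : Submodule E (X → Fin n → E)}
    (hL : L ≤ Parity.cocycles A) {y : X → Fin n → E} (hy : y ∈ Parity.coboundaries B) :
    Parity.IsPerp χ B b (L : Set (X → Fin n → E)) y := by
  obtain ⟨w, hw⟩ := hy
  have hyw : y = fun σ => B σ *ᵥ w - w := funext hw
  have hyc : Parity.IsCocycle B y := by
    refine ⟨?_, fun s t => ?_⟩
    · rw [hyw]
      exact (hBc.matrix_mulVec continuous_const).sub continuous_const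
    · rw [hw, hw, hw, hB, ← mulVec_mulVec, mulVec_sub]
      abel
  refine ⟨hyc, fun x hx => ?_⟩
  have hx' : Parity.IsCocycle A x := hL hx
  refine ⟨fun σ => -(x σ ⬝ᵥ (b *ᵥ (B σ *ᵥ w))), ?_, fun s t => ?_⟩
  · exact (Continuous.dotProduct hx'.1 (Continuous.matrix_mulVec continuous_const
      (hBc.matrix_mulVec continuous_const))).neg
  · show x s ⬝ᵥ (b *ᵥ (B s *ᵥ y t)) = -(x s ⬝ᵥ (b *ᵥ (B s *ᵥ w))) +
      χ s * -(x t ⬝ᵥ (b *ᵥ (B t *ᵥ w))) - -(x (s * t) ⬝ᵥ (b *ᵥ (B (s * t) *ᵥ w)))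
    rw [hx'.2, hB, ← mulVec_mulVec, add_dotProduct, slw_dual (hdual s), hw, mulVec_sub,
      mulVec_sub, dotProduct_sub]
    ring

private theorem slw_perp_iff {X : Type*} [Group X] [TopologicalSpace X] {χ : X → E}
    {B : X → Matrix (Fin n) (Fin n) E} {b : Matrix (Fin n) (Fin n) E}
    {L : Set (X → Fin n → E)} {y c : X → Fin n → E}
    (hc : Parity.IsPerp χ B b L c) :
    Parity.IsPerp χ B b L (y + c) ↔ Parity.IsPerp χ B b L y := by
  constructor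
  · intro h
    have h1 := h.add (hc.smul (-1))
    have h2 : y + c + (-1 : E) • c = y := by rw [neg_smul, one_smul, add_neg_cancel_right]
    rwa [h2] at h1
  · intro h
    exact h.add hc

theorem self_LW (hκc : Continuous κ) (tw : Tw H κ g₀ kk) (hkc : Continuous kk)
    (hI : IsInd τ R V) (hI' : IsInd (τ.comp kk) (R.comp κ) (valT κ g₀ V))
    (hF : IndForm H χ b bW V (valT κ g₀ V))
    (hτc : Continuous τ) (hRc : Continuous R) (hχc : Continuous χ) (hχ1 : χ 1 = 1)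
    (hχ : ∀ a a', χ (a * a') = χ a * χ a')
    (hdual : ∀ a, (R a)ᵀ * bW * R (κ a) = χ a • bW)
    (hdτ : ∀ h : H, (τ h)ᵀ * b * τ (kk h) = χ h • b)
    (hee : ∀ i (x : D i), (e i x : G) = g i * ((x : H) : G) * (g i)⁻¹)
    (d : DC A.subtype (fun i => (D i).subtype) g e t ix η)
    (dt : DCT A.subtype (fun i => (D i).subtype) e η)
    (hinj : ∀ (i : Φ) (x x' : D i → Fin n → E),
      Parity.IsCocycle (fun b => τ ((D i).subtype b)) x →
      Parity.IsCocycle (fun b => (τ.comp kk) ((D i).subtype b)) x' →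
      BEt (fun a : A => χ (A.subtype a)) (corS χ A.subtype ix η i fun h h' =>
        zh (fun i => (D i).subtype) i x h ⬝ᵥ
          (b *ᵥ ((τ.comp kk) h *ᵥ zh (fun i => (D i).subtype) i x' h'))) →
      BEt (fun b : D i => χ ((D i).subtype b)) fun a a' =>
        x a ⬝ᵥ (b *ᵥ ((τ.comp kk) ((D i).subtype a) *ᵥ x' a')))
    {L : ∀ i, Submodule E (D i → Fin n → E)}
    (hL : ∀ i, Parity.Between (Parity.coboundaries (fun σ : D i => τ σ)) (L i)
      (Parity.cocycles (fun σ : D i => τ σ)))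
    {γ : G} (hγ : ∀ a, a ∈ A ↔ γ * κ a * γ⁻¹ ∈ A)
    (hrel : ∀ i j (h : H), γ * κ (g i) * g₀⁻¹ * (h : G)⁻¹ * (g j)⁻¹ ∈ A →
      ∀ k : D i → D j, (∀ σ : D i, (k σ : H) = h * kk σ * h⁻¹) →
        ∀ y ∈ Parity.cocycles (fun σ : D j => τ σ), y ∈ L j ↔
          Parity.IsPerp (fun σ : D i => χ σ) (fun σ : D i => τ (kk σ)) b
            (L i : Set (D i → Fin n → E)) (fun σ => τ h⁻¹ *ᵥ y (k σ)))
    (k : A → A) (hk : ∀ a : A, (k a : G) = γ * κ a * γ⁻¹) (y : A → Fin m → E)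
    (hy : y ∈ Parity.cocycles (fun σ : A => R σ)) :
    y ∈ LW (fun a : A => R a) V g e L ↔
      Parity.IsPerp (fun σ : A => χ σ) (fun σ : A => R (κ σ)) bW
        (LW (fun a : A => R a) V g e L : Set (A → Fin m → E)) (fun σ => R γ⁻¹ *ᵥ y (k σ)) := by
  have hRc' : Continuous (R.comp κ) := hRc.comp hκc
  have hyc : Parity.IsCocycle (fun σ : A => R σ) y := hy
  -- `k` is continuous and multiplicative
  have hkcont : Continuous k := by
    refine continuous_induced_rng.2 ?_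
    have h1 : (Subtype.val ∘ k) = fun a : A => γ * κ a * γ⁻¹ := funext hk
    rw [h1]
    exact (continuous_const.mul (hκc.comp continuous_subtype_val)).mul continuous_const
  have hkmul : ∀ s t, k (s * t) = k s * k t := by
    intro s t
    apply Subtype.ext
    rw [Subgroup.coe_mul, hk, hk, hk, Subgroup.coe_mul, map_mul]
    group
  set Y : A → Fin m → E := fun σ => R γ⁻¹ *ᵥ y (k σ) with hY
  have hYc : Parity.IsCocycle (fun a : A => (R.comp κ) (A.subtype a)) Y := by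
    refine ⟨?_, fun s t => ?_⟩
    · exact Continuous.matrix_mulVec continuous_const (hyc.1.comp hkcont)
    · show R γ⁻¹ *ᵥ y (k (s * t)) = R γ⁻¹ *ᵥ y (k s) + R (κ s) *ᵥ (R γ⁻¹ *ᵥ y (k t))
      have h1 := hyc.2 (k s) (k t)
      rw [hkmul, h1, mulVec_add, mulVec_mulVec, mulVec_mulVec, ← map_mul, ← map_mul, hk]
      congr 3
      group
  -- the local computation
  have hloc : ∀ i, ∃ j, j = ix (γ * κ (g i) * g₀⁻¹) ∧
      (shP V g e j y ∈ L j ↔ Parity.IsPerp (fun σ : D i => χ ((D i).subtype σ))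
        (fun σ : D i => (τ.comp kk) ((D i).subtype σ)) b
        (L i : Set (D i → Fin n → E)) (shP (valT κ g₀ V) g e i Y)) := by
    intro i
    obtain ⟨c, hc⟩ : ∃ c, c = γ * κ (g i) * g₀⁻¹ := ⟨_, rfl⟩
    obtain ⟨h, hh⟩ : ∃ h, h = η c := ⟨_, rfl⟩
    obtain ⟨δ, hδ⟩ : ∃ δ, δ = t c := ⟨_, rfl⟩
    refine ⟨ix c, by rw [hc], ?_⟩
    obtain ⟨j, hj⟩ : ∃ j, j = ix c := ⟨_, rfl⟩
    rw [← hj]
    have hdec : c = (δ : G) * g j * (h : G) := by
      rw [hh, hδ, hj]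
      exact d.dec c
    have hδA : γ * κ (g i) * g₀⁻¹ * (h : G)⁻¹ * (g j)⁻¹ ∈ A := by
      rw [← hc, hdec]
      have h1 : (δ : G) * g j * (h : G) * (h : G)⁻¹ * (g j)⁻¹ = δ := by group
      rw [h1]
      exact δ.2
    have hke : ∀ x : D i, (k (e i x) : G) = c * (kk (x : H) : G) * c⁻¹ := by
      intro x
      rw [hk, hee, map_mul, map_mul, map_inv, hc]
      have h1 : κ (((x : H) : G)) = g₀⁻¹ * (kk (x : H) : G) * g₀ := by
        rw [tw.coe]
        group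
      rw [h1]
      group
    have hex : ∀ x : D i, ∃ β : D j, (β : H) = h * kk (x : H) * h⁻¹ := by
      intro x
      refine d.img j (h * kk (x : H) * h⁻¹) (δ⁻¹ * k (e i x) * δ) ?_
      show ((δ⁻¹ * k (e i x) * δ : A) : G) =
        g j * ((h * kk (x : H) * h⁻¹ : H) : G) * (g j)⁻¹
      rw [Subgroup.coe_mul, Subgroup.coe_mul, Subgroup.coe_inv, hke, hdec, Subgroup.coe_mul,
        Subgroup.coe_mul, Subgroup.coe_inv]
      group
    choose K hK using hex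
    have hke2 : ∀ x : D i, k (e i x) = δ * e j (K x) * δ⁻¹ := by
      intro x
      apply Subtype.ext
      rw [hke, hdec, Subgroup.coe_mul, Subgroup.coe_mul, Subgroup.coe_inv, hee, hK,
        Subgroup.coe_mul, Subgroup.coe_mul, Subgroup.coe_inv]
      group
    have hy1 : y 1 = 0 := by
      have h2 : y (1 * 1) = y 1 + R ((1 : A) : G) *ᵥ y 1 := hyc.2 1 1
      have h3 : R ((1 : A) : G) = 1 := by rw [Subgroup.coe_one, map_one]
      rw [mul_one, h3, one_mulVec] at h2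
      exact left_eq_add.1 h2
    have hact : ∀ (β : D j) (f : Fin m → E),
        V (R (e j β : G) *ᵥ f) (g j) = τ (β : H) *ᵥ V f (g j) := by
      intro β f
      rw [hI.act, hee]
      have h1 : (g j * ((β : H) : G) * (g j)⁻¹)⁻¹ * g j = g j * (((β : H)⁻¹ : H) : G) := by
        rw [Subgroup.coe_inv]
        group
      rw [h1, hI.mul_right, inv_inv]
    have hval : ∀ x : D i, shP (valT κ g₀ V) g e i Y x =
        τ h⁻¹ *ᵥ shP V g e j y (K x) + (τ (kk (x : H)) *ᵥ (τ h⁻¹ *ᵥ V (y δ⁻¹) (g j)) -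
          τ h⁻¹ *ᵥ V (y δ⁻¹) (g j)) := by
      intro x
      show V (R γ⁻¹ *ᵥ y (k (e i x))) (κ (g i) * g₀⁻¹) = _
      have h1 : (γ⁻¹)⁻¹ * (κ (g i) * g₀⁻¹) = (δ : G) * g j * (h : G) := by
        rw [← hdec, hc]
        group
      rw [hI.act, h1, hI.mul_right, hke2]
      have h2 : y (δ * e j (K x) * δ⁻¹) =
          y δ + R (δ : G) *ᵥ (y (e j (K x)) + R (e j (K x) : G) *ᵥ y δ⁻¹) := by
        have e1 : y (δ * (e j (K x) * δ⁻¹)) = y δ + R (δ : G) *ᵥ y (e j (K x) * δ⁻¹) :=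
          hyc.2 δ (e j (K x) * δ⁻¹)
        have e2 : y (e j (K x) * δ⁻¹) = y (e j (K x)) + R (e j (K x) : G) *ᵥ y δ⁻¹ :=
          hyc.2 (e j (K x)) δ⁻¹
        rw [mul_assoc, e1, e2]
      have h3 : y δ = - (R (δ : G) *ᵥ y δ⁻¹) := by
        have e1 : y (δ * δ⁻¹) = y δ + R (δ : G) *ᵥ y δ⁻¹ := hyc.2 δ δ⁻¹
        rw [mul_inv_cancel, hy1] at e1
        exact eq_neg_of_add_eq_zero_left e1.symm
      have h4 : ∀ f : Fin m → E, V (R (δ : G) *ᵥ f) ((δ : G) * g j) = V f (g j) := by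
        intro f
        rw [hI.act, inv_mul_cancel_left]
      rw [h2, h3, map_add, map_neg, Pi.add_apply, Pi.neg_apply, h4, h4, map_add, Pi.add_apply,
        hact, hK]
      show τ h⁻¹ *ᵥ (-V (y δ⁻¹) (g j) + (V (y (e j (K x))) (g j) +
        τ (h * kk (x : H) * h⁻¹) *ᵥ V (y δ⁻¹) (g j))) = τ h⁻¹ *ᵥ V (y (e j (K x))) (g j) + _
      rw [mulVec_add, mulVec_add, mulVec_neg, mulVec_mulVec, mulVec_mulVec, ← map_mul, ← map_mul]
      have h5 : h⁻¹ * (h * kk (x : H) * h⁻¹) = kk (x : H) * h⁻¹ := by group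
      rw [h5]
      abel
    have hsum : shP (valT κ g₀ V) g e i Y = (fun σ : D i => τ h⁻¹ *ᵥ shP V g e j y (K σ)) +
        fun σ : D i => (τ.comp kk) ((D i).subtype σ) *ᵥ (τ h⁻¹ *ᵥ V (y δ⁻¹) (g j)) -
          τ h⁻¹ *ᵥ V (y δ⁻¹) (g j) := by
      funext x
      exact hval x
    have hcob : Parity.IsPerp (fun σ : D i => χ ((D i).subtype σ))
        (fun σ : D i => (τ.comp kk) ((D i).subtype σ)) b
        (L i : Set (D i → Fin n → E))
        (fun σ : D i => (τ.comp kk) ((D i).subtype σ) *ᵥ (τ h⁻¹ *ᵥ V (y δ⁻¹) (g j)) -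
          τ h⁻¹ *ᵥ V (y δ⁻¹) (g j)) := by
      refine slw_perp_cob (A := fun σ : D i => τ σ) (fun s t => ?_) ?_ ?_ (hL i).2
        ⟨_, fun σ => rfl⟩
      · show (τ.comp kk) ((D i).subtype (s * t)) = _
        rw [map_mul, map_mul]
      · exact (hτc.comp hkc).comp continuous_subtype_val
      · intro σ
        exact hdτ σ
    rw [hsum, slw_perp_iff hcob]
    exact hrel i j h hδA K hK _ (shP_coc hI d dt hyc j)
  have hsurj : ∀ j, ∃ i, ix (γ * κ (g i) * g₀⁻¹) = j := by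
    intro j
    obtain ⟨c, hc⟩ : ∃ c, c = κ (γ⁻¹ * g j * g₀) := ⟨_, rfl⟩
    refine ⟨ix c, ?_⟩
    have h1 : c = (t c : G) * g (ix c) * (η c : G) := d.dec c
    have h2 : γ⁻¹ * g j * g₀ = κ (t c : G) * κ (g (ix c)) * κ (η c : G) := by
      rw [← map_mul, ← map_mul, ← h1, hc, tw.inv]
    have h3 : κ ((η c : H) : G) = g₀⁻¹ * (kk (η c) : G) * g₀ := by
      rw [tw.coe]
      group
    have h4 : g j = A.subtype ⟨γ * κ (t c : G) * γ⁻¹, (hγ _).1 (t c).2⟩ *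
        (γ * κ (g (ix c)) * g₀⁻¹) * (kk (η c) : G) := by
      show g j = γ * κ (t c : G) * γ⁻¹ * (γ * κ (g (ix c)) * g₀⁻¹) * (kk (η c) : G)
      have h5 : g j = γ * (γ⁻¹ * g j * g₀) * g₀⁻¹ := by group
      rw [h5, h2, h3]
      group
    have h5 : ix (g j) = ix (γ * κ (g (ix c)) * g₀⁻¹) := by
      conv_lhs => rw [h4]
      rw [d.ixh, d.ixd]
    rw [← h5, d.ixg]
  have hperp : Parity.IsPerp (fun σ : A => χ σ) (fun σ : A => R (κ σ)) bW
      (LW (fun a : A => R a) V g e L : Set (A → Fin m → E)) Y ↔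
      ∀ i, Parity.IsPerp (fun σ : D i => χ ((D i).subtype σ))
        (fun σ : D i => (τ.comp kk) ((D i).subtype σ)) b
        (L i : Set (D i → Fin n → E)) (shP (valT κ g₀ V) g e i Y) := by
    have h1 := perp_LW hI hI' hF hRc hRc' hχc hχ1 hχ hdual d dt hL hinj
    have h2 : Y ∈ perpAt (fun a => χ (A.subtype a)) (fun a => (R.comp κ) (A.subtype a)) bW
        (LW (fun a => R (A.subtype a)) V g e L) ↔
        Y ∈ LW (fun a => (R.comp κ) (A.subtype a)) (valT κ g₀ V) g e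
        (fun i => perpAt (fun x => χ ((D i).subtype x))
          (fun x => (τ.comp kk) ((D i).subtype x)) b (L i)) := by
      rw [h1]
    rw [mem_LW] at h2
    constructor
    · intro h3
      exact (h2.1 h3).2
    · intro h3
      exact h2.2 ⟨hYc, h3⟩
  rw [hperp, mem_LW]
  constructor
  · rintro ⟨-, h1⟩ i
    obtain ⟨j, -, h2⟩ := hloc i
    exact h2.1 (h1 j)
  · intro h1
    refine ⟨hyc, fun j => ?_⟩
    obtain ⟨i, hi⟩ := hsurj j
    obtain ⟨j', hj', h2⟩ := hloc i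
    obtain rfl : j' = j := hj'.trans hi
    exact h2.2 (h1 i)

end Pool.Agent.Work.MP_787500_nt.UV
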