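import Mathlib
import Pool.Agent.Work.MP_787500_nt.UV.Defs

/-!
# Module UV/Transp (size S-M): the conditions at conjugate places

`D`, `D'` are subgroups of `H`, `h` is an element of `H` with `h kk(D) h⁻¹ = D'`, `W'` is the image of `U` under `τ h`. The map
`(T y) σ = τ(h)⁻¹ (y (h kk(σ) h⁻¹))` is a bijection from the continuous cocycles of `D'` for `τ` to the continuous cocycles of `D` for `τ ∘ kk`.
PROOF. `tr_coc`: `(T y)(σ σ') = τ(h)⁻¹ (y (k σ) + τ(h kk(σ) h⁻¹) y (k σ')) = T y σ + τ(kk σ) T y σ'`; continuity from `hkc`.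
`tr_surj`: for `z` take `y β = τ h (z σ)`, `σ = kk' (h⁻¹ β h) ∈ D`.
`tr_gr`: `T y σ - (τ(kk σ) w - w) = τ(h)⁻¹ (y (k σ) - (τ(k σ) v - v))` for `v = τ h w`; `hU`; `k` is surjective.
`tr_fix`: `v ↦ τ h v` maps `fixedModulo (τ ∘ kk|D) U` onto `fixedModulo (τ|D') W'` and `U` onto `W'` (linear equivalence; the dimension of the quotient is invariant:
`Submodule.Quotient.equiv` / `LinearEquiv.finrank_eq`).
`tr_dim`: `T` restricts to a linear equivalence from `M'` to `M` that maps `N'` onto `N`.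
`tr_glob`: `x (h kk(σ) h⁻¹) = x h + τ h (x (kk σ)) + τ (h kk σ) (x h⁻¹)` and `x h⁻¹ = - τ(h)⁻¹ (x h)`.
-/

set_option autoImplicit false
set_option linter.unusedSectionVars false

namespace Pool.Agent.Work.MP_787500_nt.UV

open Matrix

variable {H : Type*} [Group H] [TopologicalSpace H] [IsTopologicalGroup H] {E : Type*}
  [NormedField E] {n : ℕ} {τ : H →* Matrix (Fin n) (Fin n) E} {kk : H →* H} {kk' : H → H}
  {D D' : Subgroup H} {h : H}

/-- the map on cocycles -/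
def tr (τ : H →* Matrix (Fin n) (Fin n) E) (h : H) (k : D → D') (y : D' → Fin n → E) :
    D → Fin n → E := fun σ => τ h⁻¹ *ᵥ y (k σ)

private theorem tr_mul (a b : H) (v : Fin n → E) : τ a *ᵥ (τ b *ᵥ v) = τ (a * b) *ᵥ v := by
  rw [mulVec_mulVec, ← map_mul]

private theorem tr_cancel (h : H) (v : Fin n → E) : τ h *ᵥ (τ h⁻¹ *ᵥ v) = v := by
  rw [tr_mul, mul_inv_cancel, map_one, one_mulVec]

private theorem tr_cancel' (h : H) (v : Fin n → E) : τ h⁻¹ *ᵥ (τ h *ᵥ v) = v := by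
  rw [tr_mul, inv_mul_cancel, map_one, one_mulVec]

private theorem tr_kmul {k : D → D'} (hk : ∀ σ : D, (k σ : H) = h * kk σ * h⁻¹) (σ σ' : D) :
    k (σ * σ') = k σ * k σ' := by
  apply Subtype.ext
  rw [hk, Subgroup.coe_mul, Subgroup.coe_mul, hk, hk, map_mul]
  group

theorem tr_coc (hkc : Continuous kk) {k : D → D'} (hk : ∀ σ : D, (k σ : H) = h * kk σ * h⁻¹)
    {y : D' → Fin n → E} (hy : Parity.IsCocycle (fun σ : D' => τ σ) y) :
    Parity.IsCocycle (fun σ : D => τ (kk σ)) (tr τ h k y) := by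
  have hkcont : Continuous k := by
    refine Continuous.subtype_mk (f := fun σ : D => (h * kk σ * h⁻¹ : H)) ?_ (fun σ => ?_) |>.congr ?_
    · exact (continuous_const.mul (hkc.comp continuous_subtype_val)).mul continuous_const
    · rw [← hk]
      exact (k σ).2
    · intro σ
      exact Subtype.ext (hk σ).symm
  refine ⟨?_, ?_⟩
  · unfold tr
    exact Continuous.matrix_mulVec continuous_const (hy.1.comp hkcont)
  · intro σ σ'
    unfold tr
    rw [tr_kmul hk, hy.2, mulVec_add]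
    congr 1
    simp only
    rw [hk, tr_mul, tr_mul]
    congr 2
    group

theorem tr_surj (hkc' : Continuous kk') (h1 : ∀ a, kk' (kk a) = a) (h2 : ∀ a, kk (kk' a) = a)
    (hD : ∀ a : H, a ∈ D ↔ h * kk a * h⁻¹ ∈ D') {k : D → D'}
    (hk : ∀ σ : D, (k σ : H) = h * kk σ * h⁻¹)
    {z : D → Fin n → E} (hz : Parity.IsCocycle (fun σ : D => τ (kk σ)) z) :
    ∃ y : D' → Fin n → E, Parity.IsCocycle (fun σ : D' => τ σ) y ∧ tr τ h k y = z := by
  have hmem : ∀ β : D', kk' (h⁻¹ * β * h) ∈ D := by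
    intro β
    rw [hD, h2]
    have : h * (h⁻¹ * (β : H) * h) * h⁻¹ = β := by group
    rw [this]
    exact β.2
  let j : D' → D := fun β => ⟨kk' (h⁻¹ * β * h), hmem β⟩
  have hjk : ∀ σ : D, j (k σ) = σ := by
    intro σ
    apply Subtype.ext
    show kk' (h⁻¹ * (k σ : H) * h) = σ
    rw [hk]
    have : h⁻¹ * (h * kk (σ : H) * h⁻¹) * h = kk σ := by group
    rw [this, h1]
  have hkj : ∀ β : D', kk (j β : H) = h⁻¹ * β * h := fun β => h2 _
  have hjc : Continuous j := by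
    refine Continuous.subtype_mk ?_ _
    exact hkc'.comp ((continuous_const.mul continuous_subtype_val).mul continuous_const)
  have hjm : ∀ β β' : D', j (β * β') = j β * j β' := by
    intro β β'
    have hkinj : Function.Injective kk := fun a b hab => by rw [← h1 a, hab, h1]
    apply Subtype.ext
    apply hkinj
    rw [hkj, Subgroup.coe_mul, Subgroup.coe_mul, map_mul, hkj, hkj]
    group
  refine ⟨fun β => τ h *ᵥ z (j β), ⟨?_, ?_⟩, ?_⟩
  · exact Continuous.matrix_mulVec continuous_const (hz.1.comp hjc)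
  · intro β β'
    simp only
    rw [hjm, hz.2, mulVec_add]
    congr 1
    simp only
    rw [hkj, tr_mul, tr_mul]
    congr 2
    group
  · funext σ
    unfold tr
    simp only
    rw [hjk, tr_cancel']

private theorem tr_surjk (h2 : ∀ a, kk (kk' a) = a)
    (hD : ∀ a : H, a ∈ D ↔ h * kk a * h⁻¹ ∈ D') {k : D → D'}
    (hk : ∀ σ : D, (k σ : H) = h * kk σ * h⁻¹) (β : D') : ∃ σ : D, k σ = β := by
  have hmem : kk' (h⁻¹ * β * h) ∈ D := by
    rw [hD, h2]
    have : h * (h⁻¹ * (β : H) * h) * h⁻¹ = β := by group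
    rw [this]
    exact β.2
  refine ⟨⟨_, hmem⟩, Subtype.ext ?_⟩
  rw [hk, h2]
  group

theorem tr_gr (hkc : Continuous kk) (h1 : ∀ a, kk' (kk a) = a) (h2 : ∀ a, kk (kk' a) = a)
    (hD : ∀ a : H, a ∈ D ↔ h * kk a * h⁻¹ ∈ D') {k : D → D'}
    (hk : ∀ σ : D, (k σ : H) = h * kk σ * h⁻¹) {U W' : Submodule E (Fin n → E)}
    (hU : ∀ x, x ∈ U ↔ τ h *ᵥ x ∈ W')
    {y : D' → Fin n → E} (hy : Parity.IsCocycle (fun σ : D' => τ σ) y) :
    y ∈ Parity.greenbergAt τ D' W' ↔ tr τ h k y ∈ Parity.greenbergAt (τ.comp kk) D U := by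
  have key : ∀ (w : Fin n → E) (σ : D), τ h *ᵥ (tr τ h k y σ - (τ (kk σ) *ᵥ w - w)) =
      y (k σ) - (τ (k σ) *ᵥ (τ h *ᵥ w) - τ h *ᵥ w) := by
    intro w σ
    unfold tr
    rw [mulVec_sub, mulVec_sub, tr_cancel, hk, tr_mul, tr_mul]
    congr 4
    group
  constructor
  · rintro ⟨-, v, hv⟩
    refine ⟨tr_coc hkc hk hy, τ h⁻¹ *ᵥ v, fun σ => ?_⟩
    rw [hU]
    show τ h *ᵥ (tr τ h k y σ - (τ (kk σ) *ᵥ (τ h⁻¹ *ᵥ v) - τ h⁻¹ *ᵥ v)) ∈ W'
    rw [key, tr_cancel]
    exact hv (k σ)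
  · rintro ⟨-, w, hw⟩
    refine ⟨hy, τ h *ᵥ w, fun β => ?_⟩
    obtain ⟨σ, rfl⟩ := tr_surjk h2 hD hk β
    rw [← key]
    exact (hU _).1 (hw σ)

/-- the equivalence given by `τ h` -/
private def trE (τ : H →* Matrix (Fin n) (Fin n) E) (h : H) : (Fin n → E) ≃ₗ[E] (Fin n → E) where
  toFun v := τ h *ᵥ v
  invFun v := τ h⁻¹ *ᵥ v
  map_add' := mulVec_add _
  map_smul' a v := mulVec_smul _ a v
  left_inv v := tr_cancel' h v
  right_inv v := tr_cancel h v

private theorem tr_dimeq {A B : Type*} [AddCommGroup A] [Module E A] [AddCommGroup B] [Module E B]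
    {M N : Submodule E A} {M' N' : Submodule E B} (e : M ≃ₗ[E] M')
    (he : ∀ x : M, (x : A) ∈ N ↔ (e x : B) ∈ N') : Parity.dimModulo M N = Parity.dimModulo M' N' := by
  unfold Parity.dimModulo
  refine LinearEquiv.finrank_eq (Submodule.Quotient.equiv _ _ e ?_)
  ext y
  rw [Submodule.mem_map]
  constructor
  · rintro ⟨x, hx, rfl⟩
    exact (he x).1 hx
  · intro hy
    refine ⟨e.symm y, ?_, e.apply_symm_apply y⟩
    show ((e.symm y : M) : A) ∈ N
    rw [he, e.apply_symm_apply]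
    exact hy

theorem tr_fix (h1 : ∀ a, kk' (kk a) = a) (h2 : ∀ a, kk (kk' a) = a)
    (hD : ∀ a : H, a ∈ D ↔ h * kk a * h⁻¹ ∈ D') {U W' : Submodule E (Fin n → E)}
    (hU : ∀ x, x ∈ U ↔ τ h *ᵥ x ∈ W') :
    Parity.dimModulo (Parity.fixedModulo (fun σ : D' => τ σ) W') W' =
      Parity.dimModulo (Parity.fixedModulo (fun σ : D => τ (kk σ)) U) U := by
  symm
  have hmap : Submodule.map (trE τ h : (Fin n → E) →ₗ[E] (Fin n → E))
      (Parity.fixedModulo (fun σ : D => τ (kk σ)) U) =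
      Parity.fixedModulo (fun σ : D' => τ σ) W' := by
    ext v
    rw [Submodule.mem_map]
    constructor
    · rintro ⟨w, hw, rfl⟩
      intro β
      have hmem : kk' (h⁻¹ * β * h) ∈ D := by
        rw [hD, h2]
        have : h * (h⁻¹ * (β : H) * h) * h⁻¹ = β := by group
        rw [this]
        exact β.2
      have h3 := (hU _).1 (hw ⟨_, hmem⟩)
      simp only at h3
      rw [h2, mulVec_sub, tr_mul] at h3
      have h4 : h * (h⁻¹ * (β : H) * h) = β * h := by group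
      rw [h4, ← tr_mul] at h3
      exact h3
    · intro hv
      refine ⟨τ h⁻¹ *ᵥ v, ?_, tr_cancel h v⟩
      intro σ
      rw [hU]
      have h3 := hv ⟨h * kk σ * h⁻¹, (hD _).1 σ.2⟩
      simp only at h3 ⊢
      rw [mulVec_sub, tr_cancel, tr_mul, tr_mul]
      exact h3
  refine tr_dimeq (((trE τ h).submoduleMap _).trans (LinearEquiv.ofEq _ _ hmap)) ?_
  intro x
  exact hU _

theorem tr_dim (hkc : Continuous kk) (hkc' : Continuous kk') (h1 : ∀ a, kk' (kk a) = a)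
    (h2 : ∀ a, kk (kk' a) = a) (hD : ∀ a : H, a ∈ D ↔ h * kk a * h⁻¹ ∈ D') {k : D → D'}
    (hk : ∀ σ : D, (k σ : H) = h * kk σ * h⁻¹) {M' N' : Submodule E (D' → Fin n → E)}
    {M N : Submodule E (D → Fin n → E)} (hM' : M' ≤ Parity.cocycles (fun σ : D' => τ σ))
    (hN' : N' ≤ Parity.cocycles (fun σ : D' => τ σ))
    (hM : M ≤ Parity.cocycles (fun σ : D => τ (kk σ)))
    (hN : N ≤ Parity.cocycles (fun σ : D => τ (kk σ)))
    (hMM : ∀ y, Parity.IsCocycle (fun σ : D' => τ σ) y → (y ∈ M' ↔ tr τ h k y ∈ M))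
    (hNN : ∀ y, Parity.IsCocycle (fun σ : D' => τ σ) y → (y ∈ N' ↔ tr τ h k y ∈ N)) :
    Parity.dimModulo M' N' = Parity.dimModulo M N := by
  let T : (D' → Fin n → E) →ₗ[E] (D → Fin n → E) :=
    { toFun := tr τ h k
      map_add' := fun x y => by
        funext σ
        exact mulVec_add _ _ _
      map_smul' := fun a x => by
        funext σ
        exact mulVec_smul _ a _ }
  have hTi : Function.Injective T := by
    intro x y hxy
    funext β
    obtain ⟨σ, rfl⟩ := tr_surjk h2 hD hk β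
    have h3 : τ h⁻¹ *ᵥ x (k σ) = τ h⁻¹ *ᵥ y (k σ) := congrFun hxy σ
    rw [← tr_cancel (τ := τ) h (x (k σ)), h3, tr_cancel]
  have hmap : Submodule.map T M' = M := by
    ext z
    rw [Submodule.mem_map]
    constructor
    · rintro ⟨y, hy, rfl⟩
      exact (hMM y (hM' hy)).1 hy
    · intro hz
      obtain ⟨y, hy, hyz⟩ := tr_surj hkc' h1 h2 hD hk (hM hz)
      refine ⟨y, (hMM y hy).2 ?_, hyz⟩
      rw [hyz]
      exact hz
  refine tr_dimeq ((Submodule.equivMapOfInjective T hTi M').trans (LinearEquiv.ofEq _ _ hmap)) ?_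
  intro x
  exact hNN _ (hM' x.2)

theorem tr_glob {k : D → D'} (hk : ∀ σ : D, (k σ : H) = h * kk σ * h⁻¹) {x : H → Fin n → E}
    (hx : ∀ s t, x (s * t) = x s + τ s *ᵥ x t) :
    ∃ w : Fin n → E, ∀ σ : D,
      tr τ h k (fun σ : D' => x σ) σ = x (kk σ) + (τ (kk σ) *ᵥ w - w) := by
  have h0 : x 1 = 0 := by
    have := hx 1 1
    rw [mul_one, map_one, one_mulVec] at this
    simpa using this
  have hinv : x h⁻¹ = -(τ h⁻¹ *ᵥ x h) := by
    have := hx h⁻¹ h
    rw [inv_mul_cancel, h0] at this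
    exact eq_neg_of_add_eq_zero_left this.symm
  refine ⟨-(τ h⁻¹ *ᵥ x h), fun σ => ?_⟩
  unfold tr
  simp only
  rw [hk, hx, hx, mulVec_add, mulVec_add, tr_cancel', hinv, mulVec_neg, mulVec_neg, tr_mul, tr_mul,
    mulVec_neg, tr_mul]
  have h3 : h⁻¹ * (h * kk (σ : H)) * h⁻¹ = kk σ * h⁻¹ := by group
  rw [h3]
  abel

end Pool.Agent.Work.MP_787500_nt.UV
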