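import Mathlib
import Pool.Agent.Work.MP_787500_nt.UV.ParK
import Pool.Agent.Work.MP_787500_nt.UV.MainU
import Pool.Agent.Work.MP_787500_nt.UV.SelfLW
import Pool.Agent.Work.MP_787500_nt.UV.FdS
import Pool.Agent.Work.MP_787500_nt.UV.Hinj
import Pool.Agent.Work.MP_787500_nt.UV.GrPi
import Pool.Agent.Work.MP_787500_nt.UV.Transp
import Pool.Agent.Work.MP_787500_nt.UV.Partner
import Pool.Agent.Work.MP_787500_nt.SF.FinalF
import Pool.Agent.Work.MP_787500_nt.SG.Final

/-!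
The parity formula over the open subgroup `H` for the primes over one prime of `K`: for every family of conditions `L` that is
its own annihilator if 2 does not split.
-/

set_option autoImplicit false
set_option linter.unusedSectionVars false

namespace Pool.Agent.Work.MP_787500_nt.UV

open Matrix NumberField
open Pool.Agent.Work.MP_787500_nt.SH
open Pool.Agent.Work.MP_787500_nt.SG (WInd)
open Pool.Agent.Work.MP_787500_nt.SF (Tw valT indT condF isInd_kap indForm_ind indForm_det isDualRep_indT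
  resSelfDual_ind)
open Pool.Agent.Work.MP_787500_nt.PA (cyc toE)
open Pool.Agent.Work.MP_787500_nt.GP (inT stabD)
open Pool.Agent.Work.MP_787500_nt.GA (cj mem_cj)

universe u v w₁ w₂

/-- a continuous representation of a compact group is bounded -/
private theorem bdd {H : Type*} [Group H] [TopologicalSpace H] [CompactSpace H] {E : Type*}
    [NormedField E] {n : ℕ} {τ : H →* Matrix (Fin n) (Fin n) E} (hc : Continuous τ) :
    ∃ R : ℝ, ∀ h i j, ‖τ h i j‖ ≤ R := by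
  have h1 : ∀ i j, ∃ R : ℝ, ∀ h, ‖τ h i j‖ ≤ R := fun i j => by
    obtain ⟨R, hR⟩ := isCompact_univ.exists_bound_of_continuousOn (hc.matrix_elem i j).continuousOn
    exact ⟨R, fun h => hR h (Set.mem_univ _)⟩
  choose R hR using h1
  refine ⟨∑ i, ∑ j, |R i j|, fun h i j => ?_⟩
  refine (hR i j h).trans ((le_abs_self _).trans ?_)
  refine (Finset.single_le_sum (f := fun j => |R i j|) (fun _ _ => abs_nonneg _)
    (Finset.mem_univ j)).trans ?_
  exact Finset.single_le_sum (f := fun i => ∑ j, |R i j|)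
    (fun _ _ => Finset.sum_nonneg fun _ _ => abs_nonneg _) (Finset.mem_univ i)

private theorem modEq_fix {m x : ℕ} (hm : Even m) (h : x ≤ m) : m - x ≡ x [MOD 2] := by
  obtain ⟨a, ha⟩ := hm
  unfold Nat.ModEq
  omega

section congr

variable {G : Type*} [Group G] [TopologicalSpace G] {E : Type*} [NormedField E] {n : ℕ}

theorem FormB.congr {N : Set (Subgroup G)} {χ : G → E} {κ : G →* G}
    {ρ : G →* Matrix (Fin n) (Fin n) E} {b : Matrix (Fin n) (Fin n) E} {Φ : Type*} [Fintype Φ]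
    {D : Φ → Subgroup G} {W : Φ → Submodule E (Fin n → E)} {f : Φ → ℕ} {s : Prop} {a a' : ℕ}
    {L : ∀ i, Submodule E (D i → Fin n → E)}
    (h : FormB N χ κ ρ b D W f s a L) (ha : a ≡ a' [MOD 2]) : FormB N χ κ ρ b D W f s a' L := by
  obtain ⟨h1, h2, h3, h4⟩ := h
  exact ⟨h1, h2, h3, h4.trans (Nat.ModEq.add_left _ ha)⟩

end congr

section quad

variable {K : Type u} [Field K] [NumberField K] {D : ℕ} {s : K}
  {c : AlgebraicClosure K ≃+* AlgebraicClosure K} {κ : AbsGal K →* AbsGal K}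

/-- the relation between the primes `P i`, `P j` from the double cosets -/
theorem rel_of_memT (X : QS.Two (KS.iK K) c κ)
    (hκ : ∀ (σ : AbsGal K) (x : AlgebraicClosure K), κ σ x = c (σ (c x)))
    {P₀ Pi Pj : Ideal (𝓞 (AlgebraicClosure K))} {gi gj γ h g₀ : AbsGal K}
    (hi : ∀ x, x ∈ Pi ↔ gi • x ∈ P₀) (hj : ∀ x, x ∈ Pj ↔ gj • x ∈ P₀)
    (hγ : ∀ x : 𝓞 (AlgebraicClosure K), x ∈ cj c P₀ ↔ γ • x ∈ P₀)
    (hm : γ * κ gi * g₀⁻¹ * h⁻¹ * gj⁻¹ ∈ stabD P₀) {x y : 𝓞 (AlgebraicClosure K)}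
    (hxy : (y : AlgebraicClosure K) = g₀ (c x)) : x ∈ Pi ↔ h • y ∈ Pj := by
  have hm' : γ * κ gi * (h * g₀)⁻¹ * gj⁻¹ ∈ stabD P₀ := by
    have e : γ * κ gi * (h * g₀)⁻¹ * gj⁻¹ = γ * κ gi * g₀⁻¹ * h⁻¹ * gj⁻¹ := by group
    rw [e]
    exact hm
  have h1 := SG.rel_of_mem (x := x) (y := HP.og c x) X hκ hi hj hγ hm' rfl
  rw [h1]
  have h2 : (h * g₀) • HP.og c x = h • y := by
    rw [mul_smul]
    congr 1
    apply RingOfIntegers.ext
    rw [hxy]
    rfl
  rw [h2]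

theorem core_U (hK : QX.IsI K D s) (hc : PA.IsConj s c)
    (hκ : ∀ (σ : AbsGal K) (x : AlgebraicClosure K), κ σ x = c (σ (c x)))
    {P₀ : Ideal (𝓞 (AlgebraicClosure K))} {T : Finset ℕ}
    {Q₀ : ℕ → Ideal (𝓞 (AlgebraicClosure K))}
    {H : Subgroup (AbsGal K)} [Fintype (AbsGal K ⧸ H)] {g₀ : AbsGal K} {kk : H →* H}
    (tw : Tw H κ g₀ kk) (hkc : Continuous kk)
    {E : Type v} [NormedField E] [NormedAlgebra ℚ_[2] E] [FiniteDimensional ℚ_[2] E] {n m : ℕ}
    {τ : H →* Matrix (Fin n) (Fin n) E} {R : AbsGal K →* Matrix (Fin m) (Fin m) E}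
    {V : (Fin m → E) →ₗ[E] (AbsGal K → Fin n → E)} {b : Matrix (Fin n) (Fin n) E}
    {bW : Matrix (Fin m) (Fin m) E}
    (hI : IsInd τ R V) (hI' : IsInd (τ.comp kk) (R.comp κ) (valT κ g₀ V))
    (hF : IndForm H (Parity.cyclo E) b bW V (valT κ g₀ V))
    (hτc : Continuous τ) (hRc : Continuous R)
    (hχc : Continuous (Parity.cyclo E : AbsGal K → E))
    (hχ1 : Parity.cyclo E (1 : AbsGal K) = 1)
    (hχ : ∀ a a' : AbsGal K, Parity.cyclo E (a * a') = Parity.cyclo E a * Parity.cyclo E a')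
    (hdual : ∀ a, (R a)ᵀ * bW * R (κ a) = Parity.cyclo E a • bW)
    (hdτ : ∀ h : H, (τ h)ᵀ * b * τ (kk h) = Parity.cyclo E (h : AbsGal K) • b)
    {Φ : Type*} [Fintype Φ] [DecidableEq Φ] {P : Φ → Ideal (𝓞 (AlgebraicClosure K))}
    {W : Φ → Submodule E (Fin n → E)}
    {g : Φ → AbsGal K} (hg : ∀ i x, x ∈ P i ↔ g i • x ∈ P₀)
    (hg' : ∀ a : AbsGal K, ∃! i, ∃ (d : stabD (K := K) P₀) (h : H), a = d * g i * h)
    {e : ∀ i, (stabD (P i)).subgroupOf H →* stabD (K := K) P₀} {t : AbsGal K → stabD (K := K) P₀}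
    {ix : AbsGal K → Φ} {η : AbsGal K → H}
    (hee : ∀ i (x : (stabD (P i)).subgroupOf H),
      (e i x : AbsGal K) = g i * ((x : H) : AbsGal K) * (g i)⁻¹)
    (d : DC (stabD (K := K) P₀).subtype (fun i => ((stabD (P i)).subgroupOf H).subtype) g e t ix η)
    (dt : DCT (stabD (K := K) P₀).subtype (fun i => ((stabD (P i)).subgroupOf H).subtype) e η)
    {t₀ : AbsGal K → AbsGal K} {ix₀ : AbsGal K → Unit} {η₀ : AbsGal K → H}
    (d₀ : DC (MonoidHom.id (AbsGal K)) (fun _ : Unit => MonoidHom.id H)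
      (fun _ => (1 : AbsGal K)) (fun _ => H.subtype) t₀ ix₀ η₀)
    (dt₀ : DCT (MonoidHom.id (AbsGal K)) (fun _ : Unit => MonoidHom.id H) (fun _ => H.subtype) η₀)
    (hinj : ∀ (i : Φ) (x x' : (stabD (P i)).subgroupOf H → Fin n → E),
      Parity.IsCocycle (fun b => τ (((stabD (P i)).subgroupOf H).subtype b)) x →
      Parity.IsCocycle (fun b => (τ.comp kk) (((stabD (P i)).subgroupOf H).subtype b)) x' →
      BEt (fun a : stabD (K := K) P₀ => Parity.cyclo E ((stabD (K := K) P₀).subtype a))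
        (corS (Parity.cyclo E) (stabD (K := K) P₀).subtype ix η i fun h h' =>
        zh (fun i => ((stabD (P i)).subgroupOf H).subtype) i x h ⬝ᵥ
          (b *ᵥ ((τ.comp kk) h *ᵥ
            zh (fun i => ((stabD (P i)).subgroupOf H).subtype) i x' h'))) →
      BEt (fun b : (stabD (P i)).subgroupOf H =>
          Parity.cyclo E ((((stabD (P i)).subgroupOf H).subtype b : H) : AbsGal K)) fun a a' =>
        x a ⬝ᵥ (b *ᵥ ((τ.comp kk) (((stabD (P i)).subgroupOf H).subtype a) *ᵥ x' a')))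
    (hW : ∀ i, ∀ σ ∈ (stabD (P i)).subgroupOf H, ∀ x ∈ W i, τ σ *ᵥ x ∈ W i)
    (hγA : ∀ γ : AbsGal K, (∀ x : 𝓞 (AlgebraicClosure K), x ∈ cj c P₀ ↔ γ • x ∈ P₀) →
      ∀ a, a ∈ stabD P₀ ↔ γ * κ a * γ⁻¹ ∈ stabD P₀)
    (hDat : DatK D s c κ T Q₀ R bW)
    (hSub : SubK c P₀ (cj c P₀) R bW (WInd V (stabD P₀).subtype g W)) :
    (∀ i, perpAt (fun σ : (stabD (P i)).subgroupOf H => Parity.cyclo E ((σ : H) : AbsGal K))
        (fun σ : (stabD (P i)).subgroupOf H => τ (kk σ)) b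
        (Parity.greenbergAt τ ((stabD (P i)).subgroupOf H) (W i)) =
      Parity.greenbergAt (τ.comp kk) ((stabD (P i)).subgroupOf H) (Parity.annih b (W i))) ∧
    ∀ L : ∀ i, Submodule E ((stabD (P i)).subgroupOf H → Fin n → E),
      (∀ i, Parity.Between
        (Parity.coboundaries (fun σ : (stabD (P i)).subgroupOf H => τ σ)) (L i)
        (Parity.cocycles (fun σ : (stabD (P i)).subgroupOf H => τ σ))) →
      (∀ i j (h : H), (∀ x y : 𝓞 (AlgebraicClosure K), (y : AlgebraicClosure K) = g₀ (c x) →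
          (x ∈ P i ↔ (h : AbsGal K) • y ∈ P j)) →
        ∀ k : (stabD (P i)).subgroupOf H → (stabD (P j)).subgroupOf H,
          (∀ σ : (stabD (P i)).subgroupOf H, (k σ : H) = h * kk σ * h⁻¹) →
          ∀ y ∈ Parity.cocycles (fun σ : (stabD (P j)).subgroupOf H => τ σ), y ∈ L j ↔
            Parity.IsPerp (fun σ : (stabD (P i)).subgroupOf H =>
              Parity.cyclo E ((σ : H) : AbsGal K))
              (fun σ : (stabD (P i)).subgroupOf H => τ (kk σ)) b
              (L i : Set ((stabD (P i)).subgroupOf H → Fin n → E)) (fun σ => τ h⁻¹ *ᵥ y (k σ))) →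
      FormB {I : Subgroup H | ∃ J ∈ Parity.inertiaOffTwo K, I = J.subgroupOf H}
        (fun σ : H => Parity.cyclo E (σ : AbsGal K)) kk τ b (fun i => (stabD (P i)).subgroupOf H)
        W (fun i => H.relIndex (stabD (P i))) (D % 8 = 7) (numT D T Q₀ R) L := by
  have X := QX.two_I hK hc hκ
  have hκc : Continuous κ := PA.kappa_continuous hc.sq hκ
  have hgs : ∀ i (a : AbsGal K), a ∈ stabD (P i) ↔ g i * a * (g i)⁻¹ ∈ stabD P₀ :=
    fun i a => stabD_conj (hg i) a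
  have hgr := gr_perp_K hDat hSub
  refine ⟨fun i => gr_pi hκc tw hkc hI hI' hF hτc hRc hχc hχ1 hχ hdual hdτ d dt
    hinj hW hgr i, fun L hL hLc => ?_⟩
  have hRA : Continuous fun a : stabD (K := K) P₀ => R ((stabD (K := K) P₀).subtype a) :=
    hRc.comp continuous_subtype_val
  have hbet := between_LW (L := L) hI d dt hRA (fun i => (hL i).1)
  have hCond : CondK κ P₀ (cj c P₀) R bW (LW (fun a : stabD (K := K) P₀ => R a) V g e L) := by
    refine ⟨hbet, fun γ hγ k hk y hy => ?_⟩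
    exact self_LW hκc tw hkc hI hI' hF hτc hRc hχc hχ1 hχ hdual hdτ hee d dt hinj
      hL (hγA γ hγ) (fun i j h hm => hLc i j h fun x y hxy =>
        rel_of_memT X hκ (hg i) (hg j) hγ hm hxy) k hk y hy
  have hform := par_K hDat hSub hCond
  have hfc : D % 8 = 7 → FiniteDimensional E
      (Parity.cocycles (fun a : stabD (K := K) P₀ => (R.comp κ) a)) := fun hD =>
    (fd_S hDat hSub.prime hSub.two hD).2
  exact main_U hκc tw hkc hI hI' hF hτc hRc hχc hχ1 hχ hdual hdτ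
    (fun I hI a => inertia_conj hI a) hgs hg' hee d dt d₀ dt₀ hinj hW hL hfc hform

open scoped Classical in
theorem final_U (hK : QX.IsI K D s) (hc : PA.IsConj s c)
    (hκ : ∀ (σ : AbsGal K) (x : AlgebraicClosure K), κ σ x = c (σ (c x)))
    {P₀ : Ideal (𝓞 (AlgebraicClosure K))} (hP₀ : P₀.IsPrime)
    (hP2 : (2 : 𝓞 (AlgebraicClosure K)) ∈ P₀) {T : Finset ℕ} (hT : ∀ l ∈ T, l.Prime ∧ l ≠ 2)
    {H : Subgroup (AbsGal K)} (hH : IsOpen (H : Set (AbsGal K))) {g₀ : AbsGal K} {kk : H →* H}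
    (tw : Tw H κ g₀ kk) (hTH : ∀ σ ∈ inT K T, σ ∈ H)
    {E : Type v} [NormedField E] [NormedAlgebra ℚ_[2] E] [FiniteDimensional ℚ_[2] E] {n : ℕ}
    {τ : H →* Matrix (Fin n) (Fin n) E} {b : Matrix (Fin n) (Fin n) E} (hb : b.det ≠ 0)
    (hτc : Continuous τ) (hτu : ∀ σ : H, (σ : AbsGal K) ∈ inT K T → τ σ = 1)
    (hτs : b * τ ⟨g₀ * κ g₀, tw.mem⟩ = Parity.cyclo E g₀ • bᵀ)
    (hdτ : ∀ h : H, (τ h)ᵀ * b * τ (kk h) = Parity.cyclo E (h : AbsGal K) • b)
    (hres : Parity.ResSelfDual τ)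
    {Ψ : ℕ → Type*} [∀ l, Fintype (Ψ l)] {Q : ∀ l, Ψ l → Ideal (𝓞 (AlgebraicClosure K))}
    (hQ : ∀ l ∈ T, GA.Inr D l ∨ l ∣ D →
      IsReps H {Q | Q.IsPrime ∧ (l : 𝓞 (AlgebraicClosure K)) ∈ Q} (Q l))
    (hI : ∀ l ∈ T, GA.Inr D l → (n = 2 ∧ H = ⊤) ∨
      ∀ i, CommInd ((Q l i).inertia (AbsGal K)) τ)
    (hR : ∀ l ∈ T, l ∣ D → ∀ i, (Q l i).inertia (AbsGal K) ≤ H ∧
      Parity.SemistableOn (((Q l i).inertia (AbsGal K)).subgroupOf H) τ)
    {Φ : Type*} [Fintype Φ] {P : Φ → Ideal (𝓞 (AlgebraicClosure K))} (hP : ∀ i, (P i).IsPrime)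
    (hPu : ∀ i, (P i).comap (algebraMap (𝓞 K) (𝓞 (AlgebraicClosure K))) =
      P₀.comap (algebraMap (𝓞 K) (𝓞 (AlgebraicClosure K))))
    (hrep : ∀ Q : Ideal (𝓞 (AlgebraicClosure K)), Q.IsPrime →
      Q.comap (algebraMap (𝓞 K) (𝓞 (AlgebraicClosure K))) =
        P₀.comap (algebraMap (𝓞 K) (𝓞 (AlgebraicClosure K))) →
      ∃! i, ∃ h ∈ H, ∀ x, x ∈ P i ↔ h • x ∈ Q)
    {W : Φ → Submodule E (Fin n → E)}
    (hW : ∀ i, ∀ σ ∈ (stabD (P i)).subgroupOf H, ∀ x ∈ W i, τ σ *ᵥ x ∈ W i)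
    (hWc : ∀ i j (h : H), (∀ x y : 𝓞 (AlgebraicClosure K), (y : AlgebraicClosure K) = g₀ (c x) →
        (x ∈ P i ↔ (h : AbsGal K) • y ∈ P j)) →
      ∀ y, y ∈ Parity.annih b (W i) ↔ τ h *ᵥ y ∈ W j) :
    (∀ i, perpAt (fun σ : (stabD (P i)).subgroupOf H => Parity.cyclo E ((σ : H) : AbsGal K))
        (fun σ : (stabD (P i)).subgroupOf H => τ (kk σ)) b
        (Parity.greenbergAt τ ((stabD (P i)).subgroupOf H) (W i)) =
      Parity.greenbergAt (τ.comp kk) ((stabD (P i)).subgroupOf H) (Parity.annih b (W i))) ∧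
    ∀ L : ∀ i, Submodule E ((stabD (P i)).subgroupOf H → Fin n → E),
      (∀ i, Parity.Between
        (Parity.coboundaries (fun σ : (stabD (P i)).subgroupOf H => τ σ)) (L i)
        (Parity.cocycles (fun σ : (stabD (P i)).subgroupOf H => τ σ))) →
      (∀ i j (h : H), (∀ x y : 𝓞 (AlgebraicClosure K), (y : AlgebraicClosure K) = g₀ (c x) →
          (x ∈ P i ↔ (h : AbsGal K) • y ∈ P j)) →
        ∀ k : (stabD (P i)).subgroupOf H → (stabD (P j)).subgroupOf H,
          (∀ σ : (stabD (P i)).subgroupOf H, (k σ : H) = h * kk σ * h⁻¹) →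
          ∀ y ∈ Parity.cocycles (fun σ : (stabD (P j)).subgroupOf H => τ σ), y ∈ L j ↔
            Parity.IsPerp (fun σ : (stabD (P i)).subgroupOf H =>
              Parity.cyclo E ((σ : H) : AbsGal K))
              (fun σ : (stabD (P i)).subgroupOf H => τ (kk σ)) b
              (L i : Set ((stabD (P i)).subgroupOf H → Fin n → E)) (fun σ => τ h⁻¹ *ᵥ y (k σ))) →
      FormB {I : Subgroup H | ∃ J ∈ Parity.inertiaOffTwo K, I = J.subgroupOf H}
        (fun σ : H => Parity.cyclo E (σ : AbsGal K)) kk τ b (fun i => (stabD (P i)).subgroupOf H)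
        W (fun i => H.relIndex (stabD (P i))) (D % 8 = 7)
        (∑ l ∈ T.filter (GA.Inr D), condF H τ (fun i => stabD (Q l i))
            (fun i => (Q l i).inertia (AbsGal K)) +
          ∑ l ∈ T.filter (fun l => l ∣ D), condR H τ (fun i => stabD (Q l i))
            (fun i => (Q l i).inertia (AbsGal K))) L := by
  have X := QX.two_I hK hc hκ
  have hκκ : ∀ g, κ (κ g) = g := GA.kap_kap hc hκ
  have hκc : Continuous κ := PA.kappa_continuous hc.sq hκ
  have hfin : Finite (AbsGal K ⧸ H) := Subgroup.quotient_finite_of_isOpen H hH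
  let _ : Fintype (AbsGal K ⧸ H) := Fintype.ofFinite _
  obtain ⟨m, ⟨en⟩⟩ := Finite.exists_equiv_fin ((AbsGal K ⧸ H) × Fin n)
  obtain ⟨r⟩ : Nonempty (Rep H n m) := ⟨⟨fun x => x.out, fun x => QuotientGroup.out_eq' x, en⟩⟩
  have hcyc := (PA.isInvol (K := K) (c := c) (fun x => hc.sq x) hκ).chi
  have hE : ∀ g : AbsGal K, Parity.cyclo E g = toE E (cyc g) := fun _ => rfl
  have hχ1 : Parity.cyclo E (1 : AbsGal K) = 1 := by
    rw [hE, PA.isChar_cyc.one]
    show (LB.toEh E) 1 = 1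
    exact map_one _
  have hχ : ∀ a a' : AbsGal K, Parity.cyclo E (a * a') = Parity.cyclo E a * Parity.cyclo E a' := by
    intro a a'
    rw [hE, hE, hE, PA.isChar_cyc.mul]
    exact map_mul (LB.toEh E) _ _
  have hχκ : ∀ a : AbsGal K, Parity.cyclo E (κ a) = Parity.cyclo E a := by
    intro a
    rw [hE, hE, hcyc]
  have hχc : Continuous (Parity.cyclo E : AbsGal K → E) := LB.toE_cont LB.cyc_cont
  have hkc : Continuous kk := by
    refine continuous_induced_rng.2 ?_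
    have e1 : ((fun x : H => (x : AbsGal K)) ∘ kk) = fun h : H => g₀ * κ (h : AbsGal K) * g₀⁻¹ :=
      funext fun h => tw.coe h
    rw [e1]
    exact (continuous_const.mul (hκc.comp continuous_subtype_val)).mul continuous_const
  have hdual : Parity.IsDualRep (inT K T) (Parity.cyclo E) κ (indR r τ)
      (indT r κ g₀ (Parity.cyclo E) b τ) :=
    isDualRep_indT hH tw hχ1 hχ hχκ (fun σ hσ a => (GP.baseT K T).conj a σ hσ) hTH hτc hτu hτs hdτ
  have hF := indForm_ind (r := r) tw hχ1 hχ hdτ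
  have hInd : IsInd τ (indR r τ) (indV r τ) := isInd_ind r τ
  have hInd' : IsInd (τ.comp kk) ((indR r τ).comp κ) (valT κ g₀ (indV r τ)) := isInd_kap hInd tw
  have hdet : (indT r κ g₀ (Parity.cyclo E) b τ).det ≠ 0 :=
    indForm_det hF hInd hInd' hχ1 hχ hb
  have hm : m = n * H.index := by
    have h1 := Nat.card_congr en
    rw [Nat.card_prod, Nat.card_fin, Nat.card_fin, mul_comm] at h1
    exact h1.symm
  -- the residual representation
  have hcmp : CompactSpace H := isCompact_iff_compactSpace.1 (H.isClosed_of_isOpen hH).isCompact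
  obtain ⟨B, hB⟩ := bdd hτc
  have hresW : Parity.ResSelfDual (indR r τ) := resSelfDual_ind r hB hres
  -- primes over the elements of `T`
  have hR0 : ∀ p : ℕ, ∃ Q : Ideal (𝓞 (AlgebraicClosure K)), p.Prime →
      Q.IsPrime ∧ (p : 𝓞 (AlgebraicClosure K)) ∈ Q := by
    intro p
    by_cases hp : p.Prime
    · obtain ⟨Q, hQ⟩ := HP.prime_over_nat (Ω := AlgebraicClosure K) hp
      exact ⟨Q, fun _ => hQ⟩
    · exact ⟨⊥, fun h => absurd h hp⟩
  choose Q₀ hQ₀ using hR0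
  have hQT : ∀ l ∈ T, (Q₀ l).IsPrime ∧ (l : 𝓞 (AlgebraicClosure K)) ∈ Q₀ l :=
    fun l hl => hQ₀ l (hT l hl).1
  have hex : ∀ l ∈ T, GA.Inr D l ∨ l ∣ D → ∃ g : Ψ l → AbsGal K,
      (∀ i x, x ∈ Q l i ↔ g i • x ∈ Q₀ l) ∧
      ∀ a : AbsGal K, ∃! i, ∃ (d : stabD (Q₀ l)) (h : H), a = d * g i * h := by
    intro l hl hli
    obtain ⟨q1, q2⟩ := hQ l hl hli
    refine exists_reps' (hQT l hl).1 (fun i => (q1 i).1) (fun i => ?_) (fun Q' hQ' h => ?_)
    · exact SG.comap_nonspl hK hc X (hT l hl).1 hli (q1 i).1 (hQT l hl).1 (q1 i).2 (hQT l hl).2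
    · exact q2 Q' ⟨hQ', comap_of_rep h (hQT l hl).2⟩
  have hI' : ∀ l ∈ T, GA.Inr D l →
      Parity.CommOn ((Q₀ l).inertia (AbsGal K)) (indR r τ) ∨ m = 2 := by
    intro l hl hli
    obtain ⟨g, hg, hg'⟩ := hex l hl (Or.inl hli)
    rcases hI l hl hli with ⟨h, h'⟩ | h
    · right
      rw [hm, h, h', Subgroup.index_top]
    · exact Or.inl (comm_dc hInd ((comm_reps (iner_nor (Q₀ l)) (fun i a => iner_conj (hg i) a)
        hg').2 h))
  have hRS : ∀ l ∈ T, l ∣ D → (∀ σ ∈ (Q₀ l).inertia (AbsGal K), ∀ a, a⁻¹ * σ * a ∈ H) ∧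
      Parity.SemistableOn ((Q₀ l).inertia (AbsGal K)) (indR r τ) := by
    intro l hl hli
    obtain ⟨g, hg, hg'⟩ := hex l hl (Or.inr hli)
    exact semi_ind hInd (iner_nor (Q₀ l)) (fun i a => iner_conj (hg i) a) hg' (hR l hl hli)
  have hDat : DatK D s c κ T Q₀ (indR r τ) (indT r κ g₀ (Parity.cyclo E) b τ) :=
    ⟨hK, hc, hκ, hT, hQT, hdet, hdual, hresW, hI', fun l hl hli => (hRS l hl hli).2⟩
  -- the primes over 2
  obtain ⟨g, hg, hg'⟩ := exists_reps' hP₀ hP hPu hrep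
  have hgs : ∀ i (a : AbsGal K), a ∈ stabD (P i) ↔ g i * a * (g i)⁻¹ ∈ stabD P₀ :=
    fun i a => stabD_conj (hg i) a
  obtain ⟨e, hee⟩ : ∃ e : ∀ i, (stabD (P i)).subgroupOf H →* stabD (K := K) P₀,
      ∀ i (x : (stabD (P i)).subgroupOf H),
        (e i x : AbsGal K) = g i * ((x : H) : AbsGal K) * (g i)⁻¹ :=
    ⟨fun i => (((MulAut.conj (g i)).toMonoidHom.comp H.subtype).comp
      ((stabD (P i)).subgroupOf H).subtype).codRestrict (stabD P₀) (fun b => (hgs i _).1 b.2),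
      fun i x => rfl⟩
  obtain ⟨t, ix, η, d⟩ := exists_dc (j := (stabD P₀).subtype)
    (q := fun i => ((stabD (P i)).subgroupOf H).subtype) (g := g) (e := e)
    (Subgroup.subtype_injective (stabD P₀)) (fun i => Subgroup.subtype_injective _)
    (fun i b => hee i b)
    (fun i h x hx => ⟨⟨h, (hgs i _).2 (by
      have h0 : (x : AbsGal K) = g i * h * (g i)⁻¹ := hx
      show g i * (h : AbsGal K) * (g i)⁻¹ ∈ stabD P₀
      rw [← h0]
      exact x.2)⟩, rfl⟩)
    (fun a => hg' a)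
  have dt : DCT (stabD P₀).subtype (fun i => ((stabD (P i)).subgroupOf H).subtype) e η :=
    ⟨continuous_subtype_val, fun i => Topology.IsInducing.subtypeVal, fun i => by
      refine continuous_induced_rng.2 ?_
      have e1 : ((fun x : stabD (K := K) P₀ => (x : AbsGal K)) ∘ e i) =
          fun x : (stabD (P i)).subgroupOf H => g i * ((x : H) : AbsGal K) * (g i)⁻¹ :=
        funext fun x => hee i x
      rw [e1]
      exact (continuous_const.mul
        (continuous_subtype_val.comp continuous_subtype_val)).mul continuous_const,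
      d.continuous_eta hH⟩
  obtain ⟨t₀, ix₀, η₀, d₀⟩ := exists_dc_glob H
  have dt₀ : DCT (MonoidHom.id (AbsGal K)) (fun _ : Unit => MonoidHom.id H)
      (fun _ => H.subtype) η₀ :=
    ⟨continuous_id, fun _ => Topology.IsInducing.id, fun _ => continuous_subtype_val,
      d₀.continuous_eta hH⟩
  have hWq : ∀ i (b : (stabD (P i)).subgroupOf H), ∀ x ∈ W i,
      τ (((stabD (P i)).subgroupOf H).subtype b) *ᵥ x ∈ W i := fun i b x hx => hW i b b.2 x hx
  have hPP : ∀ x y : 𝓞 (AlgebraicClosure K), (y : AlgebraicClosure K) = c x →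
      (y ∈ cj c P₀ ↔ x ∈ P₀) := by
    intro x y hxy
    have hci : c⁻¹ = c := inv_eq_of_mul_eq_one_left X.cc
    rw [mem_cj, hci]
    have h1 : HP.og c y = x := by
      apply RingOfIntegers.ext
      rw [HP.og_coe, hxy]
      exact hc.sq _
    rw [h1]
  have hγA : ∀ γ : AbsGal K, (∀ x : 𝓞 (AlgebraicClosure K), x ∈ cj c P₀ ↔ γ • x ∈ P₀) →
      ∀ a, a ∈ stabD P₀ ↔ γ * κ a * γ⁻¹ ∈ stabD P₀ := by
    intro γ hγ a
    have h0 : KS.iK K γ * c ∈ HP.stb P₀ := (OV.swap_iff X γ).2 hγ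
    have h1 := OV.mem_stabD_conj X h0 (κ a)
    have h2 := OV.mem_stabD_cj (P := P₀) X (κ a)
    rw [hκκ] at h2
    rw [← h1, h2]
  have hSub : SubK c P₀ (cj c P₀) (indR r τ) (indT r κ g₀ (Parity.cyclo E) b τ)
      (WInd (indV r τ) (stabD P₀).subtype g W) := by
    refine ⟨hP₀, hP2, hPP, fun σ hσ x hx =>
      SG.wind_st (j := (stabD P₀).subtype) hInd ⟨σ, hσ⟩ hx, fun γ hγ y => ?_⟩
    exact annih_swapT hInd hInd' d tw hF hχ1 hχ hdτ hWq (hγA γ hγ)
      (fun i j h hm => hWc i j h fun x y hxy => rel_of_memT X hκ (hg i) (hg j) hγ hm hxy) y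
  have hinj : ∀ (i : Φ) (x x' : (stabD (P i)).subgroupOf H → Fin n → E),
      Parity.IsCocycle (fun b => τ (((stabD (P i)).subgroupOf H).subtype b)) x →
      Parity.IsCocycle (fun b => (τ.comp kk) (((stabD (P i)).subgroupOf H).subtype b)) x' →
      BEt (fun a : stabD (K := K) P₀ => Parity.cyclo E ((stabD (K := K) P₀).subtype a))
        (corS (Parity.cyclo E) (stabD (K := K) P₀).subtype ix η i fun h h' =>
        zh (fun i => ((stabD (P i)).subgroupOf H).subtype) i x h ⬝ᵥ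
          (b *ᵥ ((τ.comp kk) h *ᵥ
            zh (fun i => ((stabD (P i)).subgroupOf H).subtype) i x' h'))) →
      BEt (fun b : (stabD (P i)).subgroupOf H =>
          Parity.cyclo E ((((stabD (P i)).subgroupOf H).subtype b : H) : AbsGal K)) fun a a' =>
        x a ⬝ᵥ (b *ᵥ ((τ.comp kk) (((stabD (P i)).subgroupOf H).subtype a) *ᵥ x' a')) :=
    fun i x x' hx hx' hcc =>
      hinj_I hK hc hκ hP₀ hP2 hH tw hT hTH hb hτc hτu hτs hdτ hgs hee d dt i x x' hx hx' hcc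
  have hcore := core_U hK hc hκ tw hkc hInd hInd' hF hτc hdual.cont hχc hχ1 hχ hdual.dual hdτ hg
    hg' hee d dt d₀ dt₀ hinj hW hγA hDat hSub
  have hme : Even m := by
    by_cases hD : D % 8 = 7
    · exact SF.even_dim ⟨hK.deg, hK.sq, hK.sqf, hD⟩ hc hκ hT hQT hdet hdual hDat.ram
    · obtain ⟨γ, h0⟩ := QX.exists_swap2 hK hc hD hP₀ hP2
      have h1 := hSub.ann γ ((OV.swap_iff X γ).1 h0)
      have h2 := OV.two_finrank hdet h1
      exact ⟨_, by rw [← h2, two_mul]⟩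
  refine ⟨hcore.1, fun L hL hLc => (hcore.2 L hL hLc).congr ?_⟩
  refine Nat.ModEq.add ?_ ?_
  · -- the inert primes
    have key : ∀ l ∈ T.filter (GA.Inr D), Parity.condExp ((Q₀ l).inertia (AbsGal K)) (indR r τ) ≡
        condF H τ (fun i => stabD (Q l i)) (fun i => (Q l i).inertia (AbsGal K)) [MOD 2] := by
      intro l hl
      obtain ⟨hlT, hli⟩ := Finset.mem_filter.1 hl
      obtain ⟨g, hg, hg'⟩ := hex l hlT (Or.inl hli)
      have e1 := fix_cs hInd (iner_nor (Q₀ l)) (iner_le (Q₀ l)) (fun i a => stabD_conj (hg i) a)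
        (fun i a => iner_conj (hg i) a) hg'
      have e2 : Parity.CommOn ((Q₀ l).inertia (AbsGal K)) (indR r τ) ↔
          ∀ i, CommInd ((Q l i).inertia (AbsGal K)) τ := by
        have e3 := comm_reps (τ := τ) (iner_nor (Q₀ l)) (fun i a => iner_conj (hg i) a) hg'
        rw [← e3]
        refine ⟨fun h => ?_, comm_dc hInd⟩
        rcases hI l hlT hli with ⟨h0, -⟩ | h0
        · exact comm_of_comm hInd (by omega) h
        · exact e3.2 h0
      unfold Parity.condExp condF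
      rw [e1]
      refine Nat.ModEq.add ?_ ?_
      · refine modEq_fix hme ?_
        rw [← e1]
        exact (Submodule.finrank_le _).trans_eq (by rw [Module.finrank_fin_fun])
      · by_cases h : Parity.CommOn ((Q₀ l).inertia (AbsGal K)) (indR r τ)
        · rw [if_pos h, if_pos (e2.1 h)]
        · rw [if_neg h, if_neg (fun h' => h (e2.2 h'))]
    exact modEq_sum key
  · rw [Finset.sum_congr rfl fun l hl => ?_]
    obtain ⟨hlT, hli⟩ := Finset.mem_filter.1 hl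
    obtain ⟨g, hg, hg'⟩ := hex l hlT (Or.inr hli)
    exact quotDim_ind hInd (iner_le (Q₀ l)) (iner_nor (Q₀ l)) (fun i a => stabD_conj (hg i) a)
      (fun i a => iner_conj (hg i) a) hg' (hRS l hlT hli).1

end quad

end Pool.Agent.Work.MP_787500_nt.UV
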