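import Mathlib
import Pool.Agent.Work.MP_787500_nt.UV.FDefs
import Pool.Agent.Work.MP_787500_nt.UV.Defs
import Pool.Agent.Work.MP_787500_nt.UV.KeyB
import Pool.Agent.Work.MP_787500_nt.UV.Transp

/-!
From the formula for the indices with property `V` to the formula for all indices.
-/

set_option autoImplicit false
set_option linter.unusedSectionVars false

namespace Pool.Agent.Work.MP_787500_nt.UV

open Matrix

variable {H : Type*} [Group H] [TopologicalSpace H] [IsTopologicalGroup H] {E : Type*}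
  [NormedField E] {n : ℕ} {τ : H →* Matrix (Fin n) (Fin n) E} {kk : H →* H} {kk' : H → H}
  {χ : H → E} {b : Matrix (Fin n) (Fin n) E}

theorem gr_between (hτc : Continuous τ) (D : Subgroup H) (W : Submodule E (Fin n → E)) :
    Parity.Between (Parity.coboundaries (fun σ : D => τ σ)) (Parity.greenbergAt τ D W)
      (Parity.cocycles (fun σ : D => τ σ)) := by
  refine ⟨fun x hx => ?_, fun x hx => hx.1⟩
  have hB : ∀ s t : D, τ (s * t : D) = τ s * τ t := fun s t => map_mul τ (s : H) t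
  have hc := cob_coc hB (hτc.comp continuous_subtype_val) hx
  obtain ⟨v, hv⟩ := hx
  refine ⟨hc, v, fun σ => ?_⟩
  rw [hv σ, sub_self]
  exact W.zero_mem

/-- a continuous cocycle of the group at `j` and at `i`, for related `i`, `j` -/
theorem mem_iff_perp {Φ : Type*} {D : Φ → Subgroup H} {rel : Φ → Φ → H → Prop}
    (hτc : Continuous τ) (hkc : Continuous kk) (hdτ : ∀ h : H, (τ h)ᵀ * b * τ (kk h) = χ h • b)
    (hrD : ∀ i j h, rel i j h → ∀ a, a ∈ D i ↔ h * kk a * h⁻¹ ∈ D j)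
    {L : ∀ i, Submodule E (D i → Fin n → E)} (hL : IsDualFam χ kk τ b D rel L) {i j : Φ} {h : H}
    (hr : rel i j h) {x : H → Fin n → E} (hx : Parity.IsCocycle τ x) :
    (fun σ : D j => x σ) ∈ L j ↔
      Parity.IsPerp (fun σ : D i => χ σ) (fun σ : D i => τ (kk σ)) b
        (L i : Set (D i → Fin n → E)) (fun σ : D i => x (kk σ)) := by
  have hxj : Parity.IsCocycle (fun σ : D j => τ σ) (fun σ : D j => x σ) :=
    ⟨hx.1.comp continuous_subtype_val, fun s t => hx.2 s t⟩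
  rw [hL.dual i j h hr (fun σ => ⟨h * kk σ * h⁻¹, (hrD i j h hr σ).1 σ.2⟩) (fun _ => rfl) _ hxj]
  obtain ⟨w, hw⟩ := tr_glob (τ := τ) (kk := kk) (h := h) (D := D i) (D' := D j)
    (k := fun σ => ⟨h * kk σ * h⁻¹, (hrD i j h hr σ).1 σ.2⟩) (fun _ => rfl) hx.2
  have hcob : (fun σ : D i => τ (kk σ) *ᵥ w - w) ∈
      Parity.coboundaries (fun σ : D i => τ (kk σ)) := ⟨w, fun _ => rfl⟩
  have hp := perp_cobR (χ := fun σ : D i => χ σ) (A := fun σ : D i => τ σ)
    (B := fun σ : D i => τ (kk σ)) (b := b)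
    (fun s t => by
      show τ (kk ((s * t : D i) : H)) = τ (kk s) * τ (kk t)
      rw [Subgroup.coe_mul, map_mul, map_mul])
    (hτc.comp (hkc.comp continuous_subtype_val)) (fun σ => hdτ σ) (hL.between i).2 hcob
  have he : tr τ h (fun σ : D i => (⟨h * kk σ * h⁻¹, (hrD i j h hr σ).1 σ.2⟩ : D j))
      (fun σ : D j => x σ) = (fun σ : D i => x (kk σ)) + (fun σ : D i => τ (kk σ) *ᵥ w - w) :=
    funext hw
  have h1 := perp_iff (y := fun σ : D i => x (kk σ)) hp
  rw [← he] at h1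
  exact h1

theorem perp_le {D : Subgroup H} {L : Submodule E (D → Fin n → E)} :
    perpAt (fun σ : D => χ σ) (fun σ : D => τ (kk σ)) b L ≤
      Parity.cocycles (fun σ : D => τ (kk σ)) := fun _ hy => hy.1

open scoped Classical in
theorem comb {N : Set (Subgroup H)} (hτc : Continuous τ) (hkc : Continuous kk)
    (hkc' : Continuous kk') (h1 : ∀ a, kk' (kk a) = a) (h2 : ∀ a, kk (kk' a) = a)
    (hdτ : ∀ h : H, (τ h)ᵀ * b * τ (kk h) = χ h • b)
    {Φ : Type*} [Fintype Φ] {D : Φ → Subgroup H} {rel : Φ → Φ → H → Prop} {V : Φ → Prop}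
    {s : Prop} (hrD : ∀ i j h, rel i j h → ∀ a, a ∈ D i ↔ h * kk a * h⁻¹ ∈ D j)
    (hex : ∀ i, ∃ j h, rel i j h)
    (hπ : s → ∃ (π : {i // V i} ≃ {i // ¬ V i}) (h : {i // V i} → H),
      ∀ i : {i // V i}, rel i (π i) (h i))
    (hns : ¬ s → ∀ i, V i) {W : Φ → Submodule E (Fin n → E)} (hW : IsDualSub τ b D rel W)
    (hgr : ∀ i, perpAt (fun σ : D i => χ σ) (fun σ : D i => τ (kk σ)) b
        (Parity.greenbergAt τ (D i) (W i)) =
      Parity.greenbergAt (τ.comp kk) (D i) (Parity.annih b (W i))) {f : Φ → ℕ} {a : ℕ}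
    (hfd : ∀ L : ∀ i, Submodule E (D i → Fin n → E), IsDualFam χ kk τ b D rel L →
      ∀ i, FiniteDimensional E (L i))
    (hform : ∀ L : ∀ i, Submodule E (D i → Fin n → E), IsDualFam χ kk τ b D rel L →
      FormB N χ kk τ b (fun i : {i // V i} => D i) (fun i => W i) (fun i => f i) s a
        (fun i => L i)) :
    ParityDual N χ kk τ b D rel W (fun i => if V i then f i else 0) a := by
  have hcc : ∀ i, ∀ y, y ∈ perpAt (fun σ : D i => χ σ) (fun σ : D i => τ (kk σ)) b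
      (Parity.greenbergAt τ (D i) (W i)) ↔
      y ∈ Parity.greenbergAt (τ.comp kk) (D i) (Parity.annih b (W i)) := fun i y => by rw [hgr i]
  refine ⟨⟨fun i => gr_between hτc _ _, fun i j h hr k hk y hy => ?_⟩, fun L hL => ?_⟩
  · rw [tr_gr hkc h1 h2 (hrD i j h hr) hk (hW.dual i j h hr) hy]
    exact (hcc i _).symm
  obtain ⟨-, hf2, hf3, hf4⟩ := hform L hL
  have hsel : SH.selFam N χ kk τ b (fun i : {i // V i} => D i) (fun i => L i) =
      selmerFam N τ D L := by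
    ext x
    constructor
    · rintro ⟨hx1, hx2, hx3⟩
      refine ⟨hx1, hx2, fun i => ?_⟩
      by_cases hi : V i
      · exact (hx3 ⟨i, hi⟩).1
      · have hs : s := by
          by_contra hs
          exact hi (hns hs i)
        obtain ⟨π, h, hh⟩ := hπ hs
        have hi' : ((π (π.symm ⟨i, hi⟩)) : Φ) = i := by rw [Equiv.apply_symm_apply]
        have hr := hh (π.symm ⟨i, hi⟩)
        rw [hi'] at hr
        exact (mem_iff_perp hτc hkc hdτ hrD hL hr hx1).2 (hx3 (π.symm ⟨i, hi⟩)).2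
    · rintro ⟨hx1, hx2, hx3⟩
      refine ⟨hx1, hx2, fun i => ⟨hx3 i, ?_⟩⟩
      obtain ⟨j, h, hr⟩ := hex i
      exact (mem_iff_perp hτc hkc hdτ hrD hL hr hx1).1 (hx3 j)
  rw [hsel] at hf2 hf3 hf4
  refine ⟨hfd L hL, hf2, hf3, hf4.trans ?_⟩
  refine Nat.ModEq.add_right _ ?_
  have hsum : ∀ F : Φ → ℕ, ∑ i, F i = ∑ i : {i // V i}, F i + ∑ i : {i // ¬ V i}, F i :=
    fun F => (Fintype.sum_subtype_add_sum_subtype V F).symm
  rw [hsum]
  by_cases hs : s
  · obtain ⟨π, h, hh⟩ := hπ hs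
    rw [← Equiv.sum_comp π, ← Finset.sum_add_distrib]
    refine (congrArg (· % 2) ?_ : (_ : ℕ) % 2 = _ % 2)
    refine Finset.sum_congr rfl fun i _ => ?_
    have hr := hh i
    have hU : ∀ x, x ∈ Parity.annih b (W i) ↔ τ (h i) *ᵥ x ∈ W (π i) := hW.dual _ _ _ hr
    have e1 := tr_fix h1 h2 (hrD _ _ _ hr) hU
    have hk : ∀ σ : D i, (((⟨h i * kk σ * (h i)⁻¹, (hrD i (π i) (h i) hr σ).1 σ.2⟩ :
        D (π i)) : H)) = h i * kk σ * (h i)⁻¹ := fun _ => rfl
    have hMM : ∀ y, Parity.IsCocycle (fun σ : D (π i) => τ σ) y → (y ∈ L (π i) ↔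
        tr τ (h i) (fun σ : D i => (⟨h i * kk σ * (h i)⁻¹, (hrD i (π i) (h i) hr σ).1 σ.2⟩ :
          D (π i))) y ∈ perpAt (fun σ : D i => χ σ) (fun σ : D i => τ (kk σ)) b (L i)) :=
      fun y hy => hL.dual _ _ _ hr _ hk y hy
    have hGG : ∀ y, Parity.IsCocycle (fun σ : D (π i) => τ σ) y →
        (y ∈ Parity.greenbergAt τ (D (π i)) (W (π i)) ↔
        tr τ (h i) (fun σ : D i => (⟨h i * kk σ * (h i)⁻¹, (hrD i (π i) (h i) hr σ).1 σ.2⟩ :
          D (π i))) y ∈ Parity.greenbergAt (τ.comp kk) (D i) (Parity.annih b (W i))) :=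
      fun y hy => tr_gr hkc h1 h2 (hrD _ _ _ hr) hk hU hy
    have e2 := tr_dim (M' := L (π i)) (N' := L (π i) ⊓ Parity.greenbergAt τ (D (π i)) (W (π i)))
      (M := perpAt (fun σ : D i => χ σ) (fun σ : D i => τ (kk σ)) b (L i))
      (N := perpAt (fun σ : D i => χ σ) (fun σ : D i => τ (kk σ)) b (L i) ⊓
        Parity.greenbergAt (τ.comp kk) (D i) (Parity.annih b (W i)))
      hkc hkc' h1 h2 (hrD _ _ _ hr) hk (hL.between _).2
      (inf_le_left.trans (hL.between _).2) perp_le (inf_le_left.trans perp_le) hMM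
      (fun y hy => and_congr (hMM y hy) (hGG y hy))
    beta_reduce
    rw [if_pos hs, if_pos i.2, if_neg (π i).2, zero_mul, zero_add, e1, e2]
  · have hemp : IsEmpty {i // ¬ V i} := ⟨fun i => i.2 (hns hs i)⟩
    rw [Fintype.sum_empty (fun i : {i // ¬ V i} => _), add_zero]
    refine (congrArg (· % 2) ?_ : (_ : ℕ) % 2 = _ % 2)
    refine Finset.sum_congr rfl fun i _ => ?_
    beta_reduce
    rw [if_neg hs, if_pos i.2, add_zero]

end Pool.Agent.Work.MP_787500_nt.UV
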