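import Mathlib
import Pool.Agent.Work.MP_787500_nt.SF.TowerF
import Pool.Agent.Work.MP_787500_nt.SG.Tower

/-!
# Module UV/TwI (size S): a complex conjugation

PROOF. The proof of `SF.exists_tw` (SF/TowerF.lean) with `SG.exists_kapI` (SG/Tower.lean) instead of `exists_kap`, and with `(QX.two_I hK hc₀ hκ₀).cases` (QX/Two.lean, QS.Two)
instead of `iK_cases hK hc₀`. `0 < D` because `D` is squarefree.
-/

set_option autoImplicit false
set_option linter.unusedSectionVars false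

namespace Pool.Agent.Work.MP_787500_nt.UV

open Matrix NumberField
open Pool.Agent.Work.MP_787500_nt.SH
open Pool.Agent.Work.MP_787500_nt.SF (Tw)
open Pool.Agent.Work.MP_787500_nt.KS (iK)
open Pool.Agent.Work.MP_787500_nt.PA (cyc toE)
open Pool.Agent.Work.MP_787500_nt.HP (cyQ)

universe u

theorem exists_twI {K : Type u} [Field K] [NumberField K] {D : ℕ} {s : K} (hK : QX.IsI K D s)
    {c : AlgebraicClosure K ≃+* AlgebraicClosure K}
    (hcs : c (algebraMap K (AlgebraicClosure K) s) = -algebraMap K (AlgebraicClosure K) s)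
    {H : Subgroup (AbsGal K)} {κ : H → H}
    (hκ : ∀ (σ : H) (x : AlgebraicClosure K), (κ σ : AbsGal K) (c x) = c ((σ : AbsGal K) x))
    {c₂ : H} (hc₂ : ∀ x : AlgebraicClosure K, (c₂ : AbsGal K) x = c (c x)) :
    ∃ (c₀ : AlgebraicClosure K ≃+* AlgebraicClosure K) (κ₀ : AbsGal K →* AbsGal K) (g₀ : AbsGal K)
      (kk : H →* H), PA.IsConj s c₀ ∧ (∀ (σ : AbsGal K) (x : AlgebraicClosure K),
        κ₀ σ x = c₀ (σ (c₀ x))) ∧ Tw H κ₀ g₀ kk ∧ (kk : H → H) = κ ∧
        (c₂ : AbsGal K) = g₀ * κ₀ g₀ ∧ cyQ c = -cyc g₀ ∧ ∀ x, c x = g₀ (c₀ x) := by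
  have hDpos : 0 < D := Nat.pos_of_ne_zero hK.sqf.ne_zero
  obtain ⟨c₀, hc₀⟩ := SF.exists_conj hDpos hK.sq
  obtain ⟨κ₀, hκ₀⟩ := SG.exists_kapI hK hc₀
  have hs0 : algebraMap K (AlgebraicClosure K) s ≠ -algebraMap K (AlgebraicClosure K) s := by
    have hz : CharZero (AlgebraicClosure K) := charZero_of_injective_algebraMap
      (FaithfulSMul.algebraMap_injective K (AlgebraicClosure K))
    intro h
    have h1 : algebraMap K (AlgebraicClosure K) s = 0 := by
      have h2 : (2 : AlgebraicClosure K) * algebraMap K (AlgebraicClosure K) s = 0 := by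
        linear_combination h
      exact (mul_eq_zero.1 h2).resolve_left two_ne_zero
    have h2 : s = 0 := by
      apply FaithfulSMul.algebraMap_injective K (AlgebraicClosure K)
      rw [h1, map_zero]
    have h3 := hK.sq
    rw [h2] at h3
    have h4 : (D : K) = 0 := by
      have : (0 : K) ^ 2 = 0 := by norm_num
      rw [this] at h3
      exact neg_eq_zero.1 h3.symm
    exact hDpos.ne' (by exact_mod_cast h4)
  obtain ⟨g₀, hg₀⟩ : ∃ g₀ : AbsGal K, c = iK K g₀ * c₀ := by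
    rcases (QX.two_I hK hc₀ hκ₀).cases c with ⟨g, hg⟩ | ⟨g, hg⟩
    · exfalso
      apply hs0
      have h1 : c (algebraMap K (AlgebraicClosure K) s) = algebraMap K (AlgebraicClosure K) s := by
        rw [← hg]
        exact g.commutes s
      rw [← hcs, h1]
    · exact ⟨g, hg.symm⟩
  have hcx : ∀ x, c x = g₀ (c₀ x) := fun x => by
    rw [hg₀]
    rfl
  have hinj : ∀ g g' : AbsGal K, (∀ x, g (c x) = g' (c x)) → g = g' := by
    intro g g' h
    ext y
    have h1 := h (c.symm y)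
    rwa [RingEquiv.apply_symm_apply] at h1
  -- the homomorphism
  have hκm : ∀ a a' : H, κ (a * a') = κ a * κ a' := by
    intro a a'
    apply Subtype.ext
    apply hinj
    intro x
    rw [hκ, Subgroup.coe_mul, Subgroup.coe_mul, AlgEquiv.mul_apply, AlgEquiv.mul_apply, hκ, hκ]
  have hcoe : ∀ h : H, (κ h : AbsGal K) = g₀ * κ₀ h * g₀⁻¹ := by
    intro h
    apply hinj
    intro x
    rw [hκ, hcx x, AlgEquiv.mul_apply, AlgEquiv.mul_apply]
    have h1 : g₀⁻¹ (g₀ (c₀ x)) = c₀ x := by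
      rw [← AlgEquiv.mul_apply, inv_mul_cancel, AlgEquiv.one_apply]
    rw [h1, hκ₀, hc₀.sq, hcx]
  have hc₂' : (c₂ : AbsGal K) = g₀ * κ₀ g₀ := by
    ext x
    rw [hc₂, AlgEquiv.mul_apply, hκ₀, hcx, hcx]
  refine ⟨c₀, κ₀, g₀, MonoidHom.mk' κ hκm, hc₀, hκ₀, ⟨GA.kap_kap hc₀ hκ₀, hcoe, ?_⟩, rfl, hc₂', ?_,
    hcx⟩
  · rw [← hc₂']
    exact c₂.2
  · have hne : ∃ x, c₀ x ≠ x := ⟨algebraMap K (AlgebraicClosure K) s, by
      rw [hc₀.neg]
      exact fun h => hs0 h.symm⟩
    have h1 := HP.cyQ_conj hc₀.sq hne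
    have h2 : cyQ c = cyQ (iK K g₀) * cyQ c₀ := by
      rw [hg₀]
      unfold HP.cyQ
      rw [map_mul, Units.val_mul]
    rw [h2, h1, HP.cyQ_emb, mul_neg, mul_one]

end Pool.Agent.Work.MP_787500_nt.UV
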